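import Pool.Agent.H160R2.ML.Stm
import Pool.Agent.H160R2.SA.Final

/-! Task B0: no legs, sharp ratios. -/

set_option autoImplicit false

namespace Pool.Agent.H160R2.ML

namespace TB0

open Finset MeasureTheory
open Pool.Agent.H160R2.OA Pool.Agent.H160R2.HL Pool.Agent.H160R2.NE Pool.Agent.H160R2.SA

theorem Dl_eq (N : ℕ) (ω : ℂ) (hω : ω ≠ 0) : Dl N 0 ω = ω ^ N * (wB N ω⁻¹).det := by
  have h : (Matrix.of fun i j : Fin N => (if i = j then (1 : ℂ) else 0)
      + ω * ((0 + i.val + j.val).choose j.val : ℂ)) = ω • wB N ω⁻¹ := by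
    ext i j
    simp only [wB, Matrix.of_apply, Matrix.add_apply, Matrix.smul_apply, Matrix.one_apply,
      Matrix.map_apply, Pool.Agent.H160R2.OA.B, smul_eq_mul, Complex.ofReal_natCast]
    have h1 : (0 + i.val + j.val).choose j.val = (i.val + j.val).choose i.val := by
      rw [zero_add, Nat.choose_symm_add]
    rw [h1, mul_add]
    congr 1
    split_ifs
    · rw [mul_one, mul_inv_cancel₀ hω]
    · simp
  unfold Dl
  rw [h, Matrix.det_smul, Fintype.card_fin]

theorem RR_eq (N : ℕ) (hN : 1 ≤ N) (θ : ℝ) :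
    RR N 0 θ = ‖(wB N (Complex.exp (θ * Complex.I))).det‖ := by
  unfold RR
  rw [Dl_eq N _ (Complex.exp_ne_zero _), norm_mul, norm_pow, Complex.norm_exp_ofReal_mul_I,
    one_pow, one_mul, ← Complex.exp_neg]
  have e : -((θ : ℂ) * Complex.I) = ((-θ : ℝ) : ℂ) * Complex.I := by push_cast; ring
  rw [e]
  obtain ⟨μ, hμ⟩ := det_wB N (by omega) (Z_herm N)
  have h1 := hμ.2.2.2 (-θ)
  have h2 := hμ.2.2.2 θ
  rw [Real.cos_neg, ← h2] at h1
  exact (sq_eq_sq₀ (norm_nonneg _) (norm_nonneg _)).1 h1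

theorem base : ∃ c C : ℝ, 0 < c ∧ 0 < C ∧ ∀ L : ℕ, 1 ≤ L →
    c * (L : ℝ) ^ (-(1 / 12) : ℝ) * RR L 0 0 ≤ RR L 0 (Real.pi / 3) ∧
    RR L 0 (Real.pi / 3) ≤ C * (L : ℝ) ^ (-(1 / 12) : ℝ) * RR L 0 0 := by
  have hπ := Real.pi_pos
  -- identification
  have hGW : (fun x : ℝ => Real.log ((2 * Real.cosh x + 1) / (2 * Real.cosh x + 2 * Real.cos 0))) =
      fun x => -WW 1 2 x := by
    funext x
    unfold WW
    rw [Real.cos_zero, mul_one, Real.log_div (X_pos (by norm_num) x).ne'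
      (X_pos (by norm_num) x).ne']
    ring
  have hcW : cal = WW (-1) 2 := by
    funext x
    rw [cal_eq]
    unfold WW
    rw [Real.log_div (X_pos (by norm_num) x).ne' (by have := X_pos (le_refl (-1 : ℝ)) x; linarith)]
    congr 2
  obtain ⟨hint, hval⟩ := integral_log 0 le_rfl hπ
  rw [hGW] at hint hval
  have hint' : Integrable (fun x => WW 1 2 x) := by
    have := hint.neg
    simpa using this
  have hval' : ∫ x, WW 1 2 x = Real.pi ^ 2 / 9 := by
    rw [integral_neg] at hval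
    linarith
  -- first bound
  obtain ⟨C1, hC1⟩ := sum_u (WW 1 2) (ww 1 2) (4 * (2 - 1))
    (X_cont 1 2 (by norm_num) (by norm_num))
    (fun x hx => X_nonneg (by norm_num) (by norm_num) hx)
    (fun x hx => X_le (by norm_num) (by norm_num) hx)
    (fun x => X_deriv (by norm_num) (by norm_num) x) (X_even 1 2) (X_lim (by norm_num) (by norm_num))
  rw [hval'] at hC1
  -- second bound
  obtain ⟨C2, hC2⟩ := sum_u (WW (-1) 1) (ww (-1) 1) (4 * (1 - -1))
    (X_cont (-1) 1 (by norm_num) (by norm_num))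
    (fun x hx => X_nonneg (by norm_num) (by norm_num) hx)
    (fun x hx => X_le (by norm_num) (by norm_num) hx)
    (fun x => X_deriv (by norm_num) (by norm_num) x) (X_even (-1) 1)
    (X_lim (by norm_num) (by norm_num))
  have hsplit : ∀ x, WW (-1) 2 x = WW (-1) 1 x + WW 1 2 x := by
    intro x; unfold WW; ring
  have hval2 : ∫ x, WW (-1) 1 x = Real.pi ^ 2 / 3 := by
    have h1 : ∫ x, WW (-1) 1 x = ∫ x, (WW (-1) 2 x - WW 1 2 x) := by
      congr 1
      funext x
      rw [hsplit]; ring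
    rw [h1, ← hcW, integral_sub cal_int hint', cal_integral, hval']
    ring
  rw [hval2] at hC2
  refine ⟨Real.exp (-(C2 / 2 + Real.log 2)), Real.exp (C1 / 2), Real.exp_pos _, Real.exp_pos _,
    fun L hL => ?_⟩
  have hLpos : (0 : ℝ) < L := by exact_mod_cast hL
  obtain ⟨μ, hμ⟩ := det_wB L (by omega) (Z_herm L)
  have k1 := hC1 L hL (Z_herm L) μ hμ
  have k2 := hC2 L hL (Z_herm L) μ hμ
  have k3 := cal_sum hL hμ
  have k4 := Z_sum_log hμ (θ := 0) le_rfl hπ
  have e1 : ∑ i, WW 1 2 (Real.log (μ i)) =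
      2 * Real.log ‖(wB L (Complex.exp ((0 : ℝ) * Complex.I))).det‖ -
      2 * Real.log ‖(wB L (Complex.exp ((Real.pi / 3 : ℝ) * Complex.I))).det‖ := by
    have h1 : ∑ i, WW 1 2 (Real.log (μ i)) = -∑ i, Real.log ((2 * Real.cosh (Real.log (μ i)) + 1) /
      (2 * Real.cosh (Real.log (μ i)) + 2 * Real.cos 0)) := by
      rw [← Finset.sum_neg_distrib]
      refine Finset.sum_congr rfl fun i _ => ?_
      have := congrFun hGW (Real.log (μ i))
      rw [this]
      ring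
    rw [h1, k4]
    ring
  have e2 : ∑ i, cal (Real.log (μ i)) =
      ∑ i, WW (-1) 1 (Real.log (μ i)) + ∑ i, WW 1 2 (Real.log (μ i)) := by
    rw [← Finset.sum_add_distrib, hcW]
    exact Finset.sum_congr rfl fun i _ => hsplit _
  have hp1 := (Z_log_det hμ (θ := 0) le_rfl hπ).1
  have hp2 := (Z_log_det hμ (θ := Real.pi / 3) (by positivity) (by linarith)).1
  rw [RR_eq L hL, RR_eq L hL]
  have c1 : 3 / (2 * Real.pi ^ 2) * (Real.pi ^ 2 / 9) = 1 / 6 := by field_simp; norm_num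
  have c2 : 3 / (2 * Real.pi ^ 2) * (Real.pi ^ 2 / 3) = 1 / 2 := by field_simp
  rw [c1] at k1
  rw [c2] at k2
  constructor
  · rw [← Real.log_le_log_iff (by positivity) hp2, Real.log_mul (by positivity) hp1.ne',
      Real.log_mul (by positivity) (by positivity), Real.log_exp, Real.log_rpow hLpos]
    linarith
  · rw [← Real.log_le_log_iff hp2 (by positivity), Real.log_mul (by positivity) hp1.ne',
      Real.log_mul (by positivity) (by positivity), Real.log_exp, Real.log_rpow hLpos]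
    linarith

theorem ex_val : ex (2 * Real.pi / 3) = 1 / 4 := by
  have hπ := Real.pi_pos
  unfold ex
  field_simp
  ring

end TB0

open Pool.Agent.H160R2.OA in
theorem t_B0 : S_B0 := by
  have hπ := Real.pi_pos
  obtain ⟨c, C, hc, hC, h⟩ := TB0.base
  obtain ⟨c', C', hc', hC', h'⟩ := Pool.Agent.H160R2.SA.det_sharp (2 * Real.pi / 3)
    (by linarith) le_rfl
  rw [TB0.ex_val] at h'
  refine ⟨min c (c' * c), max C (C' * C), by positivity, by positivity, fun N hN => ?_⟩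
  have hNpos : (0 : ℝ) < N := by exact_mod_cast hN
  obtain ⟨h1, h2⟩ := h N hN
  obtain ⟨h3, h4⟩ := h' N hN
  rw [← TB0.RR_eq N hN, ← TB0.RR_eq N hN] at h3 h4
  have hR : 0 ≤ RR N 0 0 := norm_nonneg _
  have p1 : 0 < (N : ℝ) ^ (-(1 / 12) : ℝ) := Real.rpow_pos_of_pos hNpos _
  have p2 : 0 < (N : ℝ) ^ (-(1 / 4) : ℝ) := Real.rpow_pos_of_pos hNpos _
  have p3 : 0 < (N : ℝ) ^ (-(1 / 3) : ℝ) := Real.rpow_pos_of_pos hNpos _
  have p4 : (N : ℝ) ^ (-(1 / 3) : ℝ) = (N : ℝ) ^ (-(1 / 4) : ℝ) * (N : ℝ) ^ (-(1 / 12) : ℝ) := by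
    rw [← Real.rpow_add hNpos]
    norm_num
  refine ⟨?_, ?_, ?_, ?_⟩
  · refine le_trans ?_ h1
    gcongr
    exact min_le_left _ _
  · refine le_trans h2 ?_
    gcongr
    exact le_max_left _ _
  · refine le_trans ?_ h3
    calc min c (c' * c) * (N : ℝ) ^ (-(1 / 3) : ℝ) * RR N 0 0
        ≤ (c' * c) * (N : ℝ) ^ (-(1 / 3) : ℝ) * RR N 0 0 := by
          gcongr
          exact min_le_right _ _
      _ = c' * (N : ℝ) ^ (-(1 / 4) : ℝ) * (c * (N : ℝ) ^ (-(1 / 12) : ℝ) * RR N 0 0) := by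
          rw [p4]; ring
      _ ≤ _ := by gcongr
  · refine le_trans h4 ?_
    calc C' * (N : ℝ) ^ (-(1 / 4) : ℝ) * RR N 0 (Real.pi / 3)
        ≤ C' * (N : ℝ) ^ (-(1 / 4) : ℝ) * (C * (N : ℝ) ^ (-(1 / 12) : ℝ) * RR N 0 0) := by gcongr
      _ = (C' * C) * (N : ℝ) ^ (-(1 / 3) : ℝ) * RR N 0 0 := by rw [p4]; ring
      _ ≤ _ := by
          gcongr
          exact le_max_right _ _

end Pool.Agent.H160R2.ML
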