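import Pool.Agent.H160R2.ML.Stm
import Pool.Agent.H863R2.Cyl.Val2
import Pool.Agent.H863R2.Cyl.GOnes

/-!
# Task BE: second ratios of `RR N 0 (π/3)`

`RR N 0 (π/3) * 3^(N(N-1)/2) * r^N = (Dval 1 N * Dval 2 N)^2` with `r^2 = 1/3`, from the explicit
form of the functional of weight one.
-/

set_option autoImplicit false

namespace Pool.Agent.H160R2.ML
open Pool.Agent.H863R2.Cyl
open Pool.Agent.H974R3 (aexp Dval)
open Pool.Agent.H974R3.Value (ee_pos ee_add2 Dval_succ Dval_pos aexp_even aexp_odd)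

namespace TBE

/-- one step of `Dval 1 * Dval 2` -/
noncomputable def en (N : ℕ) : ℝ := Pool.Agent.H974R3.Value.ee 1 N * Pool.Agent.H974R3.Value.ee 2 N

lemma en_pos (N : ℕ) : 0 < en N :=
  mul_pos (ee_pos 1 (by norm_num) (by norm_num) N) (ee_pos 2 (by norm_num) (by norm_num) N)

lemma en_even (L : ℕ) : en (2 * L + 2) = en (2 * L) *
    ((3 * (L : ℝ) + 3) ^ 2 * (3 * L + 2) * (3 * L + 1) / ((2 * L + 1) ^ 2 * (2 * L + 2) ^ 2)) := by
  unfold en
  rw [ee_add2 1 (2 * L) (by norm_num), ee_add2 2 (2 * L) (by norm_num), aexp_even, aexp_even]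
  push_cast
  have h1 : (2 * (L : ℝ) + 1) ≠ 0 := by positivity
  have h2 : (2 * (L : ℝ) + 2) ≠ 0 := by positivity
  field_simp
  ring

lemma en_odd (L : ℕ) : en (2 * L + 3) = en (2 * L + 1) *
    ((3 * (L : ℝ) + 3) ^ 2 * (3 * L + 4) * (3 * L + 5) / ((2 * L + 2) ^ 2 * (2 * L + 3) ^ 2)) := by
  unfold en
  rw [show 2 * L + 3 = 2 * L + 1 + 2 from rfl, ee_add2 1 (2 * L + 1) (by norm_num),
    ee_add2 2 (2 * L + 1) (by norm_num), aexp_odd, aexp_odd]
  push_cast
  have h1 : (2 * (L : ℝ) + 1 + 1) ≠ 0 := by positivity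
  have h2 : (2 * (L : ℝ) + 1 + 2) ≠ 0 := by positivity
  have h3 : (2 * (L : ℝ) + 2) ≠ 0 := by positivity
  have h4 : (2 * (L : ℝ) + 3) ≠ 0 := by positivity
  rw [show (2 * (L : ℝ) + 1 + 1) = 2 * L + 2 by ring, show (2 * (L : ℝ) + 1 + 2) = 2 * L + 3 by ring]
  field_simp
  ring

lemma en_zero : en 0 = 1 := by
  unfold en Pool.Agent.H974R3.Value.ee
  simp

lemma en_one : en 1 = 2 := by
  unfold en Pool.Agent.H974R3.Value.ee
  simp [aexp]

lemma en_p (L : ℕ) : en (2 * L + 1) =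
    ((3 * (L : ℝ) + 1) * (3 * L + 2) / (2 * L + 1) ^ 2) * en (2 * L) := by
  induction L with
  | zero => simp [en_zero, en_one]
  | succ L ih =>
    rw [show 2 * (L + 1) + 1 = 2 * L + 3 by ring, show 2 * (L + 1) = 2 * L + 2 by ring,
      en_odd, en_even, ih]
    push_cast
    have h1 : (2 * (L : ℝ) + 1) ≠ 0 := by positivity
    have h2 : (2 * (L : ℝ) + 2) ≠ 0 := by positivity
    have h3 : (2 * (L : ℝ) + 3) ≠ 0 := by positivity
    rw [show (2 * ((L : ℝ) + 1) + 1) = 2 * L + 3 by ring]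
    field_simp
    ring

lemma en_q (L : ℕ) : en (2 * L + 2) = (9 / 4) * en (2 * L + 1) := by
  rw [en_even, en_p]
  have h1 : (2 * (L : ℝ) + 1) ≠ 0 := by positivity
  have h2 : (2 * (L : ℝ) + 2) ≠ 0 := by positivity
  field_simp
  ring

/-- the ratio -/
lemma en_ratio (N : ℕ) : ∃ p : ℝ, 2 ≤ p ∧ p ≤ 9 / 4 ∧ en (N + 1) = p * en N := by
  rcases Nat.even_or_odd' N with ⟨L, rfl | rfl⟩
  · refine ⟨_, ?_, ?_, en_p L⟩
    · rw [le_div_iff₀ (by positivity)]
      have : (0 : ℝ) ≤ L := Nat.cast_nonneg L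
      nlinarith
    · rw [div_le_iff₀ (by positivity)]
      have : (0 : ℝ) ≤ L := Nat.cast_nonneg L
      nlinarith
  · exact ⟨9 / 4, by norm_num, le_rfl, en_q L⟩

/-- `e^{iπ/3}` -/
noncomputable def w : ℂ := Complex.exp (((Real.pi / 3 : ℝ) : ℂ) * Complex.I)

lemma w_eq : w ^ 2 - w + 1 = 0 := by
  have h : w = ⟨1 / 2, √3 / 2⟩ := by
    unfold w
    rw [Complex.exp_mul_I]
    apply Complex.ext
    · rw [← Complex.ofReal_cos, ← Complex.ofReal_sin]
      simp [Real.cos_pi_div_three]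
    · rw [← Complex.ofReal_cos, ← Complex.ofReal_sin]
      simp [Real.sin_pi_div_three]
  have h3 : (√3 : ℝ) ^ 2 = 3 := Real.sq_sqrt (by norm_num)
  rw [h]
  apply Complex.ext
  · simp [pow_two]
    nlinarith
  · simp [pow_two]
    ring

lemma w_norm : ‖w‖ = 1 := by
  unfold w
  rw [Complex.norm_exp_ofReal_mul_I]

/-- the value -/
theorem value (r : ℝ) (hr : r = ‖(w - 1) / (1 - (w - 1) ^ 2)‖) (N : ℕ) :
    RR N 0 (Real.pi / 3) * (3 ^ (N * (N - 1) / 2) * r ^ N) = (Dval 1 N * Dval 2 N) ^ 2 := by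
  have hw2 := w_eq
  have hwn := w_norm
  have hw0 : w ≠ 0 := by
    intro h
    rw [h, norm_zero] at hwn
    norm_num at hwn
  have hw1 : w ≠ -1 := by
    intro h
    rw [h] at hw2
    norm_num at hw2
  have hwi : w + w⁻¹ = 1 := by
    field_simp
    linear_combination hw2
  set q : ℂ := w - 1 with hqd
  have hq : q ^ 2 + q + 1 = 0 := by
    rw [hqd]
    linear_combination hw2
  obtain ⟨G, hG, hG1⟩ := gspec_plus q hq
  have hG' : GSpec q (w + w⁻¹) G := by
    rw [hwi]; exact hG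
  have hcn : ‖cN q w N‖ = 1 := by
    have h1 : (q ^ 2 - q) / (1 + w) = -w := by
      have h2 : 1 + w ≠ 0 := by
        intro h
        exact hw1 (by linear_combination h)
      rw [div_eq_iff h2, hqd]
      linear_combination 2 * hw2
    unfold cN
    rw [h1, norm_mul, norm_pow, norm_neg, norm_inv, hwn, inv_one, one_pow, one_mul]
    split_ifs
    · exact norm_one
    · rw [norm_neg, hwn]
  have hc0 : cN q w N ≠ 0 := by
    intro h
    rw [h, norm_zero] at hcn
    norm_num at hcn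
  have hcont := GOnesAux.continuous_of_PD (hG.deg N)
  have hlim := hom_limit (w := w) hq (fun z : Fin N → ℂ => (cN q w N)⁻¹ * G (List.ofFn z))
    (continuous_const.mul hcont) (by
      intro z hz
      have h1 := G_formula hq hw0 hw1 hG' N z hz
      calc (cN q w N)⁻¹ * G (List.ofFn z) * vd z = (cN q w N)⁻¹ * (G (List.ofFn z) * vd z) := by ring
        _ = (cN q w N)⁻¹ * (cN q w N * (wd q z * (∏ i, z i) * (kern q w z).det)) := by rw [h1]
        _ = _ := by rw [← mul_assoc, inv_mul_cancel₀ hc0, one_mul])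
  have h2 : List.ofFn (fun _ : Fin N => (1 : ℂ)) = List.replicate N 1 := by
    rw [List.ofFn_const]
  simp only [h2] at hlim
  have hD : (Matrix.of fun i j : Fin N => (if i = j then 1 else 0)
      + w * ((i.val + j.val).choose i.val : ℂ)).det = Dl N 0 w := by
    unfold Dl
    congr 1
    ext i j
    simp only [Matrix.of_apply]
    congr 3
    rw [Nat.zero_add, Nat.choose_symm_add]
  rw [hD, hG1 N] at hlim
  have hnorm := congrArg (fun x : ℂ => ‖x‖) hlim
  simp only [norm_mul, norm_pow, norm_inv, hcn, inv_one, one_mul, Complex.norm_real,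
    Real.norm_eq_abs, Complex.norm_ofNat] at hnorm
  have hpos : 0 < Dval 1 N * Dval 2 N :=
    mul_pos (Dval_pos 1 (by norm_num) (by norm_num) N) (Dval_pos 2 (by norm_num) (by norm_num) N)
  rw [← hr] at hnorm
  have hRR : RR N 0 (Real.pi / 3) = ‖Dl N 0 w‖ := rfl
  rw [hRR]
  have h9 : |Dval 1 N| * |Dval 2 N| = Dval 1 N * Dval 2 N := by
    rw [← abs_mul, abs_of_pos hpos]
  rw [h9] at hnorm
  rw [hnorm]
  ring

end TBE

open TBE in
theorem t_BE : S_BE := by
  set r : ℝ := ‖(w - 1) / (1 - (w - 1) ^ 2)‖ with hr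
  have hval := value r hr
  have hr2 : r ^ 2 = 1 / 3 := by
    have hq : (w - 1) ^ 2 + (w - 1) + 1 = 0 := by
      linear_combination w_eq
    have h := congrArg (fun x : ℂ => ‖x‖) (GOnesAux.qq hq)
    simp only [norm_pow] at h
    rw [hr, h]
    norm_num
  have hr0 : 0 < r := by
    have h0 : 0 ≤ r := norm_nonneg _
    rcases h0.lt_or_eq with h | h
    · exact h
    · rw [← h] at hr2
      norm_num at hr2
  have key : ∀ N : ℕ, ∃ p : ℝ, 2 ≤ p ∧ p ≤ 9 / 4 ∧
      RR (N + 2) 0 (Real.pi / 3) * RR N 0 (Real.pi / 3) =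
        (p ^ 2 / 3) * RR (N + 1) 0 (Real.pi / 3) ^ 2 := by
    intro N
    obtain ⟨p, hp1, hp2, hp⟩ := en_ratio N
    refine ⟨p, hp1, hp2, ?_⟩
    have v0 := hval N
    have v1 := hval (N + 1)
    have v2 := hval (N + 2)
    have hd1 : Dval 1 (N + 1) * Dval 2 (N + 1) = Dval 1 N * Dval 2 N * en N := by
      rw [Dval_succ, Dval_succ]
      unfold en
      ring
    have hd2 : Dval 1 (N + 2) * Dval 2 (N + 2) = Dval 1 N * Dval 2 N * en N * (p * en N) := by
      rw [← hp, ← hd1, show N + 2 = N + 1 + 1 from rfl, Dval_succ 1 (N + 1), Dval_succ 2 (N + 1)]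
      unfold en
      ring
    have e1 : (N + 1) * (N + 1 - 1) / 2 = N * (N - 1) / 2 + N := by
      rw [Nat.add_sub_cancel]
      rcases N with _ | M
      · simp
      · have : (M + 1 + 1) * (M + 1) = (M + 1) * (M + 1 - 1) + (M + 1) * 2 := by
          rw [Nat.add_sub_cancel]; ring
        rw [this, Nat.add_mul_div_right _ _ (by norm_num)]
    have e2 : (N + 2) * (N + 2 - 1) / 2 = N * (N - 1) / 2 + N + (N + 1) := by
      rw [← e1, show N + 2 - 1 = N + 1 by omega, Nat.add_sub_cancel]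
      have : (N + 2) * (N + 1) = (N + 1) * N + (N + 1) * 2 := by ring
      rw [this, Nat.add_mul_div_right _ _ (by norm_num)]
    rw [hd1, e1] at v1
    rw [hd2, e2] at v2
    set R0 := RR N 0 (Real.pi / 3)
    set R1 := RR (N + 1) 0 (Real.pi / 3)
    set R2 := RR (N + 2) 0 (Real.pi / 3)
    set D := Dval 1 N * Dval 2 N
    set a := N * (N - 1) / 2
    have hT : (0 : ℝ) < 3 ^ a := by positivity
    have hE : (0 : ℝ) < 3 ^ N := by positivity
    have hrN : 0 < r ^ N := by positivity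
    simp only [pow_add, pow_one] at v1 v2
    -- multiply
    have hK : (0 : ℝ) < (3 ^ a * 3 ^ N * (3 ^ N * 3)) * 3 ^ a * (r ^ N * r ^ N * r ^ 2) := by
      positivity
    apply mul_left_cancel₀ hK.ne'
    have l1 : (3 ^ a * 3 ^ N * (3 ^ N * 3)) * 3 ^ a * (r ^ N * r ^ N * r ^ 2) * (R2 * R0) =
        (R2 * (3 ^ a * 3 ^ N * (3 ^ N * 3) * (r ^ N * r ^ 2))) * (R0 * (3 ^ a * r ^ N)) := by
      ring
    have l2 : (3 ^ a * 3 ^ N * (3 ^ N * 3)) * 3 ^ a * (r ^ N * r ^ N * r ^ 2) *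
        (p ^ 2 / 3 * R1 ^ 2) = p ^ 2 * (R1 * (3 ^ a * 3 ^ N * (r ^ N * r))) ^ 2 := by
      ring
    rw [l1, l2, v1, v2, v0]
    ring
  refine ⟨4 / 3, 27 / 16, by norm_num, by norm_num, fun N => ?_⟩
  obtain ⟨p, hp1, hp2, hp⟩ := key N
  have hs : 0 ≤ RR (N + 1) 0 (Real.pi / 3) ^ 2 := sq_nonneg _
  constructor
  · rw [hp]
    apply mul_le_mul_of_nonneg_right _ hs
    nlinarith
  · rw [hp]
    apply mul_le_mul_of_nonneg_right _ hs
    nlinarith

end Pool.Agent.H160R2.ML
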