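import Pool.Agent.H160R2.ML.Stm

/-! Task C1: bulk versus words. -/

set_option autoImplicit false

namespace Pool.Agent.H160R2.ML
open Pool.Agent.H863R2.Cyl
open Pool.Agent.H988R2.Perc (Word PD)
open H974 H906.Cyl

namespace TC1

/-- the links of the two halves -/
def LL (n M : ℕ) (F : Finset Edg) (τ σ : Wd (2 * n - 1 + 1)) (β : Bool) : ℤ × ℕ → ℤ × ℕ → Prop :=
  if β then Lk (2 * n - 1) (up n M F) M τ.1 else Lk (2 * n - 1) (dn n M F) M σ.1

/-- anchors -/
def A (n M : ℕ) (F : Finset Edg) (τ σ : Wd (2 * n - 1 + 1)) (x : (ℤ × ℕ) × Bool) (a : ℤ × Bool) :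
    Prop := a.2 = x.2 ∧ Relation.EqvGen (LL n M F τ σ x.2) x.1 (a.1, M)

theorem Cn_of_LL {n : ℕ} (hn : 1 ≤ n) (M k : ℕ) (F : Finset Edg) (τ σ : Wd (2 * n - 1 + 1))
    (β : Bool) (a b : ℤ) (h : Relation.EqvGen (LL n M F τ σ β) (a, M) (b, M)) :
    Cn k k (wup n M F τ) (wdn n M F σ) (a, β) (b, β) := by
  have hm : 1 ≤ 2 * n - 1 := by omega
  cases β with
  | false =>
    have h' : Relation.EqvGen (Lk (2 * n - 1) (dn n M F) M σ.1) (a, M) (b, M) := h
    exact Relation.EqvGen.rel _ _ (Lg.low a b ((Rw_rows _ hm _ _ _ _ _).2 h'))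
  | true =>
    have h' : Relation.EqvGen (Lk (2 * n - 1) (up n M F) M τ.1) (a, M) (b, M) := h
    exact Relation.EqvGen.rel _ _ (Lg.upp a b ((Rw_rows _ hm _ _ _ _ _).2 h'))

theorem mapB {n M k : ℕ} {F : Finset Edg} {τ σ : Wd (2 * n - 1 + 1)} (β : Bool)
    {p q : ℤ × ℕ} (h : Relation.EqvGen (LL n M F τ σ β) p q) :
    Relation.EqvGen (Bg n M k F τ.1 σ.1) (p, β) (q, β) := by
  induction h with
  | rel x y h =>
    cases β with
    | false => exact Relation.EqvGen.rel _ _ (Bg.low x y h)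
    | true => exact Relation.EqvGen.rel _ _ (Bg.upp x y h)
  | refl x => exact Relation.EqvGen.refl _
  | symm x y _ h => exact Relation.EqvGen.symm _ _ h
  | trans x y z _ _ h1 h2 => exact Relation.EqvGen.trans _ _ _ h1 h2

theorem len_dn {n : ℕ} (hn : 1 ≤ n) (M : ℕ) (F : Finset Edg) (σ : Wd (2 * n - 1 + 1)) :
    (wdn n M F σ).length = 2 * n := by
  have h := (rows (2 * n - 1) (dn n M F) M σ).2
  unfold wdn
  have := h.1
  omega

theorem len_up {n : ℕ} (hn : 1 ≤ n) (M : ℕ) (F : Finset Edg) (σ : Wd (2 * n - 1 + 1)) :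
    (wup n M F σ).length = 2 * n := by
  have h := (rows (2 * n - 1) (up n M F) M σ).2
  unfold wup
  have := h.1
  omega

theorem key {n : ℕ} (hn : 1 ≤ n) (M k : ℕ) (F : Finset Edg) (τ σ : Wd (2 * n - 1 + 1))
    (x y : (ℤ × ℕ) × Bool) (h : Relation.EqvGen (Bg n M k F τ.1 σ.1) x y) :
    (x.2 = y.2 ∧ Relation.EqvGen (LL n M F τ σ x.2) x.1 y.1) ∨
    ∃ a b, A n M F τ σ x a ∧ A n M F τ σ y b ∧ Cn k k (wup n M F τ) (wdn n M F σ) a b := by
  induction h with
  | rel x y h =>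
    cases h with
    | low p q h => exact Or.inl ⟨rfl, Relation.EqvGen.rel _ _ h⟩
    | upp p q h => exact Or.inl ⟨rfl, Relation.EqvGen.rel _ _ h⟩
    | glue s i hi =>
      refine Or.inr ⟨(s * (2 * n : ℕ) + k + i, false), (s * (2 * n : ℕ) + k + i, true),
        ⟨rfl, Relation.EqvGen.refl _⟩, ⟨rfl, Relation.EqvGen.refl _⟩, ?_⟩
      have h1 := Lg.glue (p := k) (r := k) (w' := wup n M F τ) (w := wdn n M F σ) s i
        (by rw [len_dn hn]; exact hi)
      rw [len_dn hn, len_up hn] at h1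
      exact Relation.EqvGen.rel _ _ h1
  | refl x => exact Or.inl ⟨rfl, Relation.EqvGen.refl _⟩
  | symm x y _ h =>
    rcases h with ⟨h1, h2⟩ | ⟨a, b, h1, h2, h3⟩
    · refine Or.inl ⟨h1.symm, ?_⟩
      rw [← h1]
      exact Relation.EqvGen.symm _ _ h2
    · exact Or.inr ⟨b, a, h2, h1, Relation.EqvGen.symm _ _ h3⟩
  | trans x y z _ _ h1 h2 =>
    rcases h1 with ⟨h11, h12⟩ | ⟨a, b, h11, h12, h13⟩
    · rcases h2 with ⟨h21, h22⟩ | ⟨c, d, h21, h22, h23⟩
      · refine Or.inl ⟨h11.trans h21, Relation.EqvGen.trans _ _ _ h12 ?_⟩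
        rw [h11]
        exact h22
      · refine Or.inr ⟨c, d, ⟨h21.1.trans h11.symm, ?_⟩, h22, h23⟩
        have h3 := h21.2
        rw [← h11] at h3
        exact Relation.EqvGen.trans _ _ _ h12 h3
    · rcases h2 with ⟨h21, h22⟩ | ⟨c, d, h21, h22, h23⟩
      · refine Or.inr ⟨a, b, h11, ⟨h12.1.trans h21, ?_⟩, h13⟩
        rw [← h21]
        exact Relation.EqvGen.trans _ _ _ (Relation.EqvGen.symm _ _ h22) h12.2
      · refine Or.inr ⟨a, d, h11, h22, Relation.EqvGen.trans _ _ _ h13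
          (Relation.EqvGen.trans _ _ _ ?_ h23)⟩
        have h3 := Cn_of_LL hn M k F τ σ y.2 b.1 c.1
          (Relation.EqvGen.trans _ _ _ (Relation.EqvGen.symm _ _ h12.2) h21.2)
        have e1 : b = (b.1, y.2) := Prod.ext rfl h12.1
        have e2 : c = (c.1, y.2) := Prod.ext rfl h21.1
        rw [e1, e2]
        exact h3

theorem back {n : ℕ} (hn : 1 ≤ n) (M k : ℕ) (F : Finset Edg) (τ σ : Wd (2 * n - 1 + 1))
    (x y : ℤ × Bool) (h : Cn k k (wup n M F τ) (wdn n M F σ) x y) :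
    Relation.EqvGen (Bg n M k F τ.1 σ.1) (lev M x) (lev M y) := by
  have hm : 1 ≤ 2 * n - 1 := by omega
  induction h with
  | rel x y h =>
    cases h with
    | low a b h =>
      have h1 := (Rw_rows _ hm _ _ _ _ _).1 h
      exact mapB (τ := τ) (σ := σ) (F := F) false h1
    | upp a b h =>
      have h1 := (Rw_rows _ hm _ _ _ _ _).1 h
      exact mapB (τ := τ) (σ := σ) (F := F) true h1
    | glue s i hi =>
      rw [len_dn hn] at hi ⊢
      rw [len_up hn]
      exact Relation.EqvGen.rel _ _ (Bg.glue s i hi)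
  | refl x => exact Relation.EqvGen.refl _
  | symm x y _ h => exact Relation.EqvGen.symm _ _ h
  | trans x y z _ _ h1 h2 => exact Relation.EqvGen.trans _ _ _ h1 h2

end TC1

open TC1 in
theorem t_C1 : S_C1 := by
  intro n M k hn hk F σ τ x y
  constructor
  · intro h
    rcases key hn M k F τ σ _ _ h with ⟨h1, h2⟩ | ⟨a, b, h1, h2, h3⟩
    · have h4 := Cn_of_LL hn M k F τ σ x.2 x.1 y.1 h2
      have e : y = (y.1, x.2) := Prod.ext rfl h1.symm
      rw [e]
      exact h4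
    · have h4 := Cn_of_LL hn M k F τ σ x.2 x.1 a.1 h1.2
      have h5 := Cn_of_LL hn M k F τ σ y.2 y.1 b.1 h2.2
      have e1 : a = (a.1, x.2) := Prod.ext rfl h1.1
      have e2 : b = (b.1, y.2) := Prod.ext rfl h2.1
      rw [e1, e2] at h3
      exact Relation.EqvGen.trans _ _ _ h4
        (Relation.EqvGen.trans _ _ _ h3 (Relation.EqvGen.symm _ _ h5))
  · exact back hn M k F τ σ x y

end Pool.Agent.H160R2.ML
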