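import Pool.Agent.H160R2.ML.Stm

/-!
# C2: a sector connected to another sheet crosses the annulus
-/

set_option autoImplicit false

namespace Pool.Agent.H160R2.ML
open Pool.Agent.H863R2.Cyl
open Pool.Agent.H988R2.Perc (Word PD)
open H974 H906.Cyl

namespace TC2

theorem sg_odd (w : Word) (i : ℤ) : (2 : ℤ) ∣ sg w i - 1 := by
  unfold sg
  split_ifs
  · exact ⟨0, by ring⟩
  · exact ⟨-1, by ring⟩

theorem Rle_even {w : Word} {a b : ℤ} (h : Rle w a b) : (a - b) % 2 = 0 := by
  obtain ⟨h1, -, h2⟩ := h
  unfold Sh at h2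
  have h3 : (2 : ℤ) ∣ ∑ i ∈ Finset.Ico a b, (sg w i - 1) :=
    Finset.dvd_sum fun i _ => sg_odd w i
  rw [Finset.sum_sub_distrib, h2, Finset.sum_const, Int.card_Ico] at h3
  simp only [nsmul_eq_mul, mul_one] at h3
  omega

theorem Rw_even {w : Word} {a b : ℤ} (h : Rw w a b) : (a - b) % 2 = 0 := by
  rcases h with h | h
  · exact Rle_even h
  · have := Rle_even h
    omega

theorem nm_le_iff (v : Vtx) (c : ℤ) : nm v ≤ c ↔
    (v.1 ≤ c ∧ -v.1 ≤ c) ∧ (v.2 ≤ c ∧ -v.2 ≤ c) := by
  unfold nm
  rw [max_le_iff, abs_le', abs_le']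

theorem le_nm_iff (v : Vtx) (c : ℤ) : c ≤ nm v ↔
    (c ≤ v.1 ∨ c ≤ -v.1) ∨ (c ≤ v.2 ∨ c ≤ -v.2) := by
  unfold nm
  rw [le_max_iff, le_abs, le_abs]

theorem adj_nm {G : Set Edg} {u v : Vtx} (h : Adj G u v) : nm v ≤ nm u + 1 := by
  obtain ⟨⟨x, y, b⟩, -, h⟩ := h
  have h1 := (nm_le_iff u (nm u)).1 le_rfl
  rw [nm_le_iff]
  cases b
  · simp only [src_mk, tgt_false] at h
    rcases h with ⟨h2, h3⟩ | ⟨h2, h3⟩
    · subst h2
      subst h3
      simp only at h1 ⊢
      omega
    · subst h2
      subst h3
      simp only at h1 ⊢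
      omega
  · simp only [src_mk, tgt_true] at h
    rcases h with ⟨h2, h3⟩ | ⟨h2, h3⟩
    · subst h2
      subst h3
      simp only at h1 ⊢
      omega
    · subst h2
      subst h3
      simp only at h1 ⊢
      omega

theorem adj_ann {G : Set Edg} {u v : Vtx} {a b : ℤ} (h : Adj G u v) (h1 : a ≤ nm u)
    (h2 : nm u ≤ b) (h3 : a ≤ nm v) (h4 : nm v ≤ b) : Adj (G ∩ annE a b) u v := by
  obtain ⟨e, he, h⟩ := h
  refine ⟨e, ⟨he, ?_⟩, h⟩
  rcases h with ⟨h5, h6⟩ | ⟨h5, h6⟩
  · show (a ≤ nm (src e) ∧ nm (src e) ≤ b) ∧ (a ≤ nm (tgt e) ∧ nm (tgt e) ≤ b)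
    rw [h5, h6]
    exact ⟨⟨h1, h2⟩, h3, h4⟩
  · show (a ≤ nm (src e) ∧ nm (src e) ≤ b) ∧ (a ≤ nm (tgt e) ∧ nm (tgt e) ≤ b)
    rw [h5, h6]
    exact ⟨⟨h3, h4⟩, h1, h2⟩

theorem bot_nm {M m : ℕ} (hM : 2 * m ≤ M) (a : ℤ) (r : ℕ) (hr : r = 0 ∨ r = 2 * M)
    (hp : (a + ((0 : ℕ) - (M : ℤ))) % 2 = 0) : (m : ℤ) ≤ nm (pv M a r) := by
  rw [le_nm_iff]
  unfold pv
  simp only
  rcases hr with hr | hr
  · subst hr
    push_cast at hp ⊢
    omega
  · subst hr
    push_cast at hp ⊢
    omega

theorem step {n M k m : ℕ} (hn : 0 < n) (hM : 2 * m ≤ M) {F : Finset Edg} {τ σ : Word}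
    {z z' : (ℤ × ℕ) × Bool} (h : Bg n M k F τ σ z z') :
    (z.1.2 ≤ M ∧ z'.1.2 ≤ M) ∧ (Prm M z ↔ Prm M z') ∧
      (Prm M z → vx M z = vx M z' ∨ Adj (per n F) (vx M z) (vx M z') ∨
        ((m : ℤ) ≤ nm (vx M z) ∧ (m : ℤ) ≤ nm (vx M z'))) := by
  cases h with
  | low x y h =>
    cases h with
    | bot a b h =>
      have he := Rw_even h
      refine ⟨⟨Nat.zero_le _, Nat.zero_le _⟩, ?_, ?_⟩
      · unfold Prm
        simp only
        push_cast
        omega
      · intro hp
        unfold Prm at hp
        simp only at hp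
        right
        right
        refine ⟨bot_nm hM a 0 (Or.inl rfl) hp, bot_nm hM b 0 (Or.inl rfl) ?_⟩
        push_cast at hp ⊢
        omega
    | link0 j t ht hc =>
      refine ⟨⟨by show t ≤ M; omega, by show t + 1 ≤ M; omega⟩, ?_, ?_⟩
      · unfold Prm
        simp only
        push_cast
        omega
      · intro hp
        unfold Prm at hp
        simp only at hp
        right
        left
        unfold dn at hc
        rw [cl_false_iff hn, if_pos hp] at hc
        exact adj_even hp hc
    | link1 j t ht hc =>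
      refine ⟨⟨by show t ≤ M; omega, by show t + 1 ≤ M; omega⟩, ?_, ?_⟩
      · unfold Prm
        simp only
        push_cast
        omega
      · intro hp
        unfold Prm at hp
        simp only at hp
        right
        left
        unfold dn at hc
        have hp' : ¬ (j + ((t : ℤ) - M)) % 2 = 0 := by omega
        rw [cl_pst hn, if_neg hp'] at hc
        exact (adj_odd hp' hc).symm
  | upp x y h =>
    cases h with
    | bot a b h =>
      have he := Rw_even h
      refine ⟨⟨Nat.zero_le _, Nat.zero_le _⟩, ?_, ?_⟩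
      · unfold Prm
        simp only
        push_cast
        omega
      · intro hp
        unfold Prm at hp
        simp only at hp
        right
        right
        refine ⟨bot_nm hM a (2 * M - 0) (Or.inr rfl) hp, bot_nm hM b (2 * M - 0) (Or.inr rfl) ?_⟩
        push_cast at hp ⊢
        omega
    | link0 j t ht hc =>
      refine ⟨⟨by show t ≤ M; omega, by show t + 1 ≤ M; omega⟩, ?_, ?_⟩
      · unfold Prm
        simp only
        push_cast
        omega
      · intro hp
        unfold Prm at hp
        simp only at hp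
        right
        left
        have hc' : Pool.Agent.H863R2.Cyl.cl (pst n M F (2 * M - 1 - t)) j = true := by
          unfold Pool.Agent.H863R2.Cyl.cl up at hc
          unfold Pool.Agent.H863R2.Cyl.cl
          simpa using hc
        have hr : ((2 * M - 1 - t : ℕ) : ℤ) = 2 * M - 1 - t := by omega
        have hp' : ¬ (j + (((2 * M - 1 - t : ℕ) : ℤ) - M)) % 2 = 0 := by omega
        rw [cl_pst hn, if_neg hp'] at hc'
        have := adj_odd hp' hc'
        show Adj (per n F) (pv M j (2 * M - t)) (pv M (j + 1) (2 * M - (t + 1)))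
        rw [show 2 * M - t = 2 * M - 1 - t + 1 by omega,
          show 2 * M - (t + 1) = 2 * M - 1 - t by omega]
        exact this
    | link1 j t ht hc =>
      refine ⟨⟨by show t ≤ M; omega, by show t + 1 ≤ M; omega⟩, ?_, ?_⟩
      · unfold Prm
        simp only
        push_cast
        omega
      · intro hp
        unfold Prm at hp
        simp only at hp
        right
        left
        have hc' : Pool.Agent.H863R2.Cyl.cl (pst n M F (2 * M - 1 - t)) j = false := by
          unfold Pool.Agent.H863R2.Cyl.cl up at hc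
          unfold Pool.Agent.H863R2.Cyl.cl
          simpa using hc
        have hr : ((2 * M - 1 - t : ℕ) : ℤ) = 2 * M - 1 - t := by omega
        have hp' : (j + (((2 * M - 1 - t : ℕ) : ℤ) - M)) % 2 = 0 := by omega
        rw [cl_false_iff hn, if_pos hp'] at hc'
        have := (adj_even hp' hc').symm
        show Adj (per n F) (pv M (j + 1) (2 * M - t)) (pv M j (2 * M - (t + 1)))
        rw [show 2 * M - t = 2 * M - 1 - t + 1 by omega,
          show 2 * M - (t + 1) = 2 * M - 1 - t by omega]
        exact this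
  | glue s i hi =>
    refine ⟨⟨le_refl _, le_refl _⟩, Iff.rfl, fun _ => Or.inl ?_⟩
    unfold vx
    simp only [Bool.false_eq_true, if_false, if_true]
    rw [show 2 * M - M = M by omega]

/-- the symmetrized relation -/
theorem toRTG {α : Type*} {r : α → α → Prop} {a b : α} (h : Relation.EqvGen r a b) :
    Relation.ReflTransGen (fun x y => r x y ∨ r y x) a b := by
  induction h with
  | rel x y h => exact Relation.ReflTransGen.single (Or.inl h)
  | refl x => exact Relation.ReflTransGen.refl
  | symm x y _ ih =>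
    clear * - ih
    induction ih with
    | refl => exact Relation.ReflTransGen.refl
    | tail _ hs ih => exact Relation.ReflTransGen.head hs.symm ih
  | trans x y z _ _ ih1 ih2 => exact ih1.trans ih2

end TC2

open TC2 in
theorem t_C2 : S_C2 := by
  intro n M k m hk hkm hmn hM F σ τ x y hx0 hxk hx2 hy hxy
  have hn : 0 < n := by omega
  set R := Bg n M k F τ.1 σ.1 with hR
  -- the three states
  have key : ∀ z, Relation.ReflTransGen (fun x y => R x y ∨ R y x) (lev M x) z →
      Relation.EqvGen R (lev M x) z ∧ z.1.2 ≤ M ∧ Prm M z ∧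
      (nm (vx M z) < k ∨
      (((k : ℤ) ≤ nm (vx M z) ∧ nm (vx M z) ≤ m) ∧ ∃ x' : (ℤ × ℕ) × Bool, x'.1.2 ≤ M ∧
        Prm M x' ∧ nm (vx M x') = k ∧ Relation.EqvGen R (lev M x) x' ∧
        Reach (per n F ∩ annE k m) (vx M x') (vx M z)) ∨
      (∃ x' : (ℤ × ℕ) × Bool, x'.1.2 ≤ M ∧ Prm M x' ∧ nm (vx M x') = k ∧
        Relation.EqvGen R (lev M x) x' ∧
        ∃ v, nm v = m ∧ Reach (per n F ∩ annE k m) (vx M x') v)) := by
    intro z hz
    induction hz with
    | refl =>
      refine ⟨Relation.EqvGen.refl _, le_refl _, ?_, Or.inl ?_⟩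
      · unfold Prm lev
        simp only
        omega
      · have h1 : vx M (lev M x) = (x.1 / 2, x.1 / 2) := by
          unfold vx lev pv
          obtain ⟨x1, x2⟩ := x
          cases x2
          · simp
          · simp only [if_true]
            rw [show 2 * M - M = M by omega]
            simp
        rw [h1]
        by_contra h2
        rw [not_lt, le_nm_iff] at h2
        simp only at h2
        omega
    | @tail z z' _ hs ih =>
      obtain ⟨ih1, ih2, ih3, ih4⟩ := ih
      have hzz : Relation.EqvGen R z z' := by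
        rcases hs with hs | hs
        · exact Relation.EqvGen.rel _ _ hs
        · exact (Relation.EqvGen.rel _ _ hs).symm
      have hst : z'.1.2 ≤ M ∧ Prm M z' ∧ (vx M z = vx M z' ∨
          Adj (per n F) (vx M z) (vx M z') ∨
          ((m : ℤ) ≤ nm (vx M z) ∧ (m : ℤ) ≤ nm (vx M z'))) := by
        rcases hs with hs | hs
        · obtain ⟨⟨-, h1⟩, h2, h3⟩ := step hn hM hs
          exact ⟨h1, h2.1 ih3, h3 ih3⟩
        · obtain ⟨⟨h1, -⟩, h2, h3⟩ := step hn hM hs
          refine ⟨h1, h2.2 ih3, ?_⟩
          rcases h3 (h2.2 ih3) with h4 | h4 | h4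
          · exact Or.inl h4.symm
          · exact Or.inr (Or.inl h4.symm)
          · exact Or.inr (Or.inr h4.symm)
      obtain ⟨hz1, hz2, hz3⟩ := hst
      refine ⟨ih1.trans _ _ _ hzz, hz1, hz2, ?_⟩
      rcases ih4 with hA | ⟨⟨hB1, hB2⟩, hB3⟩ | hC
      · rcases hz3 with h4 | h4 | h4
        · left
          rw [← h4]
          exact hA
        · have h5 := adj_nm h4
          by_cases h6 : nm (vx M z') < k
          · exact Or.inl h6
          · right
            left
            have h7 : nm (vx M z') = k := by omega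
            exact ⟨⟨by omega, by omega⟩, z', hz1, hz2, h7, ih1.trans _ _ _ hzz,
              Reach.refl _ _⟩
        · exfalso
          omega
      · by_cases hm : nm (vx M z) = m
        · right
          right
          obtain ⟨x', h1, h2, h3, h4, h5⟩ := hB3
          exact ⟨x', h1, h2, h3, h4, _, hm, h5⟩
        · rcases hz3 with h4 | h4 | h4
          · right
            left
            rw [← h4]
            exact ⟨⟨hB1, hB2⟩, hB3⟩
          · have h5 := adj_nm h4
            by_cases h6 : nm (vx M z') < k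
            · exact Or.inl h6
            · right
              left
              obtain ⟨x', h1, h2, h3, h7, h8⟩ := hB3
              exact ⟨⟨by omega, by omega⟩, x', h1, h2, h3, h7,
                h8.trans (adj_ann h4 hB1 hB2 (by omega) (by omega)).reach⟩
          · exfalso
            omega
      · exact Or.inr (Or.inr hC)
  obtain ⟨-, -, h3, h4⟩ := key _ (toRTG hxy)
  have h1 : vx M (lev M y) = (y.1 / 2, y.1 / 2) := by
    unfold vx lev pv
    obtain ⟨y1, y2⟩ := y
    cases y2
    · simp
    · simp only [if_true]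
      rw [show 2 * M - M = M by omega]
      simp
  have h5 : (m : ℤ) ≤ nm (vx M (lev M y)) := by
    rw [h1, le_nm_iff]
    simp only
    obtain ⟨s, hs, h6, h7⟩ := hy
    rcases lt_or_gt_of_ne hs with h8 | h8
    · have h9 : s * (2 * n : ℕ) ≤ -1 * (2 * n : ℕ) :=
        mul_le_mul_of_nonneg_right (by omega) (by positivity)
      push_cast at h6 h7 h9
      omega
    · have h9 : 1 * ((2 * n : ℕ) : ℤ) ≤ s * (2 * n : ℕ) :=
        mul_le_mul_of_nonneg_right (by omega) (by positivity)
      push_cast at h6 h7 h9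
      omega
  rcases h4 with hA | ⟨⟨hB1, hB2⟩, x', h11, h2, h33, h44, h55⟩ | hC
  · exfalso
    omega
  · exact ⟨x', h11, h2, h33, h44, _, by omega, h55⟩
  · exact hC

end Pool.Agent.H160R2.ML
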