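import Pool.Agent.H160R2.ML.Stm
import Pool.Agent.H906R2.Arm.Link

/-!
# Connections of the annulus are connections of the cut cylinder
-/

set_option autoImplicit false

namespace Pool.Agent.H160R2.ML
open Pool.Agent.H863R2.Cyl
open Pool.Agent.H988R2.Perc (Word PD)
open H974 H906.Cyl

namespace TC3

/-- the lower face over a vertex -/
def lo (M : ℕ) (v : Vtx) : (ℤ × ℕ) × Bool := ((v.1 + v.2, (v.1 - v.2 + M).toNat), false)

/-- the upper face over a vertex -/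
def hi (M : ℕ) (v : Vtx) : (ℤ × ℕ) × Bool := ((v.1 + v.2, (M - (v.1 - v.2)).toNat), true)

theorem face_eq {M : ℕ} {x : (ℤ × ℕ) × Bool} (h : x.1.2 ≤ M) (hp : Prm M x) :
    ((vx M x).1 - (vx M x).2 ≤ 0 ∧ x = lo M (vx M x)) ∨
      (0 ≤ (vx M x).1 - (vx M x).2 ∧ x = hi M (vx M x)) := by
  obtain ⟨⟨j, t⟩, b⟩ := x
  unfold Prm at hp
  simp only at h hp
  cases b
  · left
    unfold vx pv lo
    simp only [Bool.false_eq_true, if_false]
    refine ⟨by omega, ?_⟩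
    rw [Prod.mk.injEq, Prod.mk.injEq]
    refine ⟨⟨by omega, by omega⟩, rfl⟩
  · right
    unfold vx pv hi
    simp only [if_true]
    refine ⟨by omega, ?_⟩
    rw [Prod.mk.injEq, Prod.mk.injEq]
    refine ⟨⟨by omega, by omega⟩, rfl⟩

theorem glue_lh {n M k m : ℕ} (hk : 1 ≤ k) (hkm : k ≤ m) (hmn : 4 * m ≤ n)
    (F : Finset Edg) (τ σ : Word) (v : Vtx) (hv : v.1 = v.2) (h1 : (k : ℤ) ≤ nm v)
    (h2 : nm v ≤ m) : Bg n M k F τ σ (lo M v) (hi M v) := by
  obtain ⟨a, b⟩ := v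
  simp only at hv
  subst hv
  unfold nm at h1 h2
  simp only [max_self] at h1 h2
  have e1 : (a - a + (M : ℤ)).toNat = M := by omega
  have e2 : ((M : ℤ) - (a - a)).toNat = M := by omega
  unfold lo hi
  simp only [e1, e2]
  rcases le_or_gt 0 a with ha | ha
  · rw [abs_of_nonneg ha] at h1 h2
    have h3 := Bg.glue (n := n) (M := M) (k := k) (F := F) (τ := τ) (σ := σ) 0
      (2 * a - k).toNat (by omega)
    have e3 : (0 : ℤ) * ((2 * n : ℕ) : ℤ) + k + ((2 * a - k).toNat : ℤ) = a + a := by omega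
    rw [e3] at h3
    exact h3
  · rw [abs_of_neg ha] at h1 h2
    have h3 := Bg.glue (n := n) (M := M) (k := k) (F := F) (τ := τ) (σ := σ) (-1)
      (2 * a + 2 * n - k).toNat (by omega)
    have e3 : (-1 : ℤ) * ((2 * n : ℕ) : ℤ) + k + ((2 * a + 2 * n - k).toNat : ℤ) = a + a := by
      push_cast
      omega
    rw [e3] at h3
    exact h3

theorem eqv_low {n M k : ℕ} {F : Finset Edg} {τ σ : Word} {x y : ℤ × ℕ}
    (h : Relation.EqvGen (Lk (2 * n - 1) (dn n M F) M σ) x y) :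
    Relation.EqvGen (Bg n M k F τ σ) (x, false) (y, false) := by
  induction h with
  | rel a b h => exact Relation.EqvGen.rel _ _ (Bg.low _ _ h)
  | refl a => exact Relation.EqvGen.refl _
  | symm a b _ ih => exact ih.symm
  | trans a b c _ _ ih1 ih2 => exact ih1.trans _ _ _ ih2

theorem eqv_upp {n M k : ℕ} {F : Finset Edg} {τ σ : Word} {x y : ℤ × ℕ}
    (h : Relation.EqvGen (Lk (2 * n - 1) (up n M F) M τ) x y) :
    Relation.EqvGen (Bg n M k F τ σ) (x, true) (y, true) := by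
  induction h with
  | rel a b h => exact Relation.EqvGen.rel _ _ (Bg.upp _ _ h)
  | refl a => exact Relation.EqvGen.refl _
  | symm a b _ ih => exact ih.symm
  | trans a b c _ _ ih1 ih2 => exact ih1.trans _ _ _ ih2

/-- connection to all the faces over a vertex -/
def Con (n M k : ℕ) (F : Finset Edg) (τ σ : Word) (x : (ℤ × ℕ) × Bool) (v : Vtx) : Prop :=
  (v.1 - v.2 ≤ 0 → Relation.EqvGen (Bg n M k F τ σ) x (lo M v)) ∧
  (0 ≤ v.1 - v.2 → Relation.EqvGen (Bg n M k F τ σ) x (hi M v))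

theorem con_of_lo {n M k m : ℕ} (hk : 1 ≤ k) (hkm : k ≤ m) (hmn : 4 * m ≤ n)
    {F : Finset Edg} {τ σ : Word} {x : (ℤ × ℕ) × Bool} {v : Vtx} (h0 : v.1 - v.2 ≤ 0)
    (h1 : (k : ℤ) ≤ nm v) (h2 : nm v ≤ m) (h : Relation.EqvGen (Bg n M k F τ σ) x (lo M v)) :
    Con n M k F τ σ x v :=
  ⟨fun _ => h, fun h3 => h.trans _ _ _
    (Relation.EqvGen.rel _ _ (glue_lh hk hkm hmn F τ σ v (by omega) h1 h2))⟩

theorem con_of_hi {n M k m : ℕ} (hk : 1 ≤ k) (hkm : k ≤ m) (hmn : 4 * m ≤ n)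
    {F : Finset Edg} {τ σ : Word} {x : (ℤ × ℕ) × Bool} {v : Vtx} (h0 : 0 ≤ v.1 - v.2)
    (h1 : (k : ℤ) ≤ nm v) (h2 : nm v ≤ m) (h : Relation.EqvGen (Bg n M k F τ σ) x (hi M v)) :
    Con n M k F τ σ x v :=
  ⟨fun h3 => h.trans _ _ _
    (Relation.EqvGen.rel _ _ (glue_lh hk hkm hmn F τ σ v (by omega) h1 h2)).symm, fun _ => h⟩

theorem dco_bd {k m M : ℕ} (hM : 2 * m ≤ M) {e : Edg} (he : e ∈ annE k m) :
    -(M : ℤ) ≤ dco e ∧ dco e < M := by
  obtain ⟨x, y, _ | _⟩ := e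
  · obtain ⟨⟨-, h1⟩, -, h2⟩ := he
    simp only [src_mk, tgt_false, nm, max_le_iff, abs_le] at h1 h2
    simp only [dco, Bool.false_eq_true, if_false]
    omega
  · obtain ⟨⟨-, h1⟩, -, h2⟩ := he
    simp only [src_mk, tgt_true, nm, max_le_iff, abs_le] at h1 h2
    simp only [dco, if_true]
    omega

end TC3

open TC3 in
theorem t_C3 : S_C3 := by
  intro n M k m hk hkm hmn hM F σ τ x y hx hy hpx hpy hx1 hx2 hy1 hy2 hR
  have hn : 0 < n := by omega
  have key : ∀ v : Vtx, Reach (per n F ∩ annE k m) (vx M x) v → Con n M k F τ.1 σ.1 x v := by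
    intro v hv
    induction hv with
    | refl =>
      rcases face_eq hx hpx with ⟨h1, h2⟩ | ⟨h1, h2⟩
      · apply con_of_lo hk hkm hmn h1 hx1 hx2
        rw [← h2]
        exact Relation.EqvGen.refl _
      · apply con_of_hi hk hkm hmn h1 hx1 hx2
        rw [← h2]
        exact Relation.EqvGen.refl _
    | @tail u v _ hs ih =>
      obtain ⟨e, ⟨he, hea⟩, hcase⟩ := hs
      have hd := dco_bd hM hea
      have hv : (k : ℤ) ≤ nm v ∧ nm v ≤ m := by
        rcases hcase with ⟨-, h4⟩ | ⟨h3, -⟩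
        · rw [← h4]; exact hea.2
        · rw [← h3]; exact hea.1
      by_cases hneg : dco e < 0
      · obtain ⟨k1, k2, k3, k4, k5⟩ := link_dn hn σ.1 he hd.1 hneg
        have k6 : u.1 - u.2 ≤ 0 ∧ v.1 - v.2 ≤ 0 ∧ Relation.EqvGen
            (Lk (2 * n - 1) (dn n M F) M σ.1) (u.1 + u.2, (u.1 - u.2 + M).toNat)
            (v.1 + v.2, (v.1 - v.2 + M).toNat) := by
          rcases hcase with ⟨h3, h4⟩ | ⟨h3, h4⟩
          · rw [h3] at k1 k5; rw [h4] at k2 k5; exact ⟨k1, k2, k5⟩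
          · rw [h3] at k1 k5; rw [h4] at k2 k5; exact ⟨k2, k1, k5.symm⟩
        obtain ⟨k7, k8, k9⟩ := k6
        exact con_of_lo hk hkm hmn k8 hv.1 hv.2 ((ih.1 k7).trans _ _ _ (eqv_low k9))
      · obtain ⟨k1, k2, k3, k4, k5⟩ := link_up hn τ.1 he (by omega) hd.2
        have k6 : 0 ≤ u.1 - u.2 ∧ 0 ≤ v.1 - v.2 ∧ Relation.EqvGen
            (Lk (2 * n - 1) (up n M F) M τ.1) (u.1 + u.2, (M - (u.1 - u.2)).toNat)
            (v.1 + v.2, (M - (v.1 - v.2)).toNat) := by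
          rcases hcase with ⟨h3, h4⟩ | ⟨h3, h4⟩
          · rw [h3] at k1 k5; rw [h4] at k2 k5; exact ⟨k1, k2, k5⟩
          · rw [h3] at k1 k5; rw [h4] at k2 k5; exact ⟨k2, k1, k5.symm⟩
        obtain ⟨k7, k8, k9⟩ := k6
        exact con_of_hi hk hkm hmn k8 hv.1 hv.2 ((ih.2 k7).trans _ _ _ (eqv_upp k9))
  have h1 := key _ hR
  rcases face_eq hy hpy with ⟨h2, h3⟩ | ⟨h2, h3⟩
  · rw [h3]
    exact h1.1 h2
  · rw [h3]
    exact h1.2 h2

end Pool.Agent.H160R2.ML
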