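import Pool.Agent.H160R2.ML.Stm

set_option autoImplicit false

namespace Pool.Agent.H160R2.ML
open Pool.Agent.H863R2.Cyl
open Pool.Agent.H988R2.Perc (Word PD)
open H974 H906.Cyl

namespace TC4

lemma wup_len (n M : ℕ) (hn : 1 ≤ n) (F : Finset Edg) (τ : Wd (2 * n - 1 + 1)) :
    (wup n M F τ).length = 2 * n := by
  have := (rows (2 * n - 1) (up n M F) M τ).2.1
  unfold wup
  omega

lemma wdn_len (n M : ℕ) (hn : 1 ≤ n) (F : Finset Edg) (σ : Wd (2 * n - 1 + 1)) :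
    (wdn n M F σ).length = 2 * n := by
  have := (rows (2 * n - 1) (dn n M F) M σ).2.1
  unfold wdn
  omega

lemma pt0_even (k n : ℕ) (w' w : Word) (hw' : w'.length = 2 * n) (hw : w.length = 2 * n)
    (i : ℕ) (hi : i < k) :
    0 ≤ (pt k k w' w 0 (2 * i)).1 ∧ (pt k k w' w 0 (2 * i)).1 ≤ k ∧
      (pt k k w' w 0 (2 * i)).1 % 2 = 0 := by
  unfold pt
  split_ifs with h
  · refine ⟨?_, ?_, ?_⟩
    · simp; 
    · simp; omega
    · simp
  · refine ⟨?_, ?_, ?_⟩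
    · simp; omega
    · simp; omega
    · simp; omega

lemma pts (k n : ℕ) (w' w : Word) (hw' : w'.length = 2 * n) (hw : w.length = 2 * n)
    (s : ℤ) (d : ℕ) (hd : d < k + k) :
    s * (2 * n : ℕ) ≤ (pt k k w' w s d).1 ∧ (pt k k w' w s d).1 ≤ s * (2 * n : ℕ) + k := by
  unfold pt
  split_ifs with h
  · simp only [hw]
    refine ⟨?_, ?_⟩
    · linarith [Int.natCast_nonneg d]
    · have : (d : ℤ) ≤ k := by exact_mod_cast h
      linarith
  · simp only [hw']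
    have h1 : (k : ℤ) < d := by push Not at h; exact_mod_cast h
    have h2 : (d : ℤ) < k + k := by exact_mod_cast hd
    refine ⟨?_, ?_⟩ <;> linarith

end TC4

theorem t_C4 : S_C1 → S_C2 → S_C3 → S_C4 := by
  intro hC1 hC2 hC3 n M k m hk hkm hmn hmM F σ τ hgood
  have hn : 1 ≤ n := by omega
  have hw' := TC4.wup_len n M hn F τ
  have hw := TC4.wdn_len n M hn F σ
  set w' := wup n M F τ with hw'def
  set w := wdn n M F σ with hwdef
  have hk2n : k ≤ 2 * n := by omega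
  have key : ∀ i : Fin k, ∃ x' : (ℤ × ℕ) × Bool, x'.1.2 ≤ M ∧ Prm M x' ∧ nm (vx M x') = k ∧
      Relation.EqvGen (Bg n M k F τ.1 σ.1) (lev M (pt k k w' w 0 (2 * i.1))) x' ∧
      ∃ v, nm v = m ∧ Reach (per n F ∩ annE k m) (vx M x') v := by
    intro i
    obtain ⟨s, hs, d, hd, hcn⟩ := hgood.2 (2 * i.1) (by have := i.2; omega)
    obtain ⟨h1, h2, h3⟩ := TC4.pt0_even k n w' w hw' hw i.1 i.2
    exact hC2 n M k m hk hkm hmn hmM F σ τ (pt k k w' w 0 (2 * i.1)) (pt k k w' w s d) h1 h2 h3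
      ⟨s, hs, TC4.pts k n w' w hw' hw s d hd⟩
      ((hC1 n M k hn hk2n F σ τ _ _).2 hcn)
  choose x' hx1 hx2 hx3 hx4 hx5 using key
  refine ⟨fun i => vx M (x' i), fun i => ⟨hx3 i, hx5 i⟩, ?_⟩
  intro i j hij hreach
  have hkm' : (k : ℤ) ≤ m := by exact_mod_cast hkm
  have h1 := hC3 n M k m hk hkm hmn hmM F σ τ (x' i) (x' j) (hx1 i) (hx1 j) (hx2 i) (hx2 j)
    (hx3 i).ge ((hx3 i).le.trans hkm') (hx3 j).ge ((hx3 j).le.trans hkm') hreach
  have h2 : Relation.EqvGen (Bg n M k F τ.1 σ.1) (lev M (pt k k w' w 0 (2 * i.1)))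
      (lev M (pt k k w' w 0 (2 * j.1))) :=
    (hx4 i).trans _ _ _ (h1.trans _ _ _ ((hx4 j).symm _ _))
  have h3 := (hC1 n M k hn hk2n F σ τ _ _).1 h2
  refine hgood.1 (2 * i.1) (2 * j.1) (by have := i.2; omega) (by have := j.2; omega) ?_ h3
  intro h
  exact hij (Fin.ext (by omega))

end Pool.Agent.H160R2.ML
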