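import Pool.Agent.H160R2.ML.Stm

/-!
# Many legs, task C5: comparison with the plane
-/

set_option autoImplicit false

namespace Pool.Agent.H160R2.ML
open Pool.Agent.H863R2.Cyl
open Pool.Agent.H988R2.Perc (Word PD)
open H974 H906.Cyl

namespace TC5
open Finset

/-- a stationary double average as an average over the configurations of the finite cylinder -/
theorem avg_eq {n : ℕ} (hn : 0 < n) (M : ℕ) (μ : Wd (2 * n - 1 + 1) → ℝ)
    (hst : ∀ σ, ∑ c : Fin (2 * n - 1 + 1) → Bool, push (Tc (2 * n - 1) c) μ σ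
      = 2 ^ (2 * n - 1 + 1) * μ σ)
    (g : Wd (2 * n - 1 + 1) → Wd (2 * n - 1 + 1) → ℝ) :
    ∑ σ, ∑ τ, μ σ * μ τ * g σ τ = (1/2)^(CE n M).card * ∑ F ∈ (CE n M).powerset,
      ∑ σ, ∑ τ, μ σ * μ τ *
        g (rows (2 * n - 1) (dn n M F) M σ) (rows (2 * n - 1) (up n M F) M τ) := by
  have e1 := avg_rows hst M g
  have e2 := sum_config (n := n) (M := M) hn (fun a b =>
    ∑ σ, ∑ τ, μ σ * μ τ * g (rows (2 * n - 1) (H906.Cyl.ext a) M σ)
      (rows (2 * n - 1) (H906.Cyl.ext b) M τ))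
  rw [e1] at e2
  have e3 : ∑ F ∈ (CE n M).powerset, ∑ σ, ∑ τ, μ σ * μ τ *
        g (rows (2 * n - 1) (dn n M F) M σ) (rows (2 * n - 1) (up n M F) M τ)
      = (2 ^ (2 * n - 1 + 1)) ^ M * ((2 ^ (2 * n - 1 + 1)) ^ M *
        ∑ σ, ∑ τ, μ σ * μ τ * g σ τ) := by
    rw [← e2]
    apply Finset.sum_congr rfl
    intro F _
    have r1 : ∀ σ, rows (2 * n - 1) (H906.Cyl.ext (fun t : Fin M => dn n M F t)) M σ
        = rows (2 * n - 1) (dn n M F) M σ := fun σ => rows_congr (fun t ht => by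
      unfold H906.Cyl.ext; rw [dif_pos ht]) σ
    have r2 : ∀ σ, rows (2 * n - 1) (H906.Cyl.ext (fun t : Fin M => up n M F t)) M σ
        = rows (2 * n - 1) (up n M F) M σ := fun σ => rows_congr (fun t ht => by
      unfold H906.Cyl.ext; rw [dif_pos ht]) σ
    simp only [r1, r2]
  rw [e3, card_CE]
  have e4 : (1/2 : ℝ) ^ ((2 * n) * (2 * M)) *
      ((2 ^ (2 * n - 1 + 1)) ^ M * (2 ^ (2 * n - 1 + 1)) ^ M) = 1 := by
    rw [show 2 * n - 1 + 1 = 2 * n by omega, ← pow_mul, ← pow_add, one_div, inv_pow,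
      show (2 * n) * (2 * M) = 2 * n * M + 2 * n * M by ring]
    exact inv_mul_cancel₀ (by positivity)
  calc ∑ σ, ∑ τ, μ σ * μ τ * g σ τ = (1/2 : ℝ) ^ ((2 * n) * (2 * M)) *
      ((2 ^ (2 * n - 1 + 1)) ^ M * (2 ^ (2 * n - 1 + 1)) ^ M) *
        ∑ σ, ∑ τ, μ σ * μ τ * g σ τ := by rw [e4, one_mul]
    _ = _ := by ring

/-- edges of the annulus are edges of the box -/
theorem annE_box {a : ℤ} {m : ℕ} {e : Edg} (he : e ∈ annE a m) : e ∈ boxE m := by
  obtain ⟨⟨-, h1⟩, -, h2⟩ := he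
  obtain ⟨x, y, _ | _⟩ := e
  · simp only [nm, src, tgt, Bool.false_eq_true, if_false, max_le_iff, abs_le] at h1 h2
    unfold boxE
    rw [mem_RE_false]
    omega
  · simp only [nm, src, tgt, if_true, max_le_iff, abs_le] at h1 h2
    unfold boxE
    rw [mem_RE_true]
    omega

theorem KArm_congr {k : ℕ} {a b : ℤ} {G G' : Set Edg} (h : G ∩ annE a b = G' ∩ annE a b) :
    KArm k a b G ↔ KArm k a b G' := by
  unfold KArm
  rw [h]

theorem plane {n k m : ℕ} (h1 : 1 ≤ m) (hn : 4 * m ≤ n) :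
    Pr (fun _ => (1/2 : ℝ)) (CE n (2 * m)) (fun F => KArm k k m (per n F)) =
      Pr (fun _ => (1 / 2 : ℝ)) (boxE m) (fun F => KArm k k m (↑F : Set Edg)) := by
  rw [← Pr_red (n := n) (q := 1/2) (S := CE n (2 * m)) (B := boxE m)
    (by unfold boxE; exact red_inj_x (by omega))
    (by unfold boxE; exact image_red_sub (by omega) (by push_cast; omega) (by push_cast; omega))
    (fun F => KArm k k m (↑F : Set Edg))]
  apply Pr_congr
  intro F _
  apply KArm_congr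
  ext e
  constructor
  · rintro ⟨h3, h4⟩
    refine ⟨?_, h4⟩
    rw [Finset.mem_coe, Finset.mem_filter]
    exact ⟨annE_box h4, h3⟩
  · rintro ⟨h3, h4⟩
    rw [Finset.mem_coe, Finset.mem_filter] at h3
    exact ⟨h3.2, h4⟩

end TC5

theorem t_C5 : S_C4 → S_C5 := by
  classical
  intro h n k m hk hkm hn μ hμ0 hμ hst
  have hn0 : 0 < n := by omega
  have e1 : ∑ σ, ∑ τ, (if Good k k τ.1 σ.1 then 1 else 0) * μ σ * μ τ =
      ∑ σ, ∑ τ, μ σ * μ τ * ind (Good k k τ.1 σ.1) := by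
    apply Finset.sum_congr rfl
    intro σ _
    apply Finset.sum_congr rfl
    intro τ _
    by_cases hg : Good k k τ.1 σ.1
    · rw [if_pos hg, ind_of hg]; ring
    · rw [if_neg hg, ind_not_of hg]; ring
  rw [e1, TC5.avg_eq hn0 (2 * m) μ hst (fun σ τ => ind (Good k k τ.1 σ.1)),
    ← TC5.plane (k := k) (by omega : 1 ≤ m) hn, Pr_half]
  apply mul_le_mul_of_nonneg_left _ (by positivity)
  apply Finset.sum_le_sum
  intro F _
  exact avg_le μ hμ0 hμ (fun σ τ => Good k k (rows (2 * n - 1) (up n (2 * m) F) (2 * m) τ).1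
    (rows (2 * n - 1) (dn n (2 * m) F) (2 * m) σ).1) _
    (fun σ τ hg => h n (2 * m) k m hk hkm hn le_rfl F σ τ hg)

end Pool.Agent.H160R2.ML
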