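import Pool.Agent.H160R2.ML.Stm
import Pool.Agent.H160R2.OA.Alg

set_option autoImplicit false

namespace Pool.Agent.H160R2.ML
namespace TEG
open Matrix Finset

/-- scaling -/
noncomputable def dd (l i : ℕ) : ℝ := Real.sqrt (((l + i).factorial : ℝ) / (i.factorial : ℝ))

lemma dd_pos (l i : ℕ) : 0 < dd l i := by
  unfold dd
  positivity

lemma dd_sq (l i : ℕ) : dd l i * dd l i = ((l + i).factorial : ℝ) / (i.factorial : ℝ) := by
  unfold dd
  exact Real.mul_self_sqrt (by positivity)

lemma choose_term (l j a : ℕ) (h : a ≤ j) : ((l + j).choose (j - a) : ℝ) =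
    (j.choose a : ℝ) * (dd l j * dd l j) / (dd l a * dd l a) := by
  rw [dd_sq, dd_sq]
  have h1 := Nat.choose_mul_factorial_mul_factorial h
  have h2 := Nat.choose_mul_factorial_mul_factorial (show j - a ≤ l + j by omega)
  have h3 : l + j - (j - a) = l + a := by omega
  rw [h3] at h2
  have h1' : (j.choose a : ℝ) * (a.factorial : ℝ) * ((j - a).factorial : ℝ) = (j.factorial : ℝ) := by
    exact_mod_cast h1
  have h2' : ((l + j).choose (j - a) : ℝ) * ((j - a).factorial : ℝ) * ((l + a).factorial : ℝ) =
      ((l + j).factorial : ℝ) := by exact_mod_cast h2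
  have p1 : (0 : ℝ) < (a.factorial : ℝ) := by positivity
  have p2 : (0 : ℝ) < ((j - a).factorial : ℝ) := by positivity
  have p3 : (0 : ℝ) < ((l + a).factorial : ℝ) := by positivity
  have p4 : (0 : ℝ) < (j.choose a : ℝ) := by exact_mod_cast Nat.choose_pos h
  rw [← h1', ← h2']
  field_simp

lemma vand (N l i j : ℕ) (hj : j < N) : ((l + i + j).choose j : ℝ) =
    ∑ a ∈ range N, (i.choose a : ℝ) * ((j.choose a : ℝ) * (dd l j * dd l j) / (dd l a * dd l a)) := by
  have h1 := Nat.add_choose_eq i (l + j) j
  rw [Finset.Nat.sum_antidiagonal_eq_sum_range_succ (fun a b => i.choose a * (l + j).choose b)] at h1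
  have h2 : l + i + j = i + (l + j) := by ring
  rw [h2, h1]
  push_cast
  have h3 : ∀ a ∈ range (j + 1), (i.choose a : ℝ) * ((l + j).choose (j - a) : ℝ) =
      (i.choose a : ℝ) * ((j.choose a : ℝ) * (dd l j * dd l j) / (dd l a * dd l a)) := by
    intro a ha
    rw [mem_range] at ha
    rw [choose_term l j a (by omega)]
  rw [Finset.sum_congr rfl h3]
  apply Finset.sum_subset
  · intro k hk
    rw [mem_range] at *
    omega
  · intro k _ hk
    rw [mem_range] at hk
    rw [Nat.choose_eq_zero_of_lt (by omega : j < k)]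
    simp

/-- conjugated involution -/
noncomputable def Q (N l : ℕ) : Matrix (Fin N) (Fin N) ℝ :=
  Matrix.of fun i j => dd l i * OA.R N i j / dd l j

lemma Q_sq (N l : ℕ) : Q N l * Q N l = 1 := by
  have h := OA.R_sq N
  ext i j
  have hij := congrFun (congrFun h i) j
  rw [Matrix.mul_apply] at hij ⊢
  have h1 : ∀ k, Q N l i k * Q N l k j = dd l i / dd l j * (OA.R N i k * OA.R N k j) := by
    intro k
    simp only [Q, Matrix.of_apply]
    have := (dd_pos l k).ne'
    field_simp
  rw [Finset.sum_congr rfl (fun k _ => h1 k), ← Finset.mul_sum, hij, Matrix.one_apply]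
  split_ifs with h2
  · subst h2
    have := (dd_pos l i).ne'
    field_simp
  · simp

noncomputable def S (N l : ℕ) : Matrix (Fin N) (Fin N) ℝ := Q N l * (Q N l)ᵀ

lemma S_entry (N l : ℕ) (i j : Fin N) :
    S N l i j * dd l j = dd l i * ((l + i.val + j.val).choose j.val : ℝ) := by
  rw [vand N l i j j.2, S, Matrix.mul_apply, Finset.sum_mul, Finset.mul_sum, Finset.sum_range]
  apply Finset.sum_congr rfl
  intro k _
  simp only [Q, OA.R, Matrix.of_apply, Matrix.transpose_apply]
  have h1 := (dd_pos l k).ne'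
  have : (-1 : ℝ) ^ (k : ℕ) * (-1) ^ (k : ℕ) = 1 := by
    rw [← mul_pow]; simp
  field_simp
  linear_combination (dd l i * dd l j ^ 2 * (Nat.choose i k : ℝ) * (Nat.choose j k : ℝ)) * this

lemma S_herm (N l : ℕ) : (S N l).IsHermitian := by
  unfold S
  have := Matrix.isHermitian_mul_conjTranspose_self (Q N l)
  rwa [Matrix.conjTranspose_eq_transpose_of_trivial] at this

lemma S_pos (N l : ℕ) : (S N l).PosDef := by
  unfold S
  have h1 : (Q N l * (Q N l)ᴴ).PosDef := by
    apply Matrix.PosDef.mul_conjTranspose_self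
    intro v w h
    have h2 := congrArg (fun x => Matrix.vecMul x (Q N l)) h
    simpa [Matrix.vecMul_vecMul, Q_sq] using h2
  rwa [Matrix.conjTranspose_eq_transpose_of_trivial] at h1

theorem det_diag {N : ℕ} (A U V : Matrix (Fin N) (Fin N) ℝ) (μ : Fin N → ℝ) (hUV : U * V = 1)
    (hAU : A * U = U * Matrix.diagonal μ) (w : ℂ) :
    (Matrix.of fun i j : Fin N => (if i = j then (1 : ℂ) else 0) + w * (A i j : ℂ)).det =
      ∏ i, (1 + w * (μ i : ℂ)) := by
  set φ : ℝ →+* ℂ := Complex.ofRealHom with hφ
  have h1 : U.map φ * V.map φ = 1 := by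
    rw [← Matrix.map_mul, hUV, Matrix.map_one _ (map_zero φ) (map_one φ)]
  have h2 : A.map φ * U.map φ = U.map φ * Matrix.diagonal (fun i => (μ i : ℂ)) := by
    rw [← Matrix.map_mul, hAU, Matrix.map_mul, Matrix.diagonal_map (map_zero φ)]
    rfl
  have h0 : (Matrix.of fun i j : Fin N => (if i = j then (1 : ℂ) else 0) + w * (A i j : ℂ)) =
      1 + w • A.map φ := by
    ext i j
    simp only [Matrix.of_apply, Matrix.add_apply, Matrix.smul_apply, Matrix.map_apply,
      Matrix.one_apply, smul_eq_mul]
    rfl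
  have h3 : (1 + w • A.map φ) * U.map φ = U.map φ * Matrix.diagonal (fun i => 1 + w * (μ i : ℂ)) := by
    have h4 : Matrix.diagonal (fun i => 1 + w * (μ i : ℂ)) =
        1 + w • Matrix.diagonal (fun i => (μ i : ℂ)) := by
      ext i j
      rw [Matrix.add_apply, Matrix.smul_apply, Matrix.diagonal_apply, Matrix.diagonal_apply,
        Matrix.one_apply]
      split_ifs <;> simp
    rw [h4, Matrix.mul_add, Matrix.add_mul, Matrix.smul_mul, Matrix.mul_smul, h2, one_mul, mul_one]
  have h5 := congrArg Matrix.det h3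
  rw [Matrix.det_mul, Matrix.det_mul, Matrix.det_diagonal, mul_comm] at h5
  have h6 : (U.map φ).det ≠ 0 := by
    intro h
    have h7 := congrArg Matrix.det h1
    rw [Matrix.det_mul, h, zero_mul, Matrix.det_one] at h7
    exact zero_ne_one h7
  rw [h0]
  exact mul_left_cancel₀ h6 h5

/-- eigenvalues of the symmetrised matrix -/
noncomputable def lam (N l : ℕ) : Fin N → ℝ := (S_herm N l).eigenvalues

lemma lam_pos (N l : ℕ) (i : Fin N) : 0 < lam N l i := (S_pos N l).eigenvalues_pos i

noncomputable def W (N l : ℕ) : Matrix (Fin N) (Fin N) ℝ :=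
  ((S_herm N l).eigenvectorUnitary : Matrix (Fin N) (Fin N) ℝ)

lemma W_mul (N l : ℕ) : W N l * star (W N l) = 1 :=
  Unitary.coe_mul_star_self (S_herm N l).eigenvectorUnitary

lemma W_mul' (N l : ℕ) : star (W N l) * W N l = 1 :=
  Unitary.coe_star_mul_self (S_herm N l).eigenvectorUnitary

lemma S_W (N l : ℕ) : S N l * W N l = W N l * Matrix.diagonal (lam N l) := by
  ext i j
  rw [Matrix.mul_diagonal, Matrix.mul_apply]
  have h1 := congrFun ((S_herm N l).mulVec_eigenvectorBasis j) i
  unfold Matrix.mulVec dotProduct at h1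
  rw [Pi.smul_apply, smul_eq_mul] at h1
  rw [mul_comm, W]
  simp only [Matrix.IsHermitian.eigenvectorUnitary_apply]
  exact h1

lemma Dl_prod (N l : ℕ) (w : ℂ) : Dl N l w = ∏ i, (1 + w * (lam N l i : ℂ)) := by
  have h := det_diag (Matrix.of fun i j : Fin N => ((l + i.val + j.val).choose j.val : ℝ))
    (Matrix.of fun i j : Fin N => W N l i j / dd l i)
    (Matrix.of fun i j : Fin N => star (W N l) i j * dd l j) (lam N l) ?_ ?_ w
  · rw [← h]
    unfold Dl
    congr 1
  · ext i j
    have h1 := congrFun (congrFun (W_mul N l) i) j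
    rw [Matrix.mul_apply] at h1 ⊢
    have h2 : ∀ k, (Matrix.of fun i j : Fin N => W N l i j / dd l i) i k *
        (Matrix.of fun i j : Fin N => star (W N l) i j * dd l j) k j =
        dd l j / dd l i * (W N l i k * star (W N l) k j) := by
      intro k
      simp only [Matrix.of_apply]
      ring
    rw [Finset.sum_congr rfl (fun k _ => h2 k), ← Finset.mul_sum, h1, Matrix.one_apply]
    split_ifs with h3
    · subst h3
      have := (dd_pos l i).ne'
      field_simp
    · simp
  · ext i j
    have h1 := congrFun (congrFun (S_W N l) i) j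
    rw [Matrix.mul_diagonal, Matrix.mul_apply] at h1 ⊢
    have h2 : ∀ k, (Matrix.of fun i j : Fin N => ((l + i.val + j.val).choose j.val : ℝ)) i k *
        (Matrix.of fun i j : Fin N => W N l i j / dd l i) k j =
        (S N l i k * W N l k j) / dd l i := by
      intro k
      simp only [Matrix.of_apply]
      have h4 := S_entry N l i k
      have h5 := (dd_pos l i).ne'
      have h6 := (dd_pos l k).ne'
      field_simp
      linear_combination (-W N l k j) * h4
    rw [Finset.sum_congr rfl (fun k _ => h2 k), ← Finset.sum_div, h1]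
    simp only [Matrix.of_apply]
    try ring

open Polynomial in
lemma charpoly_one (N l : ℕ) : (S N l).charpoly = ∏ i, (X - C (lam N l i)) :=
  (S_herm N l).charpoly_eq

open Polynomial in
lemma charpoly_two (N l : ℕ) : (S N l).charpoly = ∏ i, (X - C ((lam N l i)⁻¹)) := by
  set D' := Matrix.diagonal (fun i => (lam N l i)⁻¹) with hD'
  have h1 : S N l * (Q N l * S N l * Q N l) = 1 := by
    have hq := Q_sq N l
    have hq' : (Q N l)ᵀ * (Q N l)ᵀ = 1 := by
      rw [← Matrix.transpose_mul, hq, Matrix.transpose_one]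
    have : Q N l * S N l * Q N l = (Q N l)ᵀ * Q N l := by
      unfold S
      rw [← Matrix.mul_assoc, hq, Matrix.one_mul]
    rw [this]
    unfold S
    rw [Matrix.mul_assoc, ← Matrix.mul_assoc (Q N l)ᵀ, hq', Matrix.one_mul, hq]
  have h2 : S N l * (W N l * (D' * star (W N l))) = 1 := by
    rw [← Matrix.mul_assoc, S_W, Matrix.mul_assoc, ← Matrix.mul_assoc (Matrix.diagonal (lam N l)),
      hD', Matrix.diagonal_mul_diagonal]
    have : (fun i => lam N l i * (lam N l i)⁻¹) = fun _ => 1 := by
      funext i
      exact mul_inv_cancel₀ (lam_pos N l i).ne'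
    rw [this, Matrix.diagonal_one, Matrix.one_mul, W_mul]
  have h3 : Q N l * S N l * Q N l = W N l * (D' * star (W N l)) := by
    rw [← Matrix.inv_eq_right_inv h1, ← Matrix.inv_eq_right_inv h2]
  have h4 : (Q N l * S N l * Q N l).charpoly = (S N l).charpoly := by
    rw [Matrix.mul_assoc, Matrix.charpoly_mul_comm, Matrix.mul_assoc, Q_sq, Matrix.mul_one]
  have h5 : (W N l * (D' * star (W N l))).charpoly = D'.charpoly := by
    rw [Matrix.charpoly_mul_comm, Matrix.mul_assoc, W_mul', Matrix.mul_one]
  rw [← h4, h3, h5, hD', Matrix.charpoly_diagonal]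

open Polynomial in
lemma roots_aux {N : ℕ} (g : Fin N → ℝ) :
    (∏ i, (X - C (g i))).roots = Multiset.map g Finset.univ.val := by
  rw [Polynomial.roots_prod]
  · simp
  · simp [Finset.prod_ne_zero_iff, Polynomial.X_sub_C_ne_zero]

lemma multi (N l : ℕ) : Multiset.map (lam N l) Finset.univ.val =
    Multiset.map (fun i => (lam N l i)⁻¹) Finset.univ.val := by
  have h := (charpoly_one N l).symm.trans (charpoly_two N l)
  have h2 := congrArg Polynomial.roots h
  rw [roots_aux, roots_aux] at h2
  exact h2

lemma eq_of_antitone {N : ℕ} (u v : Fin N → ℝ) (hu : Antitone u) (hv : Antitone v)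
    (h : Multiset.map u Finset.univ.val = Multiset.map v Finset.univ.val) : u = v := by
  apply List.ofFn_injective
  apply List.Perm.eq_of_sortedGE hu.sortedGE_ofFn hv.sortedGE_ofFn
  rw [← Multiset.coe_eq_coe, ← Fin.univ_val_map, ← Fin.univ_val_map]
  exact h

end TEG

open TEG in
theorem t_EG : S_EG := by
  intro N l
  set f : Fin N → ℝ := fun i => Real.log (lam N l i) with hf
  set σ := Tuple.sort (fun i => - f i) with hσ
  have hmono : Monotone ((fun i => - f i) ∘ σ) := Tuple.monotone_sort _
  have hu : Antitone (f ∘ σ) := by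
    intro i j hij
    have := hmono hij
    simp only [Function.comp_apply] at this ⊢
    linarith
  have hm : Multiset.map (fun i => - f i) Finset.univ.val = Multiset.map f Finset.univ.val := by
    have h1 := congrArg (Multiset.map Real.log) (multi N l)
    rw [Multiset.map_map, Multiset.map_map] at h1
    rw [hf]
    simp only [Function.comp_def, Real.log_inv] at h1
    exact h1.symm
  have hperm : ∀ (g : Fin N → ℝ) (τ : Equiv.Perm (Fin N)),
      Multiset.map (g ∘ τ) Finset.univ.val = Multiset.map g Finset.univ.val := by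
    intro g τ
    rw [← Multiset.map_map, Multiset.map_univ_val_equiv]
  have hrev : f ∘ σ = fun i => - (f ∘ σ) (Fin.rev i) := by
    apply eq_of_antitone _ _ hu
    · intro i j hij
      have := hu (Fin.rev_le_rev.2 hij)
      simp only [Function.comp_apply] at this ⊢
      linarith
    · rw [hperm]
      have : (fun i => - (f ∘ σ) (Fin.rev i)) = (fun i => - f i) ∘ (Fin.revPerm.trans σ) := by
        funext i
        simp
      rw [this, hperm, hm]
  refine ⟨f ∘ σ, hu, ?_, ?_⟩
  · intro i
    have h := congrFun hrev (Fin.rev i)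
    rw [Fin.rev_rev] at h
    exact h
  · intro ω
    rw [Dl_prod]
    have h1 : ∀ i, (Real.exp ((f ∘ σ) i) : ℂ) = (lam N l (σ i) : ℂ) := by
      intro i
      rw [Function.comp_apply, hf]
      simp only
      rw [Real.exp_log (lam_pos N l _)]
    simp only [h1]
    exact (Equiv.prod_comp σ (fun i => 1 + ω * (lam N l i : ℂ))).symm

end Pool.Agent.H160R2.ML
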