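import Pool.Agent.H160R2.ML.Stm

/-!
# t_FA: the exponents
-/

set_option autoImplicit false

namespace Pool.Agent.H160R2.ML

namespace TFA

theorem sd1 {a : ℕ → ℝ} {K : ℝ} (h : ∀ N, |a (N + 2) + a N - 2 * a (N + 1)| ≤ K) (N s : ℕ) :
    |(a (N + s + 1) - a (N + s)) - (a (N + 1) - a N)| ≤ s * K := by
  induction s with
  | zero => simp
  | succ s ih =>
    have h1 := h (N + s)
    have e1 : N + (s + 1) + 1 = N + s + 2 := by ring
    have e2 : N + (s + 1) = N + s + 1 := by ring
    rw [e1, e2]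
    push_cast
    rw [abs_le] at h1 ih ⊢
    constructor <;> linarith

theorem sd2 {a : ℕ → ℝ} {K : ℝ} (h : ∀ N, |a (N + 2) + a N - 2 * a (N + 1)| ≤ K) (N s k : ℕ) :
    |(a (N + s + k) - a (N + s)) - (a (N + k) - a N)| ≤ k * (s * K) := by
  induction k with
  | zero => simp
  | succ k ih =>
    have h1 := sd1 h (N + k) s
    have e1 : N + s + (k + 1) = N + k + s + 1 := by ring
    have e2 : N + s + k = N + k + s := by ring
    have e3 : N + (k + 1) = N + k + 1 := by ring
    rw [e2] at ih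
    rw [e1, e3]
    push_cast
    rw [abs_le] at h1 ih ⊢
    constructor <;> linarith

theorem toLog {x y N α c C : ℝ} (hx : 0 < x) (hy : 0 < y) (hN : 0 < N) (hc : 0 < c) (hC : 0 < C)
    (h1 : c * N ^ α * y ≤ x) (h2 : x ≤ C * N ^ α * y) :
    |Real.log x - Real.log y - α * Real.log N| ≤ |Real.log c| + |Real.log C| := by
  have hp : 0 < N ^ α := Real.rpow_pos_of_pos hN α
  have e : ∀ d : ℝ, 0 < d → Real.log (d * N ^ α * y) =
      Real.log d + α * Real.log N + Real.log y := by
    intro d hd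
    rw [Real.log_mul (mul_pos hd hp).ne' hy.ne', Real.log_mul hd.ne' hp.ne', Real.log_rpow hN]
  have h3 := Real.log_le_log (mul_pos (mul_pos hc hp) hy) h1
  have h4 := Real.log_le_log hx h2
  rw [e c hc] at h3
  rw [e C hC] at h4
  have h5 := neg_abs_le (Real.log c)
  have h6 := le_abs_self (Real.log C)
  have h7 := abs_nonneg (Real.log c)
  have h8 := abs_nonneg (Real.log C)
  rw [abs_le]
  constructor <;> linarith

theorem ofLog {x y N α K : ℝ} (hx : 0 < x) (hy : 0 < y) (hN : 0 < N)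
    (h : |Real.log x - Real.log y - α * Real.log N| ≤ K) :
    Real.exp (-K) * N ^ α * y ≤ x ∧ x ≤ Real.exp K * N ^ α * y := by
  have hp : 0 < N ^ α := Real.rpow_pos_of_pos hN α
  have e : ∀ d : ℝ, Real.log (Real.exp d * N ^ α * y) = d + α * Real.log N + Real.log y := by
    intro d
    rw [Real.log_mul (mul_pos (Real.exp_pos d) hp).ne' hy.ne',
      Real.log_mul (Real.exp_pos d).ne' hp.ne', Real.log_rpow hN, Real.log_exp]
  rw [abs_le] at h
  constructor
  · rw [← Real.log_le_log_iff (mul_pos (mul_pos (Real.exp_pos _) hp) hy) hx, e]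
    linarith
  · rw [← Real.log_le_log_iff hx (mul_pos (mul_pos (Real.exp_pos _) hp) hy), e]
    linarith

end TFA

open TFA in
theorem t_FA : S_AN → S_BE → S_PH → S_FA := by
  intro hAN hBE hPH k hk
  have hpi := Real.pi_pos
  obtain ⟨c, C, hc, hC, h⟩ := hAN (2 * k)
  obtain ⟨c', C', hc', hC', h'⟩ := hBE
  have pr : ∀ N : ℕ, 0 < RR N 0 (Real.pi / 3) := fun N =>
    (hPH N 0 _ (by linarith) (by linarith)).1
  set K' : ℝ := |Real.log c'| + |Real.log C'| with hK'
  have hsd : ∀ N : ℕ, |Real.log (RR (N + 2) 0 (Real.pi / 3)) + Real.log (RR N 0 (Real.pi / 3)) -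
      2 * Real.log (RR (N + 1) 0 (Real.pi / 3))| ≤ K' := by
    intro N
    have p0 := pr N
    have p1 := pr (N + 1)
    have p2 := pr (N + 2)
    obtain ⟨h1, h2⟩ := h' N
    have e1 := Real.log_le_log (by positivity) h1
    have e2 := Real.log_le_log (by positivity) h2
    rw [Real.log_mul hc'.ne' (by positivity), Real.log_pow, Real.log_mul p2.ne' p0.ne'] at e1
    rw [Real.log_mul hC'.ne' (by positivity), Real.log_pow, Real.log_mul p2.ne' p0.ne'] at e2
    push_cast at e1 e2
    have h5 := neg_abs_le (Real.log c')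
    have h6 := le_abs_self (Real.log C')
    have h7 := abs_nonneg (Real.log c')
    have h8 := abs_nonneg (Real.log C')
    rw [abs_le, hK']
    constructor <;> linarith
  set α : ℝ := -((4 * (k : ℝ) ^ 2 - 1) / 12) with hα
  set K : ℝ := |Real.log c| + |Real.log C| with hK
  refine ⟨Real.exp (-(K / 2 + (k * (k * K')) / 2 + |α| * Real.log 2)),
    Real.exp (K / 2 + (k * (k * K')) / 2 + |α| * Real.log 2), Real.exp_pos _, Real.exp_pos _, ?_⟩
  intro n hn
  have hn1 : 1 ≤ n := hk.trans hn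
  have hn' : (0 : ℝ) < n := by exact_mod_cast hn1
  have hN1 : 1 ≤ 2 * n - k := by omega
  have px := (hPH (2 * n - k) (2 * k) 0 le_rfl hpi).1
  apply ofLog px (pr (2 * n)) hn'
  obtain ⟨h1, h2⟩ := h (2 * n - k) hN1
  have hNpos : (0 : ℝ) < ((2 * n - k : ℕ) : ℝ) := by exact_mod_cast hN1
  have e1 := toLog (pow_pos px 2) (mul_pos (pr (2 * n - k)) (pr (2 * n - k + 2 * k))) hNpos hc hC
    h1 h2
  rw [Real.log_pow, Real.log_mul (pr _).ne' (pr _).ne'] at e1
  push_cast at e1
  have e2 := sd2 (a := fun N => Real.log (RR N 0 (Real.pi / 3))) hsd (2 * n - k) k k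
  have i1 : 2 * n - k + k + k = 2 * n - k + 2 * k := by ring
  have i2 : 2 * n - k + k = 2 * n := by omega
  rw [i1, i2] at e2
  -- `log (2 n - k)` and `log n`
  have l1 : Real.log n ≤ Real.log ((2 * n - k : ℕ) : ℝ) := by
    apply Real.log_le_log hn'
    exact_mod_cast (by omega : n ≤ 2 * n - k)
  have l2 : Real.log ((2 * n - k : ℕ) : ℝ) ≤ Real.log n + Real.log 2 := by
    rw [← Real.log_mul hn'.ne' (by norm_num)]
    apply Real.log_le_log hNpos
    have : ((2 * n - k : ℕ) : ℝ) ≤ ((2 * n : ℕ) : ℝ) := by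
      exact_mod_cast (by omega : 2 * n - k ≤ 2 * n)
    push_cast at this ⊢
    linarith
  have e3 : |α * Real.log ((2 * n - k : ℕ) : ℝ) - α * Real.log n| ≤ |α| * Real.log 2 := by
    rw [← mul_sub, abs_mul]
    apply mul_le_mul_of_nonneg_left _ (abs_nonneg α)
    rw [abs_le]
    have := Real.log_nonneg (show (1 : ℝ) ≤ 2 by norm_num)
    constructor <;> linarith
  have e4 : (1 - (2 * (k : ℝ)) ^ 2) / 6 = 2 * α := by rw [hα]; ring
  rw [e4] at e1
  rw [abs_le] at e1 e2 e3 ⊢
  constructor <;> linarith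

end Pool.Agent.H160R2.ML
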