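import Pool.Agent.H160R2.ML.Stm
import Pool.Agent.H974R2.Infinite

/-!
# Many arms: the measure on `ℤ²`
-/

set_option autoImplicit false

namespace Pool.Agent.H160R2.ML
open H974 H906.Cyl
open MeasureTheory Filter

namespace TFIN

/-- The square lattice: two points of `ℤ²` are adjacent when they differ by one in exactly one
coordinate. -/
def Z2 : SimpleGraph (ℤ × ℤ) where
  Adj u v := |u.1 - v.1| + |u.2 - v.2| = 1
  symm := ⟨fun u v h => by rw [abs_sub_comm v.1, abs_sub_comm v.2]; exact h⟩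
  loopless := ⟨fun u h => by simp at h⟩

/-- Critical bond percolation: every edge of the square lattice is open (`true`) with
probability `1/2`, independently of the other edges. -/
noncomputable def crit : Measure (Z2.edgeSet → Bool) :=
  Measure.infinitePi (fun _ => ProbabilityTheory.bernoulliMeasure true false
    ⟨1/2, by norm_num, by norm_num⟩)

/-- The graph of the open edges with both ends in the annulus `k ≤ max (|x|, |y|) ≤ n`. -/
def annGraph (k n : ℕ) (ω : Z2.edgeSet → Bool) : SimpleGraph (ℤ × ℤ) :=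
  SimpleGraph.fromEdgeSet {e | (∃ h : e ∈ Z2.edgeSet, ω ⟨e, h⟩ = true) ∧
    ∀ v ∈ e, (k : ℤ) ≤ max |v.1| |v.2| ∧ max |v.1| |v.2| ≤ n}

/-- `k` different open clusters of the annulus `k ≤ max (|x|, |y|) ≤ n` join its two boundaries. -/
def Clusters (k n : ℕ) (ω : Z2.edgeSet → Bool) : Prop :=
  ∃ x : Fin k → ℤ × ℤ, (∀ i, max |(x i).1| |(x i).2| = k ∧ ∃ y : ℤ × ℤ, max |y.1| |y.2| = n ∧
    (annGraph k n ω).Reachable (x i) y) ∧ ∀ i j, i ≠ j → ¬ (annGraph k n ω).Reachable (x i) (x j)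

theorem annGraph_adj (k n : ℕ) (ω : Z2.edgeSet → Bool) (u v : ℤ × ℤ) :
    (annGraph k n ω).Adj u v ↔ Adj (opn ω ∩ annE k n) u v := by
  unfold annGraph
  rw [SimpleGraph.fromEdgeSet_adj]
  constructor
  · rintro ⟨⟨⟨h, hω⟩, hv⟩, -⟩
    obtain ⟨e, he⟩ := adj_edge ((SimpleGraph.mem_edgeSet _).mp h)
    have hu := hv u (Sym2.mem_mk_left u v)
    have hv' := hv v (Sym2.mem_mk_right u v)
    refine ⟨e, ⟨?_, ?_⟩, he⟩
    · have : toE e = ⟨s(u, v), h⟩ := by
        apply Subtype.ext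
        rcases he with ⟨h1, h2⟩ | ⟨h1, h2⟩
        · simp only [toE, h1, h2]
        · simp only [toE, h1, h2]
          exact Sym2.eq_swap
      show ω (toE e) = true
      rw [this]; exact hω
    · rcases he with ⟨h1, h2⟩ | ⟨h1, h2⟩
      · exact ⟨by rw [h1]; exact hu, by rw [h2]; exact hv'⟩
      · exact ⟨by rw [h1]; exact hv', by rw [h2]; exact hu⟩
  · rintro ⟨e, ⟨he, ha⟩, hcase⟩
    have hs : s(u, v) = s(src e, tgt e) := by
      rcases hcase with ⟨h1, h2⟩ | ⟨h1, h2⟩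
      · rw [h1, h2]
      · rw [h1, h2]; exact Sym2.eq_swap
    refine ⟨⟨?_, ?_⟩, ?_⟩
    · show ∃ h : s(u, v) ∈ Z2.edgeSet, ω ⟨s(u, v), h⟩ = true
      rw [hs]
      exact ⟨edge_mem e, he⟩
    · intro w hw
      rw [hs, Sym2.mem_iff] at hw
      rcases hw with rfl | rfl
      · exact ha.1
      · exact ha.2
    · rintro rfl
      exact Adj_irrefl (⟨e, he, hcase⟩ : Adj (opn ω) u u)

theorem annGraph_reach (k n : ℕ) (ω : Z2.edgeSet → Bool) (u v : ℤ × ℤ) :
    (annGraph k n ω).Reachable u v ↔ Reach (opn ω ∩ annE k n) u v := by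
  rw [SimpleGraph.reachable_iff_reflTransGen]
  have : (annGraph k n ω).Adj = Adj (opn ω ∩ annE k n) := by
    funext u v
    exact propext (annGraph_adj k n ω u v)
  rw [this]
  rfl

theorem annE_sub (k n : ℕ) : annE k n ⊆ ↑(boxE n) := by
  rintro ⟨x, y, _ | _⟩ ⟨⟨-, h1⟩, ⟨-, h2⟩⟩
  · rw [Finset.mem_coe]
    unfold boxE
    rw [mem_RE_false]
    simp only [nm, src, tgt, Bool.false_eq_true, if_false] at h1 h2
    rw [max_le_iff, abs_le, abs_le] at h1 h2
    omega
  · rw [Finset.mem_coe]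
    unfold boxE
    rw [mem_RE_true]
    simp only [nm, src, tgt, if_true] at h1 h2
    rw [max_le_iff, abs_le, abs_le] at h1 h2
    omega

theorem clusters_iff (k n : ℕ) (ω : Z2.edgeSet → Bool) :
    Clusters k n ω ↔ KArm k k n (↑(FF (boxE n) ω) : Set Edg) := by
  have h1 : (↑(FF (boxE n) ω) : Set Edg) = opn ω ∩ ↑(boxE n) := FF_coe (boxE n) ω
  have h2 : (opn ω ∩ ↑(boxE n)) ∩ annE k n = opn ω ∩ annE k n := by
    rw [Set.inter_assoc, Set.inter_eq_self_of_subset_right (annE_sub k n)]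
  have hG : ((↑(FF (boxE n) ω) : Set Edg)) ∩ annE k n = opn ω ∩ annE k n :=
    (congrArg (fun G : Set Edg => G ∩ annE k n) h1).trans h2
  have key : ∀ G : Set Edg, G ∩ annE k n = opn ω ∩ annE k n → (Clusters k n ω ↔ KArm k k n G) := by
    intro G hG
    unfold Clusters KArm
    rw [hG]
    simp only [annGraph_reach]
    rfl
  exact key _ hG

theorem clusters_law (k n : ℕ) : crit.real {ω | Clusters k n ω} =
    Pr (fun _ => (1 / 2 : ℝ)) (boxE n) (fun F => KArm k k n (↑F : Set Edg)) := by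
  have h : {ω : Z2.edgeSet → Bool | Clusters k n ω} =
      {ω : sqLattice.edgeSet → Bool | (fun F : Finset Edg => KArm k k n (↑F : Set Edg))
        (FF (boxE n) ω)} := by
    ext ω
    exact clusters_iff k n ω
  rw [h]
  exact law_event hlf (boxE n) (fun F => KArm k k n (↑F : Set Edg))

end TFIN

open TFIN in
/-- **all even arm exponents: the lower bound** -/
theorem t_FIN : S_PL → ∀ k : ℕ, 1 ≤ k → ∃ c : ℝ, 0 < c ∧ ∀ n : ℕ, k ≤ n →
    c * (n : ℝ) ^ (-((4 * (k : ℝ) ^ 2 - 1) / 12)) ≤ crit.real {ω | Clusters k n ω} := by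
  intro h k hk
  obtain ⟨c, hc, h2⟩ := h k hk
  refine ⟨c, hc, fun n hn => ?_⟩
  rw [clusters_law]
  exact h2 n hn

end Pool.Agent.H160R2.ML
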