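import Pool.Agent.H160R2.ML.Stm

/-! # Task HL: homogeneous limit with legs (helper877) -/

set_option autoImplicit false

namespace Pool.Agent.H160R2.ML
namespace THL
open Finset Filter Topology
open Pool.Agent.H160R2.HL

/-- division by `1 - ρ` in Newton coordinates -/
noncomputable def st (r : ℕ → ℂ) (f : ℕ → ℂ) : ℕ → ℂ
  | 0 => f 0 / (1 - r 0)
  | (b + 1) => (f (b + 1) + st r f b) / (1 - r (b + 1))

/-- the array with legs -/
noncomputable def WW (s r : ℕ → ℂ) : ℕ → ℕ → ℕ → ℂ
  | 0, a => TT s r a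
  | (l + 1), a => st r (WW s r l a)

theorem st_tel (r f : ℕ → ℂ) (ρ : ℂ) (m : ℕ) (h : ∀ b ≤ m, 1 - r b ≠ 0) :
    (1 - ρ) * ∑ b ∈ range (m + 1), HKp r ρ b * st r f b + HKp r ρ (m + 1) * st r f m
      = ∑ b ∈ range (m + 1), HKp r ρ b * f b := by
  induction m with
  | zero =>
    have h0 : (1 - r 0) * st r f 0 = f 0 := by
      rw [st, mul_div_assoc', mul_div_cancel_left₀ _ (h 0 le_rfl)]
    simp only [zero_add, Finset.sum_range_one, HKp_succ, HKp_zero]
    linear_combination h0
  | succ m ih =>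
    have h1 := ih (fun b hb => h b (by omega))
    have h2 : (1 - r (m + 1)) * st r f (m + 1) = f (m + 1) + st r f m := by
      conv_lhs => rw [st]
      rw [mul_div_assoc', mul_div_cancel_left₀ _ (h (m + 1) le_rfl)]
    rw [Finset.sum_range_succ, Finset.sum_range_succ _ (m + 1), HKp_succ r ρ (m + 1)]
    linear_combination h1 + HKp r ρ (m + 1) * h2

theorem WW_inner (s r : ℕ → ℂ) (l a j : ℕ) (h : ∀ b ≤ j, 1 - r b ≠ 0) :
    (1 - r j) ^ l * ∑ b ∈ range (j + 1), HKp r (r j) b * WW s r l a b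
      = ∑ b ∈ range (j + 1), HKp r (r j) b * TT s r a b := by
  induction l with
  | zero => simp [WW]
  | succ l ih =>
    have h1 := st_tel r (WW s r l a) (r j) j h
    rw [HKp_eq_zero r (Nat.lt_succ_self j), zero_mul, add_zero] at h1
    rw [← ih, ← h1, pow_succ]
    simp only [WW]
    ring

theorem WW_sum (s r : ℕ → ℂ) (l i j : ℕ) (h : ∀ a b, a ≤ i → b ≤ j → 1 - s a - r b ≠ 0)
    (h' : ∀ b ≤ j, 1 - r b ≠ 0) :
    ∑ a ∈ range (i + 1), ∑ b ∈ range (j + 1),
      (∏ k ∈ range a, (s i - s k)) * WW s r l a b * (∏ k ∈ range b, (r j - r k))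
    = 1 / ((1 - s i - r j) * (1 - r j) ^ l) := by
  have h1 := TT_sum s r i j h
  have h0 : (1 - r j) ^ l ≠ 0 := pow_ne_zero _ (h' j le_rfl)
  have h3 : 1 - s i - r j ≠ 0 := h i j le_rfl le_rfl
  have h2 : (1 - r j) ^ l * ∑ a ∈ range (i + 1), ∑ b ∈ range (j + 1),
      (∏ k ∈ range a, (s i - s k)) * WW s r l a b * (∏ k ∈ range b, (r j - r k)) =
      ∑ a ∈ range (i + 1), ∑ b ∈ range (j + 1),
      (∏ k ∈ range a, (s i - s k)) * TT s r a b * (∏ k ∈ range b, (r j - r k)) := by
    rw [Finset.mul_sum]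
    refine Finset.sum_congr rfl fun a _ => ?_
    have e1 : ∑ b ∈ range (j + 1),
        (∏ k ∈ range a, (s i - s k)) * WW s r l a b * (∏ k ∈ range b, (r j - r k)) =
        (∏ k ∈ range a, (s i - s k)) * ∑ b ∈ range (j + 1), HKp r (r j) b * WW s r l a b := by
      rw [Finset.mul_sum]
      refine Finset.sum_congr rfl fun b _ => ?_
      unfold HKp; ring
    have e2 : ∑ b ∈ range (j + 1),
        (∏ k ∈ range a, (s i - s k)) * TT s r a b * (∏ k ∈ range b, (r j - r k)) =
        (∏ k ∈ range a, (s i - s k)) * ∑ b ∈ range (j + 1), HKp r (r j) b * TT s r a b := by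
      rw [Finset.mul_sum]
      refine Finset.sum_congr rfl fun b _ => ?_
      unfold HKp; ring
    rw [e1, e2, ← WW_inner s r l a j h']
    ring
  rw [h1] at h2
  rw [eq_div_iff (mul_ne_zero h3 h0)]
  have h4 : (1 - s i - r j) * (1 / (1 - s i - r j)) = 1 := mul_one_div_cancel h3
  linear_combination (1 - s i - r j) * h2 + h4

theorem ker_det (N l : ℕ) (w : ℂ) (s r : ℕ → ℂ)
    (h1 : ∀ i j, i < N → j < N → 1 - s i * r j ≠ 0)
    (h2 : ∀ i j, i < N → j < N → 1 - s i - r j ≠ 0)
    (h3 : ∀ j, j < N → 1 - r j ≠ 0) :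
    (Matrix.of fun i j : Fin N => 1 / (1 - s i * r j) + w / ((1 - s i - r j) * (1 - r j) ^ l)).det
    = (Matrix.vandermonde (fun i : Fin N => s i)).det
      * (Matrix.vandermonde (fun i : Fin N => r i)).det
      * (Matrix.of fun i j : Fin N => UU s r i j + w * WW s r l i j).det := by
  have hfac : (Matrix.of fun i j : Fin N =>
      1 / (1 - s i * r j) + w / ((1 - s i - r j) * (1 - r j) ^ l)) =
      HKN N s * (Matrix.of fun i j : Fin N => UU s r i j + w * WW s r l i j) *
        (HKN N r).transpose := by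
    ext i j
    have eT := WW_sum s r l i j (fun a b ha hb => h2 a b (by omega) (by omega))
      (fun b hb => h3 b (by omega))
    have eU := UU_sum s r i j (fun a b ha hb => h1 a b (by omega) (by omega))
    have ext1 : ∀ F : ℕ → ℕ → ℂ, ∑ a ∈ range ((i : ℕ) + 1), ∑ b ∈ range ((j : ℕ) + 1),
        (∏ k ∈ range a, (s i - s k)) * F a b * (∏ k ∈ range b, (r j - r k)) =
        ∑ a ∈ range N, ∑ b ∈ range N, HKp s (s i) a * F a b * HKp r (r j) b := by
      intro F
      have hi : range ((i : ℕ) + 1) ⊆ range N := Finset.range_subset_range.2 (by omega)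
      have hj : range ((j : ℕ) + 1) ⊆ range N := Finset.range_subset_range.2 (by omega)
      rw [← Finset.sum_subset hi]
      · refine Finset.sum_congr rfl fun a _ => ?_
        rw [← Finset.sum_subset hj]
        · rfl
        · intro b _ hb
          have : (j : ℕ) < b := by
            have := Finset.mem_range.not.1 hb; omega
          rw [HKp_eq_zero r this, mul_zero]
      · intro a _ ha
        have : (i : ℕ) < a := by
          have := Finset.mem_range.not.1 ha; omega
        refine Finset.sum_eq_zero fun b _ => ?_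
        rw [HKp_eq_zero s this, zero_mul, zero_mul]
    rw [ext1] at eT eU
    have hw : w / ((1 - s i - r j) * (1 - r j) ^ l) = w * (1 / ((1 - s i - r j) * (1 - r j) ^ l)) := by
      ring
    show 1 / (1 - s i * r j) + w / ((1 - s i - r j) * (1 - r j) ^ l) = _
    rw [hw, ← eT, ← eU, Finset.mul_sum, ← Finset.sum_add_distrib, Matrix.mul_apply]
    simp only [Matrix.mul_apply, Matrix.transpose_apply, HKN, Matrix.of_apply, Finset.sum_mul]
    rw [Finset.sum_comm, ← Fin.sum_univ_eq_sum_range (fun a => (∑ b ∈ range N,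
      HKp s (s i) a * UU s r a b * HKp r (r j) b + w * ∑ b ∈ range N,
      HKp s (s i) a * WW s r l a b * HKp r (r j) b)) N]
    refine Finset.sum_congr rfl fun a _ => ?_
    rw [Finset.mul_sum, ← Finset.sum_add_distrib, ← Fin.sum_univ_eq_sum_range (fun b =>
      (HKp s (s i) a * UU s r a b * HKp r (r j) b + w *
      (HKp s (s i) a * WW s r l a b * HKp r (r j) b))) N]
    refine Finset.sum_congr rfl fun b _ => ?_
    ring
  rw [hfac, Matrix.det_mul, Matrix.det_mul, Matrix.det_transpose, HKN_det, HKN_det]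
  ring

theorem WW_lim {α : Type*} (F : Filter α) (s r : α → ℕ → ℂ)
    (hs : ∀ k, Tendsto (fun t => s t k) F (𝓝 0)) (hr : ∀ k, Tendsto (fun t => r t k) F (𝓝 0))
    (l a b : ℕ) :
    Tendsto (fun t => WW (s t) (r t) l a b) F (𝓝 (((l + a + b).choose b : ℕ) : ℂ)) := by
  have hd : ∀ b, Tendsto (fun t => 1 - r t b) F (𝓝 1) := by
    intro b
    have h := (tendsto_const_nhds (x := (1 : ℂ)) (f := F)).sub (hr b)
    simpa using h
  induction l generalizing b with
  | zero =>
    have h := TT_lim F s r hs hr a b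
    have e : ((0 + a + b).choose b : ℕ) = (a + b).choose a := by
      rw [zero_add]
      exact (Nat.choose_symm_add).symm
    rw [e]
    simpa [WW] using h
  | succ l ihl =>
    induction b with
    | zero =>
      have h := (ihl 0).div (hd 0) one_ne_zero
      simpa [WW, st, Pi.div_def] using h
    | succ b ihb =>
      have h := ((ihl (b + 1)).add ihb).div (hd (b + 1)) one_ne_zero
      have e : (((l + 1 + a + (b + 1)).choose (b + 1) : ℕ) : ℂ) =
          (((l + a + (b + 1)).choose (b + 1) : ℕ) + ((l + 1 + a + b).choose b : ℕ) : ℂ) / 1 := by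
        have e1 : l + 1 + a + (b + 1) = (l + a + (b + 1)) + 1 := by ring
        have e2 : l + 1 + a + b = l + a + (b + 1) := by ring
        rw [e1, e2, Nat.choose_succ_succ]
        push_cast
        ring
      rw [e]
      exact h

theorem det_lim {α : Type*} (F : Filter α) (s r : α → ℕ → ℂ)
    (hs : ∀ k, Tendsto (fun t => s t k) F (𝓝 0)) (hr : ∀ k, Tendsto (fun t => r t k) F (𝓝 0))
    (N l : ℕ) (w : ℂ) :
    Tendsto (fun t =>
      (Matrix.of fun i j : Fin N => UU (s t) (r t) i j + w * WW (s t) (r t) l i j).det)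
      F (𝓝 (Dl N l w)) := by
  have hM : Tendsto (fun t => (Matrix.of fun i j : Fin N =>
      UU (s t) (r t) i j + w * WW (s t) (r t) l i j)) F
      (𝓝 (Matrix.of fun i j : Fin N => (if i = j then 1 else 0)
        + w * ((l + i.val + j.val).choose j.val : ℂ))) := by
    refine tendsto_pi_nhds.2 fun i => tendsto_pi_nhds.2 fun j => ?_
    have h := (UU_lim F s r hs hr i j).add ((WW_lim F s r hs hr l i j).const_mul w)
    have e : (Matrix.of fun i j : Fin N => (if i = j then (1 : ℂ) else 0)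
        + w * ((l + i.val + j.val).choose j.val : ℂ)) i j =
        (if (i : ℕ) = (j : ℕ) then 1 else 0) + w * (((l + (i : ℕ) + j).choose j : ℕ) : ℂ) := by
      simp [Fin.ext_iff]
    rw [e]
    exact h
  have hc : Continuous (fun M : Matrix (Fin N) (Fin N) ℂ => M.det) :=
    Continuous.matrix_det continuous_id
  exact (hc.tendsto _).comp hM

theorem lg_rep (l : ℕ) (s u : ℂ) : lg (List.replicate l 1) s u = (1 - s * u) ^ l := by
  simp [lg]

end THL

open THL Finset Filter Topology
open Pool.Agent.H160R2.HL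

theorem t_HL : S_HL := by
  intro q w hq N l F x hx hxi
  have hq1 : 1 - q ≠ 0 := by
    intro h
    have h1 : q = 1 := by linear_combination -h
    rw [h1] at hq
    norm_num at hq
  have hq2 : 1 - q ^ 2 ≠ 0 := by
    intro h
    have h1 : q = -2 := by linear_combination hq + h
    rw [h1] at hq
    norm_num at hq
  have hq0 : q ≠ 0 := by
    intro h
    rw [h] at hq
    norm_num at hq
  have hq3 : q ^ 3 = 1 := by linear_combination (q - 1) * hq
  have hq4 : (1 - q) * (1 - q ^ 2) = 3 := by linear_combination hq3 - hq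
  -- the substitutions
  set s : ℝ → ℕ → ℂ := fun t k => -q * (x t k - 1) / (x t k - q ^ 2) with hs
  set r : ℝ → ℕ → ℂ := fun t k => -q ^ 2 * (x t k - 1) / (x t k - q) with hr
  have hs0 : ∀ k, Tendsto (fun t => s t k) F (𝓝 0) := by
    intro k
    have h1 : Tendsto (fun t => -q * (x t k - 1) / (x t k - q ^ 2)) F
        (𝓝 (-q * (1 - 1) / (1 - q ^ 2))) :=
      (((hx k).sub_const 1).const_mul (-q)).div ((hx k).sub_const (q ^ 2)) hq2
    have h2 : -q * (1 - 1) / (1 - q ^ 2) = 0 := by simp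
    rwa [h2] at h1
  have hr0 : ∀ k, Tendsto (fun t => r t k) F (𝓝 0) := by
    intro k
    have h1 : Tendsto (fun t => -q ^ 2 * (x t k - 1) / (x t k - q)) F
        (𝓝 (-q ^ 2 * (1 - 1) / (1 - q))) :=
      (((hx k).sub_const 1).const_mul (-q ^ 2)).div ((hx k).sub_const q) hq1
    have h2 : -q ^ 2 * (1 - 1) / (1 - q) = 0 := by simp
    rwa [h2] at h1
  -- conditions which hold eventually
  have e1 : ∀ᶠ t in F, ∀ i : Fin N, x t i - q ^ 2 ≠ 0 := by
    rw [Filter.eventually_all]
    intro i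
    exact ((hx i).sub_const (q ^ 2)).eventually_ne hq2
  have e2 : ∀ᶠ t in F, ∀ i : Fin N, x t i - q ≠ 0 := by
    rw [Filter.eventually_all]
    intro i
    exact ((hx i).sub_const q).eventually_ne hq1
  have e3 : ∀ᶠ t in F, ∀ i j : Fin N, 1 - s t i * r t j ≠ 0 := by
    rw [Filter.eventually_all]
    intro i
    rw [Filter.eventually_all]
    intro j
    have h1 : Tendsto (fun t => 1 - s t i * r t j) F (𝓝 (1 - 0 * 0)) :=
      ((hs0 i).mul (hr0 j)).const_sub 1
    exact h1.eventually_ne (by norm_num)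
  have e4 : ∀ᶠ t in F, ∀ i j : Fin N, 1 - s t i - r t j ≠ 0 := by
    rw [Filter.eventually_all]
    intro i
    rw [Filter.eventually_all]
    intro j
    have h1 : Tendsto (fun t => 1 - s t i - r t j) F (𝓝 (1 - 0 - 0)) :=
      ((hs0 i).const_sub 1).sub (hr0 j)
    exact h1.eventually_ne (by norm_num)
  have e5 : ∀ᶠ t in F, ∀ j : Fin N, 1 - r t j ≠ 0 := by
    rw [Filter.eventually_all]
    intro j
    have h1 : Tendsto (fun t => 1 - r t j) F (𝓝 (1 - 0)) := (hr0 j).const_sub 1
    exact h1.eventually_ne (by norm_num)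
  -- the explicit form
  have hform : (fun t => ((1 - q) * q) ^ N * (∏ i : Fin N, (x t i - q ^ 2)⁻¹) *
      (∏ i : Fin N, (x t i - q)⁻¹) *
      (∏ i : Fin N, ∏ j ∈ Finset.Ioi i, (-q * (1 - q ^ 2) / ((x t j - q ^ 2) * (x t i - q ^ 2)))) *
      (∏ i : Fin N, ∏ j ∈ Finset.Ioi i, (-q ^ 2 * (1 - q) / ((x t j - q) * (x t i - q)))) *
      (∏ i : Fin N, (1 - q * x t i) ^ l) *
      (Matrix.of fun i j : Fin N => UU (s t) (r t) i j
        + (w * (-q ^ 2) ^ l) * WW (s t) (r t) l i j).det) =ᶠ[F]
      (fun t => T q w (List.replicate l 1) (fun i : Fin N => x t i)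
        / ((Matrix.vandermonde (fun i : Fin N => x t i)).det
          * (Matrix.vandermonde (fun i : Fin N => x t i)).det)) := by
    filter_upwards [e1, e2, e3, e4, e5, hxi] with t h1 h2 h3 h4 h5 h6
    unfold T
    simp only [lg_rep]
    have g1 : (Matrix.of fun i j : Fin N =>
        (1 - q * x t j) ^ l / (q ^ 2 * x t i - q * x t j)
          + w * (1 - q ^ 2 * x t j) ^ l / (q ^ 2 * x t j - q * x t i)) =
        Matrix.of fun i j : Fin N => ((1 - q) * q * (x t i - q ^ 2)⁻¹) *
          (Matrix.of fun i j : Fin N => ((x t j - q)⁻¹ * (1 - q * x t j) ^ l) *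
            (Matrix.of fun i j : Fin N =>
              1 / (1 - s t i * r t j)
                + (w * (-q ^ 2) ^ l) / ((1 - s t i - r t j) * (1 - r t j) ^ l)) i j) i j := by
      ext i j
      simp only [Matrix.of_apply]
      have a1 := h1 i
      have a2 := h2 j
      have k1 : 1 - s t i * r t j = (1 - q) * q * (q ^ 2 * x t i - q * x t j) /
          ((x t i - q ^ 2) * (x t j - q)) := by
        rw [hs, hr]
        simp only
        rw [div_mul_div_comm, eq_div_iff (mul_ne_zero a1 a2), sub_mul,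
          div_mul_cancel₀ _ (mul_ne_zero a1 a2)]
        linear_combination (-(x t i * (x t j - q))) * hq3
      have k2 : 1 - s t i - r t j = (1 - q) * q * (q ^ 2 * x t j - q * x t i) /
          ((x t i - q ^ 2) * (x t j - q)) := by
        rw [hs, hr]
        simp only
        field_simp
        linear_combination ((x t i - q) * (x t j - q)) * hq
      have k3 : 1 - r t j = (1 - q * x t j) / (x t j - q) := by
        rw [hr]
        simp only
        rw [eq_div_iff a2, sub_mul, div_mul_cancel₀ _ a2]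
        linear_combination (x t j - 1) * hq
      have b1 : q ^ 2 * x t i - q * x t j ≠ 0 := by
        intro h
        apply h3 i j
        rw [k1, h]; simp
      have b2 : q ^ 2 * x t j - q * x t i ≠ 0 := by
        intro h
        apply h4 i j
        rw [k2, h]; simp
      have b3 : 1 - q * x t j ≠ 0 := by
        intro h
        apply h5 j
        rw [k3, h]; simp
      have k4 : 1 - q ^ 2 * x t j = -q ^ 2 * (x t j - q) := by
        linear_combination (-1) * hq3
      rw [k1, k2, k3, k4, mul_pow, div_pow]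
      have b3' : (1 - q * x t j) ^ l ≠ 0 := pow_ne_zero _ b3
      have a2' : (x t j - q) ^ l ≠ 0 := pow_ne_zero _ a2
      field_simp
    rw [g1, Matrix.det_mul_column, Matrix.det_mul_row, THL.ker_det N l _ (s t) (r t)
      (fun i j hi hj => h3 ⟨i, hi⟩ ⟨j, hj⟩) (fun i j hi hj => h4 ⟨i, hi⟩ ⟨j, hj⟩)
      (fun j hj => h5 ⟨j, hj⟩)]
    have v1 : (Matrix.vandermonde (fun i : Fin N => s t i)).det =
        (Matrix.vandermonde (fun i : Fin N => x t i)).det * ∏ i : Fin N, ∏ j ∈ Finset.Ioi i,
          (-q * (1 - q ^ 2) / ((x t j - q ^ 2) * (x t i - q ^ 2))) := by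
      rw [Matrix.det_vandermonde, Matrix.det_vandermonde, ← Finset.prod_mul_distrib]
      refine Finset.prod_congr rfl fun i _ => ?_
      rw [← Finset.prod_mul_distrib]
      refine Finset.prod_congr rfl fun j _ => ?_
      have a1 := h1 i
      have a2 := h1 j
      rw [hs]
      simp only
      field_simp
      ring
    have v2 : (Matrix.vandermonde (fun i : Fin N => r t i)).det =
        (Matrix.vandermonde (fun i : Fin N => x t i)).det * ∏ i : Fin N, ∏ j ∈ Finset.Ioi i,
          (-q ^ 2 * (1 - q) / ((x t j - q) * (x t i - q))) := by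
      rw [Matrix.det_vandermonde, Matrix.det_vandermonde, ← Finset.prod_mul_distrib]
      refine Finset.prod_congr rfl fun i _ => ?_
      rw [← Finset.prod_mul_distrib]
      refine Finset.prod_congr rfl fun j _ => ?_
      have a1 := h2 i
      have a2 := h2 j
      rw [hr]
      simp only
      field_simp
      ring
    rw [v1, v2]
    have w1 : (Matrix.vandermonde (fun i : Fin N => x t i)).det ≠ 0 :=
      HM_vand N _ (fun i j h => Fin.ext (h6 h))
    have p1 : ∏ i : Fin N, ((1 - q) * q * (x t i - q ^ 2)⁻¹) =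
        ((1 - q) * q) ^ N * ∏ i : Fin N, (x t i - q ^ 2)⁻¹ := by
      rw [Finset.prod_mul_distrib, Finset.prod_const, Finset.card_univ, Fintype.card_fin]
    have p2 : ∏ i : Fin N, ((x t i - q)⁻¹ * (1 - q * x t i) ^ l) =
        (∏ i : Fin N, (x t i - q)⁻¹) * ∏ i : Fin N, (1 - q * x t i) ^ l :=
      Finset.prod_mul_distrib
    rw [p1, p2]
    field_simp
  refine Tendsto.congr' hform ?_
  -- the limit
  have l1 : Tendsto (fun t => ∏ i : Fin N, (x t i - q ^ 2)⁻¹) F
      (𝓝 (∏ _i : Fin N, (1 - q ^ 2)⁻¹)) :=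
    tendsto_finsetProd _ fun i _ => ((hx i).sub_const (q ^ 2)).inv₀ hq2
  have l2 : Tendsto (fun t => ∏ i : Fin N, (x t i - q)⁻¹) F (𝓝 (∏ _i : Fin N, (1 - q)⁻¹)) :=
    tendsto_finsetProd _ fun i _ => ((hx i).sub_const q).inv₀ hq1
  have l3 : Tendsto (fun t => ∏ i : Fin N, ∏ j ∈ Finset.Ioi i,
      (-q * (1 - q ^ 2) / ((x t j - q ^ 2) * (x t i - q ^ 2)))) F
      (𝓝 (∏ i : Fin N, ∏ _j ∈ Finset.Ioi i,
        (-q * (1 - q ^ 2) / ((1 - q ^ 2) * (1 - q ^ 2))))) :=
    tendsto_finsetProd _ fun i _ => tendsto_finsetProd _ fun j _ =>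
      tendsto_const_nhds.div (((hx j).sub_const (q ^ 2)).mul ((hx i).sub_const (q ^ 2)))
        (mul_ne_zero hq2 hq2)
  have l4 : Tendsto (fun t => ∏ i : Fin N, ∏ j ∈ Finset.Ioi i,
      (-q ^ 2 * (1 - q) / ((x t j - q) * (x t i - q)))) F
      (𝓝 (∏ i : Fin N, ∏ _j ∈ Finset.Ioi i,
        (-q ^ 2 * (1 - q) / ((1 - q) * (1 - q))))) :=
    tendsto_finsetProd _ fun i _ => tendsto_finsetProd _ fun j _ =>
      tendsto_const_nhds.div (((hx j).sub_const q).mul ((hx i).sub_const q))
        (mul_ne_zero hq1 hq1)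
  have l7 : Tendsto (fun t => ∏ i : Fin N, (1 - q * x t i) ^ l) F
      (𝓝 (∏ _i : Fin N, (1 - q * 1) ^ l)) :=
    tendsto_finsetProd _ fun i _ => (((hx i).const_mul q).const_sub 1).pow l
  have l5 := THL.det_lim F s r hs0 hr0 N l (w * (-q ^ 2) ^ l)
  have l6 := (((((tendsto_const_nhds (x := ((1 - q) * q) ^ N) (f := F)).mul l1).mul l2).mul l3).mul
    l4).mul l7 |>.mul l5
  have hval : ((1 - q) * q) ^ N * (∏ _i : Fin N, (1 - q ^ 2)⁻¹) * (∏ _i : Fin N, (1 - q)⁻¹) *
      (∏ i : Fin N, ∏ _j ∈ Finset.Ioi i, (-q * (1 - q ^ 2) / ((1 - q ^ 2) * (1 - q ^ 2)))) *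
      (∏ i : Fin N, ∏ _j ∈ Finset.Ioi i, (-q ^ 2 * (1 - q) / ((1 - q) * (1 - q)))) =
      (q / (1 - q ^ 2)) ^ N * (1 / 3) ^ (N * (N - 1) / 2) := by
    rw [HM_const, HM_const, Finset.prod_const, Finset.prod_const, Finset.card_univ,
      Fintype.card_fin, ← mul_pow, ← mul_pow, mul_assoc, ← mul_pow]
    congr 1
    · congr 1
      field_simp
    · congr 1
      rw [← hq4]
      field_simp
      linear_combination hq3
  have hval2 : (∏ _i : Fin N, (1 - q * 1) ^ l) = (1 - q) ^ (l * N) := by
    rw [Finset.prod_const, Finset.card_univ, Fintype.card_fin, mul_one, ← pow_mul]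
  rw [hval, hval2] at l6
  exact l6

end Pool.Agent.H160R2.ML
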