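import Pool.Agent.H160R2.ML.Stm
import Pool.Agent.H863R2.Cyl.GProp

/-!
# Task HV: the homogeneous value
-/

set_option autoImplicit false

namespace Pool.Agent.H160R2.ML
open Pool.Agent.H863R2.Cyl
open Pool.Agent.H988R2.Perc (Word PD)
open Filter Topology

namespace THV

/-- the bilinear form as a finite sum -/
theorem prE_eq (e : ℕ → ℕ → Word → Word → ℂ) (p r : ℕ) {v' v : VW} {N N' : ℕ} (hv' : v' ∈ VN N')
    (hv : v ∈ VN N) :
    prE e p r v' v = ∑ w' ∈ GPropAux.WS N', ∑ w ∈ GPropAux.WS N, e p r w' w * (v' w' * v w) := by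
  unfold prE
  rw [Finsupp.linearCombination_apply, Finsupp.sum_of_support_subset _ (GPropAux.supp_sub hv')]
  · rw [LinearMap.sum_apply]
    refine Finset.sum_congr rfl fun w' _ => ?_
    rw [LinearMap.smul_apply, Finsupp.linearCombination_apply,
      Finsupp.sum_of_support_subset _ (GPropAux.supp_sub hv)]
    · rw [Finset.smul_sum]
      refine Finset.sum_congr rfl fun w _ => ?_
      simp only [smul_eq_mul]
      ring
    · intro w _; simp
  · intro w _; simp

theorem cont_pd {M d : ℕ} {G : List ℂ → ℂ} (h : PD M d G) (A : List ℂ) (N : ℕ)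
    (hl : A.length + N = M) : Continuous (fun z : Fin N → ℂ => G (A ++ List.ofFn z)) := by
  obtain ⟨p, -, hp⟩ := h
  have h1 : (fun z : Fin N → ℂ => G (A ++ List.ofFn z)) = fun z =>
      MvPolynomial.eval (fun i : Fin M => (A ++ List.ofFn z).getD i 0) p := by
    funext z
    exact hp _ (by simp [hl])
  rw [h1]
  refine (MvPolynomial.continuous_eval p).comp (continuous_pi fun i => ?_)
  by_cases hi : (i : ℕ) < A.length
  · have h2 : (fun z : Fin N → ℂ => (A ++ List.ofFn z).getD i 0) = fun _ => A.getD i 0 := by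
      funext z
      exact List.getD_append _ _ _ _ hi
    rw [h2]
    exact continuous_const
  · have hi' : (i : ℕ) - A.length < N := by
      have := i.2
      omega
    have h2 : (fun z : Fin N → ℂ => (A ++ List.ofFn z).getD i 0) =
        fun z => z ⟨(i : ℕ) - A.length, hi'⟩ := by
      funext z
      rw [List.getD_append_right _ _ _ _ (not_lt.1 hi), List.getD_eq_getElem _ _ (by simpa using hi')]
      simp
    rw [h2]
    exact continuous_apply _

theorem cont_GG {q : ℂ} {l : ℕ} {e : ℕ → ℕ → Word → Word → ℂ} {Ψ Ψ' : List ℂ → VW}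
    (hD : Dat q l e Ψ Ψ') (A B : List ℂ) (N : ℕ) :
    Continuous (fun z : Fin N → ℂ => GG e Ψ' Ψ A B (List.ofFn z)) := by
  have h1 : (fun z : Fin N → ℂ => GG e Ψ' Ψ A B (List.ofFn z)) = fun z =>
      ∑ w' ∈ GPropAux.WS (B.length + N), ∑ w ∈ GPropAux.WS (A.length + N),
        e A.length B.length w' w * (Ψ' (B ++ List.ofFn z) w' * Ψ (A ++ List.ofFn z) w) := by
    funext z
    have m1 := hD.h'.mem (B ++ List.ofFn z)
    have m2 := hD.h.mem (A ++ List.ofFn z)
    rw [List.length_append, List.length_ofFn] at m1 m2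
    exact prE_eq e A.length B.length m1 m2
  rw [h1]
  refine continuous_finsetSum _ fun w' _ => continuous_finsetSum _ fun w _ => ?_
  exact continuous_const.mul ((cont_pd (hD.h'.deg _ w') B N rfl).mul
    (cont_pd (hD.h.deg _ w) A N rfl))

theorem vd_eq {N : ℕ} (z : Fin N → ℂ) :
    vd z = (Matrix.vandermonde z).det * (Matrix.vandermonde z).det := by
  unfold vd
  rw [← HL.HomogAux.vand_sq]
  refine Finset.prod_congr rfl fun i _ => Finset.prod_congr ?_ fun _ _ => rfl
  ext j
  simp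

theorem norms {q : ℂ} (hq : q ^ 2 + q + 1 = 0) :
    ‖q‖ = 1 ∧ ‖1 - q‖ = Real.sqrt 3 ∧ ‖1 - q ^ 2‖ = Real.sqrt 3 ∧
      ‖q - q ^ 2‖ = Real.sqrt 3 := by
  have hq3 : q ^ 3 = 1 := by linear_combination (q - 1) * hq
  have h1 : ‖q‖ = 1 := by
    have : ‖q‖ ^ 3 = 1 := by rw [← norm_pow, hq3, norm_one]
    exact (pow_eq_one_iff_of_nonneg (norm_nonneg _) (by norm_num)).1 this
  have h2 : ‖1 - q‖ = Real.sqrt 3 := by
    have e1 : (1 - q) ^ 2 = -3 * q := by linear_combination hq
    have e2 : ‖1 - q‖ ^ 2 = 3 := by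
      rw [← norm_pow, e1, norm_mul, h1]
      norm_num
    rw [← e2, Real.sqrt_sq (norm_nonneg _)]
  have h3 : ‖1 - q ^ 2‖ = Real.sqrt 3 := by
    have e1 : 1 - q ^ 2 = -(q ^ 2) * (1 - q) := by linear_combination -hq3
    rw [e1, norm_mul, norm_neg, norm_pow, h1, h2]
    norm_num
  have h4 : ‖q - q ^ 2‖ = Real.sqrt 3 := by
    have e1 : q - q ^ 2 = q * (1 - q) := by ring
    rw [e1, norm_mul, h1, h2, one_mul]
  exact ⟨h1, h2, h3, h4⟩

theorem pfq_norm {q : ℂ} (hq : q ^ 2 + q + 1 = 0) (k : ℕ) :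
    ‖pfq q (List.replicate k 1)‖ * ‖pfq (q ^ 2) (List.replicate k 1)‖ =
      Real.sqrt 3 ^ (k * (k - 1)) := by
  have hq' : (q ^ 2) ^ 2 + q ^ 2 + 1 = 0 := by linear_combination (q ^ 2 - q + 1) * hq
  induction k with
  | zero => simp [pfq]
  | succ k ih =>
    have h1 : ∀ c : ℂ, pfq c (List.replicate (k + 1) 1) =
        (c - c ^ 2) ^ k * pfq c (List.replicate k 1) := by
      intro c
      rw [List.replicate_succ]
      simp [pfq]
    rw [h1, h1, norm_mul, norm_mul, norm_pow, norm_pow, (norms hq).2.2.2, (norms hq').2.2.2]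
    have e1 : (k + 1) * (k + 1 - 1) = k + k + k * (k - 1) := by
      rcases k with _ | k
      · simp
      · simp only [Nat.add_sub_cancel]
        ring
    rw [e1, pow_add, pow_add, ← ih]
    ring

theorem kap_norm {κ : ℂ} {k : ℕ} (h : ‖κ‖ ^ 4 * 3 ^ (2 * k) = 1) :
    ‖κ‖ * Real.sqrt 3 ^ k = 1 := by
  have h1 : (‖κ‖ * Real.sqrt 3 ^ k) ^ 4 = 1 := by
    rw [mul_pow, ← h]
    congr 1
    rw [← pow_mul, mul_comm k 4, show 4 * k = 2 * (2 * k) by ring, pow_mul, Real.sq_sqrt (by norm_num)]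
  exact (pow_eq_one_iff_of_nonneg (by positivity) (by norm_num)).1 h1

theorem expo (k N n : ℕ) (h : k + N = 2 * n) :
    k * (k - 1) + N * (N - 1) + 2 * k * N = 2 * (2 * n * (n - 1)) + (k + N) := by
  have h1 : k * (k - 1) + k = k * k := by
    rcases k with _ | k
    · simp
    · simp only [Nat.add_sub_cancel]; ring
  have h2 : N * (N - 1) + N = N * N := by
    rcases N with _ | N
    · simp
    · simp only [Nat.add_sub_cancel]; ring
  have h3 : n * (n - 1) + n = n * n := by
    rcases n with _ | n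
    · simp
    · simp only [Nat.add_sub_cancel]; ring
  have h4 : (k + N) * (k + N) = 4 * (n * n) := by rw [h]; ring
  have h5 : (k + N) * (k + N) = k * k + N * N + 2 * k * N := by ring
  have h6 : 2 * (2 * n * (n - 1)) = 4 * (n * (n - 1)) := by ring
  rw [h6]
  omega

end THV

open THV in
theorem t_HV : S_TB → S_HL → S_HV := by
  intro hTB hHL q k e Ψ Ψ' hk hD n hkn hn
  classical
  have hq := hD.hq
  have hq3 : q ^ 3 = 1 := by linear_combination (q - 1) * hq
  obtain ⟨N, hN⟩ : ∃ N, N = 2 * n - k := ⟨_, rfl⟩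
  have hkN : k + N = 2 * n := by omega
  rw [← hN]
  obtain ⟨κ, hκ, hform⟩ := hTB q (2 * k) e Ψ Ψ' hD k k N (by ring)
    (by rw [hkN]; exact even_two_mul n)
  set l : Filter ℝ := 𝓝[>] (0 : ℝ) with hl
  set x : ℝ → ℕ → ℂ := fun t k => ((1 + t * k : ℝ) : ℂ) with hx
  have hcont : ∀ k : ℕ, Tendsto (fun t : ℝ => x t k) l (𝓝 1) := by
    intro k
    have h1 : Continuous (fun t : ℝ => x t k) := by
      simp only [hx]
      fun_prop
    have h2 := h1.tendsto 0
    have h3 : x 0 k = 1 := by simp [hx]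
    rw [h3] at h2
    exact h2.mono_left nhdsWithin_le_nhds
  have hpos : ∀ᶠ t in l, (0 : ℝ) < t := self_mem_nhdsWithin
  have hinj : ∀ᶠ t in l, Function.Injective (x t) := by
    filter_upwards [hpos] with t ht a b hab
    have h1 : (1 + t * a : ℝ) = 1 + t * b := Complex.ofReal_injective hab
    have h2 : t * (a : ℝ) = t * b := by linarith
    have h3 := mul_left_cancel₀ ht.ne' h2
    exact_mod_cast h3
  have hmain := hHL q (q ^ (2 * k)) hq N (2 * k) l x hcont hinj
  set z : ℝ → Fin N → ℂ := fun t i => x t i with hz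
  have hztend : Tendsto z l (𝓝 (fun _ => (1 : ℂ))) := by
    rw [tendsto_pi_nhds]
    intro i
    exact hcont i
  set A : List ℂ := List.replicate k 1 with hA
  have hGt : Tendsto (fun t => GG e Ψ' Ψ A A (List.ofFn (z t))) l
      (𝓝 (GG e Ψ' Ψ A A (List.ofFn (fun _ : Fin N => (1 : ℂ))))) :=
    ((cont_GG hD A A N).tendsto _).comp hztend
  have hq2 : (q ^ 2 * 1 - q * 1) ^ 2 = (-3 : ℂ) := by
    linear_combination (q ^ 2 - 3 * q + 3) * hq
  have hP : Tendsto (fun t => wd q (z t)) l (𝓝 ((-3) ^ (N * (N - 1)))) := by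
    have h1 : Tendsto (fun t => ∏ i, ∏ j ∈ Finset.univ.filter (· ≠ i),
        (q ^ 2 * z t i - q * z t j) ^ 2) l
        (𝓝 (∏ i : Fin N, ∏ _j ∈ Finset.univ.filter (· ≠ i), (q ^ 2 * 1 - q * 1) ^ 2)) := by
      refine tendsto_finsetProd _ fun i _ => tendsto_finsetProd _ fun j _ => ?_
      exact (((hcont i).const_mul _).sub ((hcont j).const_mul _)).pow 2
    rw [hq2] at h1
    have h2 : (∏ i : Fin N, ∏ _j ∈ Finset.univ.filter (· ≠ i), (-3 : ℂ)) =
        (-3) ^ (N * (N - 1)) := by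
      have h3 : ∀ i : Fin N, (∏ _j ∈ Finset.univ.filter (· ≠ i), (-3 : ℂ)) = (-3) ^ (N - 1) := by
        intro i
        rw [Finset.prod_const, Finset.filter_ne', Finset.card_erase_of_mem (Finset.mem_univ i),
          Finset.card_univ, Fintype.card_fin]
      rw [Finset.prod_congr rfl fun i _ => h3 i, Finset.prod_const, Finset.card_univ,
        Fintype.card_fin, ← pow_mul, mul_comm]
    rw [h2] at h1
    exact h1
  have hZ : Tendsto (fun t => ∏ i, z t i) l (𝓝 1) := by
    have h1 : Tendsto (fun t => ∏ i, z t i) l (𝓝 (∏ _i : Fin N, (1 : ℂ))) :=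
      tendsto_finsetProd _ fun i _ => hcont i
    simpa using h1
  have hRHS := ((hP.mul hZ).mul hmain).const_mul (κ * pfq q A * pfq (q ^ 2) A)
  have heq : ∀ᶠ t in l, GG e Ψ' Ψ A A (List.ofFn (z t)) = κ * pfq q A * pfq (q ^ 2) A *
      (wd q (z t) * (∏ i, z t i) * (T q (q ^ (2 * k)) (List.replicate (2 * k) 1)
        (fun i : Fin N => x t i) / ((Matrix.vandermonde (fun i : Fin N => x t i)).det
          * (Matrix.vandermonde (fun i : Fin N => x t i)).det))) := by
    filter_upwards [hpos, hinj] with t ht hit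
    have hzinj : Function.Injective (z t) := by
      intro a b hab
      exact Fin.ext (hit hab)
    have hGn : Gn (List.ofFn (z t)) := by
      constructor
      · intro y hy
        rw [List.mem_ofFn] at hy
        obtain ⟨i, rfl⟩ := hy
        simp only [hz, hx]
        have : (0 : ℝ) < 1 + t * (i : ℕ) := by positivity
        exact_mod_cast this.ne'
      · rw [List.map_ofFn, List.nodup_ofFn]
        intro a b hab
        simp only [hz, hx, Function.comp] at hab
        have h3 : (1 + t * (a : ℕ) : ℝ) ^ 3 = (1 + t * (b : ℕ) : ℝ) ^ 3 := by exact_mod_cast hab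
        have h4 : (1 + t * (a : ℕ) : ℝ) = 1 + t * (b : ℕ) :=
          (pow_left_inj₀ (by positivity) (by positivity) (by norm_num)).mp h3
        have h5 : t * ((a : ℕ) : ℝ) = t * ((b : ℕ) : ℝ) := by linarith
        have h6 := mul_left_cancel₀ ht.ne' h5
        exact Fin.ext (by exact_mod_cast h6)
    have h1 := hform A A (z t) (by simp [hA]) (by simp [hA]) hGn
    rw [vd_eq] at h1
    have hAA : A ++ A = List.replicate (2 * k) 1 := by
      rw [hA, List.replicate_append_replicate]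
      congr 1
      ring
    rw [hAA] at h1
    have hV : (Matrix.vandermonde (z t)).det ≠ 0 := Matrix.det_vandermonde_ne_zero_iff.mpr hzinj
    have hVV : (Matrix.vandermonde (z t)).det * (Matrix.vandermonde (z t)).det ≠ 0 :=
      mul_ne_zero hV hV
    change _ = _ * (_ * (_ / ((Matrix.vandermonde (z t)).det * (Matrix.vandermonde (z t)).det)))
    rw [← mul_div_assoc, ← mul_div_assoc, eq_div_iff hVV]
    exact h1
  have hfin := tendsto_nhds_unique (hGt.congr' heq) hRHS
  rw [List.ofFn_const] at hfin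
  rw [hfin]
  have hw : q ^ (2 * k) * (-q ^ 2) ^ (2 * k) = 1 := by
    rw [← mul_pow, pow_mul, show (q * -q ^ 2) ^ 2 = (q ^ 3) ^ 2 by ring, hq3]
    simp
  rw [hw, mul_one]
  have hRR : RR N (2 * k) 0 = ‖Dl N (2 * k) 1‖ := by
    unfold RR
    simp
  rw [hRR]
  obtain ⟨n1, n2, n3, -⟩ := norms hq
  have hs : 0 < Real.sqrt 3 := Real.sqrt_pos.2 (by norm_num)
  have hs2 : Real.sqrt 3 ^ 2 = 3 := Real.sq_sqrt (by norm_num)
  have hpf := pfq_norm hq k
  have hkk := kap_norm hκ
  simp only [norm_mul, norm_pow, norm_div, norm_neg, n1, n2, n3, norm_one]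
  have e3 : ‖(3 : ℂ)‖ = 3 := by norm_num
  rw [e3]
  obtain ⟨M, hM⟩ : 2 ∣ N * (N - 1) := (Nat.even_mul_pred_self N).two_dvd
  have hex := expo k N n hkN
  rw [hM] at hex ⊢
  rw [Nat.mul_div_cancel_left M (by norm_num)]
  rw [← hA] at hpf
  generalize ‖Dl N (2 * k) 1‖ = D at *
  generalize ‖pfq q A‖ = p1 at *
  generalize ‖pfq (q ^ 2) A‖ = p2 at *
  generalize ‖κ‖ = κ' at *
  generalize Real.sqrt 3 = s at *
  have hsN : s ^ (k + N) ≠ 0 := pow_ne_zero _ hs.ne'
  refine mul_left_cancel₀ hsN ?_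
  have f1 : s ^ (k + N) * (κ' * p1 * p2 * (3 ^ (2 * M) * ((1 / s) ^ N * (1 / 3) ^ M *
      s ^ (2 * k * N) * D))) = (κ' * s ^ k) * (p1 * p2) * ((1 / s * s) ^ N) *
        ((1 / 3 * 3) ^ M * 3 ^ M) * s ^ (2 * k * N) * D := by
    rw [pow_add, mul_pow, mul_pow, two_mul M, pow_add]
    ring
  have f2 : (1 / s * s) = 1 := by rw [one_div, inv_mul_cancel₀ hs.ne']
  rw [f1, f2, hkk, hpf]
  have f3 : (3 : ℝ) ^ M = s ^ (2 * M) := by rw [pow_mul, hs2]
  have f4 : (3 : ℝ) ^ (2 * n * (n - 1)) = s ^ (2 * (2 * n * (n - 1))) := by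
    rw [pow_mul s 2, hs2]
  have f5 : (1 / 3 * 3 : ℝ) = 1 := by norm_num
  have f6 : s ^ (k * (k - 1)) * s ^ (2 * M) * s ^ (2 * k * N) =
      s ^ (2 * (2 * n * (n - 1))) * s ^ (k + N) := by
    rw [← pow_add, ← pow_add, hex, pow_add]
  rw [f3, f4, f5, one_pow, one_pow]
  linear_combination D * f6

end Pool.Agent.H160R2.ML
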