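import Pool.Agent.H160R2.ML.Stm

/-!
# Many legs: the identity `S_I` continued to `l = -1`
-/

set_option autoImplicit false

namespace Pool.Agent.H160R2.ML

namespace TI0

open Polynomial

/-- the entry `binom (x + i + j) j` as a polynomial in `x` -/
noncomputable def bp (i j : ℕ) : ℂ[X] :=
  C ((j.factorial : ℂ)⁻¹) * ∏ t ∈ Finset.range j, (X + C ((i : ℂ) + (t : ℂ) + 1))

/-- the matrix over polynomials -/
noncomputable def PM (N : ℕ) (ω : ℂ) : Matrix (Fin N) (Fin N) ℂ[X] :=
  Matrix.of fun i j : Fin N => (if i = j then 1 else 0) + C ω * bp i.val j.val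

/-- the determinant as a polynomial -/
noncomputable def PD (N : ℕ) (ω : ℂ) : ℂ[X] := (PM N ω).det

theorem eval_PD (N : ℕ) (ω x : ℂ) : (PD N ω).eval x =
    (Matrix.of fun i j : Fin N => (if i = j then (1 : ℂ) else 0)
      + ω * (((j.val.factorial : ℂ)⁻¹) * ∏ t ∈ Finset.range j.val,
        (x + ((i.val : ℂ) + (t : ℂ) + 1)))).det := by
  unfold PD
  rw [← Polynomial.coe_evalRingHom, RingHom.map_det]
  congr 1
  ext i j
  simp only [RingHom.mapMatrix_apply, Matrix.map_apply, PM, Matrix.of_apply, bp]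
  rw [map_add, map_mul, map_mul, map_prod]
  simp only [Polynomial.coe_evalRingHom, eval_C, eval_add, eval_X]
  split_ifs <;> simp

theorem prod_nat (l i j : ℕ) : ((j.factorial : ℂ)⁻¹) * ∏ t ∈ Finset.range j,
    ((l : ℂ) + ((i : ℂ) + (t : ℂ) + 1)) = ((l + i + j).choose j : ℂ) := by
  have h1 : ∏ t ∈ Finset.range j, ((l : ℂ) + ((i : ℂ) + (t : ℂ) + 1))
      = (((l + i + 1).ascFactorial j : ℕ) : ℂ) := by
    rw [Nat.ascFactorial_eq_prod_range]
    push_cast
    apply Finset.prod_congr rfl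
    intro t _
    ring
  rw [h1, Nat.ascFactorial_eq_factorial_mul_choose]
  push_cast
  have h2 : (j.factorial : ℂ) ≠ 0 := by
    exact_mod_cast Nat.factorial_ne_zero j
  field_simp

theorem eval_nat (N l : ℕ) (ω : ℂ) : (PD N ω).eval (l : ℂ) = Dl N l ω := by
  rw [eval_PD]
  unfold Dl
  congr 1
  ext i j
  simp only [Matrix.of_apply]
  rw [prod_nat]

theorem eval_neg (N : ℕ) (ω : ℂ) : (PD (N + 1) ω).eval (-1 : ℂ) = (1 + ω) * Dl N 1 ω := by
  rw [eval_PD, Matrix.det_succ_row_zero, Fin.sum_univ_succ]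
  have h0 : ∀ j : Fin N, ((((Fin.succ j).val).factorial : ℂ)⁻¹)
      * ∏ t ∈ Finset.range (Fin.succ j).val,
        ((-1 : ℂ) + ((((0 : Fin (N + 1)).val : ℕ) : ℂ) + (t : ℂ) + 1)) = 0 := by
    intro j
    rw [Finset.prod_eq_zero (i := 0)]
    · simp
    · simp
    · simp
  rw [Finset.sum_eq_zero, add_zero]
  · simp only [Fin.val_zero, pow_zero, one_mul, Matrix.of_apply]
    have h1 : ((if True then (1 : ℂ) else 0)
        + ω * ((((0 : ℕ).factorial : ℂ)⁻¹) * ∏ t ∈ Finset.range 0,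
        ((-1 : ℂ) + (((0 : ℕ) : ℂ) + (t : ℂ) + 1)))) = 1 + ω := by
      simp
    rw [h1]
    congr 1
    unfold Dl
    rw [← Matrix.det_transpose]
    congr 1
    ext i j
    simp only [Matrix.transpose_apply, Matrix.submatrix_apply, Matrix.of_apply,
      Fin.succAbove_zero, Fin.succ_inj, Fin.val_succ]
    have h2 : ((((i.val + 1).factorial : ℂ)⁻¹) * ∏ t ∈ Finset.range (i.val + 1),
        ((-1 : ℂ) + (((j.val + 1 : ℕ) : ℂ) + (t : ℂ) + 1)))
        = ((1 + i.val + j.val).choose j.val : ℂ) := by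
      have h3 := prod_nat 0 j.val (i.val + 1)
      rw [show (1 + i.val + j.val).choose j.val = (0 + j.val + (i.val + 1)).choose (i.val + 1) by
        rw [show 1 + i.val + j.val = j.val + (i.val + 1) by ring,
          show 0 + j.val + (i.val + 1) = j.val + (i.val + 1) by ring]
        exact Nat.choose_symm_add]
      rw [← h3]
      congr 1
      apply Finset.prod_congr rfl
      intro t _
      push_cast
      ring
    rw [h2]
    by_cases h : i = j
    · rw [if_pos h, if_pos h.symm]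
    · rw [if_neg h, if_neg (fun h' => h h'.symm)]
  · intro j _
    have h3 : (Matrix.of fun i j : Fin (N + 1) => (if i = j then (1 : ℂ) else 0)
      + ω * (((j.val.factorial : ℂ)⁻¹) * ∏ t ∈ Finset.range j.val,
        ((-1 : ℂ) + ((i.val : ℂ) + (t : ℂ) + 1)))) 0 (Fin.succ j) = 0 := by
      simp only [Matrix.of_apply]
      rw [h0 j, if_neg (Fin.succ_ne_zero j).symm]
      simp
    rw [h3]
    simp

end TI0

open TI0 Polynomial in
theorem t_I0 : S_I → S_I0 := by
  intro hI q hq N ω hω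
  set F : ℂ[X] := PD (N + 1) (q * ω) * PD N ω - C (q ^ 2) * PD N (q * ω) * PD (N + 1) ω
    - C (1 - q ^ 2) * (PD N (-q ^ 2 * ω)).comp (X + 1) * (PD (N + 1) (-q ^ 2 * ω)).comp (X - 1)
    with hF
  have hev : ∀ x : ℂ, F.eval x = (PD (N + 1) (q * ω)).eval x * (PD N ω).eval x
      - q ^ 2 * (PD N (q * ω)).eval x * (PD (N + 1) ω).eval x
      - (1 - q ^ 2) * (PD N (-q ^ 2 * ω)).eval (x + 1)
        * (PD (N + 1) (-q ^ 2 * ω)).eval (x - 1) := by
    intro x
    rw [hF]
    simp only [eval_sub, eval_mul, eval_C, eval_comp, eval_add, eval_X, eval_one]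
  have hF0 : F = 0 := by
    apply Polynomial.eq_zero_of_infinite_isRoot
    refine Set.Infinite.mono ?_ (Set.infinite_range_of_injective
      (f := fun l : ℕ => ((l + 1 : ℕ) : ℂ)) ?_)
    · rintro _ ⟨l, rfl⟩
      show F.IsRoot _
      rw [Polynomial.IsRoot.def, hev]
      have e1 : (((l + 1 : ℕ) : ℂ) + 1) = ((l + 2 : ℕ) : ℂ) := by
        push_cast; ring
      have e2 : (((l + 1 : ℕ) : ℂ) - 1) = ((l : ℕ) : ℂ) := by
        push_cast; ring
      rw [e1, e2, eval_nat, eval_nat, eval_nat, eval_nat, eval_nat, eval_nat]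
      have h := hI q hq N l ω hω
      rw [← h]
      ring
    · intro a b h
      have h' : ((a + 1 : ℕ) : ℂ) = ((b + 1 : ℕ) : ℂ) := h
      have h2 : a + 1 = b + 1 := by exact_mod_cast h'
      omega
  have h0 := hev 0
  rw [hF0, eval_zero] at h0
  have e1 : ((0 : ℂ) + 1) = ((1 : ℕ) : ℂ) := by push_cast; ring
  have e2 : ((0 : ℂ) - 1) = -1 := by ring
  have e3 : (0 : ℂ) = ((0 : ℕ) : ℂ) := by push_cast; ring
  rw [e1, e2, eval_neg, eval_nat] at h0
  have e4 : ∀ (M : ℕ) (w : ℂ), (PD M w).eval 0 = Dl M 0 w := by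
    intro M w
    have := eval_nat M 0 w
    rwa [Nat.cast_zero] at this
  rw [e4, e4, e4, e4] at h0
  have h5 := sub_eq_zero.mp h0.symm
  rw [h5]
  ring

end Pool.Agent.H160R2.ML
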