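import Pool.Agent.H160R2.ML.Stm

/-!
# Task IH: the inhomogeneous bilinear identity
-/

set_option autoImplicit false

namespace Pool.Agent.H160R2.ML
open Pool.Agent.H863R2.Cyl
open Pool.Agent.H988R2.Perc (Word PD)
open Filter Topology

namespace TIH

theorem lg_cons (C : List ℂ) (a s u : ℂ) : lg (a :: C) s u = (a - s * u) * lg C s u := by
  simp [lg]

theorem lg_ne (C : List ℂ) (s u : ℂ) (h : ∀ a ∈ C, a ≠ s * u) : lg C s u ≠ 0 := by
  unfold lg
  refine List.prod_ne_zero ?_
  intro h0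
  rw [List.mem_map] at h0
  obtain ⟨a, ha, h1⟩ := h0
  exact h a ha (sub_eq_zero.1 h1)

end TIH

theorem t_IH : S_TP → S_RP → S_TD → S_KP → S_IH := by
  intro hTP hRP hTD hKP q w hq hw C N x z hG hC
  have hq0 : q ≠ 0 := by
    rintro rfl
    norm_num at hq
  have hx0 : x ≠ 0 := by
    have := hG.1 0
    simpa using this
  have hxz : ∀ j, x ≠ z j := by
    intro j h
    have := hG.2.1 0 j.succ (Fin.succ_ne_zero j).symm
    rw [Fin.cons_zero, Fin.cons_succ] at this
    exact this h
  set Z : Fin (N + 1) → ℂ := Fin.cons x z with hZ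
  -- KP
  have kp := hKP q w hq C (N + 1) Z hG 0 x (q * x)
  simp only [← hTD q w hq _ (N + 1) Z hG] at kp
  -- removal of the leg at zero
  have hP0 : (∏ j, (-(q * Z j))) ≠ 0 := by
    rw [Finset.prod_ne_zero_iff]
    intro j _
    exact neg_ne_zero.2 (mul_ne_zero hq0 (hG.1 j))
  have z1 : ∀ D : List ℂ, T q w (0 :: D) Z = (∏ j, (-(q * Z j))) * T q (q * w) D Z := fun D =>
    (hTP q w D (N + 1) Z).2.2.2.2.2 hq hG.1
  have p1 : T q w (q * x :: 0 :: C) Z = T q w (0 :: q * x :: C) Z :=
      ((hTP q w (q * x :: 0 :: C) (N + 1) Z).2.2.1 _ (List.Perm.swap _ _ _)).1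
  have p2 : T q w (x :: q * x :: C) Z = T q w (q * x :: x :: C) Z :=
    ((hTP q w (x :: q * x :: C) (N + 1) Z).2.2.1 _ (List.Perm.swap _ _ _)).1
  rw [p1, p2, z1, z1, z1] at kp
  -- recursion
  have r1 := hRP q w hq C N x z hG
  have r2 := hRP q w hq (x :: C) N x z hG
  have r3 := hRP q (q * w) hq C N x z hG
  rw [TIH.lg_cons] at r2
  have hl : lg C (q ^ 2) x ≠ 0 := TIH.lg_ne C _ _ hC
  have hPi : (∏ j, (x - z j) ^ 2) ≠ 0 := by
    rw [Finset.prod_ne_zero_iff]
    intro j _
    exact pow_ne_zero _ (sub_ne_zero.2 (hxz j))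
  rw [← hZ] at r1 r2 r3
  generalize (∏ j, (-(q * Z j))) = P0 at *
  generalize (∏ j, ((q ^ 2 * x - q * z j) * (x - q ^ 2 * z j))) = P1 at *
  generalize (∏ j, (x - z j) ^ 2) = P2 at *
  generalize lg C (q ^ 2) x = ℓ at *
  generalize T q (q * w) (x :: C) Z = A at *
  generalize T q (q * w) C Z = B at *
  generalize T q w (x :: C) Z = D at *
  generalize T q w (x :: C) z = E at *
  generalize T q w (x :: x :: C) z = F at *
  generalize T q (q * w) (x :: C) z = G at *
  generalize T q w (q * x :: C) Z = U at *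
  generalize T q w (q * x :: x :: C) Z = V at *
  generalize T q (q * w) (q * x :: C) Z = W at *
  have hq3 : q ^ 3 = 1 := by linear_combination (q - 1) * hq
  have hk : P0 * (-x * A * U + (x - q * x) * V * B + q * x * W * D) = 0 := by
    linear_combination kp
  have hk1 : -x * A * U + (x - q * x) * V * B + q * x * W * D = 0 :=
    (mul_eq_zero.1 hk).resolve_left hP0
  have key : (w * ℓ * P2 * x) * (A * E - q ^ 2 * G * D - 3 * x * F * B) = 0 := by
    have h3 : (x - q * x) * (x - q ^ 2 * x) = 3 * x ^ 2 := by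
      linear_combination (x ^ 2 * (q - 2)) * hq
    linear_combination P1 * hk1 + x * A * r1 - (x - q * x) * B * r2 - q * x * D * r3
      + (w * ℓ * P2 * F * B) * h3
  have hne : w * ℓ * P2 * x ≠ 0 := mul_ne_zero (mul_ne_zero (mul_ne_zero hw hl) hPi) hx0
  have := (mul_eq_zero.1 key).resolve_left hne
  linear_combination this

end Pool.Agent.H160R2.ML
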