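import Pool.Agent.H160R2.ML.Stm

/-! Task IL: interlacing of the eigenvalues of `binom(l+i+j, j)` -/

set_option autoImplicit false

namespace Pool.Agent.H160R2.ML
open Finset

namespace TIL

/-- real matrix `binom(l+i+j, j)` -/
noncomputable def Am (N l : ℕ) : Matrix (Fin N) (Fin N) ℝ :=
  Matrix.of fun i j : Fin N => ((l + i.val + j.val).choose j.val : ℝ)

/-- `i! (l+i)!` -/
noncomputable def fc (l i : ℕ) : ℝ := (Nat.factorial i : ℝ) * (Nat.factorial (l + i) : ℝ)

theorem fc_pos (l i : ℕ) : 0 < fc l i := by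
  unfold fc
  positivity

/-- symmetrised matrix -/
noncomputable def Sm (N l : ℕ) : Matrix (Fin N) (Fin N) ℝ :=
  Matrix.of fun i j : Fin N => (Nat.factorial (l + i.val + j.val) : ℝ) /
    (Real.sqrt (fc l i) * Real.sqrt (fc l j))

theorem Sm_herm (N l : ℕ) : (Sm N l).IsHermitian := by
  ext i j
  simp only [Sm, Matrix.conjTranspose_apply, Matrix.of_apply, star_trivial]
  rw [mul_comm (Real.sqrt (fc l j)), show l + j.val + i.val = l + i.val + j.val by omega]

/-- the scaling -/
noncomputable def dg (l i : ℕ) : ℝ := Real.sqrt ((Nat.factorial (l + i) : ℝ) / (Nat.factorial i : ℝ))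

theorem dg_pos (l i : ℕ) : 0 < dg l i := by
  unfold dg
  positivity

theorem Sm_conj (N l : ℕ) (i j : Fin N) : dg l i * Am N l i j = Sm N l i j * dg l j := by
  have h1 : (Am N l i j) = (Nat.factorial (l + i.val + j.val) : ℝ) /
      ((Nat.factorial j.val : ℝ) * (Nat.factorial (l + i.val) : ℝ)) := by
    simp only [Am, Matrix.of_apply]
    rw [Nat.cast_choose ℝ (show j.val ≤ l + i.val + j.val by omega),
      show l + i.val + j.val - j.val = l + i.val by omega]
  have hi : (0 : ℝ) < Nat.factorial i.val := by positivity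
  have hj : (0 : ℝ) < Nat.factorial j.val := by positivity
  have hli : (0 : ℝ) < Nat.factorial (l + i.val) := by positivity
  have hlj : (0 : ℝ) < Nat.factorial (l + j.val) := by positivity
  rw [h1]
  simp only [Sm, Matrix.of_apply, dg, fc]
  rw [Real.sqrt_mul hi.le, Real.sqrt_mul hj.le, Real.sqrt_div hli.le, Real.sqrt_div hlj.le]
  have e1 := Real.mul_self_sqrt hi.le
  have e2 := Real.mul_self_sqrt hj.le
  have e3 := Real.mul_self_sqrt hli.le
  have e4 := Real.mul_self_sqrt hlj.le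
  have p1 := Real.sqrt_pos.2 hi
  have p2 := Real.sqrt_pos.2 hj
  have p3 := Real.sqrt_pos.2 hli
  have p4 := Real.sqrt_pos.2 hlj
  generalize Real.sqrt (Nat.factorial i.val : ℝ) = a at *
  generalize Real.sqrt (Nat.factorial j.val : ℝ) = b at *
  generalize Real.sqrt (Nat.factorial (l + i.val) : ℝ) = c at *
  generalize Real.sqrt (Nat.factorial (l + j.val) : ℝ) = d at *
  rw [← e2, ← e3]
  field_simp

theorem charpoly_eq (N l : ℕ) : (Am N l).charpoly = (Sm N l).charpoly := by
  set D : Matrix (Fin N) (Fin N) ℝ := Matrix.diagonal fun i => dg l i with hD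
  set E : Matrix (Fin N) (Fin N) ℝ := Matrix.diagonal fun i => (dg l i)⁻¹ with hE
  have h1 : D * E = 1 := by
    rw [hD, hE, Matrix.diagonal_mul_diagonal, ← Matrix.diagonal_one]
    congr 1
    funext i
    exact mul_inv_cancel₀ (dg_pos l i).ne'
  have h2 : E * D = 1 := by
    rw [hD, hE, Matrix.diagonal_mul_diagonal, ← Matrix.diagonal_one]
    congr 1
    funext i
    exact inv_mul_cancel₀ (dg_pos l i).ne'
  have h3 : D * Am N l = Sm N l * D := by
    ext i j
    rw [hD, Matrix.diagonal_mul, Matrix.mul_diagonal]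
    exact Sm_conj N l i j
  let U : (Matrix (Fin N) (Fin N) ℝ)ˣ := ⟨D, E, h1, h2⟩
  have h4 := Matrix.charpoly_units_conj U (Am N l)
  have h5 : (U : Matrix (Fin N) (Fin N) ℝ) * Am N l * (U : Matrix (Fin N) (Fin N) ℝ)⁻¹ = Sm N l := by
    have e1 : (U : Matrix (Fin N) (Fin N) ℝ) = D := rfl
    have e2 : (D : Matrix (Fin N) (Fin N) ℝ)⁻¹ = E := Matrix.inv_eq_right_inv h1
    rw [e1, e2, h3, Matrix.mul_assoc, h1, Matrix.mul_one]
  rw [h5] at h4
  exact h4.symm

theorem Dl_real (N l : ℕ) (t : ℝ) : Dl N l (t : ℂ) = ((1 + t • Am N l).det : ℝ) := by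
  have h : (Matrix.of fun i j : Fin N => (if i = j then 1 else 0)
    + (t : ℂ) * ((l + i.val + j.val).choose j.val : ℂ)) =
      (Complex.ofRealHom).mapMatrix (1 + t • Am N l) := by
    ext i j
    simp only [Matrix.of_apply, RingHom.mapMatrix_apply, Matrix.map_apply, Matrix.add_apply,
      Matrix.smul_apply, Am, Matrix.one_apply, smul_eq_mul, Complex.ofRealHom_eq_coe]
    split_ifs <;> simp
  unfold Dl
  rw [h, ← RingHom.map_det]
  rfl

theorem eig_eval (N l : ℕ) (u : Fin N → ℝ) (hu : ∀ ω : ℂ, Dl N l ω = ∏ i, (1 + ω * (Real.exp (u i) : ℂ)))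
    (t : ℝ) (ht : t ≠ 0) : (Sm N l).charpoly.eval t = ∏ i, (t - Real.exp (u i)) := by
  have h1 := hu ((-t⁻¹ : ℝ) : ℂ)
  rw [Dl_real] at h1
  have h2 : (1 + (-t⁻¹) • Am N l).det = ∏ i, (1 + (-t⁻¹) * Real.exp (u i)) := by
    have h3 : ((∏ i, (1 + (-t⁻¹) * Real.exp (u i)) : ℝ) : ℂ) =
        ∏ i, (1 + ((-t⁻¹ : ℝ) : ℂ) * (Real.exp (u i) : ℂ)) := by
      push_cast
      rfl
    rw [← h3] at h1
    exact_mod_cast h1
  rw [← charpoly_eq, Matrix.eval_charpoly]
  have h4 : Matrix.scalar (Fin N) t - Am N l = t • (1 + (-t⁻¹) • Am N l) := by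
    rw [smul_add, smul_smul, mul_neg, mul_inv_cancel₀ ht, neg_smul, one_smul, sub_eq_add_neg]
    congr 1
    rw [Matrix.scalar_apply, Matrix.smul_one_eq_diagonal]
  rw [h4, Matrix.det_smul, h2, Fintype.card_fin]
  have h5 : t ^ N = ∏ _i : Fin N, t := by simp
  rw [h5, ← Finset.prod_mul_distrib]
  apply Finset.prod_congr rfl
  intro i _
  field_simp
  ring

open Polynomial in
theorem roots_eq (N l : ℕ) (u : Fin N → ℝ) (hu : ∀ ω : ℂ, Dl N l ω = ∏ i, (1 + ω * (Real.exp (u i) : ℂ))) :
    (Sm N l).charpoly.roots = Multiset.map (fun i => Real.exp (u i)) Finset.univ.val := by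
  have h1 : (Sm N l).charpoly = ∏ i, (X - C (Real.exp (u i))) := by
    apply Polynomial.eq_of_infinite_eval_eq
    have h2 : {t : ℝ | t ≠ 0} ⊆ {x | eval x (Sm N l).charpoly = eval x (∏ i, (X - C (Real.exp (u i))))} := by
      intro t ht
      rw [Set.mem_ofPred_eq, eig_eval N l u hu t ht, Polynomial.eval_prod]
      apply Finset.prod_congr rfl
      intro i _
      simp
    refine Set.Infinite.mono h2 ?_
    have h3 : {t : ℝ | t ≠ 0} = {(0:ℝ)}ᶜ := rfl
    rw [h3]
    exact (Set.finite_singleton (0:ℝ)).infinite_compl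
  rw [h1, Polynomial.roots_prod]
  · simp only [Polynomial.roots_X_sub_C, Multiset.bind_singleton]
  · exact Finset.prod_ne_zero_iff.2 fun i _ => Polynomial.X_sub_C_ne_zero _

/-- counting -/
theorem count_eq (N l : ℕ) (u : Fin N → ℝ) (hu : ∀ ω : ℂ, Dl N l ω = ∏ i, (1 + ω * (Real.exp (u i) : ℂ)))
    (c : ℝ) : (univ.filter fun i => c ≤ Real.exp (u i)).card =
      (univ.filter fun i => c ≤ (Sm_herm N l).eigenvalues i).card := by
  have h1 := roots_eq N l u hu
  have h2 := (Sm_herm N l).roots_charpoly_eq_eigenvalues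
  rw [h1] at h2
  have h3 := congrArg (Multiset.countP (fun x => c ≤ x)) h2
  rw [Multiset.countP_map, Multiset.countP_map] at h3
  exact h3

theorem quad_eq {n : ℕ} (A : Matrix (Fin n) (Fin n) ℝ) (hA : A.IsHermitian)
    (y : EuclideanSpace ℝ (Fin n)) :
    inner ℝ y (Matrix.toEuclideanLin A y) =
      ∑ i, hA.eigenvalues i * inner ℝ (hA.eigenvectorBasis i) y ^ 2 := by
  rw [← hA.eigenvectorBasis.sum_inner_mul_inner]
  apply Finset.sum_congr rfl
  intro i _
  have hs : (Matrix.toEuclideanLin A).IsSymmetric := Matrix.isSymmetric_toEuclideanLin_iff.mpr hA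
  have h1 : Matrix.toEuclideanLin A (hA.eigenvectorBasis i) =
      hA.eigenvalues i • hA.eigenvectorBasis i := by
    have h := hA.mulVec_eigenvectorBasis i
    have h2 : (Matrix.toEuclideanLin A (hA.eigenvectorBasis i)).ofLp =
        A.mulVec (hA.eigenvectorBasis i).ofLp := rfl
    ext j
    rw [h2, h]
    rfl
  rw [← hs (hA.eigenvectorBasis i) y, h1, inner_smul_left, real_inner_comm y]
  simp only [conj_trivial]
  ring

/-- comparison of counts -/
theorem count_le {n m : ℕ} (A : Matrix (Fin n) (Fin n) ℝ) (hA : A.IsHermitian)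
    (B : Matrix (Fin m) (Fin m) ℝ) (hB : B.IsHermitian)
    (φ : EuclideanSpace ℝ (Fin n) →ₗ[ℝ] EuclideanSpace ℝ (Fin m)) (hφ : Function.Injective φ)
    (hφn : ∀ x, ‖φ x‖ ≤ ‖x‖)
    (hq : ∀ x, inner ℝ x (Matrix.toEuclideanLin A x) = inner ℝ (φ x) (Matrix.toEuclideanLin B (φ x)))
    (c : ℝ) (hc : 0 < c) :
    (univ.filter fun i => c ≤ hA.eigenvalues i).card ≤
      (univ.filter fun i => c ≤ hB.eigenvalues i).card := by
  classical
  set S := univ.filter fun i => c ≤ hA.eigenvalues i with hS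
  set T := univ.filter fun i => c ≤ hB.eigenvalues i with hT
  let Ψ : (S → ℝ) →ₗ[ℝ] EuclideanSpace ℝ (Fin n) :=
    Fintype.linearCombination ℝ (fun i : S => hA.eigenvectorBasis (i : Fin n))
  have hΨ : ∀ x, Ψ x = ∑ e : S, x e • hA.eigenvectorBasis (e : Fin n) :=
    fun x => Fintype.linearCombination_apply ℝ _ x
  let Θ : (S → ℝ) →ₗ[ℝ] (T → ℝ) :=
    { toFun := fun a j => inner ℝ (hB.eigenvectorBasis j) (φ (Ψ a))
      map_add' := fun v w => by
        funext i
        simp [inner_add_right]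
      map_smul' := fun a v => by
        funext i
        simp [inner_smul_right] }
  have hin : ∀ (a : S → ℝ) (j : Fin n), inner ℝ (hA.eigenvectorBasis j) (Ψ a) =
      if h : j ∈ S then a ⟨j, h⟩ else 0 := by
    intro a j
    rw [hΨ, inner_sum]
    simp only [inner_smul_right]
    have ho := orthonormal_iff_ite.1 hA.eigenvectorBasis.orthonormal
    simp only [ho]
    split_ifs with h
    · rw [Finset.sum_eq_single (⟨j, h⟩ : S)]
      · simp
      · intro b _ hb
        rw [if_neg, mul_zero]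
        intro hjb
        exact hb (Subtype.ext hjb.symm)
      · intro h'
        exact absurd (mem_univ _) h'
    · apply Finset.sum_eq_zero
      intro b _
      rw [if_neg, mul_zero]
      intro hjb
      exact h (hjb ▸ b.2)
  have hinj : Function.Injective Θ := by
    rw [← LinearMap.ker_eq_bot, LinearMap.ker_eq_bot']
    intro a ha
    have h0 : ∀ j ∈ T, inner ℝ (hB.eigenvectorBasis j) (φ (Ψ a)) = 0 :=
      fun j hj => congrFun ha ⟨j, hj⟩
    have h1 : c * ‖Ψ a‖ ^ 2 ≤ inner ℝ (Ψ a) (Matrix.toEuclideanLin A (Ψ a)) := by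
      rw [quad_eq A hA, ← hA.eigenvectorBasis.sum_sq_norm_inner_right (Ψ a), Finset.mul_sum]
      apply Finset.sum_le_sum
      intro j _
      rw [Real.norm_eq_abs, sq_abs, hin a j]
      split_ifs with h
      · have h2 : c ≤ hA.eigenvalues j := (mem_filter.1 h).2
        exact mul_le_mul_of_nonneg_right h2 (sq_nonneg _)
      · simp
    have h2 : inner ℝ (φ (Ψ a)) (Matrix.toEuclideanLin B (φ (Ψ a))) ≤ c * ‖φ (Ψ a)‖ ^ 2 := by
      rw [quad_eq B hB, ← hB.eigenvectorBasis.sum_sq_norm_inner_right (φ (Ψ a)), Finset.mul_sum]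
      apply Finset.sum_le_sum
      intro j _
      rw [Real.norm_eq_abs, sq_abs]
      by_cases h : j ∈ T
      · rw [h0 j h]; simp
      · have h3 : hB.eigenvalues j < c := by
          rw [hT, mem_filter] at h
          push Not at h
          exact h (mem_univ j)
        exact mul_le_mul_of_nonneg_right h3.le (sq_nonneg _)
    have h3 : c * ‖φ (Ψ a)‖ ^ 2 ≤ c * ‖Ψ a‖ ^ 2 := by
      apply mul_le_mul_of_nonneg_left _ hc.le
      exact pow_le_pow_left₀ (norm_nonneg _) (hφn _) 2
    have h4 : inner ℝ (φ (Ψ a)) (Matrix.toEuclideanLin B (φ (Ψ a))) = c * ‖φ (Ψ a)‖ ^ 2 := by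
      have := hq (Ψ a)
      linarith
    rw [quad_eq B hB, ← hB.eigenvectorBasis.sum_sq_norm_inner_right (φ (Ψ a)), Finset.mul_sum] at h4
    simp only [Real.norm_eq_abs, sq_abs] at h4
    have h5 : ∀ j ∈ (univ : Finset (Fin m)), hB.eigenvalues j * inner ℝ (hB.eigenvectorBasis j) (φ (Ψ a)) ^ 2 ≤
        c * inner ℝ (hB.eigenvectorBasis j) (φ (Ψ a)) ^ 2 := by
      intro j _
      by_cases h : j ∈ T
      · rw [h0 j h]; simp
      · have h3 : hB.eigenvalues j < c := by
          rw [hT, mem_filter] at h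
          push Not at h
          exact h (mem_univ j)
        exact mul_le_mul_of_nonneg_right h3.le (sq_nonneg _)
    have h6 := (Finset.sum_eq_sum_iff_of_le h5).1 h4
    have h7 : ∀ j, inner ℝ (hB.eigenvectorBasis j) (φ (Ψ a)) = 0 := by
      intro j
      by_cases h : j ∈ T
      · exact h0 j h
      · have h3 : hB.eigenvalues j < c := by
          rw [hT, mem_filter] at h
          push Not at h
          exact h (mem_univ j)
        have h8 := h6 j (mem_univ j)
        have h9 : (c - hB.eigenvalues j) * inner ℝ (hB.eigenvectorBasis j) (φ (Ψ a)) ^ 2 = 0 := by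
          linarith
        rcases mul_eq_zero.1 h9 with h | h
        · linarith
        · exact pow_eq_zero_iff (n := 2) (by norm_num) |>.1 h
    have h8 : ‖φ (Ψ a)‖ ^ 2 = 0 := by
      rw [← hB.eigenvectorBasis.sum_sq_norm_inner_right (φ (Ψ a))]
      exact Finset.sum_eq_zero fun i _ => by rw [h7 i]; simp
    have h9 : φ (Ψ a) = 0 := norm_eq_zero.1 (pow_eq_zero_iff (n := 2) (by norm_num) |>.1 h8)
    have h10 : Ψ a = 0 := hφ (by rw [h9, map_zero])
    funext i
    have h11 := hin a i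
    rw [h10, inner_zero_right, dif_pos i.2] at h11
    exact h11.symm
  have h := LinearMap.finrank_le_finrank_of_injective hinj
  rw [Module.finrank_fintype_fun_eq_card, Module.finrank_fintype_fun_eq_card, Fintype.card_coe,
    Fintype.card_coe] at h
  exact h

/-- `sqrt ((i+1)/(l+2+i))` -/
noncomputable def cc (l i : ℕ) : ℝ := Real.sqrt (((i : ℝ) + 1) / ((l : ℝ) + 2 + i))

theorem cc_pos (l i : ℕ) : 0 < cc l i := by
  unfold cc
  positivity

theorem cc_le (l i : ℕ) : cc l i ≤ 1 := by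
  unfold cc
  have h : ((i : ℝ) + 1) / ((l : ℝ) + 2 + i) ≤ 1 := by
    rw [div_le_one (by positivity)]
    have : (0 : ℝ) ≤ l := by positivity
    linarith
  have h2 := Real.sqrt_le_sqrt h
  rwa [Real.sqrt_one] at h2

theorem Sm_cc (N l : ℕ) (i j : Fin N) :
    Sm N (l + 2) i j = cc l i * cc l j * Sm (N + 1) l i.succ j.succ := by
  have key : ∀ i : ℕ, Real.sqrt (fc l (i + 1)) = cc l i * Real.sqrt (fc (l + 2) i) := by
    intro i
    unfold cc
    rw [← Real.sqrt_mul (by positivity)]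
    congr 1
    unfold fc
    have h1 : (Nat.factorial (i + 1) : ℝ) = ((i : ℝ) + 1) * (Nat.factorial i : ℝ) := by
      rw [Nat.factorial_succ]; push_cast; ring
    have h2 : (Nat.factorial (l + 2 + i) : ℝ) = ((l : ℝ) + 2 + i) * (Nat.factorial (l + (i + 1)) : ℝ) := by
      rw [show l + 2 + i = (l + (i + 1)) + 1 by omega, Nat.factorial_succ]; push_cast; ring
    rw [h1, h2]
    have : (0 : ℝ) < (l : ℝ) + 2 + i := by positivity
    field_simp
  simp only [Sm, Matrix.of_apply, Fin.val_succ]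
  rw [key, key, show l + (i.val + 1) + (j.val + 1) = l + 2 + i.val + j.val by omega]
  have p1 := cc_pos l i
  have p2 := cc_pos l j
  have p3 := Real.sqrt_pos.2 (fc_pos (l + 2) i)
  have p4 := Real.sqrt_pos.2 (fc_pos (l + 2) j)
  field_simp

/-- the embedding -/
noncomputable def ph (N l : ℕ) : EuclideanSpace ℝ (Fin N) →ₗ[ℝ] EuclideanSpace ℝ (Fin (N + 1)) where
  toFun x := WithLp.toLp 2 (Fin.cons 0 fun i : Fin N => cc l i * x i)
  map_add' x y := by
    ext i
    refine Fin.cases ?_ (fun i => ?_) i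
    · simp
    · simp [mul_add]
  map_smul' a x := by
    ext i
    refine Fin.cases ?_ (fun i => ?_) i
    · simp
    · simp only [PiLp.smul_apply, Fin.cons_succ, smul_eq_mul, RingHom.id_apply]
      ring

theorem ph_zero (N l : ℕ) (x : EuclideanSpace ℝ (Fin N)) : ph N l x 0 = 0 := rfl

theorem ph_succ (N l : ℕ) (x : EuclideanSpace ℝ (Fin N)) (i : Fin N) :
    ph N l x i.succ = cc l i * x i := rfl

theorem ph_inj (N l : ℕ) : Function.Injective (ph N l) := by
  intro x y h
  ext i
  have h1 : ph N l x i.succ = ph N l y i.succ := by rw [h]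
  rw [ph_succ, ph_succ] at h1
  exact mul_left_cancel₀ (cc_pos l i).ne' h1

theorem ph_norm (N l : ℕ) (x : EuclideanSpace ℝ (Fin N)) : ‖ph N l x‖ ≤ ‖x‖ := by
  rw [EuclideanSpace.norm_eq, EuclideanSpace.norm_eq]
  apply Real.sqrt_le_sqrt
  rw [Fin.sum_univ_succ]
  have h0 : ‖ph N l x 0‖ ^ 2 = 0 := by rw [ph_zero]; simp
  rw [h0, zero_add]
  apply Finset.sum_le_sum
  intro i _
  rw [ph_succ, Real.norm_eq_abs, Real.norm_eq_abs, sq_abs, sq_abs, mul_pow]
  have h1 : cc l i ^ 2 ≤ 1 := pow_le_one₀ (cc_pos l i).le (cc_le l i)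
  nlinarith [sq_nonneg (x i)]

theorem inner_toLin {n : ℕ} (A : Matrix (Fin n) (Fin n) ℝ) (x : EuclideanSpace ℝ (Fin n)) :
    inner ℝ x (Matrix.toEuclideanLin A x) = ∑ i, ∑ j, A i j * x i * x j := by
  rw [PiLp.inner_apply]
  apply Finset.sum_congr rfl
  intro i _
  have h : (Matrix.toEuclideanLin A x) i = ∑ j, A i j * x j := rfl
  rw [h]
  simp only [RCLike.inner_apply, conj_trivial]
  rw [Finset.sum_mul]
  apply Finset.sum_congr rfl
  intro j _
  ring

theorem ph_quad (N l : ℕ) (x : EuclideanSpace ℝ (Fin N)) :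
    inner ℝ x (Matrix.toEuclideanLin (Sm N (l + 2)) x) =
      inner ℝ (ph N l x) (Matrix.toEuclideanLin (Sm (N + 1) l) (ph N l x)) := by
  rw [inner_toLin, inner_toLin, Fin.sum_univ_succ]
  have h0 : ∑ j, Sm (N + 1) l 0 j * ph N l x 0 * ph N l x j = 0 := by
    apply Finset.sum_eq_zero
    intro j _
    rw [ph_zero]
    ring
  rw [h0, zero_add]
  apply Finset.sum_congr rfl
  intro i _
  rw [Fin.sum_univ_succ, ph_zero, mul_zero, zero_add]
  apply Finset.sum_congr rfl
  intro j _
  rw [ph_succ, ph_succ, Sm_cc]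
  ring

theorem upper (N l : ℕ) (u : Fin (N + 1) → ℝ) (v : Fin N → ℝ) (hu : IsEig (N + 1) l u)
    (hv : IsEig N (l + 2) v) (i : Fin N) : v i ≤ u i.castSucc := by
  by_contra hlt
  push Not at hlt
  have h1 := count_le (Sm N (l + 2)) (Sm_herm N (l + 2)) (Sm (N + 1) l) (Sm_herm (N + 1) l)
    (ph N l) (ph_inj N l) (ph_norm N l) (ph_quad N l) (Real.exp (v i)) (Real.exp_pos _)
  rw [← count_eq N (l + 2) v hv.2.2, ← count_eq (N + 1) l u hu.2.2] at h1
  have h2 : (i : ℕ) + 1 ≤ (univ.filter fun j => Real.exp (v i) ≤ Real.exp (v j)).card := by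
    have h3 : (Finset.Iic i) ⊆ univ.filter fun j => Real.exp (v i) ≤ Real.exp (v j) := by
      intro j hj
      rw [mem_filter]
      refine ⟨mem_univ _, Real.exp_le_exp.2 (hv.1 (Finset.mem_Iic.1 hj))⟩
    have h4 := Finset.card_le_card h3
    rwa [Fin.card_Iic] at h4
  have h3 : (univ.filter fun j => Real.exp (v i) ≤ Real.exp (u j)).card ≤ (i : ℕ) := by
    have h3 : (univ.filter fun j => Real.exp (v i) ≤ Real.exp (u j)) ⊆ Finset.Iio i.castSucc := by
      intro j hj
      rw [mem_filter] at hj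
      rw [Finset.mem_Iio]
      by_contra hge
      push Not at hge
      have h5 := hu.1 hge
      have h6 := Real.exp_le_exp.1 hj.2
      linarith
    have h4 := Finset.card_le_card h3
    rwa [Fin.card_Iio, Fin.val_castSucc] at h4
  omega

end TIL

theorem t_IL : S_IL := by
  intro N l u v hu hv i
  refine ⟨?_, TIL.upper N l u v hu hv i⟩
  have h1 := TIL.upper N l u v hu hv (Fin.rev i)
  rw [hv.2.1 i] at h1
  have h2 : (Fin.rev i).castSucc = Fin.rev i.succ := by
    rw [Fin.rev_succ]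
  rw [h2, hu.2.1] at h1
  linarith

end Pool.Agent.H160R2.ML
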