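import Pool.Agent.H160R2.ML.Stm

/-! Task KP: the KP (Fay) relation of the diagonal form. -/

set_option autoImplicit false

namespace Pool.Agent.H160R2.ML
open Pool.Agent.H863R2.Cyl
open Pool.Agent.H988R2.Perc (Word PD)
open H974 H906.Cyl
open Filter Topology

namespace TKP

variable {N : ℕ}

/-- diagonal plus Cauchy -/
noncomputable def XX (α β p s : Fin N → ℂ) : Matrix (Fin N) (Fin N) ℂ :=
  Matrix.of fun i j => (if i = j then α j else 0) + β j / (p i - s j)

noncomputable def M1 (α β p s : Fin N → ℂ) (x : ℂ) : Matrix (Fin N) (Fin N) ℂ :=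
  XX (fun j => α j * (x - p j)) (fun j => β j * (x - s j)) p s

noncomputable def M2 (α β p s : Fin N → ℂ) (a b : ℂ) : Matrix (Fin N) (Fin N) ℂ :=
  XX (fun j => α j * ((a - p j) * (b - p j))) (fun j => β j * ((a - s j) * (b - s j))) p s

noncomputable def uu (α β p s : Fin N → ℂ) (x : ℂ) : Fin N → ℂ :=
  (XX α β p s)⁻¹.mulVec (fun j => (x - p j)⁻¹)

lemma X_uu (α β p s : Fin N → ℂ) (h : IsUnit (XX α β p s).det) (x : ℂ) (i : Fin N) :
    ∑ l, XX α β p s i l * uu α β p s x l = (x - p i)⁻¹ := by
  have h1 : (XX α β p s).mulVec (uu α β p s x) = fun j => (x - p j)⁻¹ := by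
    unfold uu
    rw [Matrix.mulVec_mulVec, Matrix.mul_nonsing_inv _ h, Matrix.one_mulVec]
  exact congrFun h1 i

lemma M1_eq (α β p s : Fin N → ℂ) (hps : ∀ i j, p i ≠ s j) (h : IsUnit (XX α β p s).det) (x : ℂ)
    (hx : ∀ j, x - p j ≠ 0) : M1 α β p s x = Matrix.diagonal (fun j => x - p j) *
      (XX α β p s * (1 + Matrix.vecMulVec (uu α β p s x) β)) := by
  ext i j
  rw [Matrix.diagonal_mul, Matrix.mul_add, Matrix.mul_one, Matrix.add_apply, Matrix.mul_apply]
  have h1 : ∑ l, XX α β p s i l * Matrix.vecMulVec (uu α β p s x) β l j = (x - p i)⁻¹ * β j := by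
    rw [← X_uu α β p s h x i, Finset.sum_mul]
    exact Finset.sum_congr rfl fun l _ => by rw [Matrix.vecMulVec_apply]; ring
  rw [h1]
  have h2 : p i - s j ≠ 0 := sub_ne_zero.2 (hps i j)
  have h3 := hx i
  simp only [M1, XX, Matrix.of_apply]
  by_cases hij : i = j
  · subst hij
    simp only [if_true]
    field_simp
    ring
  · simp only [hij, if_false]
    field_simp
    ring

lemma det_M1 (α β p s : Fin N → ℂ) (hps : ∀ i j, p i ≠ s j) (h : IsUnit (XX α β p s).det) (x : ℂ)
    (hx : ∀ j, x - p j ≠ 0) : (M1 α β p s x).det = (∏ j, (x - p j)) * ((XX α β p s).det *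
      (1 + ∑ j, β j * uu α β p s x j)) := by
  rw [M1_eq α β p s hps h x hx, Matrix.det_mul, Matrix.det_diagonal, Matrix.det_mul,
    Matrix.vecMulVec_eq (Fin 1), Matrix.det_one_add_replicateCol_mul_replicateRow]
  rfl

lemma M2_eq (α β p s : Fin N → ℂ) (hps : ∀ i j, p i ≠ s j) (h : IsUnit (XX α β p s).det)
    (a b : ℂ) (ha : ∀ j, a - p j ≠ 0) (hb : ∀ j, b - p j ≠ 0) (hab : a - b ≠ 0) :
    M2 α β p s a b = Matrix.diagonal (fun j => (a - p j) * (b - p j)) *
      (XX α β p s * (1 +
        (Matrix.of fun (j : Fin N) (k : Fin 2) => if k = 0 then uu α β p s b j else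
          (uu α β p s b j - uu α β p s a j) / (a - b)) *
        (Matrix.of fun (k : Fin 2) (j : Fin N) => if k = 0 then β j else β j * (b - s j)))) := by
  ext i j
  rw [Matrix.diagonal_mul, Matrix.mul_add, Matrix.mul_one, Matrix.add_apply, ← Matrix.mul_assoc,
    Matrix.mul_apply (M := _ * _), Fin.sum_univ_two, Matrix.mul_apply, Matrix.mul_apply]
  have h0 : ∑ l, XX α β p s i l * (Matrix.of fun (j : Fin N) (k : Fin 2) =>
      if k = 0 then uu α β p s b j else (uu α β p s b j - uu α β p s a j) / (a - b)) l 0 =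
      (b - p i)⁻¹ := by
    rw [← X_uu α β p s h b i]
    exact Finset.sum_congr rfl fun l _ => by simp
  have h1 : ∑ l, XX α β p s i l * (Matrix.of fun (j : Fin N) (k : Fin 2) =>
      if k = 0 then uu α β p s b j else (uu α β p s b j - uu α β p s a j) / (a - b)) l 1 =
      ((b - p i)⁻¹ - (a - p i)⁻¹) / (a - b) := by
    rw [← X_uu α β p s h b i, ← X_uu α β p s h a i, ← Finset.sum_sub_distrib, Finset.sum_div]
    refine Finset.sum_congr rfl fun l _ => ?_
    simp only [Matrix.of_apply, one_ne_zero, if_false]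
    ring
  rw [h0, h1]
  have h2 : p i - s j ≠ 0 := sub_ne_zero.2 (hps i j)
  have h3 := ha i
  have h4 := hb i
  have h5 : (b - p i)⁻¹ - (a - p i)⁻¹ = (a - b) / ((a - p i) * (b - p i)) := by
    field_simp
    ring
  rw [h5]
  have h6 : (a - b) / ((a - p i) * (b - p i)) / (a - b) = 1 / ((a - p i) * (b - p i)) := by
    field_simp
  rw [h6]
  simp only [M2, XX, Matrix.of_apply, if_true, one_ne_zero, if_false]
  by_cases hij : i = j
  · subst hij
    simp only [if_true]
    field_simp
    ring
  · simp only [hij, if_false]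
    field_simp
    ring

lemma det_M2 (α β p s : Fin N → ℂ) (hps : ∀ i j, p i ≠ s j) (h : IsUnit (XX α β p s).det)
    (a b : ℂ) (ha : ∀ j, a - p j ≠ 0) (hb : ∀ j, b - p j ≠ 0) :
    (a - b) * ((M2 α β p s a b).det * (XX α β p s).det) =
      ((∏ j, (a - p j)) * ((XX α β p s).det * (a + ∑ j, β j * s j * uu α β p s a j))) *
        ((∏ j, (b - p j)) * ((XX α β p s).det * (1 + ∑ j, β j * uu α β p s b j))) -
      ((∏ j, (b - p j)) * ((XX α β p s).det * (b + ∑ j, β j * s j * uu α β p s b j))) *
        ((∏ j, (a - p j)) * ((XX α β p s).det * (1 + ∑ j, β j * uu α β p s a j))) := by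
  by_cases hab : a - b = 0
  · have : a = b := sub_eq_zero.1 hab
    subst this
    ring
  · rw [M2_eq α β p s hps h a b ha hb hab, Matrix.det_mul, Matrix.det_diagonal, Matrix.det_mul,
      Matrix.det_one_add_mul_comm, Matrix.det_fin_two, Finset.prod_mul_distrib]
    simp only [Matrix.add_apply, Matrix.mul_apply, Matrix.of_apply, Matrix.one_apply, if_true,
      one_ne_zero, zero_ne_one, if_false]
    have e1 : ∑ j, β j * ((uu α β p s b j - uu α β p s a j) / (a - b)) =
        ((∑ j, β j * uu α β p s b j) - ∑ j, β j * uu α β p s a j) / (a - b) := by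
      rw [← Finset.sum_sub_distrib, Finset.sum_div]
      exact Finset.sum_congr rfl fun j _ => by ring
    have e2 : ∑ j, β j * (b - s j) * uu α β p s b j =
        b * (∑ j, β j * uu α β p s b j) - ∑ j, β j * s j * uu α β p s b j := by
      rw [Finset.mul_sum, ← Finset.sum_sub_distrib]
      exact Finset.sum_congr rfl fun j _ => by ring
    have e3 : ∑ j, β j * (b - s j) * ((uu α β p s b j - uu α β p s a j) / (a - b)) =
        (b * (∑ j, β j * uu α β p s b j) - (∑ j, β j * s j * uu α β p s b j) -
          (b * (∑ j, β j * uu α β p s a j) - ∑ j, β j * s j * uu α β p s a j)) / (a - b) := by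
      rw [Finset.mul_sum, Finset.mul_sum, ← Finset.sum_sub_distrib, ← Finset.sum_sub_distrib,
        ← Finset.sum_sub_distrib, Finset.sum_div]
      exact Finset.sum_congr rfl fun j _ => by ring
    rw [e1, e2, e3]
    field_simp
    ring

/-- the identity, generic case -/
lemma generic (α β p s : Fin N → ℂ) (hps : ∀ i j, p i ≠ s j) (h : (XX α β p s).det ≠ 0)
    (a b c : ℂ) (ha : ∀ j, a - p j ≠ 0) (hb : ∀ j, b - p j ≠ 0) (hc : ∀ j, c - p j ≠ 0) :
    (a - b) * (M2 α β p s a b).det * (M1 α β p s c).det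
      + (b - c) * (M2 α β p s b c).det * (M1 α β p s a).det
      + (c - a) * (M2 α β p s c a).det * (M1 α β p s b).det = 0 := by
  have hU : IsUnit (XX α β p s).det := isUnit_iff_ne_zero.2 h
  have h1 := det_M2 α β p s hps hU a b ha hb
  have h2 := det_M2 α β p s hps hU b c hb hc
  have h3 := det_M2 α β p s hps hU c a hc ha
  have g1 := det_M1 α β p s hps hU a ha
  have g2 := det_M1 α β p s hps hU b hb
  have g3 := det_M1 α β p s hps hU c hc
  rw [← g1, ← g2] at h1
  rw [← g2, ← g3] at h2
  rw [← g1, ← g3] at h3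
  have key : (XX α β p s).det * ((a - b) * (M2 α β p s a b).det * (M1 α β p s c).det
      + (b - c) * (M2 α β p s b c).det * (M1 α β p s a).det
      + (c - a) * (M2 α β p s c a).det * (M1 α β p s b).det) = 0 := by
    linear_combination (M1 α β p s c).det * h1 + (M1 α β p s a).det * h2
      + (M1 α β p s b).det * h3
  exact (mul_eq_zero.1 key).resolve_left h

lemma fin_ev (S : Set ℂ) (hS : S.Finite) : ∀ᶠ t in 𝓝[≠] (0 : ℂ), t ∉ S := by
  have h1 : (S \ {0}).Finite := hS.subset Set.sdiff_subset
  have h2 : (S \ {0})ᶜ ∈ 𝓝 (0 : ℂ) := h1.isClosed.isOpen_compl.mem_nhds (by simp)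
  filter_upwards [mem_nhdsWithin_of_mem_nhds h2, self_mem_nhdsWithin] with t ht ht0 hts
  exact ht ⟨hts, ht0⟩

/-- the identity -/
lemma full (α β p s : Fin N → ℂ) (hps : ∀ i j, p i ≠ s j) (a b c : ℂ) :
    (a - b) * (M2 α β p s a b).det * (M1 α β p s c).det
      + (b - c) * (M2 α β p s b c).det * (M1 α β p s a).det
      + (c - a) * (M2 α β p s c a).det * (M1 α β p s b).det = 0 := by
  set G : ℂ → ℂ := fun t =>
    (a - b) * (M2 (fun j => α j + t) β p s (a + t) (b + t)).det *
        (M1 (fun j => α j + t) β p s (c + t)).det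
      + (b - c) * (M2 (fun j => α j + t) β p s (b + t) (c + t)).det *
        (M1 (fun j => α j + t) β p s (a + t)).det
      + (c - a) * (M2 (fun j => α j + t) β p s (c + t) (a + t)).det *
        (M1 (fun j => α j + t) β p s (b + t)).det with hG
  have hc1 : ∀ x : ℂ, Continuous fun t : ℂ => (M1 (fun j => α j + t) β p s (x + t)).det := by
    intro x
    refine Continuous.matrix_det ?_
    refine continuous_matrix fun i j => ?_
    simp only [M1, XX, Matrix.of_apply]
    by_cases hij : i = j
    · simp only [hij, if_true]; fun_prop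
    · simp only [hij, if_false]; fun_prop
  have hc2 : ∀ x y : ℂ, Continuous fun t : ℂ =>
      (M2 (fun j => α j + t) β p s (x + t) (y + t)).det := by
    intro x y
    refine Continuous.matrix_det ?_
    refine continuous_matrix fun i j => ?_
    simp only [M2, XX, Matrix.of_apply]
    by_cases hij : i = j
    · simp only [hij, if_true]; fun_prop
    · simp only [hij, if_false]; fun_prop
  have hGc : Continuous G := by
    have := hc1 a; have := hc1 b; have := hc1 c
    have := hc2 a b; have := hc2 b c; have := hc2 c a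
    rw [hG]
    fun_prop
  have hdet : ∀ᶠ t in 𝓝[≠] (0 : ℂ), (XX (fun j => α j + t) β p s).det ≠ 0 := by
    have hfin : {t : ℂ | ((-(XX α β p s)).charpoly).IsRoot t}.Finite :=
      Polynomial.finite_setOf_isRoot (Matrix.charpoly_monic _).ne_zero
    filter_upwards [fin_ev _ hfin] with t ht hdet
    apply ht
    simp only [Set.mem_setOf_eq, Polynomial.IsRoot.def]
    rw [Matrix.eval_charpoly, ← hdet]
    congr 1
    ext i j
    simp only [XX, Matrix.sub_apply, Matrix.neg_apply, Matrix.scalar_apply, Matrix.diagonal_apply,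
      Matrix.of_apply]
    by_cases hij : i = j
    · simp only [hij, if_true]; ring
    · simp only [hij, if_false]; ring
  have hsh : ∀ x : ℂ, ∀ᶠ t in 𝓝[≠] (0 : ℂ), ∀ j, x + t - p j ≠ 0 := by
    intro x
    have hfin : (Set.range fun j : Fin N => p j - x).Finite := Set.finite_range _
    filter_upwards [fin_ev _ hfin] with t ht j hj
    exact ht ⟨j, by linear_combination -hj⟩
  have hev : ∀ᶠ t in 𝓝[≠] (0 : ℂ), G t = 0 := by
    filter_upwards [hdet, hsh a, hsh b, hsh c] with t h1 h2 h3 h4
    have := generic (fun j => α j + t) β p s hps h1 (a + t) (b + t) (c + t) h2 h3 h4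
    simp only [hG]
    linear_combination this
  have hlim : Tendsto G (𝓝[≠] 0) (𝓝 (G 0)) := hGc.continuousAt.tendsto.mono_left nhdsWithin_le_nhds
  have hlim0 : Tendsto G (𝓝[≠] 0) (𝓝 0) :=
    tendsto_const_nhds.congr' (hev.mono fun t ht => ht.symm)
  have h0 : G 0 = 0 := tendsto_nhds_unique hlim hlim0
  simpa [hG] using h0

end TKP

open TKP in
theorem t_KP : S_KP := by
  intro q w hq C N z hz a b c
  have hq0 : q ≠ 0 := by
    rintro rfl
    norm_num at hq
  have hq1 : q ≠ 1 := by
    rintro rfl
    norm_num at hq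
  have hps : ∀ i j : Fin N, (fun i => q ^ 2 * z i) i ≠ (fun j => q * z j) j := by
    intro i j
    by_cases hij : i = j
    · subst hij
      intro h
      have h1 : q * (q - 1) * z i = 0 := by
        simp only at h
        linear_combination h
      rcases mul_eq_zero.1 h1 with h2 | h2
      · rcases mul_eq_zero.1 h2 with h3 | h3
        · exact hq0 h3
        · exact hq1 (sub_eq_zero.1 h3)
      · exact hz.1 i h2
    · exact hz.2.2 i j hij
  have e2 : ∀ x y : ℂ, Td q w (x :: y :: C) z =
      (M2 (fun j => bt q w z j * lg C (q ^ 2) (z j)) (fun j => lg C q (z j))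
        (fun i => q ^ 2 * z i) (fun j => q * z j) x y).det := by
    intro x y
    unfold Td M2 XX
    congr 1
    ext i j
    simp only [lg, List.map_cons, List.prod_cons, Matrix.of_apply]
    by_cases hij : i = j
    · simp only [hij, if_true]; ring
    · simp only [hij, if_false]; ring
  have e1 : ∀ x : ℂ, Td q w (x :: C) z =
      (M1 (fun j => bt q w z j * lg C (q ^ 2) (z j)) (fun j => lg C q (z j))
        (fun i => q ^ 2 * z i) (fun j => q * z j) x).det := by
    intro x
    unfold Td M1 XX
    congr 1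
    ext i j
    simp only [lg, List.map_cons, List.prod_cons, Matrix.of_apply]
    by_cases hij : i = j
    · simp only [hij, if_true]; ring
    · simp only [hij, if_false]; ring
  rw [e2, e2, e2, e1, e1, e1]
  exact full _ _ _ _ hps a b c

end Pool.Agent.H160R2.ML
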