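import Pool.Agent.H160R2.ML.Stm

set_option autoImplicit false

namespace Pool.Agent.H160R2.ML
open Pool.Agent.H863R2.Cyl
open Pool.Agent.H988R2.Perc (Word PD)
open H974 H906.Cyl

theorem t_LS : S_symm → S_zero → S_insR → S_moveR → S_moveL → S_base → S_LS := by
  intro h1 h2 h3 h4 h5 h6 l hl h2l
  constructor
  · intro p r w' w hpr hlen hp
    exact h1 p r w' w hlen hp (by omega)
  · intro p r i w' u _ ha hb hc hd he hf
    exact h2 p r i w' u ha hb hc hd he hf
  · intro p r i w' u hpr ha hb hc hd he hf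
    exact h3 p r i w' u (hpr ▸ hl) (by omega) ha hb hc hd he hf
  · intro p r w' u hpr ha hb hc hd he hf
    exact h4 p r w' u (hpr ▸ hl) ha hb hc hd he hf
  · intro p r w' u hpr ha hb hc hd he hf
    exact h5 p r w' u (hpr ▸ hl) ha hb hc hd he hf
  · intro p r hpr hp hr
    exact h6 p r (by omega) hp hr

end Pool.Agent.H160R2.ML
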