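import Pool.Agent.H160R2.ML.Stm

/-! Task M0: the first identity between moduli. -/

set_option autoImplicit false

namespace Pool.Agent.H160R2.ML

namespace TM0

theorem Dl_conj (N l : ℕ) (ω : ℂ) :
    Dl N l ((starRingEnd ℂ) ω) = (starRingEnd ℂ) (Dl N l ω) := by
  unfold Dl
  rw [RingHom.map_det]
  congr 1
  ext i j
  simp only [RingHom.mapMatrix_apply, Matrix.map_apply, Matrix.of_apply, map_add, map_mul,
    map_natCast]
  congr 1
  split_ifs <;> simp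

/-- `exp(iπ/6)` -/
noncomputable def e : ℂ := Complex.exp ((Real.pi / 6 : ℝ) * Complex.I)

theorem e_eq : e = ((Real.sqrt 3 / 2 : ℝ) : ℂ) + (1 / 2 : ℂ) * Complex.I := by
  unfold e
  rw [Complex.exp_mul_I, ← Complex.ofReal_cos, ← Complex.ofReal_sin, Real.cos_pi_div_six,
    Real.sin_pi_div_six]
  push_cast
  ring

theorem sq3 : ((Real.sqrt 3 : ℝ) : ℂ) ^ 2 = 3 := by
  rw [← Complex.ofReal_pow, Real.sq_sqrt (by norm_num)]
  norm_num

theorem e_sq : e ^ 2 = ((Real.sqrt 3 : ℝ) : ℂ) * e - 1 := by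
  rw [e_eq]
  have h1 := Complex.I_sq
  have h2 := sq3
  push_cast
  linear_combination (1 / 4 : ℂ) * h1 - (1 / 4 : ℂ) * h2

theorem e_ne : e ≠ 0 := Complex.exp_ne_zero _

theorem e_conj : e * (starRingEnd ℂ) e = 1 := by
  rw [Complex.mul_conj, Complex.normSq_eq_norm_sq]
  unfold e
  rw [Complex.norm_exp_ofReal_mul_I]
  norm_num

theorem exp_conj (x : ℝ) : Complex.exp (x * Complex.I) *
    (starRingEnd ℂ) (Complex.exp (x * Complex.I)) = 1 := by
  rw [Complex.mul_conj, Complex.normSq_eq_norm_sq, Complex.norm_exp_ofReal_mul_I]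
  norm_num

end TM0

open TM0 in
/-- M0 -/
theorem t_M0 : S_I0 → S_PH → S_M0 := by
  intro hI hP N
  have hpi := Real.pi_pos
  obtain ⟨s, hs⟩ : ∃ s : ℂ, s = ((Real.sqrt 3 : ℝ) : ℂ) := ⟨_, rfl⟩
  have hs2 : s ^ 2 = 3 := by rw [hs]; exact sq3
  have he2 : e ^ 2 = s * e - 1 := by rw [hs]; exact e_sq
  obtain ⟨z, hz⟩ : ∃ z : ℂ, z = e ^ 2 := ⟨_, rfl⟩
  have h1 : z = s * e - 1 := by rw [hz, he2]
  have hz2 : z ^ 2 = z - 1 := by
    linear_combination (z + s * e - 1) * h1 + e ^ 2 * hs2 - 3 * hz + 2 * h1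
  have hz3 : z ^ 3 = -1 := by linear_combination (z + 1) * hz2
  obtain ⟨eb, heb⟩ : ∃ eb : ℂ, eb = (starRingEnd ℂ) e := ⟨_, rfl⟩
  have hec : e * eb = 1 := by rw [heb]; exact e_conj
  have hzexp : Complex.exp (((Real.pi / 3 : ℝ) : ℂ) * Complex.I) = z := by
    rw [hz]
    unfold e
    rw [← Complex.exp_nat_mul]
    congr 1
    push_cast
    ring
  have hzb : (starRingEnd ℂ) z = eb ^ 2 := by rw [hz, heb, map_pow]
  -- the identity for `q = z²`, `ω = conj z`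
  have hq : (z ^ 2) ^ 2 + z ^ 2 + 1 = 0 := by
    linear_combination (z ^ 2 + z + 1) * hz2
  have hω : (starRingEnd ℂ) z ≠ 0 := by
    rw [hzb]
    intro h
    have h2 : eb = 0 := by simpa using h
    rw [h2, mul_zero] at hec
    exact zero_ne_one hec
  have key := hI (z ^ 2) hq N ((starRingEnd ℂ) z) hω
  have hzz : z * (starRingEnd ℂ) z = 1 := by
    rw [hzb, hz]
    linear_combination (e * eb + 1) * hec
  have e1 : z ^ 2 * (starRingEnd ℂ) z = z := by linear_combination z * hzz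
  have e2 : -(z ^ 2) ^ 2 * (starRingEnd ℂ) z = 1 := by
    linear_combination (-z ^ 3) * hzz - hz3
  have e3 : 1 - (z ^ 2) ^ 2 * (starRingEnd ℂ) z = 2 := by linear_combination e2
  rw [e1, e3, e2, Dl_conj, Dl_conj] at key
  -- phases
  have hp1 := hP (N + 1) 0 (Real.pi / 3) (by positivity) (by linarith)
  have hp0 := hP N 0 (Real.pi / 3) (by positivity) (by linarith)
  have hpo := hP N 1 0 le_rfl hpi
  rw [hzexp] at hp1 hp0
  obtain ⟨f, hf⟩ : ∃ f : ℂ, f = Complex.exp (((N * (Real.pi / 3) / 2 : ℝ) : ℂ) * Complex.I) :=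
    ⟨_, rfl⟩
  obtain ⟨fb, hfb⟩ : ∃ fb : ℂ, fb = (starRingEnd ℂ) f := ⟨_, rfl⟩
  have hff : f * fb = 1 := by rw [hfb, hf]; exact exp_conj _
  have hf1 : Complex.exp ((((N + 1 : ℕ) * (Real.pi / 3) / 2 : ℝ) : ℂ) * Complex.I) = f * e := by
    rw [hf]
    unfold e
    rw [← Complex.exp_add]
    congr 1
    push_cast
    ring
  have hD1 := hp1.2
  have hD0 := hp0.2
  have hDo := hpo.2
  rw [hf1] at hD1
  rw [← hf] at hD0
  have hone : Complex.exp (((0 : ℝ) : ℂ) * Complex.I) = 1 := by simp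
  have hone2 : Complex.exp (((N * 0 / 2 : ℝ) : ℂ) * Complex.I) = 1 := by simp
  rw [hone, hone2, one_mul] at hDo
  rw [hD1, hD0, hDo, map_mul, map_mul, map_mul, Complex.conj_ofReal, Complex.conj_ofReal,
    ← hfb, ← heb] at key
  have h5 : (1 : ℂ) - (z ^ 2) ^ 2 = s * e := by
    linear_combination (-z) * hz3 + h1
  rw [h5] at key
  have h6 : (z ^ 2) ^ 2 * eb = -e := by
    linear_combination z * eb * hz3 - eb * hz - e * hec
  obtain ⟨R1, hR1⟩ : ∃ R1 : ℂ, R1 = ((RR (N + 1) 0 (Real.pi / 3) : ℝ) : ℂ) := ⟨_, rfl⟩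
  obtain ⟨R0, hR0⟩ : ∃ R0 : ℂ, R0 = ((RR N 0 (Real.pi / 3) : ℝ) : ℂ) := ⟨_, rfl⟩
  obtain ⟨Ro, hRo⟩ : ∃ Ro : ℂ, Ro = ((RR N 1 0 : ℝ) : ℂ) := ⟨_, rfl⟩
  rw [← hR1, ← hR0, ← hRo] at key
  have h7 : (2 * e) * (R1 * R0) = (2 * e) * (s * Ro ^ 2) := by
    linear_combination key - (e * R1 * R0) * hff
      + (R1 * R0) * (f * fb) * h6 - e * R1 * R0 * hff
  have h8 : R1 * R0 = s * Ro ^ 2 := mul_left_cancel₀ (mul_ne_zero two_ne_zero e_ne) h7
  rw [hR1, hR0, hRo, hs] at h8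
  exact_mod_cast h8

end Pool.Agent.H160R2.ML
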