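import Pool.Agent.H160R2.ML.Stm

/-! Task M1: the identity between moduli at the angle `π / 3`. -/

set_option autoImplicit false

namespace Pool.Agent.H160R2.ML

namespace TM1

theorem Dl_conj (N l : ℕ) (ω : ℂ) :
    Dl N l ((starRingEnd ℂ) ω) = (starRingEnd ℂ) (Dl N l ω) := by
  unfold Dl
  rw [RingHom.map_det]
  congr 1
  ext i j
  simp only [Matrix.of_apply, RingHom.mapMatrix_apply, Matrix.map_apply, map_add, map_mul,
    map_natCast]
  congr 1
  split_ifs <;> simp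

theorem om_eq : Complex.exp ((Real.pi / 3 : ℝ) * Complex.I)
    = 1 / 2 + (Real.sqrt 3 / 2 : ℝ) * Complex.I := by
  rw [Complex.exp_mul_I, ← Complex.ofReal_cos, ← Complex.ofReal_sin, Real.cos_pi_div_three,
    Real.sin_pi_div_three]
  push_cast
  ring

theorem sq3 : ((Real.sqrt 3 / 2 : ℝ) : ℂ) ^ 2 = 3 / 4 := by
  have h : (Real.sqrt 3 / 2 : ℝ) ^ 2 = 3 / 4 := by
    rw [div_pow, Real.sq_sqrt (by norm_num)]
    norm_num
  calc ((Real.sqrt 3 / 2 : ℝ) : ℂ) ^ 2 = (((Real.sqrt 3 / 2 : ℝ) ^ 2 : ℝ) : ℂ) := by push_cast; ring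
    _ = ((3 / 4 : ℝ) : ℂ) := by rw [h]
    _ = 3 / 4 := by push_cast; ring

theorem norm_om : ‖(1 : ℂ) + (1 / 2 + (Real.sqrt 3 / 2 : ℝ) * Complex.I)‖ = Real.sqrt 3 := by
  have h : (1 : ℂ) + (1 / 2 + (Real.sqrt 3 / 2 : ℝ) * Complex.I)
      = ((3 / 2 : ℝ) : ℂ) + ((Real.sqrt 3 / 2 : ℝ) : ℂ) * Complex.I := by
    push_cast
    ring
  rw [h, Complex.norm_add_mul_I]
  congr 1
  rw [div_pow, div_pow, Real.sq_sqrt (by norm_num)]
  norm_num

end TM1

open TM1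

theorem t_M1 : S_I → S_PH → S_M1 := by
  intro hI hP N l
  set θ : ℝ := Real.pi / 3 with hθ
  have hθ0 : 0 ≤ θ := by positivity
  have hθπ : θ < Real.pi := by
    have := Real.pi_pos
    rw [hθ]
    linarith
  have phase := fun M L => (hP M L θ hθ0 hθπ).2
  obtain ⟨w, hw⟩ : ∃ w, w = Complex.exp ((θ : ℂ) * Complex.I) := ⟨_, rfl⟩
  obtain ⟨s, hs⟩ : ∃ s : ℂ, s = ((Real.sqrt 3 / 2 : ℝ) : ℂ) := ⟨_, rfl⟩
  have hs2 : s ^ 2 = 3 / 4 := by rw [hs]; exact sq3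
  have hw' : w = 1 / 2 + s * Complex.I := by
    rw [hw, hθ, hs]
    exact om_eq
  have hcs : (starRingEnd ℂ) s = s := by rw [hs]; exact Complex.conj_ofReal _
  have hcw : (starRingEnd ℂ) w = 1 / 2 - s * Complex.I := by
    rw [hw', map_add, map_mul, hcs, Complex.conj_I, map_div₀, map_one, map_ofNat]
    ring
  obtain ⟨q, hq⟩ : ∃ q : ℂ, q = -(starRingEnd ℂ) w := ⟨_, rfl⟩
  have hI2 : Complex.I ^ 2 = -1 := Complex.I_sq
  have hq0 : q ^ 2 + q + 1 = 0 := by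
    rw [hq, hcw]
    linear_combination Complex.I ^ 2 * hs2 + 3 / 4 * hI2
  have e1 : q * -q = w := by
    rw [hq, hcw, hw']
    linear_combination (-Complex.I ^ 2) * hs2 - 3 / 4 * hI2
  have e2 : -q = (starRingEnd ℂ) w := by rw [hq, neg_neg]
  have e3 : -q ^ 2 * -q = 1 := by
    linear_combination (q - 1) * hq0
  have h := hI q hq0 N l (-q) (by
    intro h0
    have : q = 0 := neg_eq_zero.1 h0
    rw [this] at hq0
    norm_num at hq0)
  rw [e1, e3, e2, Dl_conj, Dl_conj, hw, phase, phase] at h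
  obtain ⟨c, hc⟩ : ∃ c, c = Complex.exp (((θ / 2 : ℝ) : ℂ) * Complex.I) := ⟨_, rfl⟩
  obtain ⟨P, hPd⟩ : ∃ P, P = Complex.exp (((N * θ / 2 : ℝ) : ℂ) * Complex.I) := ⟨_, rfl⟩
  have hc2 : c ^ 2 = w := by
    rw [hc, hw, ← Complex.exp_nat_mul]
    congr 1
    push_cast
    ring
  have hPP : Complex.exp ((((N + 1 : ℕ) * θ / 2 : ℝ) : ℂ) * Complex.I) = P * c := by
    rw [hPd, hc, ← Complex.exp_add]
    congr 1
    push_cast
    ring
  have hnP : P * (starRingEnd ℂ) P = 1 := by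
    rw [Complex.mul_conj, Complex.normSq_eq_norm_sq, hPd, Complex.norm_exp_ofReal_mul_I]
    norm_num
  have hnc' : ‖c‖ = 1 := by rw [hc, Complex.norm_exp_ofReal_mul_I]
  have hnc : c * (starRingEnd ℂ) c = 1 := by
    rw [Complex.mul_conj, Complex.normSq_eq_norm_sq, hnc']
    norm_num
  rw [hPP, ← hPd] at h
  simp only [map_mul, Complex.conj_ofReal] at h
  have hq2 : q ^ 2 = -w := by linear_combination -e1
  have h2 : (2 : ℂ) * c * (RR (N + 1) (l + 1) θ : ℂ) * (RR N (l + 1) θ : ℂ)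
      = (1 + w) * Dl N (l + 2) 1 * Dl (N + 1) l 1 := by
    rw [hq2] at h
    calc (2 : ℂ) * c * (RR (N + 1) (l + 1) θ : ℂ) * (RR N (l + 1) θ : ℂ)
        = P * c * (RR (N + 1) (l + 1) θ : ℂ) * ((starRingEnd ℂ) P * (RR N (l + 1) θ : ℂ))
          - -w * (P * (RR N (l + 1) θ : ℂ)) * ((starRingEnd ℂ) P * (starRingEnd ℂ) c
            * (RR (N + 1) (l + 1) θ : ℂ)) := by
          rw [← hc2]
          linear_combination (-(RR (N + 1) (l + 1) θ : ℂ) * (RR N (l + 1) θ : ℂ) * c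
            * (1 + c * (starRingEnd ℂ) c)) * hnP
            - (RR (N + 1) (l + 1) θ : ℂ) * (RR N (l + 1) θ : ℂ) * c * hnc
      _ = (1 - -w) * Dl N (l + 2) 1 * Dl (N + 1) l 1 := h
      _ = (1 + w) * Dl N (l + 2) 1 * Dl (N + 1) l 1 := by ring
  have h3 := congrArg norm h2
  simp only [norm_mul, hnc', Complex.norm_real, Complex.norm_ofNat] at h3
  have hw3 : ‖(1 : ℂ) + w‖ = Real.sqrt 3 := by
    rw [hw', hs]
    exact norm_om
  have hr : ∀ M L, ‖Dl M L 1‖ = RR M L 0 := by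
    intro M L
    unfold RR
    rw [Complex.ofReal_zero, zero_mul, Complex.exp_zero]
  have hpos : ∀ M L, ‖RR M L θ‖ = RR M L θ := by
    intro M L
    rw [Real.norm_eq_abs]
    exact abs_of_nonneg (norm_nonneg _)
  rw [hw3, hr, hr, hpos, hpos, mul_one] at h3
  exact h3

end Pool.Agent.H160R2.ML
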