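import Pool.Agent.H160R2.ML.Stm

/-! Task M2: the identity between moduli at the angles `2π/3`, `0` and `π/3`. -/

set_option autoImplicit false

namespace Pool.Agent.H160R2.ML

namespace TM2

theorem exp_third : Complex.exp ((Real.pi / 3 : ℝ) * Complex.I) =
    (1 / 2 : ℂ) + ((Real.sqrt 3 / 2 : ℝ) : ℂ) * Complex.I := by
  rw [Complex.exp_mul_I, ← Complex.ofReal_cos, ← Complex.ofReal_sin, Real.cos_pi_div_three,
    Real.sin_pi_div_three]
  push_cast
  ring

theorem w_sq : Complex.exp ((Real.pi / 3 : ℝ) * Complex.I) ^ 2 =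
    Complex.exp ((Real.pi / 3 : ℝ) * Complex.I) - 1 := by
  rw [exp_third]
  have h3 : ((Real.sqrt 3 : ℝ) : ℂ) ^ 2 = 3 := by
    rw [← Complex.ofReal_pow, Real.sq_sqrt (by norm_num)]
    norm_num
  have hI := Complex.I_sq
  push_cast
  linear_combination (1 / 4 : ℂ) * Complex.I ^ 2 * h3 + (3 / 4 : ℂ) * hI

theorem q_eq : Complex.exp ((2 * Real.pi / 3 : ℝ) * Complex.I) =
    Complex.exp ((Real.pi / 3 : ℝ) * Complex.I) ^ 2 := by
  rw [← Complex.exp_nat_mul]
  congr 1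
  push_cast
  ring

theorem norm_one_add : ‖(1 : ℂ) + Complex.exp ((Real.pi / 3 : ℝ) * Complex.I)‖ = Real.sqrt 3 := by
  have h1 : (1 : ℂ) + Complex.exp ((Real.pi / 3 : ℝ) * Complex.I) =
      ((3 / 2 : ℝ) : ℂ) + ((Real.sqrt 3 / 2 : ℝ) : ℂ) * Complex.I := by
    rw [exp_third]
    push_cast
    ring
  rw [h1, Complex.norm_add_mul_I]
  congr 1
  have h3 : Real.sqrt 3 ^ 2 = 3 := Real.sq_sqrt (by norm_num)
  nlinarith

end TM2

theorem t_M2 : S_I → S_PH → S_M2 := by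
  intro hI hP N l
  have hpi := Real.pi_pos
  set w : ℂ := Complex.exp ((Real.pi / 3 : ℝ) * Complex.I) with hw
  have hw2 : w ^ 2 = w - 1 := TM2.w_sq
  have hq : Complex.exp ((2 * Real.pi / 3 : ℝ) * Complex.I) = w ^ 2 := TM2.q_eq
  have hq2 : -(w ^ 2) ^ 2 = w := by
    rw [hw2]
    linear_combination -hw2
  have h1 := hI (w ^ 2) (by linear_combination (w ^ 2 + w) * hw2 + hw2) N l 1 one_ne_zero
  rw [mul_one, mul_one, hq2] at h1
  have hD0 : ∀ N l : ℕ, Dl N l 1 = (RR N l 0 : ℂ) := by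
    intro N l
    have h2 := (hP N l 0 le_rfl hpi).2
    simpa using h2
  have hD2 : ∀ N l : ℕ, Dl N l (w ^ 2) =
      Complex.exp ((N * (2 * Real.pi / 3) / 2 : ℝ) * Complex.I) *
        (RR N l (2 * Real.pi / 3) : ℂ) := by
    intro N l
    have h2 := (hP N l (2 * Real.pi / 3) (by positivity) (by linarith)).2
    rwa [hq] at h2
  have hexp : Complex.exp ((((N + 1 : ℕ) : ℝ) * (2 * Real.pi / 3) / 2 : ℝ) * Complex.I) =
      w * Complex.exp ((N * (2 * Real.pi / 3) / 2 : ℝ) * Complex.I) := by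
    rw [hw, ← Complex.exp_add]
    congr 1
    push_cast
    ring
  rw [hD0, hD0, hD2, hD2, hexp] at h1
  have h3 : w * Complex.exp ((N * (2 * Real.pi / 3) / 2 : ℝ) * Complex.I) *
      ((RR (N + 1) (l + 1) (2 * Real.pi / 3) * RR N (l + 1) 0
        + RR N (l + 1) (2 * Real.pi / 3) * RR (N + 1) (l + 1) 0 : ℝ) : ℂ) =
      (1 + w) * Dl N (l + 2) w * Dl (N + 1) l w := by
    have h4 : (1 : ℂ) - (w ^ 2) ^ 2 = 1 + w := by linear_combination hq2
    rw [← h4, ← h1, Complex.ofReal_add, Complex.ofReal_mul, Complex.ofReal_mul]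
    linear_combination (Complex.exp ((N * (2 * Real.pi / 3) / 2 : ℝ) * Complex.I) *
      (RR N (l + 1) (2 * Real.pi / 3) : ℂ) * (RR (N + 1) (l + 1) 0 : ℂ)) * (-hq2)
  have h5 := congrArg norm h3
  rw [norm_mul, norm_mul, norm_mul, norm_mul, hw, TM2.norm_one_add, Complex.norm_exp_ofReal_mul_I,
    Complex.norm_exp_ofReal_mul_I, one_mul, one_mul, Complex.norm_real, Real.norm_eq_abs,
    abs_of_nonneg] at h5
  · exact h5
  · have hR : ∀ N l θ, 0 ≤ RR N l θ := fun N l θ => norm_nonneg _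
    have := hR (N + 1) (l + 1) (2 * Real.pi / 3)
    have := hR N (l + 1) 0
    have := hR N (l + 1) (2 * Real.pi / 3)
    have := hR (N + 1) (l + 1) 0
    positivity

end Pool.Agent.H160R2.ML
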