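import Pool.Agent.H160R2.ML.Stm
import Pool.Agent.H863R2.Cyl.Value
import Pool.Agent.H863R2.Cyl.FEx

/-! # Many legs, task PB: the exact probability -/

set_option autoImplicit false

namespace Pool.Agent.H160R2.ML
open Pool.Agent.H863R2.Cyl
open Pool.Agent.H988R2.Perc (Word PD)
open H974 H906.Cyl

namespace TPB

lemma prE_eq {N : ℕ} (e : ℕ → ℕ → Word → Word → ℂ) (p r : ℕ) {v' v : VW} (hv' : v' ∈ VN N)
    (hv : v ∈ VN N) :
    prE e p r v' v = ∑ τ : Wd N, ∑ σ : Wd N, v' τ.1 * v σ.1 * e p r τ.1 σ.1 := by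
  unfold prE
  rw [ValueAux.lc_eq _ hv', LinearMap.sum_apply]
  apply Finset.sum_congr rfl
  intro τ _
  rw [LinearMap.smul_apply, ValueAux.lc_eq _ hv, smul_eq_mul, Finset.mul_sum]
  apply Finset.sum_congr rfl
  intro σ _
  rw [smul_eq_mul]
  ring

/-- the norm of the Pascal determinant -/
lemma norm_pas (N : ℕ) :
    ‖(pas (Complex.exp (Real.pi / 3 * Complex.I)) N).det‖ = RR N 0 (Real.pi / 3) := by
  set w := Complex.exp (Real.pi / 3 * Complex.I) with hw
  have hw0 : w ≠ 0 := Complex.exp_ne_zero _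
  have hwnorm : ‖w‖ = 1 := by
    rw [hw]
    have : (Real.pi / 3 * Complex.I : ℂ) = ((Real.pi / 3 : ℝ) : ℂ) * Complex.I := by push_cast; ring
    rw [this, Complex.norm_exp_ofReal_mul_I]
  have hwc : (starRingEnd ℂ) w = w⁻¹ := by
    rw [Complex.inv_def, Complex.normSq_eq_norm_sq, hwnorm]; simp
  have h1 : pas w N = w • (Matrix.of fun i j : Fin N => (if i = j then 1 else 0)
      + w⁻¹ * ((0 + i.val + j.val).choose j.val : ℂ)) := by
    ext i j
    simp only [pas, Matrix.of_apply, Matrix.smul_apply, smul_eq_mul]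
    have h2 : ((i.val + j.val).choose i.val : ℂ) = ((0 + i.val + j.val).choose j.val : ℂ) := by
      rw [Nat.zero_add, Nat.choose_symm_add]
    rw [h2, mul_add, ← mul_assoc, mul_inv_cancel₀ hw0, one_mul]
    split_ifs <;> simp
  have h3 : (Matrix.of fun i j : Fin N => (if i = j then 1 else 0)
      + w⁻¹ * ((0 + i.val + j.val).choose j.val : ℂ)).det = (starRingEnd ℂ) (Dl N 0 w) := by
    unfold Dl
    rw [RingHom.map_det]
    congr 1
    ext i j
    simp only [RingHom.mapMatrix_apply, Matrix.map_apply, Matrix.of_apply, map_add, map_mul, hwc,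
      map_natCast]
    congr 1
    split_ifs <;> simp
  rw [h1, Matrix.det_smul, norm_mul, norm_pow, hwnorm, one_pow, one_mul, h3, Complex.norm_conj]
  unfold RR
  congr 3
  rw [hw]
  push_cast
  ring_nf

open Classical in
lemma main (hLS : S_LS) (hHV : S_HV) {n k m : ℕ} (hn : 1 ≤ n) (hk : 1 ≤ k) (hkn : k ≤ 2 * n)
    (hm1 : m + 1 = 2 * n)
    (μ : Wd (m + 1) → ℝ) (hμ0 : ∀ σ, 0 ≤ μ σ) (hμ : ∑ σ, μ σ = 1)
    (hst : ∀ σ, ∑ c : Fin (m + 1) → Bool, push (Tc m c) μ σ = 2 ^ (m + 1) * μ σ) :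
    (∑ σ, ∑ τ, (if Good k k τ.1 σ.1 then 1 else 0) * μ σ * μ τ) * RR (2 * n) 0 (Real.pi / 3)
      = RR (2 * n - k) (2 * k) 0 := by
  obtain ⟨q, hq⟩ : ∃ q : ℂ, q ^ 2 + q + 1 = 0 := ⟨_, Pool.Agent.H988R2.Perc.q_spec⟩
  have hq2 : (q ^ 2) ^ 2 + q ^ 2 + 1 = 0 := by
    calc (q ^ 2) ^ 2 + q ^ 2 + 1 = (q ^ 2 + q + 1) * (q ^ 2 - q + 1) := by ring
      _ = 0 := by rw [hq, zero_mul]
  obtain ⟨Ψ, hΨ⟩ := exists_Fam q hq
  obtain ⟨Ψ', hΨ'⟩ := exists_Fam (q ^ 2) hq2
  obtain ⟨K, hK⟩ := exists_K q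
  obtain ⟨K', hK'⟩ := exists_K (q ^ 2)
  obtain ⟨f, hf⟩ := exists_F
  set one := List.replicate (m + 1) (1 : ℂ) with hone
  set T := tot (Ψ one) with hT
  set T' := tot (Ψ' one) with hT'
  have hT0 : T ≠ 0 := hΨ.tot_ne (m + 1)
  have hT0' : T' ≠ 0 := hΨ'.tot_ne (m + 1)
  have hmem : Ψ one ∈ VN (m + 1) := by
    have := hΨ.mem one
    rwa [hone, List.length_replicate] at this
  have hmem' : Ψ' one ∈ VN (m + 1) := by
    have := hΨ'.mem one
    rwa [hone, List.length_replicate] at this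
  have e1 := ValueAux.eq_mu hΨ m μ hμ hst
  have e2 := ValueAux.eq_mu hΨ' m μ hμ hst
  -- the value with legs
  have hDat : Dat q (2 * k) ee Ψ Ψ' :=
    ⟨hq, ⟨k, by ring⟩, by omega, hLS (2 * k) ⟨k, by ring⟩ (by omega), hΨ, hΨ'⟩
  have v0 := hHV q k ee Ψ Ψ' hk hDat n hkn hn
  have hrep : List.replicate k (1 : ℂ) ++ List.replicate (2 * n - k) 1 = one := by
    rw [← List.replicate_add, hone, hm1]
    congr 1
    omega
  unfold GG at v0
  rw [hrep, List.length_replicate, prE_eq ee k k hmem' hmem] at v0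
  set S : ℝ := ∑ σ : Wd (m + 1), ∑ τ : Wd (m + 1),
    (if Good k k τ.1 σ.1 then 1 else 0) * μ σ * μ τ with hS
  have v1 : ∑ τ : Wd (m + 1), ∑ σ : Wd (m + 1), Ψ' one τ.1 * Ψ one σ.1 * ee k k τ.1 σ.1
      = T' * T * (S : ℂ) := by
    rw [hS]
    push_cast
    rw [Finset.sum_comm, Finset.mul_sum]
    apply Finset.sum_congr rfl
    intro σ _
    rw [Finset.mul_sum]
    apply Finset.sum_congr rfl
    intro τ _
    rw [e1 σ, e2 τ]
    unfold ee
    by_cases h : Good k k τ.1 σ.1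
    · rw [if_pos h, if_pos h]
      push_cast
      ring
    · rw [if_neg h, if_neg h]
      push_cast
      ring
  rw [v1] at v0
  -- the normalisation
  have hG : ∀ t : ℂ, pr f t (Ψ' one) (Ψ one) =
      T' * T * ∑ σ : Wd (m + 1), ∑ τ : Wd (m + 1), (μ σ : ℂ) * μ τ * t ^ f σ.1 τ.1 := by
    intro t
    rw [ValueAux.pr_eq f t hmem' hmem, Finset.mul_sum]
    apply Finset.sum_congr rfl
    intro σ _
    rw [Finset.mul_sum]
    apply Finset.sum_congr rfl
    intro τ _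
    rw [e1 τ, e2 σ]
    ring
  set w := Complex.exp (Real.pi / 3 * Complex.I) with hw
  have hwre : w = ((1 / 2 : ℝ) : ℂ) + ((Real.sqrt 3 / 2 : ℝ) : ℂ) * Complex.I := by
    rw [hw, Complex.exp_mul_I]
    have h1 : Complex.cos (Real.pi / 3) = ((1 / 2 : ℝ) : ℂ) := by
      rw [← Real.cos_pi_div_three]; push_cast; rfl
    have h2 : Complex.sin (Real.pi / 3) = ((Real.sqrt 3 / 2 : ℝ) : ℂ) := by
      rw [← Real.sin_pi_div_three]; push_cast; rfl
    rw [h1, h2]
  have hw0 : w ≠ 0 := Complex.exp_ne_zero _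
  have hwnorm : ‖w‖ = 1 := by
    rw [hw]
    have : (Real.pi / 3 * Complex.I : ℂ) = ((Real.pi / 3 : ℝ) : ℂ) * Complex.I := by push_cast; ring
    rw [this, Complex.norm_exp_ofReal_mul_I]
  have hwne : w ≠ -1 := by
    intro h
    have h1 : w.re = 1 / 2 := by rw [hwre]; simp
    rw [h] at h1
    norm_num at h1
  have hw1 : w + w⁻¹ = 1 := by
    have h3 : Real.sqrt 3 * Real.sqrt 3 = 3 := Real.mul_self_sqrt (by norm_num)
    have h4 : w * w - w + 1 = 0 := by
      rw [hwre]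
      apply Complex.ext
      · simp
        nlinarith
      · simp
        ring
    field_simp
    linear_combination h4
  have g1 := G_ones hq hw0 hwne
    (G := fun z => pr f (w + w⁻¹) (Ψ' z) (Ψ z))
    (pr_GSpec hq hΨ hΨ' hK hK' hf (w + w⁻¹)) n
  have hone' : List.replicate (2 * n) (1 : ℂ) = one := by rw [hone, hm1]
  simp only [hone'] at g1
  rw [hw1, hG 1] at g1
  have s1 : ∑ σ : Wd (m + 1), ∑ τ : Wd (m + 1), (μ σ : ℂ) * μ τ * 1 ^ f σ.1 τ.1 = 1 := by
    have : ∑ σ : Wd (m + 1), ∑ τ : Wd (m + 1), (μ σ : ℂ) * μ τ * 1 ^ f σ.1 τ.1 =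
        ((((∑ σ : Wd (m + 1), μ σ) * (∑ τ : Wd (m + 1), μ τ) : ℝ)) : ℂ) := by
      push_cast
      rw [Finset.sum_mul_sum]
      simp
    rw [this, hμ]
    simp
  rw [s1, mul_one] at g1
  have hS0 : 0 ≤ S := by
    rw [hS]
    apply Finset.sum_nonneg
    intro σ _
    apply Finset.sum_nonneg
    intro τ _
    have h1 := hμ0 σ
    have h2 := hμ0 τ
    split_ifs
    · positivity
    · rw [zero_mul, zero_mul]
  have n1 := congrArg norm g1
  have hwn : ‖(w⁻¹) ^ n‖ = 1 := by rw [norm_pow, norm_inv, hwnorm, inv_one, one_pow]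
  have hTT : 0 < ‖T' * T‖ := norm_pos_iff.mpr (mul_ne_zero hT0' hT0)
  generalize T' * T = TT at n1 hTT v0
  rw [norm_mul, Complex.norm_real, Real.norm_of_nonneg hS0] at v0
  rw [norm_mul, norm_mul, hwn, mul_one, norm_pow, norm_pas] at n1
  have h3 : ‖(3 : ℂ)‖ = 3 := by norm_num
  rw [h3] at n1
  have h4 : (0 : ℝ) < 3 ^ (2 * n * (n - 1)) := by positivity
  apply mul_left_cancel₀ h4.ne'
  rw [← v0]
  linear_combination (-S) * n1

end TPB

theorem t_PB : S_LS → S_HV → S_PB := by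
  intro hLS hHV n k hn hk hkn μ hμ0 hμ hst
  have h := TPB.main hLS hHV (n := n) (k := k) (m := 2 * n - 1) hn hk hkn (by omega) μ hμ0 hμ hst
  convert h using 6

end Pool.Agent.H160R2.ML
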