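import Pool.Agent.H160R2.ML.Stm

/-! # Phases of the determinant on the unit circle -/

set_option autoImplicit false

namespace Pool.Agent.H160R2.ML
open Pool.Agent.H863R2.Cyl
open Complex

namespace TPH

/-- `2 cosh ((x + i θ) / 2)` -/
noncomputable def f (θ x : ℝ) : ℂ := exp (-((x + θ * I) / 2)) + exp ((x + θ * I) / 2)

lemma f_eq (θ x : ℝ) : 1 + exp (θ * I) * (Real.exp x : ℂ) = exp ((x + θ * I) / 2) * f θ x := by
  unfold f
  rw [mul_add, ← exp_add, ← exp_add, add_neg_cancel, exp_zero, add_halves, exp_add, ofReal_exp,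
    mul_comm (exp (θ * I))]

lemma f_re {θ : ℝ} (h0 : 0 ≤ θ) (h1 : θ < Real.pi) (x : ℝ) : 0 < (f θ x).re := by
  have e1 : (((x : ℂ) + θ * I) / 2).re = x / 2 := by simp
  have e2 : (((x : ℂ) + θ * I) / 2).im = θ / 2 := by simp
  have hc : 0 < Real.cos (θ / 2) := Real.cos_pos_of_mem_Ioo ⟨by linarith [Real.pi_pos], by linarith⟩
  unfold f
  rw [add_re, exp_re, exp_re, neg_re, neg_im, e1, e2, Real.cos_neg]
  positivity

lemma f_conj (θ x : ℝ) : f θ (-x) = (starRingEnd ℂ) (f θ x) := by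
  unfold f
  rw [map_add, ← exp_conj, ← exp_conj, add_comm]
  simp only [map_neg, map_div₀, map_add, map_mul, conj_ofReal, conj_I, map_ofNat]
  congr 2
  · push_cast; ring
  · push_cast; ring

lemma f_arg {θ : ℝ} (h0 : 0 ≤ θ) (h1 : θ < Real.pi) (x : ℝ) : arg (f θ (-x)) = - arg (f θ x) := by
  rw [f_conj, arg_conj, if_neg]
  intro h
  rw [arg_eq_pi_iff] at h
  exact absurd h.1 (not_lt.2 (f_re h0 h1 x).le)

lemma sum_odd {N : ℕ} (u : Fin N → ℝ) (hrev : ∀ i, u (Fin.rev i) = - u i) (g : ℝ → ℝ)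
    (hg : ∀ x, g (-x) = - g x) : ∑ i, g (u i) = 0 := by
  have h : ∑ i, g (u i) = ∑ i, g (u (Fin.rev i)) :=
    (Equiv.sum_comp Fin.revPerm (fun i => g (u i))).symm
  have h2 : ∑ i, g (u (Fin.rev i)) = - ∑ i, g (u i) := by
    rw [← Finset.sum_neg_distrib]
    exact Finset.sum_congr rfl fun i _ => by rw [hrev, hg]
  linarith

end TPH

open TPH in
theorem t_PH (h : S_EG) : S_PH := by
  intro N l θ h0 h1
  obtain ⟨u, hanti, hrev, hdl⟩ := h N l
  have hs : ∑ i, arg (f θ (u i)) = 0 := sum_odd u hrev (fun x => arg (f θ x)) (f_arg h0 h1)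
  have hsu : ∑ i, u i = 0 := sum_odd u hrev (fun x => x) (fun _ => rfl)
  have hP : ∏ i, f θ (u i) = ((∏ i, ‖f θ (u i)‖ : ℝ) : ℂ) := by
    have h2 : ∀ i, f θ (u i) = (‖f θ (u i)‖ : ℂ) * exp (arg (f θ (u i)) * I) := fun i =>
      (norm_mul_exp_arg_mul_I _).symm
    calc ∏ i, f θ (u i) = ∏ i, ((‖f θ (u i)‖ : ℂ) * exp (arg (f θ (u i)) * I)) :=
          Finset.prod_congr rfl fun i _ => h2 i
      _ = (∏ i, (‖f θ (u i)‖ : ℂ)) * exp ((∑ i, arg (f θ (u i)) : ℝ) * I) := by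
          rw [Finset.prod_mul_distrib, ← exp_sum, ofReal_sum, Finset.sum_mul]
      _ = _ := by rw [hs, ofReal_zero, zero_mul, exp_zero, mul_one, ofReal_prod]
  have hpos : 0 < ∏ i, ‖f θ (u i)‖ := Finset.prod_pos fun i _ => by
    rw [norm_pos_iff]
    intro h
    have := f_re h0 h1 (u i)
    rw [h] at this
    simp at this
  have hE : ∏ i, exp (((u i : ℂ) + θ * I) / 2) = exp ((N * θ / 2 : ℝ) * I) := by
    rw [← exp_sum, ← Finset.sum_div, Finset.sum_add_distrib, ← ofReal_sum, hsu, Finset.sum_const,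
      Finset.card_univ, Fintype.card_fin, nsmul_eq_mul]
    congr 1
    push_cast
    ring
  have hD : Dl N l (exp (θ * I)) = exp ((N * θ / 2 : ℝ) * I) * ((∏ i, ‖f θ (u i)‖ : ℝ) : ℂ) := by
    rw [hdl, ← hP, ← hE, ← Finset.prod_mul_distrib]
    exact Finset.prod_congr rfl fun i _ => f_eq θ (u i)
  have hR : RR N l θ = ∏ i, ‖f θ (u i)‖ := by
    unfold RR
    rw [hD, norm_mul, norm_exp_ofReal_mul_I, one_mul, norm_real, Real.norm_of_nonneg hpos.le]
  refine ⟨?_, ?_⟩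
  · rw [hR]; exact hpos
  · rw [hD, hR]

end Pool.Agent.H160R2.ML
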