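import Pool.Agent.H160R2.ML.Stm
import Pool.Agent.H863R2.Cyl.Markov

/-!
# Task PL: the lower bound in the plane
-/

set_option autoImplicit false

namespace Pool.Agent.H160R2.ML
open Pool.Agent.H863R2.Cyl
open Pool.Agent.H988R2.Perc (Word PD)
open H974 H906.Cyl
open Filter Topology

theorem t_PL : S_PB → S_FA → S_C5 → S_PH → S_PL := by
  intro hPB hFA hC5 hPH k hk
  obtain ⟨c, C, hc, -, hFA⟩ := hFA k hk
  set e : ℝ := (4 * (k : ℝ) ^ 2 - 1) / 12 with he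
  refine ⟨c * (4 : ℝ) ^ (-e), by positivity, fun m hm => ?_⟩
  have hm1 : 1 ≤ m := hk.trans hm
  obtain ⟨μ, hμ0, hμ1, hst, -, -⟩ := markov_exists (2 * (4 * m) - 1)
  refine le_trans ?_ (hC5 (4 * m) k m hk hm le_rfl μ hμ0 hμ1 hst)
  have h1 := hPB (4 * m) k (by omega) hk (by omega) μ hμ0 hμ1 hst
  have h2 := (hFA (4 * m) (by omega)).1
  have h3 : 0 < RR (2 * (4 * m)) 0 (Real.pi / 3) :=
    (hPH _ _ _ (by positivity) (by linarith [Real.pi_pos])).1
  rw [← h1] at h2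
  have h4 := le_of_mul_le_mul_right h2 h3
  refine le_trans (le_of_eq ?_) h4
  have h5 : ((4 * m : ℕ) : ℝ) ^ (-e) = (4 : ℝ) ^ (-e) * (m : ℝ) ^ (-e) := by
    rw [Nat.cast_mul, Real.mul_rpow (by positivity) (by positivity)]
    norm_num
  rw [h5]
  ring

end Pool.Agent.H160R2.ML
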