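import Pool.Agent.H160R2.ML.Stm

/-!
# Comparison of the ratios
-/

set_option autoImplicit false

namespace Pool.Agent.H160R2.ML

namespace TRC

/-- the quotient -/
noncomputable def rr (θ u : ℝ) : ℝ := (Real.cosh u + Real.cos θ) / (Real.cosh u + 1)

theorem cos_ge {θ : ℝ} (h0 : 0 ≤ θ) (h1 : θ ≤ 2 * Real.pi / 3) : -(1 / 2) ≤ Real.cos θ := by
  have h2 : Real.cos (2 * Real.pi / 3) = -(1 / 2) := by
    have h3 : 2 * Real.pi / 3 = Real.pi - Real.pi / 3 := by ring
    rw [h3, Real.cos_pi_sub, Real.cos_pi_div_three]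
  rw [← h2]
  exact Real.cos_le_cos_of_nonneg_of_le_pi h0 (by linarith [Real.pi_pos]) h1

theorem rr_ge {θ : ℝ} (h : -(1 / 2) ≤ Real.cos θ) (u : ℝ) : 1 / 4 ≤ rr θ u := by
  unfold rr
  have h1 := Real.one_le_cosh u
  rw [le_div_iff₀ (by linarith)]
  linarith

theorem rr_le {θ : ℝ} (u : ℝ) : rr θ u ≤ 1 := by
  unfold rr
  have h1 := Real.one_le_cosh u
  rw [div_le_one (by linarith)]
  linarith [Real.cos_le_one θ]

theorem rr_mono {θ : ℝ} {a b : ℝ} (hab : Real.cosh a ≤ Real.cosh b) : rr θ a ≤ rr θ b := by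
  unfold rr
  have h1 := Real.one_le_cosh a
  have h2 := Real.one_le_cosh b
  rw [div_le_div_iff₀ (by linarith) (by linarith)]
  nlinarith [mul_nonneg (sub_nonneg.2 hab) (sub_nonneg.2 (Real.cos_le_one θ))]

/-- the function `g` -/
noncomputable def gg (θ u : ℝ) : ℝ := Real.log (rr θ u)

theorem gg_even (θ x : ℝ) : gg θ (-x) = gg θ x := by
  unfold gg rr
  rw [Real.cosh_neg]

theorem gg_mono {θ : ℝ} (h : -(1 / 2) ≤ Real.cos θ) : MonotoneOn (gg θ) (Set.Ici 0) := by
  intro a ha b hb hab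
  refine Real.log_le_log (by linarith [rr_ge h a]) (rr_mono ?_)
  rw [Real.cosh_le_cosh, abs_of_nonneg ha, abs_of_nonneg hb]
  exact hab

theorem gg_bd {θ : ℝ} (h : -(1 / 2) ≤ Real.cos θ) (x : ℝ) : |gg θ x| ≤ Real.log 4 := by
  unfold gg
  have h1 := rr_ge h x
  have h2 : rr θ x ≤ 1 := rr_le x
  have h3 : Real.log (1 / 4) ≤ Real.log (rr θ x) := Real.log_le_log (by norm_num) h1
  rw [one_div, Real.log_inv] at h3
  have h4 : Real.log (rr θ x) ≤ 0 := Real.log_nonpos (by linarith) h2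
  rw [abs_le]
  exact ⟨h3, h4.trans (Real.log_nonneg (by norm_num))⟩

theorem factor {θ : ℝ} (h : -(1 / 2) ≤ Real.cos θ) (u : ℝ) :
    ‖1 + Complex.exp (θ * Complex.I) * (Real.exp u : ℂ)‖ =
      (1 + Real.exp u) * Real.exp (gg θ u / 2) := by
  have hr : 0 < rr θ u := by linarith [rr_ge h u]
  have h0 : 0 ≤ (1 + Real.exp u) * Real.exp (gg θ u / 2) := by positivity
  rw [← abs_of_nonneg h0, ← abs_of_nonneg (norm_nonneg _), ← sq_eq_sq_iff_abs_eq_abs, mul_pow,
    ← Real.exp_nat_mul]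
  have h1 : ((2 : ℕ) : ℝ) * (gg θ u / 2) = Real.log (rr θ u) := by
    unfold gg
    push_cast
    ring
  rw [h1, Real.exp_log hr, Complex.sq_norm, Complex.normSq_apply]
  have h2 : (1 + Complex.exp (θ * Complex.I) * (Real.exp u : ℂ)).re =
      1 + Real.cos θ * Real.exp u := by
    rw [Complex.add_re, Complex.one_re, Complex.re_mul_ofReal, Complex.exp_ofReal_mul_I_re]
  have h3 : (1 + Complex.exp (θ * Complex.I) * (Real.exp u : ℂ)).im =
      Real.sin θ * Real.exp u := by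
    rw [Complex.add_im, Complex.one_im, Complex.im_mul_ofReal, Complex.exp_ofReal_mul_I_im,
      zero_add]
  rw [h2, h3]
  have h4 := Real.one_le_cosh u
  have h5 : (1 + Real.exp u) ^ 2 = 2 * Real.exp u * (Real.cosh u + 1) := by
    have h6 : Real.exp u * Real.exp (-u) = 1 := by
      rw [← Real.exp_add, add_neg_cancel, Real.exp_zero]
    rw [Real.cosh_eq]
    linear_combination (-1 : ℝ) * h6
  have h6 : Real.exp u * Real.exp (-u) = 1 := by
    rw [← Real.exp_add, add_neg_cancel, Real.exp_zero]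
  have h7 := Real.sin_sq_add_cos_sq θ
  have h8 : (1 + Real.exp u) ^ 2 * rr θ u = 2 * Real.exp u * (Real.cosh u + Real.cos θ) := by
    unfold rr
    have h9 : Real.cosh u + 1 ≠ 0 := by linarith
    rw [h5]
    field_simp
  rw [h8, Real.cosh_eq]
  linear_combination (Real.exp u ^ 2) * h7 - h6

theorem factor0 (u : ℝ) :
    ‖1 + Complex.exp ((0 : ℝ) * Complex.I) * (Real.exp u : ℂ)‖ = 1 + Real.exp u := by
  rw [Complex.ofReal_zero, zero_mul, Complex.exp_zero, one_mul, ← Complex.ofReal_one,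
    ← Complex.ofReal_add, Complex.norm_real, Real.norm_eq_abs, abs_of_pos (by positivity)]

theorem RR_eq {N l : ℕ} {u : Fin N → ℝ} (hu : IsEig N l u) {θ : ℝ}
    (h : -(1 / 2) ≤ Real.cos θ) :
    RR N l θ = RR N l 0 * Real.exp ((∑ i, gg θ (u i)) / 2) := by
  unfold RR
  rw [hu.2.2, hu.2.2, norm_prod, norm_prod, Finset.prod_congr rfl fun i _ => factor h (u i),
    Finset.prod_congr rfl fun i _ => factor0 (u i), Finset.prod_mul_distrib, ← Real.exp_sum,
    Finset.sum_div]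

end TRC

theorem t_RC : S_EG → S_IL → S_SC → S_RC := by
  intro hEG hIL hSC
  refine ⟨Real.exp (3 * Real.log 4), ?_, ?_⟩
  · exact Real.one_le_exp (mul_nonneg (by norm_num) (Real.log_nonneg (by norm_num)))
  intro N l θ h0 h1
  have hc := TRC.cos_ge h0 h1
  obtain ⟨u, hu⟩ := hEG (N + 1) l
  obtain ⟨v, hv⟩ := hEG N (l + 2)
  have hi := hIL N l u v hu hv
  have hs := hSC (TRC.gg θ) (Real.log 4) (TRC.gg_even θ) (TRC.gg_mono hc) (TRC.gg_bd hc) N u v
    hu.1 hv.1 hi
  rw [abs_le] at hs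
  rw [TRC.RR_eq hu hc, TRC.RR_eq hv hc]
  have hA : 0 ≤ RR (N + 1) l 0 := norm_nonneg _
  have hB : 0 ≤ RR N (l + 2) 0 := norm_nonneg _
  have hAB := mul_nonneg hA hB
  constructor
  · have h2 : Real.exp ((∑ i, TRC.gg θ (v i)) / 2) ≤
        Real.exp (3 * Real.log 4) * Real.exp ((∑ i, TRC.gg θ (u i)) / 2) := by
      rw [← Real.exp_add]
      exact Real.exp_le_exp.2 (by linarith [hs.1, hs.2])
    have h3 := mul_le_mul_of_nonneg_left h2 hAB
    linarith
  · have h2 : Real.exp ((∑ i, TRC.gg θ (u i)) / 2) ≤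
        Real.exp (3 * Real.log 4) * Real.exp ((∑ i, TRC.gg θ (v i)) / 2) := by
      rw [← Real.exp_add]
      exact Real.exp_le_exp.2 (by linarith [hs.1, hs.2])
    have h3 := mul_le_mul_of_nonneg_left h2 hAB
    linarith

end Pool.Agent.H160R2.ML
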