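import Pool.Agent.H160R2.ML.Stm

/-!
# t_RH: the ratio bounds for every number of legs
-/

set_option autoImplicit false

namespace Pool.Agent.H160R2.ML

namespace TRH

theorem toLog {x y N α c C : ℝ} (hx : 0 < x) (hy : 0 < y) (hN : 0 < N) (hc : 0 < c) (hC : 0 < C)
    (h1 : c * N ^ α * y ≤ x) (h2 : x ≤ C * N ^ α * y) :
    |Real.log x - Real.log y - α * Real.log N| ≤ |Real.log c| + |Real.log C| := by
  have hp : 0 < N ^ α := Real.rpow_pos_of_pos hN α
  have e : ∀ d : ℝ, 0 < d → Real.log (d * N ^ α * y) =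
      Real.log d + α * Real.log N + Real.log y := by
    intro d hd
    rw [Real.log_mul (mul_pos hd hp).ne' hy.ne', Real.log_mul hd.ne' hp.ne', Real.log_rpow hN]
  have h3 := Real.log_le_log (mul_pos (mul_pos hc hp) hy) h1
  have h4 := Real.log_le_log hx h2
  rw [e c hc] at h3
  rw [e C hC] at h4
  have h5 := neg_abs_le (Real.log c)
  have h6 := le_abs_self (Real.log C)
  have h7 := abs_nonneg (Real.log c)
  have h8 := abs_nonneg (Real.log C)
  rw [abs_le]
  constructor <;> linarith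

theorem ofLog {x y N α K : ℝ} (hx : 0 < x) (hy : 0 < y) (hN : 0 < N)
    (h : |Real.log x - Real.log y - α * Real.log N| ≤ K) :
    Real.exp (-K) * N ^ α * y ≤ x ∧ x ≤ Real.exp K * N ^ α * y := by
  have hp : 0 < N ^ α := Real.rpow_pos_of_pos hN α
  have e : ∀ d : ℝ, Real.log (Real.exp d * N ^ α * y) = d + α * Real.log N + Real.log y := by
    intro d
    rw [Real.log_mul (mul_pos (Real.exp_pos d) hp).ne' hy.ne',
      Real.log_mul (Real.exp_pos d).ne' hp.ne', Real.log_rpow hN, Real.log_exp]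
  rw [abs_le] at h
  constructor
  · rw [← Real.log_le_log_iff (mul_pos (mul_pos (Real.exp_pos _) hp) hy) hx, e]
    linarith
  · rw [← Real.log_le_log_iff hx (mul_pos (mul_pos (Real.exp_pos _) hp) hy), e]
    linarith

/-- logarithm of the ratio -/
noncomputable def lr (N l : ℕ) (θ : ℝ) : ℝ := Real.log (RR N l θ) - Real.log (RR N l 0)

/-- order of the ratio -/
def Od (l : ℕ) (θ α : ℝ) : Prop := ∃ K : ℝ, ∀ N : ℕ, 1 ≤ N → |lr N l θ - α * Real.log N| ≤ K

theorem log_succ {N : ℕ} (hN : 1 ≤ N) :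
    0 ≤ Real.log N ∧ Real.log N ≤ Real.log ((N + 1 : ℕ) : ℝ) ∧
      Real.log ((N + 1 : ℕ) : ℝ) ≤ Real.log N + Real.log 2 := by
  have h1 : (1 : ℝ) ≤ N := by exact_mod_cast hN
  have h2 : ((N + 1 : ℕ) : ℝ) = N + 1 := by push_cast; ring
  refine ⟨Real.log_nonneg h1, ?_, ?_⟩
  · rw [h2]
    exact Real.log_le_log (by linarith) (by linarith)
  · rw [h2, ← Real.log_mul (by linarith) (by norm_num)]
    exact Real.log_le_log (by linarith) (by linarith)

theorem log_succ' {N : ℕ} (hN : 1 ≤ N) (α : ℝ) :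
    |α * Real.log ((N + 1 : ℕ) : ℝ) - α * Real.log N| ≤ |α| * Real.log 2 := by
  obtain ⟨-, h2, h3⟩ := log_succ hN
  rw [← mul_sub, abs_mul]
  apply mul_le_mul_of_nonneg_left _ (abs_nonneg α)
  rw [abs_le]
  have := Real.log_nonneg (show (1 : ℝ) ≤ 2 by norm_num)
  constructor <;> linarith

theorem rc_log (hRC : S_RC) (hPH : S_PH) : ∃ K : ℝ, 0 ≤ K ∧ ∀ (N l : ℕ) (θ : ℝ), 0 ≤ θ →
    θ ≤ 2 * Real.pi / 3 → |lr N (l + 2) θ - lr (N + 1) l θ| ≤ K := by
  obtain ⟨C, hC1, hC⟩ := hRC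
  have hC0 : 0 < C := by linarith
  refine ⟨Real.log C, Real.log_nonneg hC1, ?_⟩
  intro N l θ h0 h1
  have hpi := Real.pi_pos
  have hθ : θ < Real.pi := by linarith
  obtain ⟨h2, h3⟩ := hC N l θ h0 h1
  have p1 := (hPH N (l + 2) θ h0 hθ).1
  have p2 := (hPH (N + 1) l θ h0 hθ).1
  have p3 := (hPH N (l + 2) 0 le_rfl hpi).1
  have p4 := (hPH (N + 1) l 0 le_rfl hpi).1
  have e1 := Real.log_le_log (mul_pos p1 p4) h2
  have e2 := Real.log_le_log (mul_pos p2 p3) h3
  rw [Real.log_mul p1.ne' p4.ne', Real.log_mul hC0.ne' (mul_pos p2 p3).ne',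
    Real.log_mul p2.ne' p3.ne'] at e1
  rw [Real.log_mul p2.ne' p3.ne', Real.log_mul hC0.ne' (mul_pos p1 p4).ne',
    Real.log_mul p1.ne' p4.ne'] at e2
  unfold lr
  rw [abs_le]
  constructor <;> linarith

theorem od_step (hRC : S_RC) (hPH : S_PH) {l : ℕ} {θ α : ℝ} (h0 : 0 ≤ θ)
    (h1 : θ ≤ 2 * Real.pi / 3) (h : Od l θ α) : Od (l + 2) θ α := by
  obtain ⟨K, hK⟩ := h
  obtain ⟨K', hK'0, hK'⟩ := rc_log hRC hPH
  refine ⟨K' + K + |α| * Real.log 2, ?_⟩
  intro N hN
  have e1 := hK' N l θ h0 h1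
  have e2 := hK (N + 1) (by omega)
  have e3 := log_succ' hN α
  have e4 : lr N (l + 2) θ - α * Real.log N = (lr N (l + 2) θ - lr (N + 1) l θ) +
      (lr (N + 1) l θ - α * Real.log ((N + 1 : ℕ) : ℝ)) +
      (α * Real.log ((N + 1 : ℕ) : ℝ) - α * Real.log N) := by ring
  rw [e4]
  refine (abs_add_le _ _).trans (add_le_add ((abs_add_le _ _).trans (add_le_add e1 e2)) e3)

theorem od_zero (hB0 : S_B0) (hPH : S_PH) :
    Od 0 (Real.pi / 3) (-(1 / 12)) ∧ Od 0 (2 * Real.pi / 3) (-(1 / 3)) := by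
  obtain ⟨c, C, hc, hC, h⟩ := hB0
  have hpi := Real.pi_pos
  refine ⟨⟨|Real.log c| + |Real.log C|, ?_⟩, ⟨|Real.log c| + |Real.log C|, ?_⟩⟩
  · intro N hN
    have hN' : (0 : ℝ) < N := by exact_mod_cast hN
    exact toLog (hPH N 0 _ (by linarith) (by linarith)).1 (hPH N 0 0 le_rfl hpi).1 hN' hc hC
      (h N hN).1 (h N hN).2.1
  · intro N hN
    have hN' : (0 : ℝ) < N := by exact_mod_cast hN
    exact toLog (hPH N 0 _ (by linarith) (by linarith)).1 (hPH N 0 0 le_rfl hpi).1 hN' hc hC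
      (h N hN).2.2.1 (h N hN).2.2.2

theorem log_add_bd {A B x K : ℝ} (hA : 0 < A) (hB : 0 < B) (h1 : |Real.log A - x| ≤ K)
    (h2 : |Real.log B - x| ≤ K) : |Real.log (A + B) - x| ≤ K + Real.log 2 := by
  rw [abs_le] at h1 h2 ⊢
  have h3 : Real.log A ≤ Real.log (A + B) := Real.log_le_log hA (by linarith)
  have h4 : Real.log (A + B) ≤ Real.log 2 + (x + K) := by
    have e1 : A ≤ Real.exp (x + K) := by
      rw [← Real.log_le_iff_le_exp hA]; linarith
    have e2 : B ≤ Real.exp (x + K) := by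
      rw [← Real.log_le_iff_le_exp hB]; linarith
    have e3 : Real.log (A + B) ≤ Real.log (2 * Real.exp (x + K)) :=
      Real.log_le_log (by linarith) (by linarith)
    rwa [Real.log_mul (by norm_num) (Real.exp_pos _).ne', Real.log_exp] at e3
  have h5 := Real.log_nonneg (show (1 : ℝ) ≤ 2 by norm_num)
  constructor <;> linarith

theorem od_one (hB0 : S_B0) (hRC : S_RC) (hPH : S_PH) (hM1 : S_M1) (hM2 : S_M2) :
    Od 1 (Real.pi / 3) (-(1 / 12)) := by
  have hpi := Real.pi_pos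
  have hl2 := Real.log_nonneg (show (1 : ℝ) ≤ 2 by norm_num)
  obtain ⟨K1, hK1⟩ := od_step hRC hPH (by linarith) (by linarith) (od_zero hB0 hPH).1
  obtain ⟨K2, hK2⟩ := od_step hRC hPH (by linarith) (by linarith) (od_zero hB0 hPH).2
  obtain ⟨K3, hK30, hK3⟩ := rc_log hRC hPH
  -- the bound for `N + 1`
  have key : ∃ K : ℝ, ∀ N : ℕ, 1 ≤ N →
      |lr (N + 1) 1 (Real.pi / 3) - (-(1 / 12)) * Real.log ((N + 1 : ℕ) : ℝ)| ≤ K := by
    refine ⟨(2 * K1 + (K2 + Real.log 2) + Real.log 2 + K3 + Real.log 2) + 2 * Real.log 2, ?_⟩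
    intro N hN
    have pp : ∀ (M l : ℕ) (θ : ℝ), 0 ≤ θ → θ < Real.pi → 0 < RR M l θ := fun M l θ h1 h2 =>
      (hPH M l θ h1 h2).1
    have a1 := pp (N + 1) 2 (Real.pi / 3) (by linarith) (by linarith)
    have a2 := pp N 2 (Real.pi / 3) (by linarith) (by linarith)
    have a3 := pp N 3 0 le_rfl hpi
    have a4 := pp (N + 1) 1 0 le_rfl hpi
    have a5 := pp (N + 1) 2 (2 * Real.pi / 3) (by linarith) (by linarith)
    have a6 := pp N 2 0 le_rfl hpi
    have a7 := pp N 2 (2 * Real.pi / 3) (by linarith) (by linarith)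
    have a8 := pp (N + 1) 2 0 le_rfl hpi
    have a9 := pp N 3 (Real.pi / 3) (by linarith) (by linarith)
    have a10 := pp (N + 1) 1 (Real.pi / 3) (by linarith) (by linarith)
    have s3 : 0 < Real.sqrt 3 := Real.sqrt_pos.mpr (by norm_num)
    have m1 := congrArg Real.log (hM1 N 1)
    have m2 := congrArg Real.log (hM2 N 1)
    rw [Real.log_mul (by positivity) a2.ne', Real.log_mul (by norm_num) a1.ne',
      Real.log_mul (by positivity) a4.ne', Real.log_mul s3.ne' a3.ne'] at m1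
    rw [Real.log_mul (mul_pos s3 a9).ne' a10.ne', Real.log_mul s3.ne' a9.ne'] at m2
    have k1 := hK1 N hN
    have k1' := hK1 (N + 1) (by omega)
    have k2 := hK2 N hN
    have k2' := hK2 (N + 1) (by omega)
    have k3 := hK3 N 1 (Real.pi / 3) (by linarith) (by linarith)
    obtain ⟨g1, g2, g3⟩ := log_succ hN
    -- the two terms
    have t1 : |Real.log (RR (N + 1) 2 (2 * Real.pi / 3) * RR N 2 0) -
        (Real.log (RR N 2 0) + Real.log (RR (N + 1) 2 0) - 1 / 3 * Real.log N)| ≤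
        K2 + Real.log 2 := by
      rw [Real.log_mul a5.ne' a6.ne']
      simp only [zero_add] at k2'
      unfold lr at k2'
      rw [abs_le] at k2' ⊢
      constructor <;> linarith
    have t2 : |Real.log (RR N 2 (2 * Real.pi / 3) * RR (N + 1) 2 0) -
        (Real.log (RR N 2 0) + Real.log (RR (N + 1) 2 0) - 1 / 3 * Real.log N)| ≤
        K2 + Real.log 2 := by
      rw [Real.log_mul a7.ne' a8.ne']
      simp only [zero_add] at k2
      unfold lr at k2
      rw [abs_le] at k2 ⊢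
      constructor <;> linarith
    have t3 := log_add_bd (mul_pos a5 a6) (mul_pos a7 a8) t1 t2
    simp only [Nat.reduceAdd] at m1 m2
    rw [m2] at t3
    simp only [zero_add, Nat.reduceAdd] at k1 k1' k3
    unfold lr at k1 k1' k3 ⊢
    rw [abs_le] at k1 k1' k3 t3 ⊢
    constructor <;> linarith
  obtain ⟨K, hK⟩ := key
  refine ⟨max K |lr 1 1 (Real.pi / 3) - (-(1 / 12)) * Real.log ((1 : ℕ) : ℝ)|, ?_⟩
  intro N hN
  rcases Nat.lt_or_ge 1 N with h | h
  · obtain ⟨M, rfl⟩ : ∃ M, N = M + 1 := ⟨N - 1, by omega⟩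
    exact (hK M (by omega)).trans (le_max_left _ _)
  · have : N = 1 := by omega
    subst this
    exact le_max_right _ _

end TRH

open TRH in
theorem t_RH : S_B0 → S_RC → S_PH → S_M1 → S_M2 → S_RH := by
  intro hB0 hRC hPH hM1 hM2
  have hpi := Real.pi_pos
  have key : ∀ l : ℕ, Od l (Real.pi / 3) (-(1 / 12)) ∧ Od (l + 1) (Real.pi / 3) (-(1 / 12)) := by
    intro l
    induction l with
    | zero => exact ⟨(od_zero hB0 hPH).1, od_one hB0 hRC hPH hM1 hM2⟩
    | succ l ih => exact ⟨ih.2, od_step hRC hPH (by linarith) (by linarith) ih.1⟩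
  intro l
  obtain ⟨K, hK⟩ := (key l).1
  refine ⟨Real.exp (-K), Real.exp K, Real.exp_pos _, Real.exp_pos _, ?_⟩
  intro N hN
  have hN' : (0 : ℝ) < N := by exact_mod_cast hN
  exact ofLog (hPH N l _ (by linarith) (by linarith)).1 (hPH N l 0 le_rfl hpi).1 hN' (hK N hN)

end Pool.Agent.H160R2.ML
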