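import Pool.Agent.H160R2.ML.Stm

/-! Task RMd: the residue relation `-` for the diagonal form. -/

set_option autoImplicit false

namespace Pool.Agent.H160R2.ML
open Pool.Agent.H863R2.Cyl

namespace TRMd

theorem lg_cons (a : ℂ) (C : List ℂ) (s u : ℂ) : lg (a :: C) s u = (a - s * u) * lg C s u := by
  simp [lg]

theorem q3 {q : ℂ} (hq : q ^ 2 + q + 1 = 0) : q ^ 3 = 1 := by
  linear_combination (q - 1) * hq

theorem q_ne {q : ℂ} (hq : q ^ 2 + q + 1 = 0) : q ≠ 0 := by
  rintro rfl
  simp at hq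

theorem qq_ne {q : ℂ} (hq : q ^ 2 + q + 1 = 0) : q ^ 2 - q ≠ 0 := by
  intro h
  have h1 : q = -(1 / 2 : ℂ) := by linear_combination (1 / 2 : ℂ) * hq - (1 / 2 : ℂ) * h
  rw [h1] at hq
  norm_num at hq

/-- the diagonal coefficients with one more variable -/
theorem bt_cons (q w y : ℂ) {N : ℕ} (z : Fin N → ℂ) (j : Fin N) :
    bt q w (Fin.cons y z : Fin (N + 1) → ℂ) j.succ =
      (y - q ^ 2 * z j) * (y - z j) / (y - q * z j) ^ 2 * bt q w z j := by
  unfold bt
  have h1 : (Finset.univ.erase j.succ : Finset (Fin (N + 1))) =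
      insert 0 ((Finset.univ.erase j).map (Fin.succEmb N)) := by
    ext i
    simp only [Finset.mem_erase, Finset.mem_univ, and_true, Finset.mem_insert, Finset.mem_map,
      Fin.coe_succEmb]
    refine Fin.cases ?_ (fun i => ?_) i
    · simp [(Fin.succ_ne_zero j).symm]
    · simp [Fin.succ_inj, Fin.succ_ne_zero]
  rw [h1, Finset.prod_insert (by simp [Fin.succ_ne_zero]), Finset.prod_map]
  simp only [Fin.cons_succ, Fin.cons_zero, Fin.coe_succEmb]
  ring

end TRMd

open TRMd in
theorem t_RMd : S_RMd := by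
  intro q w hq C N y z hg
  have h3 := q3 hq
  have hq0 := q_ne hq
  have hqq := qq_ne hq
  obtain ⟨hg0, hg1, hg2⟩ := hg
  have hy : y ≠ 0 := by simpa using hg0 0
  have hz0 : ∀ j, z j ≠ 0 := fun j => by simpa using hg0 j.succ
  have hyz : ∀ j, y - z j ≠ 0 := fun j => sub_ne_zero.2 (by
    simpa using hg1 0 j.succ (Fin.succ_ne_zero j).symm)
  have ha : ∀ j, q ^ 2 * y - q * z j ≠ 0 := fun j => sub_ne_zero.2 (by
    simpa using hg2 0 j.succ (Fin.succ_ne_zero j).symm)
  have hb : ∀ j, q ^ 2 * z j - q * y ≠ 0 := fun j => sub_ne_zero.2 (by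
    simpa using hg2 j.succ 0 (Fin.succ_ne_zero j))
  have hzz : ∀ i j, q ^ 2 * z i - q * z j ≠ 0 := by
    intro i j
    by_cases hij : i = j
    · subst hij
      rw [← sub_mul]
      exact mul_ne_zero hqq (hz0 i)
    · exact sub_ne_zero.2 (by
        simpa using hg2 i.succ j.succ (fun h => hij (Fin.succ_inj.1 h)))
  have hc : ∀ j, y - q * z j ≠ 0 := by
    intro j h
    apply hb j
    linear_combination (-q) * h
  -- the matrices
  set Z : Fin (N + 1) → ℂ := Fin.cons y z with hZ
  have hZ0 : Z 0 = y := rfl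
  have hZs : ∀ j : Fin N, Z j.succ = z j := fun j => rfl
  let M : Matrix (Fin (N + 1)) (Fin (N + 1)) ℂ := Matrix.of fun i j =>
    (if i = j then bt q w Z j * lg ((q ^ 2 * y) :: C) (q ^ 2) (Z j) else 0)
      + lg ((q ^ 2 * y) :: C) q (Z j) / (q ^ 2 * Z i - q * Z j)
  let c : Fin (N + 1) → ℂ := Fin.cons 0 fun i => (q ^ 2 - q) * y / (q ^ 2 * z i - q * y)
  let B : Matrix (Fin (N + 1)) (Fin (N + 1)) ℂ := Matrix.of fun i j => M i j - c i * M 0 j
  let K : Matrix (Fin N) (Fin N) ℂ := Matrix.of fun i j =>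
    (if i = j then bt q w z j * lg (y :: C) (q ^ 2) (z j) else 0)
      + lg (y :: C) q (z j) / (q ^ 2 * z i - q * z j)
  have hdet : M.det = B.det := by
    refine Matrix.det_eq_of_forall_row_eq_smul_add_const c 0 rfl fun i j => ?_
    change M i j = (M i j - c i * M 0 j) + c i * (M 0 j - c 0 * M 0 j)
    have : c 0 = 0 := rfl
    rw [this]; ring
  have hM00 : M 0 0 = lg C q y := by
    change (if (0 : Fin (N + 1)) = 0 then bt q w Z 0 * lg ((q ^ 2 * y) :: C) (q ^ 2) (Z 0) else 0)
      + lg ((q ^ 2 * y) :: C) q (Z 0) / (q ^ 2 * Z 0 - q * Z 0) = _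
    rw [if_pos rfl, hZ0, lg_cons, lg_cons, sub_self, zero_mul, mul_zero, zero_add, ← sub_mul,
      mul_div_assoc, mul_div_assoc']
    rw [mul_div_cancel_left₀ _ (mul_ne_zero hqq hy)]
  have hMs0 : ∀ i : Fin N, M i.succ 0 = (q ^ 2 - q) * y * lg C q y / (q ^ 2 * z i - q * y) := by
    intro i
    change (if i.succ = 0 then bt q w Z 0 * lg ((q ^ 2 * y) :: C) (q ^ 2) (Z 0) else 0)
      + lg ((q ^ 2 * y) :: C) q (Z 0) / (q ^ 2 * Z i.succ - q * Z 0) = _
    rw [if_neg (Fin.succ_ne_zero i), hZ0, hZs, lg_cons, zero_add]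
    ring
  have hM0s : ∀ j : Fin N, M 0 j.succ = lg C q (z j) := by
    intro j
    change (if (0 : Fin (N + 1)) = j.succ then
      bt q w Z j.succ * lg ((q ^ 2 * y) :: C) (q ^ 2) (Z j.succ) else 0)
      + lg ((q ^ 2 * y) :: C) q (Z j.succ) / (q ^ 2 * Z 0 - q * Z j.succ) = _
    rw [if_neg (Fin.succ_ne_zero j).symm, hZ0, hZs, lg_cons, zero_add,
      mul_div_cancel_left₀ _ (ha j)]
  have hB00 : B 0 0 = lg C q y := by
    change M 0 0 - 0 * M 0 0 = _
    rw [zero_mul, sub_zero, hM00]
  have hBs0 : ∀ i : Fin N, B i.succ 0 = 0 := by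
    intro i
    change M i.succ 0 - (q ^ 2 - q) * y / (q ^ 2 * z i - q * y) * M 0 0 = _
    rw [hMs0, hM00]
    ring
  have hBss : B.submatrix Fin.succ Fin.succ = Matrix.of fun i j =>
      ((y - z i) / (q * (y - q * z i))) * (Matrix.of fun i j =>
        ((y - z j) / (y - q * z j)) * K i j) i j := by
    ext i j
    change M i.succ j.succ - (q ^ 2 - q) * y / (q ^ 2 * z i - q * y) * M 0 j.succ =
      ((y - z i) / (q * (y - q * z i))) * (((y - z j) / (y - q * z j)) *
        ((if i = j then bt q w z j * lg (y :: C) (q ^ 2) (z j) else 0)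
      + lg (y :: C) q (z j) / (q ^ 2 * z i - q * z j)))
    rw [hM0s]
    have hMss : M i.succ j.succ = (if i = j then
        bt q w Z j.succ * lg ((q ^ 2 * y) :: C) (q ^ 2) (z j) else 0)
        + lg ((q ^ 2 * y) :: C) q (z j) / (q ^ 2 * z i - q * z j) := by
      change (if i.succ = j.succ then
        bt q w Z j.succ * lg ((q ^ 2 * y) :: C) (q ^ 2) (Z j.succ) else 0)
        + lg ((q ^ 2 * y) :: C) q (Z j.succ) / (q ^ 2 * Z i.succ - q * Z j.succ) = _
      simp only [Fin.succ_inj, hZs]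
    rw [hMss, lg_cons, lg_cons, lg_cons, lg_cons]
    have hcau : (q ^ 2 * y - q * z j) * lg C q (z j) / (q ^ 2 * z i - q * z j)
        - (q ^ 2 - q) * y / (q ^ 2 * z i - q * y) * lg C q (z j) =
        ((y - z i) / (q * (y - q * z i))) * (((y - z j) / (y - q * z j)) *
        ((y - q * z j) * lg C q (z j) / (q ^ 2 * z i - q * z j))) := by
      have e1 : q ^ 2 * z i - q * y = -(q * (y - q * z i)) := by ring
      rw [e1]
      have h5 := hzz i j
      have h6 := hc i
      have h7 := hc j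
      have h8 : (q ^ 2 * y - q * z j) * (q * (y - q * z i)) + (q ^ 2 - q) * y *
          (q ^ 2 * z i - q * z j) = (y - z i) * (y - z j) := by
        linear_combination ((y - z i) * (y - z j)) * h3
      generalize y - q * z i = D1 at h6 h8 ⊢
      generalize q ^ 2 * z i - q * z j = D2 at h5 h8 ⊢
      generalize y - q * z j = D3 at h7 ⊢
      field_simp
      linear_combination (lg C q (z j)) * h8
    by_cases hij : i = j
    · rw [if_pos hij, if_pos hij]
      subst hij
      have hdia : bt q w Z i.succ * ((q ^ 2 * y - q ^ 2 * z i) * lg C (q ^ 2) (z i)) =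
          ((y - z i) / (q * (y - q * z i))) * (((y - z i) / (y - q * z i)) *
            (bt q w z i * ((y - q ^ 2 * z i) * lg C (q ^ 2) (z i)))) := by
        rw [hZ, bt_cons]
        have h6 := hc i
        field_simp
        linear_combination ((y - q ^ 2 * z i) * (y - z i) ^ 2 * bt q w z i * lg C (q ^ 2) (z i)) * h3
      linear_combination hdia + hcau
    · rw [if_neg hij, if_neg hij]
      linear_combination hcau
  have hdetB : B.det = lg C q y * ((∏ i, ((y - z i) / (q * (y - q * z i)))) *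
      ((∏ j, ((y - z j) / (y - q * z j))) * K.det)) := by
    rw [Matrix.det_succ_column_zero, Fin.sum_univ_succ, Finset.sum_eq_zero, add_zero]
    · simp only [Fin.val_zero, pow_zero, one_mul, Fin.succAbove_zero]
      rw [hB00, hBss, Matrix.det_mul_column, Matrix.det_mul_row]
    · intro i _
      rw [hBs0, mul_zero, zero_mul]
  change M.det * ∏ j, (q * (y - q * z j) ^ 2) = lg C q y * (∏ j, (y - z j) ^ 2) * K.det
  rw [hdet, hdetB]
  have hprod : (∏ i, ((y - z i) / (q * (y - q * z i)))) * (∏ j, ((y - z j) / (y - q * z j))) *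
      ∏ j, (q * (y - q * z j) ^ 2) = ∏ j, (y - z j) ^ 2 := by
    rw [← Finset.prod_mul_distrib, ← Finset.prod_mul_distrib]
    refine Finset.prod_congr rfl fun j _ => ?_
    have h6 := hc j
    generalize y - q * z j = D at h6 ⊢
    field_simp
  rw [← hprod]
  ring

end Pool.Agent.H160R2.ML
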