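import Pool.Agent.H160R2.ML.Stm

/-!
# The residue relation at `a = q y`
-/

set_option autoImplicit false

namespace Pool.Agent.H160R2.ML
open Pool.Agent.H863R2.Cyl
open Pool.Agent.H988R2.Perc (Word PD)
open H974 H906.Cyl

namespace TRP

/-- elimination in the first column -/
theorem det_col0 {N : ℕ} (M : Matrix (Fin (N + 1)) (Fin (N + 1)) ℂ) (c : Fin N → ℂ)
    (hc : ∀ i, M i.succ 0 = c i * M 0 0) :
    M.det = M 0 0 * (Matrix.of fun i j : Fin N => M i.succ j.succ - c i * M 0 j.succ).det := by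
  set c' : Fin (N + 1) → ℂ := Fin.cons 0 c with hc'
  set B : Matrix (Fin (N + 1)) (Fin (N + 1)) ℂ := Matrix.of fun i j => M i j - c' i * M 0 j
    with hB
  have h00 : c' 0 = 0 := rfl
  have hs : ∀ i : Fin N, c' i.succ = c i := fun i => rfl
  have hB0 : ∀ j, B 0 j = M 0 j := by
    intro j
    rw [hB, Matrix.of_apply, h00, zero_mul, sub_zero]
  have h1 : M.det = B.det := by
    apply Matrix.det_eq_of_forall_row_eq_smul_add_const c' 0 h00
    intro i j
    rw [hB0, hB, Matrix.of_apply]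
    ring
  rw [h1, Matrix.det_succ_column_zero, Fin.sum_univ_succ]
  have h2 : ∀ i : Fin N, B i.succ 0 = 0 := by
    intro i
    rw [hB, Matrix.of_apply, hs, hc, sub_self]
  have h3 : ∑ i : Fin N, (-1 : ℂ) ^ ((i.succ : Fin (N + 1)) : ℕ) * B i.succ 0 *
      (B.submatrix (i.succ).succAbove Fin.succ).det = 0 := by
    refine Finset.sum_eq_zero fun i _ => ?_
    rw [h2, mul_zero, zero_mul]
  rw [h3, add_zero, Fin.val_zero, pow_zero, one_mul, hB0]
  congr 2

theorem lg_cons (a : ℂ) (C : List ℂ) (s u : ℂ) : lg (a :: C) s u = (a - s * u) * lg C s u := by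
  simp [lg]

theorem q3 {q : ℂ} (hq : q ^ 2 + q + 1 = 0) : q ^ 3 = 1 := by
  linear_combination (q - 1) * hq

theorem q0 {q : ℂ} (hq : q ^ 2 + q + 1 = 0) : q ≠ 0 := by
  rintro rfl
  norm_num at hq

theorem q1 {q : ℂ} (hq : q ^ 2 + q + 1 = 0) : q ≠ 1 := by
  rintro rfl
  norm_num at hq

theorem den {q : ℂ} (hq : q ^ 2 + q + 1 = 0) {N : ℕ} {z : Fin N → ℂ} (hz : Gen q z)
    (i j : Fin N) : q ^ 2 * z i - q * z j ≠ 0 := by
  by_cases h : i = j
  · subst h
    have : q ^ 2 * z i - q * z i = q * (q - 1) * z i := by ring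
    rw [this]
    exact mul_ne_zero (mul_ne_zero (q0 hq) (sub_ne_zero.2 (q1 hq))) (hz.1 i)
  · exact sub_ne_zero.2 (hz.2.2 i j h)

theorem id1 {q y a b : ℂ} (hq : q ^ 2 + q + 1 = 0) (h1 : q ^ 2 * a - q * b ≠ 0)
    (h2 : q ^ 2 * y - q * a ≠ 0) (h3 : q ^ 2 * y - q * b ≠ 0) :
    (q * y - q * b) * (1 / (q ^ 2 * a - q * b) -
      (q ^ 2 - q) * y / (q ^ 2 * y - q * a) / (q ^ 2 * y - q * b)) =
    (y - a) / (q ^ 2 * y - q * a) * (q ^ 2 * (y - b) / (q ^ 2 * y - q * b)) *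
      ((y - q * b) / (q ^ 2 * a - q * b)) := by
  have e3 := q3 hq
  have key : (q * y - q * b) * ((q ^ 2 * y - q * a) * (q ^ 2 * y - q * b) -
      (q ^ 2 - q) * y * (q ^ 2 * a - q * b)) = (y - a) * (q ^ 2 * (y - b)) * (y - q * b) := by
    linear_combination (q ^ 2 * (y - b) * y * (y - a)) * e3
  generalize hD1 : q ^ 2 * a - q * b = D1 at *
  generalize hD2 : q ^ 2 * y - q * a = D2 at *
  generalize hD3 : q ^ 2 * y - q * b = D3 at *
  have l : (q * y - q * b) * (1 / D1 - (q ^ 2 - q) * y / D2 / D3) =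
      (q * y - q * b) * (D2 * D3 - (q ^ 2 - q) * y * D1) / (D1 * D2 * D3) := by
    field_simp
  rw [l, key]
  field_simp

theorem id2 {q y a b : ℂ} (hq : q ^ 2 + q + 1 = 0) (h1 : q ^ 2 * b - q * a ≠ 0)
    (h2 : q ^ 2 * y - q * a ≠ 0) (h3 : q ^ 2 * y - q * b ≠ 0) (h4 : q ^ 2 * b - q * y ≠ 0) :
    (q * y - q ^ 2 * b) * (1 / (q ^ 2 * b - q * a) -
      (q ^ 2 - q) * y / (q ^ 2 * y - q * a) / (q ^ 2 * b - q * y)) =
    (y - a) / (q ^ 2 * y - q * a) * (q ^ 2 * (y - b) / (q ^ 2 * y - q * b)) *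
      ((y - q ^ 2 * b) / (q ^ 2 * b - q * a)) := by
  have e3 := q3 hq
  have key : (q * y - q ^ 2 * b) * ((q ^ 2 * y - q * a) * (q ^ 2 * b - q * y) -
      (q ^ 2 - q) * y * (q ^ 2 * b - q * a)) * (q ^ 2 * y - q * b) =
      (y - a) * (q ^ 2 * (y - b)) * (y - q ^ 2 * b) * (q ^ 2 * b - q * y) := by
    linear_combination (q ^ 2 * y * (y - a) * (y - b) * (q ^ 2 * b - q * y)) * e3
  generalize hD1 : q ^ 2 * b - q * a = D1 at *
  generalize hD2 : q ^ 2 * y - q * a = D2 at *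
  generalize hD3 : q ^ 2 * y - q * b = D3 at *
  generalize hD4 : q ^ 2 * b - q * y = D4 at *
  have l : (q * y - q ^ 2 * b) * (1 / D1 - (q ^ 2 - q) * y / D2 / D4) =
      (q * y - q ^ 2 * b) * (D2 * D4 - (q ^ 2 - q) * y * D1) * D3 / (D1 * D2 * D3 * D4) := by
    field_simp
  rw [l, key]
  field_simp

end TRP

open TRP in
theorem t_RP : S_RP := by
  intro q w hq C N y z hz
  have hz' : Gen q z := by
    refine ⟨fun i => ?_, fun i j hij => ?_, fun i j hij => ?_⟩
    · simpa using hz.1 i.succ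
    · have := hz.2.1 i.succ j.succ (fun h => hij (Fin.succ_injective _ h))
      simpa using this
    · have := hz.2.2 i.succ j.succ (fun h => hij (Fin.succ_injective _ h))
      simpa using this
  have hy : y ≠ 0 := by simpa using hz.1 0
  have hyz : ∀ j, q ^ 2 * y - q * z j ≠ 0 := by
    intro j
    have := den hq hz 0 j.succ
    simpa using this
  have hzy : ∀ j, q ^ 2 * z j - q * y ≠ 0 := by
    intro j
    have := den hq hz j.succ 0
    simpa using this
  have hyy : q ^ 2 * y - q * y ≠ 0 := by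
    have := den hq hz 0 0
    simpa using this
  have hzz : ∀ i j, q ^ 2 * z i - q * z j ≠ 0 := den hq hz'
  unfold T
  set M : Matrix (Fin (N + 1)) (Fin (N + 1)) ℂ := Matrix.of fun i j : Fin (N + 1) =>
    lg ((q * y) :: C) q ((Fin.cons y z : Fin (N + 1) → ℂ) j) /
      (q ^ 2 * (Fin.cons y z : Fin (N + 1) → ℂ) i - q * (Fin.cons y z : Fin (N + 1) → ℂ) j)
    + w * lg ((q * y) :: C) (q ^ 2) ((Fin.cons y z : Fin (N + 1) → ℂ) j) /
      (q ^ 2 * (Fin.cons y z : Fin (N + 1) → ℂ) j - q * (Fin.cons y z : Fin (N + 1) → ℂ) i)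
    with hM
  have hM00 : M 0 0 = - w * lg C (q ^ 2) y := by
    rw [hM, Matrix.of_apply, Fin.cons_zero, lg_cons, lg_cons, sub_self, zero_mul, zero_div,
      zero_add, div_eq_iff hyy]
    ring
  have hM0s : ∀ j : Fin N, M 0 j.succ = (q * y - q * z j) * lg C q (z j) / (q ^ 2 * y - q * z j) +
      w * ((q * y - q ^ 2 * z j) * lg C (q ^ 2) (z j)) / (q ^ 2 * z j - q * y) := by
    intro j
    rw [hM, Matrix.of_apply, Fin.cons_zero, Fin.cons_succ, lg_cons, lg_cons]
  have hMs0 : ∀ i : Fin N, M i.succ 0 = (q ^ 2 - q) * y / (q ^ 2 * y - q * z i) * M 0 0 := by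
    intro i
    rw [hM00, hM, Matrix.of_apply, Fin.cons_zero, Fin.cons_succ, lg_cons, lg_cons, sub_self,
      zero_mul, zero_div, zero_add]
    ring
  have hMss : ∀ i j : Fin N, M i.succ j.succ =
      (q * y - q * z j) * lg C q (z j) / (q ^ 2 * z i - q * z j) +
      w * ((q * y - q ^ 2 * z j) * lg C (q ^ 2) (z j)) / (q ^ 2 * z j - q * z i) := by
    intro i j
    rw [hM, Matrix.of_apply, Fin.cons_succ, Fin.cons_succ, lg_cons, lg_cons]
  rw [det_col0 M _ hMs0, hM00]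
  have hent : (Matrix.of fun i j : Fin N => M i.succ j.succ -
      (q ^ 2 - q) * y / (q ^ 2 * y - q * z i) * M 0 j.succ) =
      Matrix.of fun i j : Fin N => ((y - z i) / (q ^ 2 * y - q * z i)) *
        (Matrix.of fun i j : Fin N => (q ^ 2 * (y - z j) / (q ^ 2 * y - q * z j)) *
          (Matrix.of fun i j : Fin N => lg (y :: C) q (z j) / (q ^ 2 * z i - q * z j)
            + w * lg (y :: C) (q ^ 2) (z j) / (q ^ 2 * z j - q * z i)) i j) i j := by
    ext i j
    simp only [Matrix.of_apply]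
    rw [hMss, hM0s, lg_cons, lg_cons]
    have i1 := id1 hq (hzz i j) (hyz i) (hyz j)
    have i2 := id2 hq (hzz j i) (hyz i) (hyz j) (hzy j)
    linear_combination lg C q (z j) * i1 + w * lg C (q ^ 2) (z j) * i2
  rw [hent, Matrix.det_mul_column, Matrix.det_mul_row]
  have hprod : (∏ i : Fin N, (y - z i) / (q ^ 2 * y - q * z i)) *
      (∏ i : Fin N, q ^ 2 * (y - z i) / (q ^ 2 * y - q * z i)) *
      (∏ j : Fin N, ((q ^ 2 * y - q * z j) * (y - q ^ 2 * z j))) =
      ∏ j : Fin N, (y - z j) ^ 2 := by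
    rw [← Finset.prod_mul_distrib, ← Finset.prod_mul_distrib]
    refine Finset.prod_congr rfl fun j _ => ?_
    have e3 := q3 hq
    have e : q ^ 2 * (y - q ^ 2 * z j) = q ^ 2 * y - q * z j := by
      linear_combination (-q * z j) * e3
    have hj := hyz j
    generalize q ^ 2 * y - q * z j = D at hj e ⊢
    calc (y - z j) / D * (q ^ 2 * (y - z j) / D) * (D * (y - q ^ 2 * z j))
        = (y - z j) ^ 2 * ((q ^ 2 * (y - q ^ 2 * z j)) * D / (D * D)) := by ring
      _ = (y - z j) ^ 2 := by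
          rw [e, div_self (mul_ne_zero hj hj), mul_one]
  rw [← hprod]
  ring

end Pool.Agent.H160R2.ML
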