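import Pool.Agent.H160R2.ML.Stm

set_option autoImplicit false

namespace Pool.Agent.H160R2.ML
open Pool.Agent.H863R2.Cyl
open Finset

namespace TRPd

lemma lg_cons (a : ℂ) (C : List ℂ) (s u : ℂ) : lg (a :: C) s u = (a - s * u) * lg C s u := by
  simp [lg]

/-- the diagonal coefficient at `0` -/
lemma bt_zero (q w y : ℂ) {N : ℕ} (z : Fin N → ℂ) :
    bt q w (Fin.cons y z : Fin (N + 1) → ℂ) 0 = w / ((q ^ 2 - q) * y) *
      ∏ k, ((z k - q ^ 2 * y) * (z k - y) / (z k - q * y) ^ 2) := by
  unfold bt
  have hu : (Finset.univ : Finset (Fin (N + 1))).erase 0 = Finset.univ.map (Fin.succEmb N) := by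
    ext k
    simp only [mem_erase, mem_univ, and_true, mem_map, true_and]
    constructor
    · intro h
      obtain ⟨k', rfl⟩ := Fin.exists_succ_eq.2 h
      exact ⟨k', rfl⟩
    · rintro ⟨k', rfl⟩
      exact Fin.succ_ne_zero k'
  rw [hu, Finset.prod_map]
  simp

/-- the diagonal coefficient at a successor -/
lemma bt_succ (q w y : ℂ) {N : ℕ} (z : Fin N → ℂ) (j : Fin N) :
    bt q w (Fin.cons y z : Fin (N + 1) → ℂ) j.succ = bt q w z j *
      ((y - q ^ 2 * z j) * (y - z j) / (y - q * z j) ^ 2) := by
  unfold bt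
  have hu : (Finset.univ : Finset (Fin (N + 1))).erase j.succ =
      insert 0 ((Finset.univ.erase j).map (Fin.succEmb N)) := by
    ext k
    simp only [mem_erase, mem_univ, and_true, mem_insert, mem_map]
    constructor
    · intro h
      rcases Fin.eq_zero_or_eq_succ k with rfl | ⟨k', rfl⟩
      · exact Or.inl rfl
      · right
        refine ⟨k', ?_, rfl⟩
        rintro rfl
        exact h rfl
    · rintro (rfl | ⟨k', hk, rfl⟩)
      · exact (Fin.succ_ne_zero j).symm
      · intro h
        exact hk (Fin.succ_injective _ h)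
  rw [hu, Finset.prod_insert, Finset.prod_map]
  · simp only [Fin.cons_succ, Fin.cons_zero, Fin.coe_succEmb]
    ring
  · simp only [mem_map, not_exists, not_and]
    intro k' _ h
    exact Fin.succ_ne_zero k' h

end TRPd

open TRPd in
theorem t_RPd : S_RPd := by
  intro q w hq C N y z hG
  obtain ⟨hG0, hG1, hG2⟩ := hG
  have hq3 : q ^ 3 = 1 := by linear_combination (q - 1) * hq
  have hq0 : q ≠ 0 := by
    rintro rfl
    norm_num at hq
  have hq21 : q ^ 2 - q ≠ 0 := by
    intro h
    have h1 : q * (q - 1) = 0 := by linear_combination h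
    rcases mul_eq_zero.1 h1 with h2 | h2
    · exact hq0 h2
    · have : q = 1 := by linear_combination h2
      rw [this] at hq
      norm_num at hq
  have hy0 : y ≠ 0 := by simpa using hG0 0
  have hyz : ∀ j, y - z j ≠ 0 := fun j h => by
    have := hG1 0 j.succ (Fin.succ_ne_zero j).symm
    simp only [Fin.cons_zero, Fin.cons_succ] at this
    exact this (by linear_combination h)
  have h1 : ∀ j, y - q * z j ≠ 0 := fun j h => by
    have := hG2 j.succ 0 (Fin.succ_ne_zero j)
    simp only [Fin.cons_zero, Fin.cons_succ] at this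
    exact this (by linear_combination (-q) * h)
  have h2 : ∀ j, z j - q * y ≠ 0 := fun j h => by
    have := hG2 0 j.succ (Fin.succ_ne_zero j).symm
    simp only [Fin.cons_zero, Fin.cons_succ] at this
    exact this (by linear_combination (-q) * h)
  -- the full determinant
  have hdet : Td q w ((q * y) :: C) (Fin.cons y z : Fin (N + 1) → ℂ) =
      (-w * lg C (q ^ 2) y * ∏ k, ((z k - q ^ 2 * y) * (z k - y) / (z k - q * y) ^ 2)) *
        ((∏ j, (q * (y - z j) / (y - q * z j))) * Td q w (y :: C) z) := by
    rw [Td, Matrix.det_succ_column_zero, Fin.sum_univ_succ]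
    have hrest : ∀ i : Fin N, (-1 : ℂ) ^ ((i.succ : Fin (N + 1)) : ℕ) *
        (Matrix.of fun i j : Fin (N + 1) => (if i = j then
          bt q w (Fin.cons y z : Fin (N + 1) → ℂ) j *
            lg ((q * y) :: C) (q ^ 2) ((Fin.cons y z : Fin (N + 1) → ℂ) j) else 0) +
          lg ((q * y) :: C) q ((Fin.cons y z : Fin (N + 1) → ℂ) j) /
            (q ^ 2 * (Fin.cons y z : Fin (N + 1) → ℂ) i - q * (Fin.cons y z : Fin (N + 1) → ℂ) j))
          i.succ 0 = 0 := by
      intro i
      simp [lg_cons, Fin.succ_ne_zero]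
    rw [Finset.sum_eq_zero (fun i _ => by rw [hrest i, zero_mul]), add_zero]
    congr 1
    · simp only [Fin.val_zero, pow_zero, one_mul, Matrix.of_apply, if_true, Fin.cons_zero, lg_cons,
        sub_self, zero_mul, zero_div, add_zero]
      rw [bt_zero]
      have : w / ((q ^ 2 - q) * y) * (q * y - q ^ 2 * y) = -w := by
        rw [div_mul_eq_mul_div, div_eq_iff (mul_ne_zero hq21 hy0)]
        ring
      linear_combination (lg C (q ^ 2) y *
        ∏ k, ((z k - q ^ 2 * y) * (z k - y) / (z k - q * y) ^ 2)) * this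
    · rw [Td, ← Matrix.det_mul_row]
      congr 1
      ext i j
      simp only [Matrix.submatrix_apply, Matrix.of_apply, Fin.zero_succAbove, Fin.succ_inj,
        Fin.cons_succ, lg_cons, bt_succ]
      have e1 := h1 j
      by_cases hij : i = j
      · simp only [hij, if_true]
        field_simp
      · simp only [if_neg hij, zero_add]
        field_simp
  rw [hdet]
  have hprod : (∏ k, ((z k - q ^ 2 * y) * (z k - y) / (z k - q * y) ^ 2)) *
      (∏ j, (q * (y - z j) / (y - q * z j))) *
      ∏ j, ((q ^ 2 * y - q * z j) * (y - q ^ 2 * z j)) = ∏ j, (y - z j) ^ 2 := by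
    rw [← Finset.prod_mul_distrib, ← Finset.prod_mul_distrib]
    refine Finset.prod_congr rfl fun j _ => ?_
    have e1 := h1 j
    have e2 := h2 j
    rw [div_mul_div_comm, div_mul_eq_mul_div, div_eq_iff (mul_ne_zero (pow_ne_zero 2 e2) e1)]
    have a1 : z j - q ^ 2 * y = -q ^ 2 * (y - q * z j) := by linear_combination (-z j) * hq3
    have a2 : y - q ^ 2 * z j = q ^ 2 * (q * y - z j) := by linear_combination (-y) * hq3
    have a3 : q ^ 6 = 1 := by linear_combination (q ^ 3 + 1) * hq3
    rw [a1, a2]
    linear_combination (y - q * z j) * (q * y - z j) ^ 2 * (y - z j) ^ 2 * a3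
  linear_combination (-w * lg C (q ^ 2) y * Td q w (y :: C) z) * hprod

end Pool.Agent.H160R2.ML
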