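import Pool.Agent.H160R2.ML.Stm

/-! # Many legs, task SC -/

set_option autoImplicit false

namespace Pool.Agent.H160R2.ML
namespace TSC

theorem mono_bound (h : ℝ → ℝ) (hm : Monotone h) (N : ℕ) (u : Fin (N + 1) → ℝ) (v : Fin N → ℝ)
    (hi : ∀ i : Fin N, u i.succ ≤ v i ∧ v i ≤ u i.castSucc) :
    h (u (Fin.last N)) ≤ ∑ i, h (u i) - ∑ i, h (v i) ∧
      ∑ i, h (u i) - ∑ i, h (v i) ≤ h (u 0) := by
  constructor
  · rw [Fin.sum_univ_castSucc]
    have : ∑ i, h (v i) ≤ ∑ i : Fin N, h (u i.castSucc) :=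
      Finset.sum_le_sum fun i _ => hm (hi i).2
    linarith
  · rw [Fin.sum_univ_succ]
    have : ∑ i : Fin N, h (u i.succ) ≤ ∑ i, h (v i) :=
      Finset.sum_le_sum fun i _ => hm (hi i).1
    linarith

theorem anti_bound (h : ℝ → ℝ) (hm : Antitone h) (N : ℕ) (u : Fin (N + 1) → ℝ) (v : Fin N → ℝ)
    (hi : ∀ i : Fin N, u i.succ ≤ v i ∧ v i ≤ u i.castSucc) :
    h (u 0) ≤ ∑ i, h (u i) - ∑ i, h (v i) ∧
      ∑ i, h (u i) - ∑ i, h (v i) ≤ h (u (Fin.last N)) := by
  constructor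
  · rw [Fin.sum_univ_succ]
    have : ∑ i, h (v i) ≤ ∑ i : Fin N, h (u i.succ) :=
      Finset.sum_le_sum fun i _ => hm (hi i).1
    linarith
  · rw [Fin.sum_univ_castSucc]
    have : ∑ i : Fin N, h (u i.castSucc) ≤ ∑ i, h (v i) :=
      Finset.sum_le_sum fun i _ => hm (hi i).2
    linarith

end TSC

theorem t_SC : S_SC := by
  intro g K hsym hmon hK N u v _ _ hi
  have hK0 : 0 ≤ K := le_trans (abs_nonneg _) (hK 0)
  have h1m : Monotone (fun x : ℝ => g (max x 0)) := by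
    intro x y hxy
    exact hmon (Set.mem_Ici.2 (le_max_right _ _)) (Set.mem_Ici.2 (le_max_right _ _))
      (max_le_max hxy le_rfl)
  have h2m : Antitone (fun x : ℝ => g (max (-x) 0)) := by
    intro x y hxy
    exact hmon (Set.mem_Ici.2 (le_max_right _ _)) (Set.mem_Ici.2 (le_max_right _ _))
      (max_le_max (neg_le_neg hxy) le_rfl)
  have hdec : ∀ x : ℝ, g x = g (max x 0) + g (max (-x) 0) - g 0 := by
    intro x
    rcases le_total 0 x with hx | hx
    · rw [max_eq_left hx, max_eq_right (by linarith)]; ring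
    · rw [max_eq_right hx, max_eq_left (by linarith), hsym]; ring
  obtain ⟨a1, a2⟩ := TSC.mono_bound _ h1m N u v hi
  obtain ⟨b1, b2⟩ := TSC.anti_bound _ h2m N u v hi
  have hs : ∑ i, g (u i) - ∑ i, g (v i) =
      (∑ i, g (max (u i) 0) - ∑ i, g (max (v i) 0)) +
      (∑ i, g (max (-(u i)) 0) - ∑ i, g (max (-(v i)) 0)) - g 0 := by
    rw [Finset.sum_congr rfl (fun i _ => hdec (u i)), Finset.sum_congr rfl (fun i _ => hdec (v i))]
    simp only [Finset.sum_sub_distrib, Finset.sum_add_distrib, Finset.sum_const,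
      Finset.card_univ, Fintype.card_fin, nsmul_eq_mul]
    push_cast
    ring
  have hb : ∀ x, -K ≤ g x ∧ g x ≤ K := fun x => abs_le.1 (hK x)
  rw [hs, abs_le]
  have c1 := (hb (max (u (Fin.last N)) 0))
  have c2 := (hb (max (u 0) 0))
  have c3 := (hb (max (-(u (Fin.last N))) 0))
  have c4 := (hb (max (-(u 0)) 0))
  have c5 := hb 0
  constructor <;> linarith [c1.1, c1.2, c2.1, c2.2, c3.1, c3.2, c4.1, c4.2, c5.1, c5.2]

end Pool.Agent.H160R2.ML
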