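import Pool.Agent.H160R2.ML.Stm

/-! Task TB: the exact formula for arbitrary legs. -/

set_option autoImplicit false

namespace Pool.Agent.H160R2.ML
open Pool.Agent.H863R2.Cyl
open Pool.Agent.H988R2.Perc (Word PD)

namespace TB

lemma continuous_of_PD {N d : ℕ} {G : List ℂ → ℂ} (h : PD N d G) :
    Continuous (fun z : Fin N → ℂ => G (List.ofFn z)) := by
  obtain ⟨p, -, hp⟩ := h
  have : (fun z : Fin N → ℂ => G (List.ofFn z)) = fun z => MvPolynomial.eval z p := by
    funext z
    rw [hp _ (List.length_ofFn)]
    have h2 : (fun i : Fin N => (List.ofFn z).getD i 0) = z := by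
      funext i
      rw [List.getD_eq_getElem _ _ (by simp)]
      simp
    rw [h2]
  rw [this]
  exact MvPolynomial.continuous_eval p

theorem eq_zero_of_ne {f : ℂ → ℂ} (hf : Continuous f) (S : Set ℂ) (hS : S.Finite)
    (h : ∀ u, u ∉ S → f u = 0) (x : ℂ) : f x = 0 := by
  have hd : Dense (Sᶜ) := hS.countable.dense_compl ℂ
  have h1 : f = fun _ => 0 := by
    apply Continuous.ext_on hd hf continuous_const
    intro u hu
    exact h u hu
  rw [h1]

/-- the words of length `N` -/
noncomputable def WS (N : ℕ) : Finset Word := (List.finite_length_eq Bool N).toFinset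

theorem supp_sub {v : VW} {N : ℕ} (hv : v ∈ VN N) : v.support ⊆ WS N := by
  intro w hw
  have := (Finsupp.mem_supported ℂ v).1 hv hw
  simp only [WS, Set.Finite.mem_toFinset]
  exact this.1

theorem pr_eq (e : ℕ → ℕ → Word → Word → ℂ) (p r : ℕ) {v' v : VW} {N N' : ℕ} (hv' : v' ∈ VN N')
    (hv : v ∈ VN N) :
    prE e p r v' v = ∑ w' ∈ WS N', ∑ w ∈ WS N, e p r w' w * (v' w' * v w) := by
  unfold prE
  rw [Finsupp.linearCombination_apply, Finsupp.sum_of_support_subset _ (supp_sub hv')]
  · rw [LinearMap.sum_apply]
    refine Finset.sum_congr rfl fun w' _ => ?_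
    rw [LinearMap.smul_apply, Finsupp.linearCombination_apply,
      Finsupp.sum_of_support_subset _ (supp_sub hv)]
    · rw [Finset.smul_sum]
      refine Finset.sum_congr rfl fun w _ => ?_
      simp only [smul_eq_mul]
      ring
    · intro w _; simp
  · intro w _; simp

theorem pfq_cont (q : ℂ) : ∀ (p : ℕ) (v : ℂ → Fin p → ℂ), (∀ i, Continuous fun t => v t i) →
    Continuous fun t => pfq q (List.ofFn (v t))
  | 0, v, _ => by
    simp only [List.ofFn_zero, pfq]
    exact continuous_const
  | p + 1, v, hv => by
    have h1 : (fun t => pfq q (List.ofFn (v t))) = fun t =>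
        (∏ i : Fin p, (q * v t i.succ - q ^ 2 * v t 0)) *
          pfq q (List.ofFn fun i : Fin p => v t i.succ) := by
      funext t
      rw [List.ofFn_succ, pfq, List.map_ofFn, List.prod_ofFn]
      rfl
    rw [h1]
    refine Continuous.mul ?_ (pfq_cont q p (fun t i => v t i.succ) fun i => hv i.succ)
    exact continuous_finsetProd _ fun i _ =>
      (continuous_const.mul (hv i.succ)).sub (continuous_const.mul (hv 0))

theorem lg_cont (p : ℕ) (v : ℂ → Fin p → ℂ) (hv : ∀ i, Continuous fun t => v t i) (s u : ℂ) :
    Continuous fun t => lg (List.ofFn (v t)) s u := by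
  have h1 : (fun t => lg (List.ofFn (v t)) s u) = fun t => ∏ i, (v t i - s * u) := by
    funext t
    rw [lg, List.map_ofFn, List.prod_ofFn]
    rfl
  rw [h1]
  exact continuous_finsetProd _ fun i _ => (hv i).sub continuous_const

theorem psi_cont {q : ℂ} {Ψ : List ℂ → VW} (h : Fam q Ψ) (p N : ℕ) (v : ℂ → Fin p → ℂ)
    (hv : ∀ i, Continuous fun t => v t i) (z : Fin N → ℂ) (w : Word) :
    Continuous fun t => Ψ (List.ofFn (v t) ++ List.ofFn z) w := by
  have h1 : (fun t => Ψ (List.ofFn (v t) ++ List.ofFn z) w) =
      fun t => (fun y : Fin (p + N) → ℂ => Ψ (List.ofFn y) w) (Fin.append (v t) z) := by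
    funext t
    simp only [List.ofFn_fin_append]
  rw [h1]
  refine (continuous_of_PD (h.deg (p + N) w)).comp (continuous_pi fun i => ?_)
  refine Fin.addCases (fun i => ?_) (fun i => ?_) i
  · simp only [Fin.append_left]
    exact hv i
  · simp only [Fin.append_right]
    exact continuous_const

theorem GG_cont {q q' : ℂ} {Ψ Ψ' : List ℂ → VW} (h : Fam q Ψ) (h' : Fam q' Ψ')
    (e : ℕ → ℕ → Word → Word → ℂ) (p r N : ℕ) (a : ℂ → Fin p → ℂ) (b : ℂ → Fin r → ℂ)
    (ha : ∀ i, Continuous fun t => a t i) (hb : ∀ i, Continuous fun t => b t i) (z : Fin N → ℂ) :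
    Continuous fun t => GG e Ψ' Ψ (List.ofFn (a t)) (List.ofFn (b t)) (List.ofFn z) := by
  have h1 : (fun t => GG e Ψ' Ψ (List.ofFn (a t)) (List.ofFn (b t)) (List.ofFn z)) = fun t =>
      ∑ w' ∈ WS (r + N), ∑ w ∈ WS (p + N), e p r w' w *
        (Ψ' (List.ofFn (b t) ++ List.ofFn z) w' * Ψ (List.ofFn (a t) ++ List.ofFn z) w) := by
    funext t
    have m1 := h.mem (List.ofFn (a t) ++ List.ofFn z)
    have m2 := h'.mem (List.ofFn (b t) ++ List.ofFn z)
    rw [List.length_append, List.length_ofFn, List.length_ofFn] at m1 m2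
    unfold GG
    rw [List.length_ofFn, List.length_ofFn, pr_eq e p r m2 m1]
  rw [h1]
  refine continuous_finsetSum _ fun w' _ => continuous_finsetSum _ fun w _ => ?_
  exact continuous_const.mul ((psi_cont h' r N b hb z w').mul (psi_cont h p N a ha z w))

/-- bad parameters -/
theorem bad_finite (M : ℕ) (cc dd : Fin M → ℂ) (h0 : ∀ m, dd m = 0 → cc m ≠ 0)
    (h1 : ∀ m m', m ≠ m' → (dd m) ^ 3 = (dd m') ^ 3 → dd m = 0 ∧ dd m' = 0 ∧
      (cc m) ^ 3 ≠ (cc m') ^ 3) :
    {t : ℂ | ¬ Gn (List.ofFn fun m => cc m + t * dd m)}.Finite := by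
  have hA : (⋃ m : Fin M, {t : ℂ | cc m + t * dd m = 0}).Finite := by
    refine Set.finite_iUnion fun m => ?_
    have hp : (Polynomial.C (cc m) + Polynomial.X * Polynomial.C (dd m) : Polynomial ℂ) ≠ 0 := by
      intro h
      have e0 := congrArg (fun P => Polynomial.eval 0 P) h
      have e1 := congrArg (fun P => Polynomial.eval 1 P) h
      simp at e0 e1
      rw [e0, zero_add] at e1
      exact h0 m e1 e0
    refine (Polynomial.finite_setOfPred_isRoot hp).subset ?_
    intro t ht
    show Polynomial.eval t (Polynomial.C (cc m) + Polynomial.X * Polynomial.C (dd m)) = 0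
    simp only [Polynomial.eval_add, Polynomial.eval_mul, Polynomial.eval_C, Polynomial.eval_X]
    exact ht
  have hB : (⋃ m : Fin M, ⋃ m' : Fin M, {t : ℂ | m ≠ m' ∧
      (cc m + t * dd m) ^ 3 = (cc m' + t * dd m') ^ 3}).Finite := by
    refine Set.finite_iUnion fun m => Set.finite_iUnion fun m' => ?_
    by_cases hm : m = m'
    · refine (Set.finite_empty).subset ?_
      intro t ht
      exact absurd hm ht.1
    · set P : Polynomial ℂ := (Polynomial.C (cc m) + Polynomial.X * Polynomial.C (dd m)) ^ 3 -
        (Polynomial.C (cc m') + Polynomial.X * Polynomial.C (dd m')) ^ 3 with hP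
      have hev : ∀ t, P.eval t = (cc m + t * dd m) ^ 3 - (cc m' + t * dd m') ^ 3 := by
        intro t
        simp only [hP, Polynomial.eval_sub, Polynomial.eval_pow, Polynomial.eval_add,
          Polynomial.eval_mul, Polynomial.eval_C, Polynomial.eval_X]
      have hp : P ≠ 0 := by
        intro h
        have hz : ∀ t, (cc m + t * dd m) ^ 3 - (cc m' + t * dd m') ^ 3 = 0 := by
          intro t
          rw [← hev, h, Polynomial.eval_zero]
        have e0 := hz 0
        have e1 := hz 1
        have e2 := hz (-1)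
        have e3 := hz 2
        have e4 : (dd m) ^ 3 = (dd m') ^ 3 := by
          linear_combination (1/2) * e0 - (1/2) * e1 - (1/6) * e2 + (1/6) * e3
        obtain ⟨h3, h4, h5⟩ := h1 m m' hm e4
        apply h5
        linear_combination e0
      refine (Polynomial.finite_setOfPred_isRoot hp).subset ?_
      intro t ht
      show P.eval t = 0
      rw [hev, ht.2, sub_self]
  refine (hA.union hB).subset ?_
  intro t ht
  by_contra hcon
  simp only [Set.mem_union, Set.mem_iUnion, not_or, not_exists] at hcon
  apply ht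
  refine ⟨?_, ?_⟩
  · intro x hx
    rw [List.mem_ofFn] at hx
    obtain ⟨m, rfl⟩ := hx
    exact hcon.1 m
  · rw [List.map_ofFn, List.nodup_ofFn]
    intro m m' h
    by_contra hne
    exact hcon.2 m m' ⟨hne, h⟩

end TB

theorem t_TB (hTA : S_TA) (_ : S_deg) (_ : S_TP) : S_TB := by
  intro q l e Ψ Ψ' D p r N hpr hev
  obtain ⟨κ, hκ, hmain⟩ := hTA q l e Ψ Ψ' D p r N hpr hev
  refine ⟨κ, hκ, ?_⟩
  intro A B z hA hB hz
  subst hA hB
  -- the moving legs
  let a : ℂ → Fin A.length → ℂ := fun t i => A.get i + t * ((i : ℕ) + 1 : ℂ)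
  let b : ℂ → Fin B.length → ℂ := fun t i => B.get i + t * ((A.length + i : ℕ) + 1 : ℂ)
  have ha : ∀ i, Continuous fun t => a t i := fun i =>
    continuous_const.add (continuous_id.mul continuous_const)
  have hb : ∀ i, Continuous fun t => b t i := fun i =>
    continuous_const.add (continuous_id.mul continuous_const)
  have ha0 : List.ofFn (a 0) = A := by
    have : a 0 = A.get := by
      funext i
      simp [a]
    rw [this, List.ofFn_get]
  have hb0 : List.ofFn (b 0) = B := by
    have : b 0 = B.get := by
      funext i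
      simp [b]
    rw [this, List.ofFn_get]
  -- the difference of the two sides
  let f : ℂ → ℂ := fun t =>
    GG e Ψ' Ψ (List.ofFn (a t)) (List.ofFn (b t)) (List.ofFn z) * vd z -
      κ * pfq q (List.ofFn (a t)) * pfq (q ^ 2) (List.ofFn (b t)) *
        (wd q z * (∏ i, z i) * T q (q ^ l) (List.ofFn (a t) ++ List.ofFn (b t)) z)
  have hf : Continuous f := by
    have c1 := TB.GG_cont D.h D.h' e _ _ N a b ha hb z
    have c2 := TB.pfq_cont q _ a ha
    have c3 := TB.pfq_cont (q ^ 2) _ b hb
    have c4 : Continuous fun t => T q (q ^ l) (List.ofFn (a t) ++ List.ofFn (b t)) z := by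
      unfold T
      refine Continuous.matrix_det ?_
      refine continuous_matrix fun i j => ?_
      have c5 : ∀ s u : ℂ, Continuous fun t => lg (List.ofFn (a t) ++ List.ofFn (b t)) s u := by
        intro s u
        have : (fun t => lg (List.ofFn (a t) ++ List.ofFn (b t)) s u) =
            fun t => lg (List.ofFn (a t)) s u * lg (List.ofFn (b t)) s u := by
          funext t
          simp only [lg, List.map_append, List.prod_append]
        rw [this]
        exact (TB.lg_cont _ a ha s u).mul (TB.lg_cont _ b hb s u)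
      exact ((c5 _ _).div_const _).add ((continuous_const.mul (c5 _ _)).div_const _)
    exact (c1.mul continuous_const).sub (((continuous_const.mul c2).mul c3).mul
      (continuous_const.mul c4))
  -- all entries
  let cc : Fin (A.length + B.length + N) → ℂ := Fin.append (Fin.append A.get B.get) z
  let dd : Fin (A.length + B.length + N) → ℂ := fun m =>
    if (m : ℕ) < A.length + B.length then ((m : ℕ) + 1 : ℂ) else 0
  have hlist : ∀ t, List.ofFn (a t) ++ List.ofFn (b t) ++ List.ofFn z =
      List.ofFn fun m => cc m + t * dd m := by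
    intro t
    have h1 : (fun m => cc m + t * dd m) = Fin.append (Fin.append (a t) (b t)) z := by
      funext m
      refine Fin.addCases (fun m => ?_) (fun m => ?_) m
      · refine Fin.addCases (fun m => ?_) (fun m => ?_) m
        · simp only [cc, dd, Fin.append_left, a]
          rw [if_pos (by simp; omega)]
          simp
        · simp only [cc, dd, Fin.append_left, Fin.append_right, b]
          rw [if_pos (by simp)]
          simp
      · simp only [cc, dd, Fin.append_right]
        rw [if_neg (by simp)]
        simp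
    rw [h1, List.ofFn_fin_append, List.ofFn_fin_append]
  have hzinj : ∀ i j : Fin N, i ≠ j → (z i) ^ 3 ≠ (z j) ^ 3 := by
    have h2 := hz.2
    rw [List.map_ofFn, List.nodup_ofFn] at h2
    intro i j hij h
    exact hij (h2 h)
  have hz0 : ∀ i : Fin N, z i ≠ 0 := fun i => hz.1 _ (by
    rw [List.mem_ofFn]
    exact ⟨i, rfl⟩)
  have hfin : {t : ℂ | ¬ Gn (List.ofFn fun m => cc m + t * dd m)}.Finite := by
    refine TB.bad_finite _ cc dd ?_ ?_
    · intro m
      refine Fin.addCases (fun m => ?_) (fun m => ?_) m
      · intro h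
        exfalso
        simp only [dd] at h
        rw [if_pos (by simp)] at h
        exact Nat.cast_add_one_ne_zero _ h
      · intro _
        simp only [cc, Fin.append_right]
        exact hz0 m
    · intro m m' hne h
      have key : ∀ m : Fin (A.length + B.length + N), (m : ℕ) < A.length + B.length →
          dd m = ((((m : ℕ) + 1 : ℕ)) : ℂ) := by
        intro m hm
        simp only [dd]
        rw [if_pos hm]
        push_cast
        rfl
      have key2 : ∀ m : Fin (A.length + B.length + N), ¬ (m : ℕ) < A.length + B.length →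
          dd m = 0 := by
        intro m hm
        simp only [dd]
        rw [if_neg hm]
      by_cases hm : (m : ℕ) < A.length + B.length
      · exfalso
        by_cases hm' : (m' : ℕ) < A.length + B.length
        · rw [key m hm, key m' hm'] at h
          have h3 : ((m : ℕ) + 1) ^ 3 = ((m' : ℕ) + 1) ^ 3 := by exact_mod_cast h
          have h4 := Nat.pow_left_injective (by norm_num : 3 ≠ 0) h3
          apply hne
          apply Fin.ext
          omega
        · rw [key m hm, key2 m' hm'] at h
          have h3 : ((m : ℕ) + 1) ^ 3 = 0 := by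
            have : ((((m : ℕ) + 1 : ℕ)) : ℂ) ^ 3 = ((0 : ℕ) : ℂ) := by
              rw [h]; norm_num
            exact_mod_cast this
          have := Nat.pow_pos (n := 3) (show 0 < (m : ℕ) + 1 by omega)
          omega
      · by_cases hm' : (m' : ℕ) < A.length + B.length
        · exfalso
          rw [key2 m hm, key m' hm'] at h
          have h3 : ((m' : ℕ) + 1) ^ 3 = 0 := by
            have : ((((m' : ℕ) + 1 : ℕ)) : ℂ) ^ 3 = ((0 : ℕ) : ℂ) := by
              rw [← h]; norm_num
            exact_mod_cast this
          have := Nat.pow_pos (n := 3) (show 0 < (m' : ℕ) + 1 by omega)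
          omega
        · refine ⟨key2 m hm, key2 m' hm', ?_⟩
          obtain ⟨i, rfl⟩ : ∃ i : Fin N, Fin.natAdd (A.length + B.length) i = m :=
            ⟨⟨m - (A.length + B.length), by omega⟩, by apply Fin.ext; simp; omega⟩
          obtain ⟨i', rfl⟩ : ∃ i : Fin N, Fin.natAdd (A.length + B.length) i = m' :=
            ⟨⟨m' - (A.length + B.length), by omega⟩, by apply Fin.ext; simp; omega⟩
          simp only [cc, Fin.append_right]
          exact hzinj i i' (fun h => hne (by rw [h]))
  have h0 := TB.eq_zero_of_ne hf _ hfin (fun t ht => by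
    have hG : Gn (List.ofFn fun m => cc m + t * dd m) := by
      by_contra hcon
      exact ht hcon
    rw [← hlist] at hG
    have h1 := hmain (List.ofFn (a t)) (List.ofFn (b t)) z (by simp) (by simp) hG
    show GG e Ψ' Ψ (List.ofFn (a t)) (List.ofFn (b t)) (List.ofFn z) * vd z -
      κ * pfq q (List.ofFn (a t)) * pfq (q ^ 2) (List.ofFn (b t)) *
        (wd q z * (∏ i, z i) * T q (q ^ l) (List.ofFn (a t) ++ List.ofFn (b t)) z) = 0
    rw [h1, sub_self]) 0
  have h1 : GG e Ψ' Ψ (List.ofFn (a 0)) (List.ofFn (b 0)) (List.ofFn z) * vd z -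
      κ * pfq q (List.ofFn (a 0)) * pfq (q ^ 2) (List.ofFn (b 0)) *
        (wd q z * (∏ i, z i) * T q (q ^ l) (List.ofFn (a 0) ++ List.ofFn (b 0)) z) = 0 := h0
  rw [ha0, hb0] at h1
  exact sub_eq_zero.1 h1

end Pool.Agent.H160R2.ML
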