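import Pool.Agent.H160R2.ML.Stm

/-!
# Many legs, task TD: the two forms of the determinant agree (helper214)
-/

set_option autoImplicit false

namespace Pool.Agent.H160R2.ML
open Pool.Agent.H863R2.Cyl

namespace TTD

theorem gen_comp {q : ℂ} {N : ℕ} {z : Fin N → ℂ} (h : Gen q z) (s : Equiv.Perm (Fin N)) :
    Gen q (z ∘ s) := by
  obtain ⟨h1, h2, h3⟩ := h
  exact ⟨fun i => h1 _, fun i j hij => h2 _ _ (fun e => hij (s.injective e)),
    fun i j hij => h3 _ _ (fun e => hij (s.injective e))⟩

theorem gen_tail {q y : ℂ} {N : ℕ} {z : Fin N → ℂ}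
    (h : Gen q (Fin.cons y z : Fin (N + 1) → ℂ)) : Gen q z := by
  obtain ⟨h1, h2, h3⟩ := h
  refine ⟨fun i => ?_, fun i j hij => ?_, fun i j hij => ?_⟩
  · have := h1 i.succ
    rwa [Fin.cons_succ] at this
  · have := h2 i.succ j.succ (fun e => hij (Fin.succ_injective _ e))
    rwa [Fin.cons_succ, Fin.cons_succ] at this
  · have := h3 i.succ j.succ (fun e => hij (Fin.succ_injective _ e))
    rwa [Fin.cons_succ, Fin.cons_succ] at this

theorem ne01 {q y : ℂ} {N : ℕ} {z : Fin N → ℂ}
    (h : Gen q (Fin.cons y z : Fin (N + 1) → ℂ)) (j : Fin N) :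
    q ^ 2 * y ≠ q * z j ∧ q ^ 2 * z j ≠ q * y := by
  obtain ⟨h1, h2, h3⟩ := h
  have a := h3 0 j.succ (Fin.succ_ne_zero j).symm
  have b := h3 j.succ 0 (Fin.succ_ne_zero j)
  rw [Fin.cons_succ, Fin.cons_zero] at a b
  exact ⟨a, b⟩

theorem q_cube {q : ℂ} (hq : q ^ 2 + q + 1 = 0) : q ^ 3 = 1 := by
  linear_combination (q - 1) * hq

theorem q_ne_zero {q : ℂ} (hq : q ^ 2 + q + 1 = 0) : q ≠ 0 := by
  rintro rfl
  norm_num at hq

theorem q_ne_one {q : ℂ} (hq : q ^ 2 + q + 1 = 0) : q ≠ 1 := by
  rintro rfl
  norm_num at hq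

end TTD

open TTD in
theorem t_TD : S_TP → S_RP → S_RM → S_RPd → S_RMd → S_TD := by
  intro hTP hRP hRM hRPd hRMd q w hq C N
  have hq3 := q_cube hq
  have hq0 := q_ne_zero hq
  have hq1 := q_ne_one hq
  induction N generalizing C with
  | zero =>
    intro z _
    unfold T Td
    rw [Matrix.det_isEmpty, Matrix.det_isEmpty]
  | succ N ih =>
    intro z hz
    obtain ⟨⟨P, hP1, hP2, hP3⟩, ⟨R, hR1, hR2, hR3⟩, -⟩ := hTP q w C (N + 1) z
    have key : ∀ j : Fin (N + 1), T q w ((q * z j) :: C) z = Td q w ((q * z j) :: C) z ∧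
        T q w ((q ^ 2 * z j) :: C) z = Td q w ((q ^ 2 * z j) :: C) z := by
      intro j
      obtain ⟨s, hs⟩ : ∃ s : Equiv.Perm (Fin (N + 1)), s = Equiv.swap 0 j := ⟨_, rfl⟩
      obtain ⟨z', hz'⟩ : ∃ z' : Fin N → ℂ, z' = Fin.tail (z ∘ s) := ⟨_, rfl⟩
      have hcons : z ∘ s = (Fin.cons (z j) z' : Fin (N + 1) → ℂ) := by
        have h1 : (z ∘ s) 0 = z j := by rw [hs, Function.comp_apply, Equiv.swap_apply_left]
        rw [hz', ← h1]
        exact (Fin.cons_self_tail (z ∘ s)).symm
      have hg := gen_comp hz s
      rw [hcons] at hg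
      have hgt := gen_tail hg
      have hih := ih (z j :: C) z' hgt
      have f1 : ∏ i, ((q ^ 2 * z j - q * z' i) * (z j - q ^ 2 * z' i)) ≠ 0 := by
        refine Finset.prod_ne_zero_iff.2 fun i _ => mul_ne_zero ?_ ?_
        · exact sub_ne_zero.2 (ne01 hg i).1
        · intro h
          apply (ne01 hg i).1
          have h2 : z j = q ^ 2 * z' i := sub_eq_zero.1 h
          rw [h2]
          linear_combination (q * z' i) * hq3
      have f2 : ∏ i, (q * (z j - q * z' i) ^ 2) ≠ 0 := by
        refine Finset.prod_ne_zero_iff.2 fun i _ => mul_ne_zero hq0 (pow_ne_zero 2 ?_)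
        intro h
        apply (ne01 hg i).2
        have h2 : z j = q * z' i := sub_eq_zero.1 h
        rw [h2]; ring
      have sw : ∀ x : ℂ, T q w (x :: C) z = T q w (x :: C) (Fin.cons (z j) z' : Fin (N + 1) → ℂ) ∧
          Td q w (x :: C) z = Td q w (x :: C) (Fin.cons (z j) z' : Fin (N + 1) → ℂ) := by
        intro x
        obtain ⟨-, -, -, h4, -⟩ := hTP q w (x :: C) (N + 1) z
        obtain ⟨h5, h6⟩ := h4 s
        rw [hcons] at h5 h6
        exact ⟨h5.symm, h6.symm⟩
      constructor
      · rw [(sw _).1, (sw _).2]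
        have a1 := hRP q w hq C N (z j) z' hg
        have a2 := hRPd q w hq C N (z j) z' hg
        rw [hih, ← a2] at a1
        exact mul_right_cancel₀ f1 a1
      · rw [(sw _).1, (sw _).2]
        have a1 := hRM q w hq C N (z j) z' hg
        have a2 := hRMd q w hq C N (z j) z' hg
        rw [hih, ← a2] at a1
        exact mul_right_cancel₀ f2 a1
    obtain ⟨g1, g2, g3⟩ := hz
    have hPR : P = R := by
      apply Polynomial.eq_of_natDegree_lt_card_of_eval_eq P R
        (f := fun p : Fin (N + 1) × Bool => if p.2 then q * z p.1 else q ^ 2 * z p.1)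
      · rintro ⟨i, b⟩ ⟨j, c⟩ h
        simp only at h
        by_cases hij : i = j
        · subst hij
          cases b <;> cases c
          · rfl
          · exfalso
            simp only [Bool.false_eq_true, if_false, if_true] at h
            have h2 : (q - 1) * (q * z i) = 0 := by linear_combination h
            rcases mul_eq_zero.1 h2 with h3 | h3
            · exact hq1 (sub_eq_zero.1 h3)
            · exact (mul_ne_zero hq0 (g1 i)) h3
          · exfalso
            simp only [Bool.false_eq_true, if_false, if_true] at h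
            have h2 : (q - 1) * (q * z i) = 0 := by linear_combination -h
            rcases mul_eq_zero.1 h2 with h3 | h3
            · exact hq1 (sub_eq_zero.1 h3)
            · exact (mul_ne_zero hq0 (g1 i)) h3
          · rfl
        · exfalso
          cases b <;> cases c
          · simp only [Bool.false_eq_true, if_false] at h
            exact g2 i j hij (mul_left_cancel₀ (pow_ne_zero 2 hq0) h)
          · simp only [Bool.false_eq_true, if_false, if_true] at h
            exact g3 i j hij h
          · simp only [Bool.false_eq_true, if_false, if_true] at h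
            exact g3 j i (fun e => hij e.symm) h.symm
          · simp only [if_true] at h
            exact g2 i j hij (mul_left_cancel₀ hq0 h)
      · rintro ⟨j, b⟩
        cases b
        · simp only [Bool.false_eq_true, if_false]
          rw [hP3, hR3]
          exact (key j).2
        · simp only [if_true]
          rw [hP3, hR3]
          exact (key j).1
      · rw [Fintype.card_prod, Fintype.card_fin, Fintype.card_bool]
        refine (max_le hP1 hR1).trans_lt ?_
        omega
    rw [← hP2, ← hR2, hPR]

end Pool.Agent.H160R2.ML
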