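import Pool.Agent.H160R2.ML.Stm

/-!
# Task TP: elementary properties of `T` and `Td`
-/

set_option autoImplicit false

namespace Pool.Agent.H160R2.ML

namespace TTP

theorem lg_cons (x : ℂ) (C : List ℂ) (s u : ℂ) : lg (x :: C) s u = (x - s * u) * lg C s u := by
  unfold lg
  simp

theorem lg_perm {C C' : List ℂ} (h : C.Perm C') (s u : ℂ) : lg C s u = lg C' s u := by
  unfold lg
  exact (h.map _).prod_eq

/-- a determinant that is a polynomial in `x` -/
theorem poly (N : ℕ) (A B : Matrix (Fin N) (Fin N) ℂ) :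
    ∃ P : Polynomial ℂ, P.natDegree ≤ N ∧ P.coeff N = A.det ∧ ∀ x, P.eval x = (x • A + B).det := by
  refine ⟨((Polynomial.X : Polynomial ℂ) • A.map Polynomial.C + B.map Polynomial.C).det, ?_, ?_, ?_⟩
  · have := Polynomial.natDegree_det_X_add_C_le A B
    simpa using this
  · have := Polynomial.coeff_det_X_add_C_card A B
    simpa using this
  · intro x
    rw [← Polynomial.coe_evalRingHom, RingHom.map_det]
    congr 1
    ext i j
    simp
    ring

/-- the second matrix of the first form -/
theorem T_cons (q w : ℂ) (C : List ℂ) (N : ℕ) (z : Fin N → ℂ) (x : ℂ) :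
    T q w (x :: C) z = (x • (Matrix.of fun i j : Fin N => lg C q (z j) / (q ^ 2 * z i - q * z j)
      + w * lg C (q ^ 2) (z j) / (q ^ 2 * z j - q * z i)) +
      (Matrix.of fun i j : Fin N => -(q * z j) * (lg C q (z j) / (q ^ 2 * z i - q * z j))
      + -(q ^ 2 * z j) * (w * lg C (q ^ 2) (z j) / (q ^ 2 * z j - q * z i)))).det := by
  unfold T
  congr 1
  ext i j
  simp only [Matrix.of_apply, Matrix.add_apply, Matrix.smul_apply, smul_eq_mul, lg_cons]
  ring

theorem Td_cons (q w : ℂ) (C : List ℂ) (N : ℕ) (z : Fin N → ℂ) (x : ℂ) :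
    Td q w (x :: C) z = (x • (Matrix.of fun i j : Fin N =>
      (if i = j then bt q w z j * lg C (q ^ 2) (z j) else 0)
        + lg C q (z j) / (q ^ 2 * z i - q * z j)) +
      (Matrix.of fun i j : Fin N => (if i = j then -(q ^ 2 * z j) * (bt q w z j * lg C (q ^ 2) (z j))
        else 0) + -(q * z j) * (lg C q (z j) / (q ^ 2 * z i - q * z j)))).det := by
  unfold Td
  congr 1
  ext i j
  simp only [Matrix.of_apply, Matrix.add_apply, Matrix.smul_apply, smul_eq_mul, lg_cons]
  split_ifs
  · ring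
  · ring

theorem bt_comp (q w : ℂ) {N : ℕ} (z : Fin N → ℂ) (s : Equiv.Perm (Fin N)) (j : Fin N) :
    bt q w (z ∘ s) j = bt q w z (s j) := by
  unfold bt
  simp only [Function.comp_apply]
  congr 1
  refine Finset.prod_equiv s ?_ ?_
  · intro i
    simp
  · intro i _
    rfl

end TTP

open TTP in
theorem t_TP : S_TP := by
  intro q w C N z
  refine ⟨?_, ?_, ?_, ?_, ?_, ?_⟩
  · obtain ⟨P, h1, h2, h3⟩ := poly N
      (Matrix.of fun i j : Fin N => lg C q (z j) / (q ^ 2 * z i - q * z j)
        + w * lg C (q ^ 2) (z j) / (q ^ 2 * z j - q * z i))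
      (Matrix.of fun i j : Fin N => -(q * z j) * (lg C q (z j) / (q ^ 2 * z i - q * z j))
        + -(q ^ 2 * z j) * (w * lg C (q ^ 2) (z j) / (q ^ 2 * z j - q * z i)))
    exact ⟨P, h1, h2, fun x => by rw [h3, T_cons]⟩
  · obtain ⟨P, h1, h2, h3⟩ := poly N
      (Matrix.of fun i j : Fin N => (if i = j then bt q w z j * lg C (q ^ 2) (z j) else 0)
        + lg C q (z j) / (q ^ 2 * z i - q * z j))
      (Matrix.of fun i j : Fin N => (if i = j then -(q ^ 2 * z j) * (bt q w z j * lg C (q ^ 2) (z j))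
        else 0) + -(q * z j) * (lg C q (z j) / (q ^ 2 * z i - q * z j)))
    exact ⟨P, h1, h2, fun x => by rw [h3, Td_cons]⟩
  · intro C' h
    unfold T Td
    simp only [lg_perm h, and_self]
  · intro s
    constructor
    · unfold T
      rw [← Matrix.det_submatrix_equiv_self s (Matrix.of fun i j : Fin N =>
        lg C q (z j) / (q ^ 2 * z i - q * z j) + w * lg C (q ^ 2) (z j) / (q ^ 2 * z j - q * z i))]
      rfl
    · unfold Td
      rw [← Matrix.det_submatrix_equiv_self s (Matrix.of fun i j : Fin N =>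
        (if i = j then bt q w z j * lg C (q ^ 2) (z j) else 0)
          + lg C q (z j) / (q ^ 2 * z i - q * z j))]
      congr 1
      ext i j
      simp only [Matrix.of_apply, Matrix.submatrix_apply, bt_comp, Function.comp_apply,
        EmbeddingLike.apply_eq_iff_eq]
  · intro hq hw
    have h3 : q ^ 3 = 1 := by linear_combination (q - 1) * hq
    have h4 : (q ^ 2) ^ 2 = q := by linear_combination q * h3
    unfold T
    have e : (Matrix.of fun i j : Fin N => lg C (q ^ 2) (z j) / ((q ^ 2) ^ 2 * z i - q ^ 2 * z j)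
        + w⁻¹ * lg C ((q ^ 2) ^ 2) (z j) / ((q ^ 2) ^ 2 * z j - q ^ 2 * z i)) =
        (-w⁻¹) • (Matrix.of fun i j : Fin N => lg C q (z j) / (q ^ 2 * z i - q * z j)
        + w * lg C (q ^ 2) (z j) / (q ^ 2 * z j - q * z i)) := by
      ext i j
      simp only [Matrix.of_apply, Matrix.smul_apply, smul_eq_mul, h4]
      have e1 : q * z i - q ^ 2 * z j = -(q ^ 2 * z j - q * z i) := by ring
      have e2 : q * z j - q ^ 2 * z i = -(q ^ 2 * z i - q * z j) := by ring
      rw [e1, e2, div_neg, div_neg]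
      have e3 : -w⁻¹ * (lg C q (z j) / (q ^ 2 * z i - q * z j) +
          w * lg C (q ^ 2) (z j) / (q ^ 2 * z j - q * z i)) =
          -(w⁻¹ * lg C q (z j) / (q ^ 2 * z i - q * z j)) -
          (w⁻¹ * w) * (lg C (q ^ 2) (z j) / (q ^ 2 * z j - q * z i)) := by ring
      rw [e3, inv_mul_cancel₀ hw]
      ring
    rw [e, Matrix.det_smul, Fintype.card_fin]
  · intro _ _
    unfold T
    rw [← Matrix.det_mul_row]
    congr 1
    ext i j
    simp only [Matrix.of_apply, lg_cons]
    ring

end Pool.Agent.H160R2.ML
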