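import Pool.Agent.H160R2.ML.Stm

/-!
# Task base: no through strand
-/

set_option autoImplicit false

namespace Pool.Agent.H160R2.ML
open Pool.Agent.H863R2.Cyl
open Pool.Agent.H988R2.Perc (Word PD)

namespace Tbase
open Sem1Aux

/-- the index of the nearest peak -/
def ix (h : ℕ) (x : ℤ) : ℤ := (x + h) / (h + h)

/-- the distance to the nearest peak -/
def dl (h : ℕ) (x : ℤ) : ℤ := |(x + h) % (h + h) - h|

theorem ix_eq {h : ℕ} (hh : 0 < h) (s t : ℤ) (h1 : -(h : ℤ) ≤ t) (h2 : t < h) :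
    ix h (s * (h + h) + t) = s := by
  unfold ix
  have e : s * ((h : ℤ) + h) + t + h = (t + h) + s * (h + h) := by ring
  rw [e, Int.add_mul_ediv_right _ _ (by omega), Int.ediv_eq_zero_of_lt (by omega) (by omega),
    zero_add]

theorem dl_eq {h : ℕ} (_hh : 0 < h) (s t : ℤ) (h1 : -(h : ℤ) ≤ t) (h2 : t ≤ h) :
    dl h (s * (h + h) + t) = |t| := by
  unfold dl
  rcases lt_or_eq_of_le h2 with h3 | h3
  · have e : s * ((h : ℤ) + h) + t + h = (t + h) + s * (h + h) := by ring
    rw [e, Int.add_mul_emod_self_right, Int.emod_eq_of_lt (by omega) (by omega)]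
    congr 1
    ring
  · have e : s * ((h : ℤ) + h) + t + h = 0 + (s + 1) * (h + h) := by rw [h3]; ring
    rw [e, Int.add_mul_emod_self_right, Int.zero_emod, h3, zero_sub, abs_neg]

theorem dec {h : ℕ} (hh : 0 < h) (x : ℤ) :
    ∃ s t : ℤ, x = s * (h + h) + t ∧ -(h : ℤ) ≤ t ∧ t < h := by
  have h0 : (0 : ℤ) < h + h := by omega
  refine ⟨(x + h) / (h + h), (x + h) % (h + h) - h, ?_, ?_, ?_⟩
  · have := Int.mul_ediv_add_emod (x + h) (h + h)
    have e : (x + h) / ((h : ℤ) + h) * (h + h) = (h + h) * ((x + h) / (h + h)) := by ring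
    rw [e]
    linarith
  · have := Int.emod_nonneg (x + h) h0.ne'
    omega
  · have := Int.emod_lt_of_pos (x + h) h0
    omega

theorem bw_len (h : ℕ) : (bw (h + h)).length = h + h := by
  unfold bw
  rw [List.length_append, List.length_replicate, List.length_replicate]
  omega

theorem bw_getD (h m : ℕ) : (bw (h + h)).getD m true = decide (h ≤ m) := by
  unfold bw
  have e : (h + h) / 2 = h := by omega
  rw [e, List.getD_eq_getElem?_getD, List.getElem?_append]
  by_cases hm : m < h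
  · simp [hm]
  · have h1 : h ≤ m := by omega
    simp only [List.length_replicate, hm, if_false, List.getElem?_replicate]
    by_cases h2 : m - h < h
    · simp [h2, h1]
    · simp [h2, h1]

theorem sg_bw {h : ℕ} (hh : 0 < h) (s t : ℤ) (h1 : -(h : ℤ) ≤ t) (h2 : t < h) :
    sg (bw (h + h)) (s * (h + h) + t) = if 0 ≤ t then -1 else 1 := by
  unfold sg
  rw [bw_len]
  push_cast
  have e : s * ((h : ℤ) + h) + t = t + s * (h + h) := by ring
  rw [e, Int.add_mul_emod_self_right]
  by_cases ht : 0 ≤ t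
  · rw [Int.emod_eq_of_lt ht (by omega), bw_getD, if_pos ht, if_neg]
    simp only [decide_eq_true_eq, not_le]
    omega
  · have e2 : t % ((h : ℤ) + h) = t + (h + h) := by
      rw [← Int.add_emod_right, Int.emod_eq_of_lt (by omega) (by omega)]
    rw [e2, bw_getD, if_neg ht, if_pos]
    simp only [decide_eq_true_eq]
    omega

theorem inc {h : ℕ} (hh : 0 < h) : Inc (sg (bw (h + h))) (fun x => -dl h x) := by
  intro x
  obtain ⟨s, t, rfl, h1, h2⟩ := dec hh x
  have e : s * ((h : ℤ) + h) + t + 1 = s * (h + h) + (t + 1) := by ring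
  show -dl h _ = -dl h _ + _
  rw [e, dl_eq hh s (t + 1) (by omega) (by omega), dl_eq hh s t h1 h2.le, sg_bw hh s t h1 h2]
  by_cases ht : 0 ≤ t
  · rw [if_pos ht, abs_of_nonneg ht, abs_of_nonneg (by omega)]
    ring
  · rw [if_neg ht, abs_of_nonpos (by omega), abs_of_nonpos (by omega)]
    ring

theorem Rw_nil {a b : ℤ} (h : Rw (bw (0 + 0)) a b) : a = b := by
  have hi : Inc (sg (bw (0 + 0))) (fun x => x) := by
    intro x
    show x + 1 = x + _
    simp [sg, bw]
  exact ((Rw_iff hi a b).1 h).1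

theorem inv_Rw {h : ℕ} {a b : ℤ} (hR : Rw (bw (h + h)) a b) :
    dl h a = dl h b ∧ (dl h a = h ∨ ix h a = ix h b) := by
  rcases Nat.eq_zero_or_pos h with h0 | hh
  · subst h0
    have := Rw_nil hR
    subst this
    exact ⟨rfl, Or.inr rfl⟩
  rw [Rw_iff (inc hh)] at hR
  obtain ⟨e, hl⟩ := hR
  obtain ⟨s, t, rfl, h1, h2⟩ := dec hh a
  obtain ⟨s', t', rfl, h3, h4⟩ := dec hh b
  beta_reduce at e hl
  have d1 := dl_eq hh s t h1 h2.le
  have d2 := dl_eq hh s' t' h3 h4.le
  rw [d1] at e hl ⊢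
  rw [d2] at e ⊢
  rw [ix_eq hh s t h1 h2, ix_eq hh s' t' h3 h4]
  have ht : |t| ≤ h := abs_le.2 ⟨h1, h2.le⟩
  have hh' : |(h : ℤ)| = h := abs_of_nonneg (by omega)
  refine ⟨by omega, ?_⟩
  by_contra hcon
  rw [not_or] at hcon
  obtain ⟨c1, c2⟩ := hcon
  have hpos : (0 : ℤ) < h + h := by omega
  rcases lt_or_gt_of_ne c2 with h5 | h5
  · have h6 : (s + 1) * ((h : ℤ) + h) ≤ s' * (h + h) :=
      mul_le_mul_of_nonneg_right (by omega) hpos.le
    have h7 : (s + 1) * ((h : ℤ) + h) = s * (h + h) + (h + h) := by ring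
    have h8 := hl (s * (h + h) + h) (Or.inl ⟨by omega, by omega⟩)
    rw [dl_eq hh s h (by omega) le_rfl, hh'] at h8
    omega
  · have h6 : (s' + 1) * ((h : ℤ) + h) ≤ s * (h + h) :=
      mul_le_mul_of_nonneg_right (by omega) hpos.le
    have h7 : (s' + 1) * ((h : ℤ) + h) = s' * (h + h) + (h + h) := by ring
    have h8 := hl (s' * (h + h) + h) (Or.inr ⟨by omega, by omega⟩)
    rw [dl_eq hh s' h (by omega) le_rfl, hh'] at h8
    omega

/-- the invariant -/
def phi (h k : ℕ) (z : ℤ × Bool) : ℤ × ℤ × Bool :=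
  (if dl (if z.2 then k else h) z.1 = (if z.2 then k else h : ℕ) ∨
      ((h = 0 ∨ k = 0) ∧ dl (if z.2 then k else h) z.1 = 0) then 0
    else ix (if z.2 then k else h) z.1,
    dl (if z.2 then k else h) z.1, z.2 && decide (dl (if z.2 then k else h) z.1 ≠ 0))

theorem dl_pk (h : ℕ) (s : ℤ) : dl h (s * (h + h) + (h + h)) = 0 := by
  rcases Nat.eq_zero_or_pos h with h0 | hh
  · subst h0
    simp [dl]
  · have e : s * ((h : ℤ) + h) + (h + h) = (s + 1) * (h + h) + 0 := by ring
    rw [e, dl_eq hh (s + 1) 0 (by omega) (by omega), abs_zero]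

theorem ix_pk {h : ℕ} (hh : 0 < h) (s : ℤ) : ix h (s * (h + h) + (h + h)) = s + 1 := by
  have e : s * ((h : ℤ) + h) + (h + h) = (s + 1) * (h + h) + 0 := by ring
  rw [e, ix_eq hh (s + 1) 0 (by omega) (by omega)]

theorem phi_Lg {h k : ℕ} {x y : ℤ × Bool}
    (hL : Lg (h + h) (k + k) (bw (k + k)) (bw (h + h)) x y) : phi h k x = phi h k y := by
  cases hL with
  | low a b hR =>
    obtain ⟨h1, h2⟩ := inv_Rw hR
    unfold phi
    simp only [Bool.false_eq_true, if_false, Bool.false_and]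
    rw [h1] at h2 ⊢
    rcases h2 with h2 | h2
    · rw [if_pos (Or.inl h2), if_pos (Or.inl h2)]
    · rw [h2]
  | upp a b hR =>
    obtain ⟨h1, h2⟩ := inv_Rw hR
    unfold phi
    simp only [if_true, Bool.true_and]
    rw [h1] at h2 ⊢
    rcases h2 with h2 | h2
    · rw [if_pos (Or.inl h2), if_pos (Or.inl h2)]
    · rw [h2]
  | glue s i hi =>
    rw [bw_len] at hi
    have hi0 : i = 0 := by omega
    subst hi0
    unfold phi
    simp only [Bool.false_eq_true, if_false, Bool.false_and, if_true, Bool.true_and, bw_len]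
    push_cast
    rw [add_zero, add_zero, dl_pk, dl_pk]
    by_cases h0 : h = 0 ∨ k = 0
    · rw [if_pos (Or.inr ⟨h0, rfl⟩), if_pos (Or.inr ⟨h0, rfl⟩)]
      simp
    · rw [if_neg (by omega), if_neg (by omega), ix_pk (by omega), ix_pk (by omega)]
      simp

theorem phi_Cn {h k : ℕ} {x y : ℤ × Bool}
    (hC : Cn (h + h) (k + k) (bw (k + k)) (bw (h + h)) x y) : phi h k x = phi h k y := by
  induction hC with
  | rel x y hxy => exact phi_Lg hxy
  | refl x => rfl
  | symm x y _ ih => exact ih.symm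
  | trans x y z _ _ ih1 ih2 => exact ih1.trans ih2

theorem lowA {h : ℕ} {c : ℤ} (h0 : 0 ≤ c) (h1 : c < h) : dl h c = c ∧ ix h c = 0 := by
  have hh : 0 < h := by omega
  have e : c = 0 * ((h : ℤ) + h) + c := by ring
  constructor
  · rw [e, dl_eq hh 0 c (by omega) (by omega), abs_of_nonneg h0]
    ring
  · rw [e, ix_eq hh 0 c (by omega) (by omega)]

theorem lowB {h : ℕ} {c : ℤ} (hh : 0 < h) (h0 : (h : ℤ) ≤ c) (h1 : c ≤ h + h) :
    dl h c = h + h - c ∧ ix h c = 1 := by
  have e : c = 1 * ((h : ℤ) + h) + (c - (h + h)) := by ring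
  constructor
  · rw [e, dl_eq hh 1 _ (by omega) (by omega), abs_of_nonpos (by omega)]
    ring
  · rw [e, ix_eq hh 1 _ (by omega) (by omega)]

theorem conn {h : ℕ} (hh : 0 < h) (s z : ℤ) (h0 : 0 ≤ z) (h1 : z ≤ h) :
    Rw (bw (h + h)) (s * (h + h) - z) (s * (h + h) + z) := by
  rw [Rw_iff (inc hh)]
  have e : s * ((h : ℤ) + h) - z = s * (h + h) + (-z) := by ring
  have d1 : dl h (s * (h + h) - z) = z := by
    rw [e, dl_eq hh s (-z) (by omega) (by omega), abs_neg, abs_of_nonneg h0]
  apply RH.of_le (by omega)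
  · beta_reduce
    rw [d1, dl_eq hh s z (by omega) h1, abs_of_nonneg h0]
  · intro l hl1 hl2
    beta_reduce
    have e2 : l = s * (h + h) + (l - s * (h + h)) := by ring
    rw [d1, e2, dl_eq hh s _ (by omega) (by omega)]
    have : |l - s * ((h : ℤ) + h)| ≤ z := abs_le.2 ⟨by omega, by omega⟩
    omega

theorem pt_low {h k : ℕ} (s : ℤ) {c : ℕ} (hc : c ≤ h + h) :
    pt (h + h) (k + k) (bw (k + k)) (bw (h + h)) s c = (s * ((h : ℤ) + h) + c, false) := by
  unfold pt
  rw [if_pos hc, bw_len]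
  push_cast
  rfl

theorem pt_upp {h k : ℕ} (s : ℤ) {c : ℕ} (hc : h + h < c) :
    pt (h + h) (k + k) (bw (k + k)) (bw (h + h)) s c =
      (s * ((k : ℤ) + k) + (((h : ℤ) + h) + (k + k) - c), true) := by
  unfold pt
  rw [if_neg (by omega), bw_len]
  push_cast
  rfl

theorem diff {h k c d : ℕ} (hc : c < (h + h) + (k + k)) (hd : d < (h + h) + (k + k))
    (hcd : c < d) :
    phi h k (pt (h + h) (k + k) (bw (k + k)) (bw (h + h)) 0 c) ≠
      phi h k (pt (h + h) (k + k) (bw (k + k)) (bw (h + h)) 0 d) := by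
  intro he
  rcases Nat.lt_or_ge (h + h) c with h1 | h1
  · -- both above
    rw [pt_upp 0 h1, pt_upp 0 (by omega)] at he
    have hk : 0 < k := by omega
    unfold phi at he
    simp only [if_true, zero_mul, zero_add, Prod.mk.injEq] at he
    obtain ⟨he1, he2, -⟩ := he
    set y : ℤ := (h : ℤ) + h + (k + k) - c with hy
    set y' : ℤ := (h : ℤ) + h + (k + k) - d with hy'
    rcases lt_or_ge y' k with g1 | g1
    · obtain ⟨a1, a2⟩ := lowA (h := k) (c := y') (by omega) g1
      rcases lt_or_ge y k with g2 | g2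
      · obtain ⟨b1, b2⟩ := lowA (h := k) (c := y) (by omega) g2
        omega
      · obtain ⟨b1, b2⟩ := lowB (h := k) (c := y) hk g2 (by omega)
        rw [a1, b1] at he2
        rw [a1, a2, b1, b2, if_neg (by omega), if_neg (by omega)] at he1
        omega
    · obtain ⟨a1, a2⟩ := lowB (h := k) (c := y') hk g1 (by omega)
      obtain ⟨b1, b2⟩ := lowB (h := k) (c := y) hk (by omega) (by omega)
      omega
  · rcases Nat.lt_or_ge (h + h) d with h2 | h2
    · -- one below, one above
      rw [pt_low 0 h1, pt_upp 0 h2] at he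
      have hk : 0 < k := by omega
      unfold phi at he
      simp only [if_true, zero_mul, zero_add, Prod.mk.injEq, Bool.false_and, Bool.true_and] at he
      obtain ⟨-, -, he3⟩ := he
      have hne : dl k ((h : ℤ) + h + (k + k) - d) ≠ 0 := by
        rcases lt_or_ge ((h : ℤ) + h + (k + k) - d) k with g1 | g1
        · rw [(lowA (h := k) (by omega) g1).1]
          omega
        · rw [(lowB (h := k) hk g1 (by omega)).1]
          omega
      simp [hne] at he3
    · -- both below
      rw [pt_low 0 h1, pt_low 0 h2] at he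
      have hh : 0 < h := by omega
      unfold phi at he
      simp only [Bool.false_eq_true, if_false, zero_mul, zero_add, Prod.mk.injEq] at he
      obtain ⟨he1, he2, -⟩ := he
      rcases lt_or_ge (c : ℤ) h with g1 | g1
      · obtain ⟨a1, a2⟩ := lowA (h := h) (c := c) (by omega) g1
        rcases lt_or_ge (d : ℤ) h with g2 | g2
        · obtain ⟨b1, b2⟩ := lowA (h := h) (c := d) (by omega) g2
          omega
        · obtain ⟨b1, b2⟩ := lowB (h := h) (c := d) hh g2 (by omega)
          rw [a1, b1] at he2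
          rw [a1, a2, b1, b2, if_neg (by omega), if_neg (by omega)] at he1
          omega
      · obtain ⟨a1, a2⟩ := lowB (h := h) (c := c) hh g1 (by omega)
        obtain ⟨b1, b2⟩ := lowB (h := h) (c := d) hh (by omega) (by omega)
        omega

theorem ex_other {h k c : ℕ} (hp : 2 ≤ (h + h) + (k + k)) (hc : c < (h + h) + (k + k)) :
    ∃ s : ℤ, s ≠ 0 ∧ ∃ d : ℕ, d < (h + h) + (k + k) ∧
      Cn (h + h) (k + k) (bw (k + k)) (bw (h + h))
        (pt (h + h) (k + k) (bw (k + k)) (bw (h + h)) 0 c)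
        (pt (h + h) (k + k) (bw (k + k)) (bw (h + h)) s d) := by
  rcases Nat.lt_or_ge (h + h) c with h1 | h1
  · -- above
    have hk : 0 < k := by omega
    rw [pt_upp 0 h1]
    obtain ⟨y, hy⟩ : ∃ y : ℕ, y + c = (h + h) + (k + k) := ⟨(h + h) + (k + k) - c, by omega⟩
    have e0 : (0 : ℤ) * ((k : ℤ) + k) + (((h : ℤ) + h) + (k + k) - c) = y := by
      have : ((y : ℤ) + c) = ((h : ℤ) + h) + (k + k) := by exact_mod_cast hy
      linarith
    rw [e0]
    rcases Nat.lt_or_ge y k with g | g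
    · refine ⟨-1, by omega, h + h + y, by omega, ?_⟩
      rw [pt_upp (-1) (by omega)]
      have e1 : (-1 : ℤ) * ((k : ℤ) + k) + (((h : ℤ) + h) + (k + k) - ((h + h + y : ℕ) : ℤ)) =
          0 * ((k : ℤ) + k) - y := by push_cast; ring
      have e2 : 0 * ((k : ℤ) + k) + y = y := by ring
      have hcn := conn hk 0 (y : ℤ) (by omega) (by omega)
      rw [e2] at hcn
      rw [e1]
      exact Relation.EqvGen.symm _ _ (Relation.EqvGen.rel _ _ (Lg.upp _ _ hcn))
    · refine ⟨1, by omega, h + h + y, by omega, ?_⟩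
      rw [pt_upp 1 (by omega)]
      have e1 : (1 : ℤ) * ((k : ℤ) + k) + (((h : ℤ) + h) + (k + k) - ((h + h + y : ℕ) : ℤ)) =
          1 * ((k : ℤ) + k) + ((k : ℤ) + k - y) := by push_cast; ring
      have e2 : (y : ℤ) = 1 * ((k : ℤ) + k) - ((k : ℤ) + k - y) := by ring
      have hcn := conn hk 1 ((k : ℤ) + k - y) (by omega) (by omega)
      rw [← e2] at hcn
      rw [e1]
      exact Relation.EqvGen.rel _ _ (Lg.upp _ _ hcn)
  · -- below
    rw [pt_low 0 h1]
    have e0 : (0 : ℤ) * ((h : ℤ) + h) + c = c := by ring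
    rw [e0]
    rcases Nat.eq_zero_or_pos h with h0 | hh
    · subst h0
      refine ⟨1, by omega, 0, by omega, ?_⟩
      rw [pt_low 1 (Nat.zero_le _)]
      have hc0 : c = 0 := by omega
      subst hc0
      simp only [Nat.cast_zero, add_zero, mul_zero]
      exact Relation.EqvGen.refl _
    rcases Nat.lt_or_ge c h with g | g
    · by_cases h2 : c = 0 ∧ k = 0
      · obtain ⟨hc0, hk0⟩ := h2
        subst hc0
        subst hk0
        refine ⟨1, by omega, 0, by omega, ?_⟩
        rw [pt_low 1 (Nat.zero_le _)]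
        have g1 := Lg.glue (p := h + h) (r := 0 + 0) (w' := bw (0 + 0)) (w := bw (h + h)) (-1) 0
          (by rw [bw_len]; omega)
        have g2 := Lg.glue (p := h + h) (r := 0 + 0) (w' := bw (0 + 0)) (w := bw (h + h)) 0 0
          (by rw [bw_len]; omega)
        rw [bw_len, bw_len] at g1 g2
        push_cast at g1 g2 ⊢
        have a1 : (-1 : ℤ) * ((h : ℤ) + h) + (h + h) + 0 = 0 := by ring
        have a2 : (0 : ℤ) * ((h : ℤ) + h) + (h + h) + 0 = 1 * ((h : ℤ) + h) + 0 := by ring
        rw [a1] at g1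
        rw [a2] at g2
        exact Relation.EqvGen.trans _ _ _ (Relation.EqvGen.rel _ _ g1)
          (Relation.EqvGen.symm _ _ (Relation.EqvGen.rel _ _ g2))
      · refine ⟨-1, by omega, h + h - c, by omega, ?_⟩
        rw [pt_low (-1) (by omega)]
        have e1 : (-1 : ℤ) * ((h : ℤ) + h) + ((h + h - c : ℕ) : ℤ) = 0 * ((h : ℤ) + h) - c := by
          rw [Nat.cast_sub h1]
          push_cast
          ring
        have hcn := conn hh 0 (c : ℤ) (by omega) (by omega)
        rw [e0] at hcn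
        rw [e1]
        exact Relation.EqvGen.symm _ _ (Relation.EqvGen.rel _ _ (Lg.low _ _ hcn))
    · refine ⟨1, by omega, h + h - c, by omega, ?_⟩
      rw [pt_low 1 (by omega)]
      have hcn := conn hh 1 ((h + h - c : ℕ) : ℤ) (by omega) (by omega)
      have e2 : 1 * ((h : ℤ) + h) - ((h + h - c : ℕ) : ℤ) = c := by
        rw [Nat.cast_sub h1]
        push_cast
        ring
      rw [e2] at hcn
      exact Relation.EqvGen.rel _ _ (Lg.low _ _ hcn)

end Tbase

open Tbase in
theorem t_base : S_base := by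
  intro p r hpr hp hr
  obtain ⟨h, rfl⟩ := hp
  obtain ⟨k, rfl⟩ := hr
  unfold ee
  rw [if_pos]
  refine ⟨fun c d hc hd hcd hC => ?_, fun c hc => ex_other hpr hc⟩
  have hphi := phi_Cn hC
  rcases Nat.lt_or_gt_of_ne hcd with h1 | h1
  · exact diff hc hd h1 hphi
  · exact diff hd hc h1 hphi.symm

end Pool.Agent.H160R2.ML
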