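import Pool.Agent.H160R2.ML.Stm

/-! Task `bs`: the value without through strands. -/

set_option autoImplicit false

namespace Pool.Agent.H160R2.ML
open Pool.Agent.H863R2.Cyl
open Pool.Agent.H988R2.Perc (Word PD)
open H974 H906.Cyl

namespace Tbs

theorem cases_word (w : Word) : (∃ a b : ℕ, w = List.replicate a false ++ List.replicate b true) ∨
    ∃ s t : Word, w = s ++ true :: false :: t := by
  induction w with
  | nil => exact Or.inl ⟨0, 0, rfl⟩
  | cons x v ih =>
    rcases ih with ⟨a, b, rfl⟩ | ⟨s, t, rfl⟩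
    · cases x
      · exact Or.inl ⟨a + 1, b, rfl⟩
      · rcases a with _ | a
        · exact Or.inl ⟨0, b + 1, rfl⟩
        · exact Or.inr ⟨[], List.replicate a false ++ List.replicate b true, rfl⟩
    · exact Or.inr ⟨x :: s, t, rfl⟩

/-- a word different from `bw p` contains a small arc -/
theorem exists_arc (p : ℕ) (w : Word) (hp : Even p) (hl : w.length = p) (hw : Ok w)
    (hne : w ≠ bw p) : ∃ (i : ℕ) (u : Word), w = lins i u ∧ Ok u ∧ Even u.length ∧
      u.length + 2 = p ∧ i + 2 ≤ p := by
  rcases cases_word w with ⟨a, b, rfl⟩ | ⟨s, t, rfl⟩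
  · exfalso
    apply hne
    unfold Pool.Agent.H863R2.Cyl.Ok at hw
    rw [List.length_append, List.length_replicate, List.length_replicate] at hl
    rw [List.count_append, List.count_replicate_self, List.count_replicate, List.length_append,
      List.length_replicate, List.length_replicate] at hw
    simp at hw
    obtain ⟨c, hc⟩ := hp
    unfold bw
    have h1 : a = p / 2 := by omega
    have h2 : b = p / 2 := by omega
    rw [← h1]
    congr 1
    rw [h1, h2]
  · refine ⟨s.length, s ++ t, ?_, ?_, ?_, ?_, ?_⟩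
    · show _ = (s ++ t).take s.length ++ true :: false :: (s ++ t).drop s.length
      rw [List.take_left, List.drop_left]
    · unfold Pool.Agent.H863R2.Cyl.Ok at hw ⊢
      rw [List.count_append, List.length_append] at hw ⊢
      simp at hw
      omega
    · rw [List.length_append] at hl ⊢
      simp at hl
      obtain ⟨c, hc⟩ := hp
      exact ⟨c - 1, by omega⟩
    · rw [List.length_append] at hl ⊢
      simp at hl
      omega
    · rw [List.length_append] at hl
      simp at hl
      omega

theorem lin_single (f : Word → ℂ) (v : VW) (w0 : Word)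
    (h : ∀ w ∈ v.support, w ≠ w0 → f w = 0) :
    Finsupp.linearCombination ℂ f v = v w0 * f w0 := by
  rw [Finsupp.linearCombination_apply, Finsupp.sum, Finset.sum_eq_single w0]
  · rfl
  · intro w hw hne
    rw [h w hw hne, smul_zero]
  · intro h0
    rw [Finsupp.notMem_support_iff.mp h0, zero_smul]

theorem pr_single (e : ℕ → ℕ → Word → Word → ℂ) (p r : ℕ) (v' v : VW) (w0' w0 : Word)
    (h : ∀ w' ∈ v'.support, ∀ w ∈ v.support, w' ≠ w0' ∨ w ≠ w0 → e p r w' w = 0) :
    prE e p r v' v = v' w0' * (v w0 * e p r w0' w0) := by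
  have h1 : prE e p r v' v = Finsupp.linearCombination ℂ
      (fun w' => Finsupp.linearCombination ℂ (fun w => e p r w' w) v) v' := by
    unfold prE
    rw [Finsupp.linearCombination_apply, Finsupp.linearCombination_apply, Finsupp.sum, Finsupp.sum,
      LinearMap.sum_apply]
    rfl
  rw [h1, lin_single _ v' w0']
  · by_cases h0 : w0' ∈ v'.support
    · rw [lin_single _ v w0]
      intro w hw hne
      exact h w0' h0 w hw (Or.inr hne)
    · rw [Finsupp.notMem_support_iff.mp h0, zero_mul, zero_mul]
  · intro w' hw' hne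
    rw [Finsupp.linearCombination_apply, Finsupp.sum]
    apply Finset.sum_eq_zero
    intro w hw
    rw [h w' hw' w hw (Or.inl hne), smul_zero]

end Tbs

open Tbs in
theorem t_bs : S_comp → S_bs := by
  intro hcomp q l e Ψ Ψ' hD A B hAB hA hGA hGB
  have hq := hD.hq
  have hq2 : (q ^ 2) ^ 2 + q ^ 2 + 1 = 0 := by
    have h3 : q ^ 3 = 1 := by linear_combination (q - 1) * hq
    calc (q ^ 2) ^ 2 + q ^ 2 + 1 = q ^ 3 * q + q ^ 2 + 1 := by ring
      _ = q ^ 2 + q + 1 := by rw [h3]; ring
      _ = 0 := hq
  have hB : Even B.length := by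
    have h1 := hD.hl
    rw [← hAB] at h1
    exact (Nat.even_add.mp h1).mp hA
  have hAs : ∀ w ∈ (Ψ A).support, w.length = A.length ∧ Ok w := fun w hw =>
    (Finsupp.mem_supported ℂ _).mp (hD.h.mem A) hw
  have hBs : ∀ w ∈ (Ψ' B).support, w.length = B.length ∧ Ok w := fun w hw =>
    (Finsupp.mem_supported ℂ _).mp (hD.h'.mem B) hw
  have hGG : GG e Ψ' Ψ A B [] = Ψ' B (bw B.length) * (Ψ A (bw A.length)) := by
    unfold GG
    rw [List.append_nil, List.append_nil, pr_single e A.length B.length (Ψ' B) (Ψ A) (bw B.length)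
      (bw A.length), hD.he.base A.length B.length hAB hA hB, mul_one]
    intro w' hw' w hw hne
    obtain ⟨l1, o1⟩ := hAs w hw
    obtain ⟨l2, o2⟩ := hBs w' hw'
    rcases hne with hne | hne
    · obtain ⟨i, u, rfl, hu, hue, hul, hi⟩ := exists_arc B.length w' hB l2 o2 hne
      rw [hD.he.symm A.length B.length _ _ hAB (by omega) (by omega)]
      exact hD.he.zero B.length A.length i w u (by omega) o1 hu hue (by omega) hi (by omega)
    · obtain ⟨i, u, rfl, hu, hue, hul, hi⟩ := exists_arc A.length w hA l1 o1 hne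
      exact hD.he.zero A.length B.length i w' u hAB o2 hu hue (by omega) hi (by omega)
  have h1 := hcomp q Ψ hq hD.h A hA hGA
  have h2 := hcomp (q ^ 2) Ψ' hq2 hD.h' B hB hGB
  rw [hGG, ← h1, ← h2]
  ring

end Pool.Agent.H160R2.ML
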