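import Pool.Agent.H160R2.ML.Stm
import Pool.Agent.H863R2.Cyl.Lst
import Pool.Agent.H988R2.Perc.T03

/-!
Project ML, task comp: the component of the word `false^h true^h`.
-/

set_option autoImplicit false

namespace Pool.Agent.H160R2.ML
open Pool.Agent.H863R2.Cyl
open Pool.Agent.H988R2.Perc (Word PD)
open Polynomial

namespace Tcomp

theorem pairwise_bw (n : ℕ) : (bw n).Pairwise (· ≤ ·) := by
  unfold bw
  rw [List.pairwise_append]
  refine ⟨List.pairwise_replicate.2 (Or.inr le_rfl), List.pairwise_replicate.2 (Or.inr le_rfl), ?_⟩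
  intro a ha b hb
  rw [List.eq_of_mem_replicate ha, List.eq_of_mem_replicate hb]
  decide

theorem bw_ne (n : ℕ) (a b : Word) : a ++ true :: false :: b ≠ bw n := by
  intro h
  have h1 := pairwise_bw n
  rw [← h, List.pairwise_append] at h1
  have h2 := (List.pairwise_cons.1 h1.2.1).1 false (by simp)
  exact absurd h2 (by decide)

theorem lin_act_bw {N i : ℕ} (v : VW) (hv : v ∈ VN N) (hi : i + 2 ≤ N) (n : ℕ) :
    (lin (act i) v) (bw n) = 0 := by
  have h1 : lin (act i) v = v.sum fun w a => Finsupp.single (act i w) a := rfl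
  rw [h1, Finsupp.sum_apply]
  unfold Finsupp.sum
  refine Finset.sum_eq_zero fun w hw => ?_
  have hw' : w.length = N ∧ Ok w := (Finsupp.mem_supported ℂ v).1 hv hw
  show (Finsupp.single (act i w) (v w)) (bw n) = 0
  rw [Finsupp.single_apply, if_neg]
  rw [act_eq (by omega)]
  exact bw_ne n _ _

/-- exchange of two letters -/
theorem exch {q : ℂ} {Ψ : List ℂ → VW} (hF : Fam q Ψ) (u v : List ℂ) (x y : ℂ) (n : ℕ) :
    (q * y - q ^ 2 * x) * Ψ (u ++ y :: x :: v) (bw n) =
      (q * x - q ^ 2 * y) * Ψ (u ++ x :: y :: v) (bw n) := by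
  have h1 := hF.exch u v x y
  have h2 := congrArg (fun f : VW => f (bw n)) h1
  simp only [Finsupp.add_apply, Finsupp.smul_apply, smul_eq_mul] at h2
  have h3 := lin_act_bw (i := u.length) (Ψ (u ++ x :: y :: v)) (hF.mem _)
    (by simp only [List.length_append, List.length_cons]; omega) n
  rw [h3, mul_zero, add_zero] at h2
  exact h2

theorem q_cube {q : ℂ} (hq : q ^ 2 + q + 1 = 0) : q ^ 3 = 1 := by
  linear_combination (q - 1) * hq

theorem q_ne {q : ℂ} (hq : q ^ 2 + q + 1 = 0) : q ≠ 0 := by
  rintro rfl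
  norm_num at hq

theorem q_ne_one {q : ℂ} (hq : q ^ 2 + q + 1 = 0) : q ≠ 1 := by
  rintro rfl
  norm_num at hq

/-- zeros in the first variable -/
theorem zero_first {q : ℂ} (hq : q ^ 2 + q + 1 = 0) {Ψ : List ℂ → VW} (hF : Fam q Ψ) (b : ℂ)
    (hb : b ≠ 0) (n : ℕ) (u : List ℂ) : ∀ v : List ℂ, (∀ c ∈ u, c ^ 3 ≠ b ^ 3) →
    Ψ ((q ^ 2 * b) :: (u ++ b :: v)) (bw n) = 0 := by
  have h3 := q_cube hq
  induction u using List.reverseRecOn with
  | nil =>
    intro v _
    have h1 := exch hF [] v b (q ^ 2 * b) n
    simp only [List.nil_append] at h1 ⊢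
    have e1 : q * b - q ^ 2 * (q ^ 2 * b) = 0 := by linear_combination (-q * b) * h3
    have e2 : q * (q ^ 2 * b) - q ^ 2 * b = (1 - q ^ 2) * b := by linear_combination b * h3
    rw [e1, e2, zero_mul] at h1
    have h4 : (1 - q ^ 2) * b ≠ 0 := by
      apply mul_ne_zero _ hb
      intro h5
      have h6 : q = 1 := by
        have h7 : q * (1 - q ^ 2) = 0 := by rw [h5, mul_zero]
        linear_combination h7 + h3
      exact q_ne_one hq h6
    exact (mul_eq_zero.1 h1).resolve_left h4
  | append_singleton u c ih =>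
    intro v hc
    have h1 := ih (c :: v) (fun c' hc' => hc c' (by simp [hc']))
    have h2 := exch hF ((q ^ 2 * b) :: u) v b c n
    simp only [List.cons_append, List.append_assoc, List.nil_append] at h1 h2 ⊢
    rw [h1, mul_zero] at h2
    have h4 : q * c - q ^ 2 * b ≠ 0 := by
      intro h5
      apply hc c (by simp)
      have h6 : c = q * b := by
        have h7 : q ^ 2 * (q * c - q ^ 2 * b) = 0 := by rw [h5, mul_zero]
        linear_combination h7 + (q * b - c) * h3
      rw [h6, mul_pow, h3, one_mul]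
    exact (mul_eq_zero.1 h2).resolve_left h4

theorem bw_seam (h : ℕ) : bw (2 * h + 2) = seam (bw (2 * h)) := by
  unfold bw seam
  have e1 : (2 * h + 2) / 2 = h + 1 := by omega
  have e2 : 2 * h / 2 = h := by omega
  rw [e1, e2, List.replicate_succ, List.replicate_succ']
  simp

theorem seam_inj : Function.Injective seam := by
  intro a b h
  unfold seam at h
  have h1 : a ++ [true] = b ++ [true] := by simpa using h
  exact List.append_cancel_right h1

theorem lin_seam {N : ℕ} (v : VW) (hv : v ∈ VN N) : lin rotr (lin (lins N) v) = lin seam v := by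
  have h1 : lin rotr (lin (lins N) v) = Finsupp.mapDomain (rotr ∘ lins N) v := by
    rw [Finsupp.mapDomain_comp]
    rfl
  rw [h1]
  show _ = Finsupp.mapDomain seam v
  refine Finsupp.mapDomain_congr fun w hw => ?_
  have hw' : w.length = N ∧ Ok w := (Finsupp.mem_supported ℂ v).1 hv hw
  have e1 : lins N w = (w ++ [true]) ++ [false] := by
    show w.take N ++ true :: false :: w.drop N = _
    rw [← hw'.1, List.take_length, List.drop_length]
    simp
  show rotr (lins N w) = seam w
  rw [e1, rotr_concat]
  simp [seam]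

/-- the value at one point -/
theorem value {q : ℂ} {Ψ : List ℂ → VW} (hF : Fam q Ψ) (x : ℂ) (m : List ℂ) (h : ℕ)
    (hm : m.length = 2 * h) :
    Ψ ((q * x) :: (m ++ [x])) (bw (2 * h + 2)) = fac q x m * Ψ m (bw (2 * h)) := by
  have e1 : (m ++ [x]) ++ [q * x] = m ++ x :: (q * x) :: [] := by simp
  rw [hF.rot, e1, hF.recu m [] x, List.append_nil, map_smul, lin_seam (Ψ m) (hF.mem m),
    Finsupp.smul_apply, smul_eq_mul, bw_seam]
  congr 1
  exact Finsupp.mapDomain_apply seam_inj _ _

theorem pfq_concat (q x : ℂ) (m : List ℂ) :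
    pfq q (m ++ [x]) = pfq q m * (m.map (fun b => q * x - q ^ 2 * b)).prod := by
  induction m with
  | nil => simp [pfq]
  | cons a m ih =>
    rw [List.cons_append, pfq, pfq, ih, List.map_append, List.prod_append, List.map_cons,
      List.prod_cons]
    simp
    ring

theorem prod_smul (c : ℂ) (m : List ℂ) (f : ℂ → ℂ) :
    (m.map (fun b => c * f b)).prod = c ^ m.length * (m.map f).prod := by
  induction m with
  | nil => simp
  | cons a m ih =>
    rw [List.map_cons, List.prod_cons, ih, List.map_cons, List.prod_cons, List.length_cons, pow_succ]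
    ring

theorem prod_ne (m : List ℂ) (f : ℂ → ℂ) (h : ∀ b ∈ m, f b ≠ 0) : (m.map f).prod ≠ 0 := by
  apply List.prod_ne_zero
  intro h0
  rw [List.mem_map] at h0
  obtain ⟨b, hb, h1⟩ := h0
  exact h b hb h1

theorem prod_sq (m : List ℂ) (f : ℂ → ℂ) :
    (m.map (fun b => f b ^ 2)).prod = (m.map f).prod ^ 2 := by
  induction m with
  | nil => simp
  | cons a m ih => rw [List.map_cons, List.prod_cons, ih, List.map_cons, List.prod_cons, mul_pow]

/-- proportionality -/
theorem prop {q : ℂ} (hq : q ^ 2 + q + 1 = 0) {Ψ : List ℂ → VW} (hF : Fam q Ψ) (x : ℂ)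
    (m : List ℂ) (hg : Gn (m ++ [x])) (t : ℂ) (n : ℕ) :
    Ψ (t :: (m ++ [x])) (bw n) * ((m ++ [x]).map (fun b => q * b - q ^ 2 * (q * x))).prod =
      Ψ ((q * x) :: (m ++ [x])) (bw n) * ((m ++ [x]).map (fun b => q * b - q ^ 2 * t)).prod := by
  have h3 := q_cube hq
  have hq0 := q_ne hq
  obtain ⟨hg0, hgn⟩ := hg
  set l : List ℂ := m ++ [x] with hl
  have hx0 : x ≠ 0 := hg0 x (by simp [hl])
  obtain ⟨P, hPd, hP⟩ := (hF.deg (l.length + 1) (bw n)).univ [] l (by simp)
  simp only [List.nil_append] at hP
  set Q : ℂ[X] := (l.map (fun b => C (q * b) - C (q ^ 2) * X)).prod with hQ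
  have hQe : ∀ s : ℂ, Q.eval s = (l.map (fun b => q * b - q ^ 2 * s)).prod := by
    intro s
    rw [hQ, Polynomial.eval_list_prod, List.map_map]
    congr 1
    refine List.map_congr_left fun b _ => ?_
    simp
  have hQd : Q.natDegree ≤ l.length := by
    rw [hQ]
    refine (Polynomial.natDegree_list_prod_le _).trans ?_
    rw [List.map_map]
    have h5 : ∀ s ∈ l.map (natDegree ∘ fun b => C (q * b) - C (q ^ 2) * X), s ≤ 1 := by
      intro s hs
      rw [List.mem_map] at hs
      obtain ⟨b, _, rfl⟩ := hs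
      show (C (q * b) - C (q ^ 2) * X).natDegree ≤ 1
      compute_degree
    have h6 := List.sum_le_card_nsmul _ 1 h5
    simpa using h6
  set R : ℂ[X] := P * C (Q.eval (q * x)) - Q * C (P.eval (q * x)) with hR
  have hinj : ∀ b ∈ l, ∀ c ∈ l, b ^ 3 = c ^ 3 → b = c := by
    intro b hb c hc hbc
    exact List.inj_on_of_nodup_map hgn hb hc hbc
  have hnd : ((q * x) :: l.map (fun b => q ^ 2 * b)).Nodup := by
    rw [List.nodup_cons]
    constructor
    · intro h4
      rw [List.mem_map] at h4
      obtain ⟨b, hb, h5⟩ := h4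
      have h6 : b ^ 3 = x ^ 3 := by
        have h7 : (q ^ 2 * b) ^ 3 = (q * x) ^ 3 := by rw [h5]
        have h8 : (q ^ 2) ^ 3 = 1 := by rw [← pow_mul, mul_comm, pow_mul, h3, one_pow]
        rw [mul_pow, mul_pow, h3, h8, one_mul, one_mul] at h7
        exact h7
      have h7 := hinj b hb x (by simp [hl]) h6
      rw [h7] at h5
      have h8 : q = 1 := by
        have h9 : q * x * (q - 1) = 0 := by linear_combination h5
        rcases mul_eq_zero.1 h9 with h10 | h10
        · exact absurd h10 (mul_ne_zero hq0 hx0)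
        · linear_combination h10
      exact q_ne_one hq h8
    · refine List.Nodup.map_on ?_ (List.Nodup.of_map _ hgn)
      intro b _ c _ h5
      exact mul_left_cancel₀ (pow_ne_zero 2 hq0) h5
  have hR0 : R = 0 := by
    apply Polynomial.eq_zero_of_natDegree_lt_card_of_eval_eq_zero' R
      ((q * x) :: l.map (fun b => q ^ 2 * b)).toFinset
    · intro s hs
      rw [List.mem_toFinset, List.mem_cons] at hs
      rcases hs with rfl | hs
      · simp [hR, mul_comm]
      · rw [List.mem_map] at hs
        obtain ⟨b, hb, rfl⟩ := hs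
        have z1 : P.eval (q ^ 2 * b) = 0 := by
          rw [← hP]
          obtain ⟨u, v, huv⟩ := List.append_of_mem hb
          rw [huv]
          apply zero_first hq hF b (hg0 b hb) n u v
          intro c hc h5
          have hc' : c ∈ l := by rw [huv]; simp [hc]
          have h6 := hinj c hc' b hb h5
          subst h6
          have h7 : l.Nodup := List.Nodup.of_map _ hgn
          rw [huv, List.nodup_append] at h7
          exact h7.2.2 c hc c (by simp) rfl
        have z2 : Q.eval (q ^ 2 * b) = 0 := by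
          rw [hQe]
          apply List.prod_eq_zero
          rw [List.mem_map]
          exact ⟨b, hb, by linear_combination (-q * b) * h3⟩
        simp [hR, z1, z2]
    · rw [List.toFinset_card_of_nodup hnd, List.length_cons, List.length_map]
      have h5 : R.natDegree ≤ l.length := by
        rw [hR]
        refine (Polynomial.natDegree_sub_le _ _).trans (max_le ?_ ?_)
        · refine (Polynomial.natDegree_mul_C_le _ _).trans ?_
          simpa using hPd
        · exact (Polynomial.natDegree_mul_C_le _ _).trans hQd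
      omega
  have h5 := congrArg (fun p : ℂ[X] => p.eval t) hR0
  simp only [hR, Polynomial.eval_sub, Polynomial.eval_mul, Polynomial.eval_C,
    Polynomial.eval_zero] at h5
  rw [← hP, ← hP, hQe, hQe] at h5
  linear_combination h5

theorem main {q : ℂ} (hq : q ^ 2 + q + 1 = 0) {Ψ : List ℂ → VW} (hF : Fam q Ψ) (h : ℕ) :
    ∀ A : List ℂ, A.length = 2 * h → Gn A → Ψ A (bw (2 * h)) * (q - 1) ^ h = pfq q A := by
  have h3 := q_cube hq
  have hq0 := q_ne hq
  induction h with
  | zero =>
    intro A hA _
    have : A = [] := List.length_eq_zero_iff.1 (by omega)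
    subst this
    rw [hF.nil]
    simp [bw, pfq]
  | succ h ih =>
    intro A hA hg
    obtain ⟨t, l, rfl⟩ : ∃ t l, A = t :: l := by
      cases A with
      | nil => simp at hA
      | cons t l => exact ⟨t, l, rfl⟩
    obtain ⟨m, x, rfl⟩ : ∃ m x, l = m ++ [x] := by
      rcases List.eq_nil_or_concat l with h4 | ⟨m, x, h4⟩
      · rw [h4] at hA
        simp at hA
        omega
      · exact ⟨m, x, by simpa using h4⟩
    have hml : m.length = 2 * h := by
      simp only [List.length_cons, List.length_append, List.length_nil] at hA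
      omega
    obtain ⟨hg0, hgn⟩ := hg
    have hg1 : Gn (m ++ [x]) := by
      refine ⟨fun y hy => hg0 y (List.mem_cons_of_mem _ hy), ?_⟩
      rw [List.map_cons, List.nodup_cons] at hgn
      exact hgn.2
    have hg2 : Gn m := by
      refine ⟨fun y hy => hg1.1 y (by simp [hy]), ?_⟩
      have := hg1.2
      rw [List.map_append, List.nodup_append] at this
      exact this.1
    have hx0 : x ≠ 0 := hg1.1 x (by simp)
    have hne : ∀ b ∈ m, b - q ^ 2 * x ≠ 0 := by
      intro b hb h5
      have h6 : b ^ 3 = x ^ 3 := by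
        have h7 : b = q ^ 2 * x := by linear_combination h5
        have h8 : (q ^ 2) ^ 3 = 1 := by rw [← pow_mul, mul_comm, pow_mul, h3, one_pow]
        rw [h7, mul_pow, h8, one_mul]
      have h7 := hg1.2
      rw [List.map_append, List.nodup_append] at h7
      exact h7.2.2 (b ^ 3) (List.mem_map_of_mem hb) (x ^ 3) (by simp) h6
    have e0 : 2 * (h + 1) = 2 * h + 2 := by ring
    have p1 := prop hq hF x m hg1 t (2 * h + 2)
    have p2 := value hF x m h hml
    have p3 := ih m hml hg2
    rw [e0, pfq, pfq_concat]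
    rw [p2] at p1
    set Aa : ℂ := (m.map (fun b => b - q ^ 2 * x)).prod with hAa
    have hA0 : Aa ≠ 0 := prod_ne m _ hne
    have f1 : fac q x m = x * Aa ^ 2 := by
      unfold fac
      rw [prod_sq m (fun y => y - q ^ 2 * x)]
    have f2 : (m.map (fun b => q * x - q ^ 2 * b)).prod = (q ^ 2) ^ (2 * h) * Aa := by
      have h5 : (fun b => q * x - q ^ 2 * b) = fun b => (-q ^ 2) * (b - q ^ 2 * x) := by
        funext b
        linear_combination (-q * x) * h3
      rw [h5, prod_smul, hml]
      congr 1
      rw [neg_pow, pow_mul (-1 : ℂ), neg_one_sq, one_pow, one_mul]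
    have f3 : ((m ++ [x]).map (fun b => q * b - q ^ 2 * (q * x))).prod =
        q ^ (2 * h) * Aa * ((q - 1) * x) := by
      rw [List.map_append, List.prod_append]
      have h5 : (fun b => q * b - q ^ 2 * (q * x)) = fun b => q * (b - q ^ 2 * x) := by
        funext b
        ring
      rw [h5, prod_smul, hml]
      simp only [List.map_cons, List.map_nil, List.prod_cons, List.prod_nil, mul_one]
      have h6 : q * (x - q ^ 2 * x) = (q - 1) * x := by linear_combination (-x) * h3
      rw [h6]
    rw [f1, f3] at p1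
    rw [f2]
    set Q : ℂ := ((m ++ [x]).map (fun b => q * b - q ^ 2 * t)).prod
    have hqq : q ^ (2 * h) * (q ^ 2) ^ (2 * h) = 1 := by
      rw [← mul_pow]
      have h5 : q * q ^ 2 = 1 := by linear_combination h3
      rw [h5, one_pow]
    have key : Ψ (t :: (m ++ [x])) (bw (2 * h + 2)) * (q - 1) ^ (h + 1) * q ^ (2 * h) * (x * Aa) =
        Q * Aa * pfq q m * (x * Aa) := by
      rw [← p3, pow_succ]
      linear_combination (q - 1) ^ h * p1
    have key2 := mul_right_cancel₀ (mul_ne_zero hx0 hA0) key
    calc Ψ (t :: (m ++ [x])) (bw (2 * h + 2)) * (q - 1) ^ (h + 1)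
        = (Ψ (t :: (m ++ [x])) (bw (2 * h + 2)) * (q - 1) ^ (h + 1) * q ^ (2 * h)) *
          (q ^ 2) ^ (2 * h) := by
          rw [mul_assoc (Ψ (t :: (m ++ [x])) (bw (2 * h + 2)) * (q - 1) ^ (h + 1)), hqq, mul_one]
      _ = Q * (pfq q m * ((q ^ 2) ^ (2 * h) * Aa)) := by
          rw [key2]
          ring

end Tcomp

theorem t_comp : S_comp := by
  intro q Ψ hq hF A hA hg
  obtain ⟨h, hh⟩ := hA
  have e1 : A.length = 2 * h := by omega
  have e2 : A.length / 2 = h := by omega
  have := Tcomp.main hq hF h A e1 hg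
  rw [e2, e1]
  exact this

end Pool.Agent.H160R2.ML
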