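import Pool.Agent.H160R2.ML.Stm
import Pool.Agent.H863R2.Cyl.Braid
import Pool.Agent.H988R2.Perc.T03

/-! Many legs, task deg: `G` is a polynomial in the last lower leg. -/

set_option autoImplicit false

namespace Pool.Agent.H160R2.ML
open Pool.Agent.H863R2.Cyl
open Pool.Agent.H988R2.Perc (Word PD)
open H974 H906.Cyl

theorem t_deg : S_deg := by
  intro q l e Ψ Ψ' hD A B z _
  have hPD : ∀ w : Word, ∃ P : Polynomial ℂ, P.natDegree ≤ A.length + z.length ∧
      ∀ x, Ψ (A ++ x :: z) w = P.eval x := by
    intro w
    have h := hD.h.deg (A.length + z.length + 1) w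
    obtain ⟨P, hP, hPe⟩ := Pool.Agent.H988R2.Perc.PD.univ h A z rfl
    refine ⟨P, ?_, hPe⟩
    simpa using hP
  choose P hPd hPe using hPD
  refine ⟨∑ w ∈ BLAux.SN (A.length + z.length + 1),
    Polynomial.C (prE e (A.length + 1) B.length (Ψ' (B ++ z)) (bs w)) * P w, ?_, ?_⟩
  · refine Polynomial.natDegree_sum_le_of_forall_le _ _ fun w _ => ?_
    exact (Polynomial.natDegree_C_mul_le _ _).trans (hPd w)
  · intro x
    have hmem := hD.h.mem (A ++ x :: z)
    have hlen : (A ++ x :: z).length = A.length + z.length + 1 := by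
      simp only [List.length_append, List.length_cons]; omega
    rw [hlen] at hmem
    have hex := BLAux.expand hmem
    have hA : A ++ [x] ++ z = A ++ x :: z := by simp
    have hl1 : (A ++ [x]).length = A.length + 1 := by simp
    unfold GG
    rw [hA, hl1, hex, map_sum, Polynomial.eval_finsetSum]
    refine Finset.sum_congr rfl fun w _ => ?_
    rw [map_smul, Polynomial.eval_mul, Polynomial.eval_C, ← hPe w x, smul_eq_mul, mul_comm]

end Pool.Agent.H160R2.ML
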