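import Pool.Agent.H160R2.ML.Stm
import Pool.Agent.H863R2.Cyl.Sem4

/-!
# Task insR: an arc between through strands
-/

set_option autoImplicit false

namespace Pool.Agent.H160R2.ML
open Pool.Agent.H863R2.Cyl
open Pool.Agent.H988R2.Perc (Word PD)
open H974 H906.Cyl

namespace TinsR

open Pool.Agent.H863R2.Cyl.Sem4Aux

theorem Rw_nil (a b : ℤ) : Rw [] a b ↔ a = b := by
  obtain ⟨K, hK0, hK⟩ : ∃ K : ℤ → ℤ, (∀ x, K x = x) ∧ ∀ a, K (a + 1) = K a + sg [] a :=
    ⟨fun x => x, fun _ => rfl, fun a => by simp [sg]⟩
  constructor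
  · rintro (h | h)
    · rw [rle_iff hK] at h
      have := h.2.2
      rw [hK0, hK0] at this
      exact this.symm
    · rw [rle_iff hK] at h
      have := h.2.2
      rw [hK0, hK0] at this
      exact this
  · rintro rfl
    exact (Rw_equiv _).refl _

theorem Rw_tf (a b : ℤ) : Rw [true, false] a b ↔ a = b ∨ (a % 2 = 0 ∧ b % 2 = 0) := by
  obtain ⟨K, hK0⟩ : ∃ K : ℤ → ℤ, ∀ x, K x = x % 2 := ⟨fun x => x % 2, fun _ => rfl⟩
  have hK : ∀ a : ℤ, K (a + 1) = K a + sg [true, false] a := by
    intro a
    rw [hK0, hK0]
    rcases Int.emod_two_eq_zero_or_one a with h | h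
    · have e : sg [true, false] a = 1 := by
        unfold sg
        have : (([true, false] : List Bool).length : ℤ) = 2 := rfl
        rw [this, h]
        rfl
      rw [e]
      omega
    · have e : sg [true, false] a = -1 := by
        unfold sg
        have : (([true, false] : List Bool).length : ℤ) = 2 := rfl
        rw [this, h]
        rfl
      rw [e]
      omega
  have key : ∀ a b, Rle [true, false] a b → a = b ∨ (a % 2 = 0 ∧ b % 2 = 0) := by
    intro a b h
    rw [rle_iff hK] at h
    obtain ⟨h1, h2, h3⟩ := h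
    rw [hK0, hK0] at h3
    by_cases hab : a = b
    · exact Or.inl hab
    · have := h2 (a + 1) (by omega) (by omega)
      rw [hK0, hK0] at this
      right
      omega
  constructor
  · rintro (h | h)
    · exact key a b h
    · rcases key b a h with h | ⟨h1, h2⟩
      · exact Or.inl h.symm
      · exact Or.inr ⟨h2, h1⟩
  · rintro (rfl | ⟨h1, h2⟩)
    · exact (Rw_equiv _).refl _
    · rcases le_total a b with h | h
      · left
        rw [rle_iff hK]
        refine ⟨h, fun l _ _ => ?_, ?_⟩
        · rw [hK0, hK0]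
          omega
        · rw [hK0, hK0]
          omega
      · right
        rw [rle_iff hK]
        refine ⟨h, fun l _ _ => ?_, ?_⟩
        · rw [hK0, hK0]
          omega
        · rw [hK0, hK0]
          omega

/-- connections of `lins i u`, also for the empty word -/
theorem rw_lins' {u : Word} {i : ℕ} (hi : i ≤ u.length) (a b : ℤ) :
    Rw (lins i u) a b ↔ a = b ∨ (¬ iso u.length i a ∧ ¬ iso u.length i b ∧
      Rw u (sm u.length i a) (sm u.length i b)) := by
  rcases Nat.eq_zero_or_pos u.length with h | h
  · have hu : u = [] := List.length_eq_zero_iff.1 h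
    subst hu
    have hi0 : i = 0 := by simpa using hi
    subst hi0
    have e : lins 0 ([] : Word) = [true, false] := rfl
    have e0 : ([] : Word).length = 0 := rfl
    rw [e, e0, Rw_tf, Rw_nil]
    have h1 : ∀ x : ℤ, ¬ iso 0 0 x ↔ x % 2 = 0 := by
      intro x
      constructor
      · intro h
        by_contra hc
        apply h
        refine ⟨x / 2, ?_⟩
        push_cast
        omega
      · rintro h ⟨k, hk⟩
        push_cast at hk
        omega
    have h2 : ∀ x : ℤ, x % 2 = 0 → sm 0 0 x = 0 := by
      intro x hx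
      unfold sm ct
      push_cast
      omega
    rw [h1, h1]
    constructor
    · rintro (h | ⟨h3, h4⟩)
      · exact Or.inl h
      · exact Or.inr ⟨h3, h4, by rw [h2 a h3, h2 b h4]⟩
    · rintro (h | ⟨h3, h4, _⟩)
      · exact Or.inl h
      · exact Or.inr ⟨h3, h4⟩
  · exact rw_lins hi h a b

theorem sm_lo {N i : ℕ} (hi : i ≤ N) (s t : ℤ) (h0 : 0 ≤ t) (h1 : t ≤ i) :
    sm N i (s * (N + 2) + t) = s * N + t ∧ ¬ iso N i (s * (N + 2) + t) := by
  have e : s * ((N : ℤ) + 2) + t = (N + 2) * s + (t + (N - i)) - (N - i) := by ring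
  constructor
  · unfold sm
    rw [ct_eq e (by omega) (by omega)]
    ring
  · rw [iso_iff e (by omega) (by omega)]
    omega

theorem sm_hi {N i : ℕ} (hi : i ≤ N) (s t : ℤ) (h0 : (i : ℤ) + 2 ≤ t) (h1 : t ≤ N + 2) :
    sm N i (s * (N + 2) + t) = s * N + t - 2 ∧ ¬ iso N i (s * (N + 2) + t) := by
  have e : s * ((N : ℤ) + 2) + t = (N + 2) * (s + 1) + (t - i - 2) - (N - i) := by ring
  constructor
  · unfold sm
    rw [ct_eq e (by omega) (by omega)]
    ring
  · rw [iso_iff e (by omega) (by omega)]
    omega

/-- the collapsing map on both sides -/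
def ph (N i N' i' : ℕ) : ℤ × Bool → ℤ × Bool
  | (a, false) => (sm N i a, false)
  | (a, true) => (sm N' i' a, true)

/-- the removed faces on both sides -/
def Is (N i N' i' : ℕ) : ℤ × Bool → Prop
  | (a, false) => iso N i a
  | (a, true) => iso N' i' a

/-- the hypotheses -/
structure HH (p r i : ℕ) (w' u v' : Word) (i' : ℕ) : Prop where
  ok : Ok w'
  l2 : w'.length = v'.length + 2
  lv : v'.length + p = u.length + r
  hv : v' = cap i' w'
  ii : i' + p = i + r
  hp : p ≤ i
  hi : i ≤ u.length

section

variable {p r i : ℕ} {w' u v' : Word} {i' : ℕ}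

theorem HH.hi' (H : HH p r i w' u v' i') : i' ≤ v'.length := by
  have h1 := H.lv
  have h2 := H.ii
  have h3 := H.hp
  have h4 := H.hi
  omega

theorem HH.isol_iff (H : HH p r i w' u v' i') (a : ℤ) : isol w' i' a ↔ iso v'.length i' a := by
  unfold Pool.Agent.H863R2.Cyl.isol iso
  rw [H.l2]
  push_cast
  rfl

/-- connections of the capped word -/
theorem HH.capp (H : HH p r i w' u v' i') {a b : ℤ} (ha : ¬ iso v'.length i' a)
    (hb : ¬ iso v'.length i' b) : (Rw v' (sm v'.length i' a) (sm v'.length i' b) ↔
      Relation.EqvGen (fun x y => (¬ isol w' i' x ∧ ¬ isol w' i' y ∧ Rw w' x y) ∨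
        ∃ k : ℤ, x = i' + k * w'.length ∧ y = i' + 2 + k * w'.length) a b) := by
  have hi' := H.hi'
  have hl2 := H.l2
  have hact : act i' w' = lins i' v' := by
    rw [H.hv]
    exact act_eq (by omega)
  have h1 := rw_lins' (u := v') (i := i') hi' a b
  have h2 := Rw_act (i := i') H.ok (by omega) a b
  rw [hact, h1, H.isol_iff, H.isol_iff] at h2
  constructor
  · intro h
    rcases h2.1 (Or.inr ⟨ha, hb, h⟩) with h3 | h3
    · rw [h3]
      exact Relation.EqvGen.refl _
    · exact h3.2.2
  · intro h
    rcases h2.2 (Or.inr ⟨ha, hb, h⟩) with h3 | h3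
    · rw [h3]
      exact (Rw_equiv _).refl _
    · exact h3.2.2

theorem HH.up (H : HH p r i w' u v' i') {a b : ℤ} (ha : ¬ iso v'.length i' a)
    (hb : ¬ iso v'.length i' b) (h : Rw w' a b) :
    Rw v' (sm v'.length i' a) (sm v'.length i' b) := by
  rw [H.capp ha hb]
  apply Relation.EqvGen.rel
  left
  rw [H.isol_iff, H.isol_iff]
  exact ⟨ha, hb, h⟩

theorem llen (u : Word) (i : ℕ) : (lins i u).length = u.length + 2 :=
  Pool.Agent.H988R2.Perc.length_ins _ _

/-- from the old relation to the new one -/
theorem HH.fwd (H : HH p r i w' u v' i') {x y : ℤ × Bool}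
    (hx : ¬ Is u.length i v'.length i' x) (hy : ¬ Is u.length i v'.length i' y)
    (h : Cn p r w' (lins i u) x y) :
    Cn p r v' u (ph u.length i v'.length i' x) (ph u.length i v'.length i' y) := by
  have hi := H.hi
  have hi' := H.hi'
  have hl2 := H.l2
  have hlv := H.lv
  have hii := H.ii
  have hpi := H.hp
  set N := u.length with hN
  set N' := v'.length with hN'
  set y₀ := ph N i N' i' y with hy₀
  have hE := Relation.EqvGen.is_equivalence (Lg p r v' u)
  set P : ℤ × Bool → Prop := fun z => match z with
    | (a, true) => ∃ b, ¬ iso N' i' b ∧ Rw w' a b ∧ Cn p r v' u (sm N' i' b, true) y₀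
    | (a, false) => (¬ iso N i a ∧ Cn p r v' u (sm N i a, false) y₀) ∨
      ∃ k : ℤ, a = i + 1 + k * (N + 2) ∧ ∃ b, ¬ iso N' i' b ∧ Rw w' (i' + 1 + k * (N' + 2)) b ∧
        Cn p r v' u (sm N' i' b, true) y₀ with hP
  have hPt : ∀ a : ℤ, P (a, true) ↔
      ∃ b, ¬ iso N' i' b ∧ Rw w' a b ∧ Cn p r v' u (sm N' i' b, true) y₀ := fun a => Iff.rfl
  have hPf : ∀ a : ℤ, P (a, false) ↔ (¬ iso N i a ∧ Cn p r v' u (sm N i a, false) y₀) ∨
      ∃ k : ℤ, a = i + 1 + k * (N + 2) ∧ ∃ b, ¬ iso N' i' b ∧ Rw w' (i' + 1 + k * (N' + 2)) b ∧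
        Cn p r v' u (sm N' i' b, true) y₀ := fun a => Iff.rfl
  have hPtn : ∀ a : ℤ, ¬ iso N' i' a → (P (a, true) ↔ Cn p r v' u (sm N' i' a, true) y₀) := by
    intro a ha
    rw [hPt]
    constructor
    · rintro ⟨b, hb, h1, h2⟩
      exact hE.trans (Relation.EqvGen.rel _ _ (Lg.upp _ _ (H.up ha hb h1))) h2
    · intro h
      exact ⟨a, ha, (Rw_equiv _).refl _, h⟩
  have hPfn : ∀ a : ℤ, ¬ iso N i a → (P (a, false) ↔ Cn p r v' u (sm N i a, false) y₀) := by
    intro a ha
    rw [hPf]
    constructor
    · rintro (h | ⟨k, hk, _⟩)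
      · exact h.2
      · exact absurd ⟨k, hk⟩ ha
    · intro h
      exact Or.inl ⟨ha, h⟩
  have hL : ∀ x y, Lg p r w' (lins i u) x y → (P x ↔ P y) := by
    intro x y hxy
    cases hxy with
    | low a b h =>
      rw [rw_lins' hi] at h
      rcases h with h | ⟨h1, h2, h3⟩
      · rw [h]
      · rw [hPfn a h1, hPfn b h2]
        have e : Cn p r v' u (sm N i a, false) (sm N i b, false) :=
          Relation.EqvGen.rel _ _ (Lg.low _ _ h3)
        exact ⟨fun h => hE.trans (hE.symm e) h, fun h => hE.trans e h⟩
    | upp a b h =>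
      rw [hPt, hPt]
      constructor
      · rintro ⟨c, h1, h2, h3⟩
        exact ⟨c, h1, (Rw_equiv _).trans ((Rw_equiv _).symm h) h2, h3⟩
      · rintro ⟨c, h1, h2, h3⟩
        exact ⟨c, h1, (Rw_equiv _).trans h h2, h3⟩
    | glue s j hj =>
      rw [llen] at hj
      have ea : s * ((lins i u).length : ℤ) + p + j = s * ((N : ℤ) + 2) + (p + j) := by
        rw [llen]; push_cast; ring
      have eb : s * (w'.length : ℤ) + r + j = s * ((N' : ℤ) + 2) + (r + j) := by
        rw [hl2]; push_cast; ring
      rw [ea, eb]
      rcases lt_trichotomy (p + j) (i + 1) with hc | hc | hc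
      · obtain ⟨t1, t2⟩ := sm_lo (N := N) (i := i) hi s (p + j) (by omega) (by omega)
        obtain ⟨t3, t4⟩ := sm_lo (N := N') (i := i') hi' s (r + j) (by omega) (by omega)
        rw [hPfn _ t2, hPtn _ t4, t1, t3]
        have g := Lg.glue (p := p) (r := r) (w' := v') (w := u) s j (by omega)
        have e : Cn p r v' u (s * N + (p + j), false) (s * N' + (r + j), true) := by
          have := Relation.EqvGen.rel _ _ g
          rw [add_assoc, add_assoc] at this
          exact this
        exact ⟨fun h => hE.trans (hE.symm e) h, fun h => hE.trans e h⟩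
      · have e1 : s * ((N : ℤ) + 2) + (p + j) = i + 1 + s * (N + 2) := by
          have : (p : ℤ) + j = i + 1 := by exact_mod_cast hc
          rw [this]; ring
        have e2 : s * ((N' : ℤ) + 2) + (r + j) = i' + 1 + s * (N' + 2) := by
          have : (r : ℤ) + j = i' + 1 := by
            have : r + j = i' + 1 := by omega
            exact_mod_cast this
          rw [this]; ring
        rw [e1, e2, hPt, hPf]
        constructor
        · rintro (h | ⟨k, hk, h⟩)
          · exact absurd ⟨s, rfl⟩ h.1
          · have : k = s := by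
              have h5 : (s - k) * ((N : ℤ) + 2) = 0 := by linear_combination hk
              rcases mul_eq_zero.1 h5 with h6 | h6
              · omega
              · omega
            rw [this] at h
            exact h
        · intro h
          exact Or.inr ⟨s, rfl, h⟩
      · obtain ⟨t1, t2⟩ := sm_hi (N := N) (i := i) hi s (p + j) (by omega) (by omega)
        obtain ⟨t3, t4⟩ := sm_hi (N := N') (i := i') hi' s (r + j) (by omega) (by omega)
        rw [hPfn _ t2, hPtn _ t4, t1, t3]
        have g := Lg.glue (p := p) (r := r) (w' := v') (w := u) s (j - 2) (by omega)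
        have ej : ((j - 2 : ℕ) : ℤ) = j - 2 := by omega
        have e : Cn p r v' u (s * N + (p + j) - 2, false) (s * N' + (r + j) - 2, true) := by
          have := Relation.EqvGen.rel _ _ g
          rw [ej] at this
          rw [show s * (N : ℤ) + (p + j) - 2 = s * (u.length : ℤ) + p + (j - 2) by rw [hN]; ring,
            show s * (N' : ℤ) + (r + j) - 2 = s * (v'.length : ℤ) + r + (j - 2) by rw [hN']; ring]
          exact this
        exact ⟨fun h => hE.trans (hE.symm e) h, fun h => hE.trans e h⟩
  have hC : ∀ x y, Cn p r w' (lins i u) x y → (P x ↔ P y) := by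
    intro x y hxy
    induction hxy with
    | rel x y h => exact hL x y h
    | refl x => exact Iff.rfl
    | symm x y _ ih => exact ih.symm
    | trans x y z _ _ ih1 ih2 => exact ih1.trans ih2
  have hPn : ∀ z, ¬ Is N i N' i' z → (P z ↔ Cn p r v' u (ph N i N' i' z) y₀) := by
    intro z hz
    rcases z with ⟨a, _ | _⟩
    · exact hPfn a hz
    · exact hPtn a hz
  rw [← hPn x hx, hC x y h, hPn y hy]
  exact Relation.EqvGen.refl _

/-- the upper relation of the capped word -/
theorem HH.gen (H : HH p r i w' u v' i') {a b : ℤ}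
    (h : Relation.EqvGen (fun x y => (¬ isol w' i' x ∧ ¬ isol w' i' y ∧ Rw w' x y) ∨
        ∃ k : ℤ, x = i' + k * w'.length ∧ y = i' + 2 + k * w'.length) a b) :
    Cn p r w' (lins i u) (a, true) (b, true) := by
  have hi := H.hi
  have hi' := H.hi'
  have hl2 := H.l2
  have hlv := H.lv
  have hii := H.ii
  have hpi := H.hp
  have hE := Relation.EqvGen.is_equivalence (Lg p r w' (lins i u))
  induction h with
  | rel a b h =>
    rcases h with h | ⟨k, h1, h2⟩
    · exact Relation.EqvGen.rel _ _ (Lg.upp _ _ h.2.2)
    · have ej : ((i - p : ℕ) : ℤ) = i - p := by omega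
      have ej2 : ((i - p + 2 : ℕ) : ℤ) = i - p + 2 := by omega
      have ei : (i' : ℤ) = i + r - p := by omega
      have g1 := Relation.EqvGen.rel _ _ (Lg.glue (p := p) (r := r) (w' := w') (w := lins i u) k
        (i - p) (by rw [llen]; omega))
      have g2 := Relation.EqvGen.rel _ _ (Lg.glue (p := p) (r := r) (w' := w') (w := lins i u) k
        (i - p + 2) (by rw [llen]; omega))
      have e1 : k * ((lins i u).length : ℤ) + p + ((i - p : ℕ) : ℤ) =
          k * ((u.length : ℤ) + 2) + i := by
        rw [llen, ej]; push_cast; ring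
      have e2 : k * ((lins i u).length : ℤ) + p + ((i - p + 2 : ℕ) : ℤ) =
          k * ((u.length : ℤ) + 2) + (i + 2) := by
        rw [llen, ej2]; push_cast; ring
      have e3 : k * (w'.length : ℤ) + r + ((i - p : ℕ) : ℤ) = a := by
        rw [h1, ej, ei]; ring
      have e4 : k * (w'.length : ℤ) + r + ((i - p + 2 : ℕ) : ℤ) = b := by
        rw [h2, ej2, ei]; ring
      rw [e1, e3] at g1
      rw [e2, e4] at g2
      obtain ⟨t1, t2⟩ := sm_lo (N := u.length) (i := i) hi k i (by omega) (by omega)
      obtain ⟨t3, t4⟩ := sm_hi (N := u.length) (i := i) hi k (i + 2) (by omega) (by omega)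
      have g3 : Cn p r w' (lins i u) (k * ((u.length : ℤ) + 2) + i, false)
          (k * ((u.length : ℤ) + 2) + (i + 2), false) := by
        apply Relation.EqvGen.rel
        apply Lg.low
        rw [rw_lins' hi]
        right
        refine ⟨t2, t4, ?_⟩
        rw [t1, t3, show k * (u.length : ℤ) + ((i : ℤ) + 2) - 2 = k * (u.length : ℤ) + i by ring]
        exact (Rw_equiv _).refl _
      exact hE.trans (hE.symm g1) (hE.trans g3 g2)
  | refl a => exact Relation.EqvGen.refl _
  | symm a b _ ih => exact Relation.EqvGen.symm _ _ ih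
  | trans a b c _ _ ih1 ih2 => exact Relation.EqvGen.trans _ _ _ ih1 ih2

/-- two points with the same image are connected -/
theorem HH.same (H : HH p r i w' u v' i') {x y : ℤ × Bool}
    (hx : ¬ Is u.length i v'.length i' x) (hy : ¬ Is u.length i v'.length i' y)
    (h : ph u.length i v'.length i' x = ph u.length i v'.length i' y) :
    Cn p r w' (lins i u) x y := by
  rcases x with ⟨a, _ | _⟩
  · rcases y with ⟨b, _ | _⟩
    · have h1 : sm u.length i a = sm u.length i b := congrArg Prod.fst h
      apply Relation.EqvGen.rel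
      apply Lg.low
      rw [rw_lins' H.hi]
      right
      refine ⟨hx, hy, ?_⟩
      rw [h1]
      exact (Rw_equiv _).refl _
    · exact absurd (congrArg Prod.snd h) (by simp [ph])
  · rcases y with ⟨b, _ | _⟩
    · exact absurd (congrArg Prod.snd h) (by simp [ph])
    · have h1 : sm v'.length i' a = sm v'.length i' b := congrArg Prod.fst h
      apply H.gen
      rw [← H.capp hx hy, h1]
      exact (Rw_equiv _).refl _

/-- from the new relation to the old one -/
theorem HH.bwd (H : HH p r i w' u v' i') {X Y : ℤ × Bool} (h : Cn p r v' u X Y) :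
    X = Y ∨ ∃ x y, ¬ Is u.length i v'.length i' x ∧ ¬ Is u.length i v'.length i' y ∧
      ph u.length i v'.length i' x = X ∧ ph u.length i v'.length i' y = Y ∧
      Cn p r w' (lins i u) x y := by
  have hi := H.hi
  have hi' := H.hi'
  have hl2 := H.l2
  have hlv := H.lv
  have hii := H.ii
  have hpi := H.hp
  have hE := Relation.EqvGen.is_equivalence (Lg p r w' (lins i u))
  induction h with
  | rel X Y h =>
    cases h with
    | low a b h =>
      rcases Nat.eq_zero_or_pos u.length with h0 | h0
      · have hu : u = [] := List.length_eq_zero_iff.1 h0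
        rw [hu, Rw_nil] at h
        left
        rw [h]
      · right
        obtain ⟨t1, t2⟩ := sec_spec (N := u.length) (i := i) h0 a
        obtain ⟨t3, t4⟩ := sec_spec (N := u.length) (i := i) h0 b
        refine ⟨(sec u.length i a, false), (sec u.length i b, false), t1, t3, ?_, ?_, ?_⟩
        · simp only [ph, t2]
        · simp only [ph, t4]
        · apply Relation.EqvGen.rel
          apply Lg.low
          rw [rw_lins' hi]
          right
          exact ⟨t1, t3, by rw [t2, t4]; exact h⟩
    | upp a b h =>
      rcases Nat.eq_zero_or_pos v'.length with h0 | h0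
      · have hu : v' = [] := List.length_eq_zero_iff.1 h0
        rw [hu, Rw_nil] at h
        left
        rw [h]
      · right
        obtain ⟨t1, t2⟩ := sec_spec (N := v'.length) (i := i') h0 a
        obtain ⟨t3, t4⟩ := sec_spec (N := v'.length) (i := i') h0 b
        refine ⟨(sec v'.length i' a, true), (sec v'.length i' b, true), t1, t3, ?_, ?_, ?_⟩
        · simp only [ph, t2]
        · simp only [ph, t4]
        · apply H.gen
          rw [← H.capp t1 t3, t2, t4]
          exact h
    | glue s j hj =>
      right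
      rcases le_or_gt (p + j) i with hc | hc
      · obtain ⟨t1, t2⟩ := sm_lo (N := u.length) (i := i) hi s (p + j) (by omega) (by omega)
        obtain ⟨t3, t4⟩ := sm_lo (N := v'.length) (i := i') hi' s (r + j) (by omega) (by omega)
        refine ⟨(s * ((u.length : ℤ) + 2) + (p + j), false),
          (s * ((v'.length : ℤ) + 2) + (r + j), true), t2, t4, ?_, ?_, ?_⟩
        · simp only [ph, t1, add_assoc]
        · simp only [ph, t3, add_assoc]
        · have g := Relation.EqvGen.rel _ _ (Lg.glue (p := p) (r := r) (w' := w')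
            (w := lins i u) s j (by rw [llen]; omega))
          rw [llen, hl2] at g
          push_cast at g
          rw [add_assoc, add_assoc (s * _)] at g
          exact g
      · obtain ⟨t1, t2⟩ := sm_hi (N := u.length) (i := i) hi s (p + j + 2) (by omega) (by omega)
        obtain ⟨t3, t4⟩ := sm_hi (N := v'.length) (i := i') hi' s (r + j + 2) (by omega)
          (by omega)
        refine ⟨(s * ((u.length : ℤ) + 2) + (p + j + 2), false),
          (s * ((v'.length : ℤ) + 2) + (r + j + 2), true), t2, t4, ?_, ?_, ?_⟩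
        · simp only [ph, t1, Prod.mk.injEq, and_true]
          ring
        · simp only [ph, t3, Prod.mk.injEq, and_true]
          ring
        · have g := Relation.EqvGen.rel _ _ (Lg.glue (p := p) (r := r) (w' := w')
            (w := lins i u) s (j + 2) (by rw [llen]; omega))
          rw [llen, hl2] at g
          push_cast at g
          rw [show s * ((u.length : ℤ) + 2) + p + (j + 2) =
            s * ((u.length : ℤ) + 2) + (p + j + 2) by ring,
            show s * ((v'.length : ℤ) + 2) + r + (j + 2) =
            s * ((v'.length : ℤ) + 2) + (r + j + 2) by ring] at g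
          exact g
  | refl X => exact Or.inl rfl
  | symm X Y _ ih =>
    rcases ih with h | ⟨x, y, h1, h2, h3, h4, h5⟩
    · exact Or.inl h.symm
    · exact Or.inr ⟨y, x, h2, h1, h4, h3, hE.symm h5⟩
  | trans X Y Z _ _ ih1 ih2 =>
    rcases ih1 with h | ⟨x, y, h1, h2, h3, h4, h5⟩
    · rw [h]; exact ih2
    · rcases ih2 with k | ⟨y', z, k1, k2, k3, k4, k5⟩
      · rw [← k]; exact Or.inr ⟨x, y, h1, h2, h3, h4, h5⟩
      · exact Or.inr ⟨x, z, h1, k2, h3, k4,
          hE.trans h5 (hE.trans (H.same h2 k1 (h4.trans k3.symm)) k5)⟩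

/-- the two relations agree -/
theorem HH.cn_iff (H : HH p r i w' u v' i') {x y : ℤ × Bool}
    (hx : ¬ Is u.length i v'.length i' x) (hy : ¬ Is u.length i v'.length i' y) :
    Cn p r w' (lins i u) x y ↔
      Cn p r v' u (ph u.length i v'.length i' x) (ph u.length i v'.length i' y) := by
  have hE := Relation.EqvGen.is_equivalence (Lg p r w' (lins i u))
  constructor
  · exact H.fwd hx hy
  · intro h
    rcases H.bwd h with h | ⟨x', y', h1, h2, h3, h4, h5⟩
    · exact H.same hx hy h
    · exact hE.trans (H.same hx h1 h3.symm) (hE.trans h5 (H.same h2 hy h4))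

/-- the sector points -/
theorem HH.ptt (H : HH p r i w' u v' i') (s : ℤ) (c : ℕ) (hc : c < p + r) :
    ¬ Is u.length i v'.length i' (pt p r w' (lins i u) s c) ∧
      ph u.length i v'.length i' (pt p r w' (lins i u) s c) = pt p r v' u s c := by
  have hi := H.hi
  have hi' := H.hi'
  have hl2 := H.l2
  have hlv := H.lv
  have hii := H.ii
  have hpi := H.hp
  unfold Pool.Agent.H160R2.ML.pt
  split_ifs with h
  · obtain ⟨t1, t2⟩ := sm_lo (N := u.length) (i := i) hi s c (by omega) (by omega)
    have e : s * ((lins i u).length : ℤ) + c = s * ((u.length : ℤ) + 2) + c := by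
      rw [llen]; push_cast; ring
    rw [e]
    exact ⟨t2, by simp only [ph, t1]⟩
  · obtain ⟨t1, t2⟩ := sm_lo (N := v'.length) (i := i') hi' s (p + r - c) (by omega) (by omega)
    have e : s * (w'.length : ℤ) + ((p : ℤ) + r - c) =
        s * ((v'.length : ℤ) + 2) + ((p : ℤ) + r - c) := by
      rw [hl2]; push_cast; ring
    rw [e]
    exact ⟨t2, by simp only [ph, t1]⟩

theorem HH.good (H : HH p r i w' u v' i') : Good p r w' (lins i u) ↔ Good p r v' u := by
  unfold Good
  refine and_congr ?_ ?_
  · refine forall_congr' fun c => forall_congr' fun d => forall_congr' fun hc =>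
      forall_congr' fun hd => forall_congr' fun _ => not_congr ?_
    rw [H.cn_iff (H.ptt 0 c hc).1 (H.ptt 0 d hd).1, (H.ptt 0 c hc).2, (H.ptt 0 d hd).2]
  · refine forall_congr' fun c => forall_congr' fun hc => exists_congr fun s =>
      and_congr_right fun _ => exists_congr fun d => and_congr_right fun hd => ?_
    rw [H.cn_iff (H.ptt 0 c hc).1 (H.ptt s d hd).1, (H.ptt 0 c hc).2, (H.ptt s d hd).2]

end

end TinsR

open TinsR in
theorem t_insR : S_insR := by
  intro p r i w' u _ _ hw' _ _ hl hpi hi
  have h1 := length_cap (i := i - p + r) (w := w') (by omega)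
  have H : HH p r i w' u (cap (i - p + r) w') (i - p + r) :=
    { ok := hw'
      l2 := h1.symm
      lv := by omega
      hv := rfl
      ii := by omega
      hp := hpi
      hi := hi }
  unfold ee
  rw [H.good]

end Pool.Agent.H160R2.ML
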