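import Pool.Agent.H160R2.ML.Stm

/-!
# Task moveL: an arc across the seam between the last through strand and the first leg
(by helper804, for the project ML of helper160)
-/

set_option autoImplicit false

namespace Pool.Agent.H160R2.ML
open Pool.Agent.H863R2.Cyl
open Pool.Agent.H988R2.Perc (Word PD)
open H974 H906.Cyl

namespace TmoveL

theorem rw_nil (a b : ℤ) : Rw [] a b ↔ a = b := by
  have hI : Sem1Aux.Inc (sg []) (fun x => x) := by
    intro x
    simp [sg]
  rw [Sem1Aux.Rw_iff hI]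
  constructor
  · intro h
    exact h.1
  · rintro rfl
    exact Sem1Aux.RH.refl _ _

theorem rw_tf (a b : ℤ) : Rw [true, false] a b ↔ a = b ∨ (a % 2 = 0 ∧ b % 2 = 0) := by
  have hI : Sem1Aux.Inc (sg [true, false]) (fun x => x % 2) := by
    intro x
    unfold sg
    rcases Int.emod_two_eq_zero_or_one x with h | h
    · simp [h]
      omega
    · simp [h]
      omega
  rw [Sem1Aux.Rw_iff hI]
  constructor
  · rintro ⟨h1, h2⟩
    simp only at h1 h2
    by_cases hab : a = b
    · exact Or.inl hab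
    · right
      rcases Int.emod_two_eq_zero_or_one a with h | h
      · exact ⟨h, by omega⟩
      · exfalso
        rcases lt_or_gt_of_ne hab with h3 | h3
        · have := h2 (a + 1) (Or.inl ⟨by omega, by omega⟩)
          omega
        · have := h2 (a - 1) (Or.inr ⟨by omega, by omega⟩)
          omega
  · rintro (rfl | ⟨h1, h2⟩)
    · exact Sem1Aux.RH.refl _ _
    · refine ⟨by simp only; omega, fun l _ => ?_⟩
      simp only
      omega

theorem rw_lins0 (u : Word) (a b : ℤ) :
    Rw (lins 0 u) a b ↔ a = b ∨ (¬ Sem4Aux.iso u.length 0 a ∧ ¬ Sem4Aux.iso u.length 0 b ∧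
      Rw u (Sem4Aux.sm u.length 0 a) (Sem4Aux.sm u.length 0 b)) := by
  rcases Nat.eq_zero_or_pos u.length with h0 | h0
  · have hu : u = [] := List.eq_nil_of_length_eq_zero h0
    subst hu
    have e1 : lins 0 ([] : Word) = [true, false] := rfl
    have e2 : ∀ x : ℤ, ¬ Sem4Aux.iso ([] : Word).length 0 x ↔ x % 2 = 0 := by
      intro x
      unfold Sem4Aux.iso
      constructor
      · intro h
        by_contra h3
        apply h
        refine ⟨x / 2, ?_⟩
        simp
        omega
      · rintro h ⟨k, hk⟩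
        simp at hk
        omega
    have e3 : ∀ x : ℤ, x % 2 = 0 → Sem4Aux.sm ([] : Word).length 0 x = 0 := by
      intro x hx
      unfold Sem4Aux.sm Sem4Aux.ct
      simp
      omega
    rw [e1, rw_tf, e2, e2]
    constructor
    · rintro (h | ⟨h1, h2⟩)
      · exact Or.inl h
      · exact Or.inr ⟨h1, h2, by rw [e3 a h1, e3 b h2]; exact (Rw_equiv _).refl _⟩
    · rintro (h | ⟨h1, h2, -⟩)
      · exact Or.inl h
      · exact Or.inr ⟨h1, h2⟩
  · exact Sem4Aux.rw_lins (Nat.zero_le _) h0 a b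

/-- the map of the lower faces -/
def ff (L : ℕ) (j : ℤ) : ℤ := Sem4Aux.sm L 0 (j + 1)

/-- its section -/
def gi (L : ℕ) (x : ℤ) : ℤ := Sem4Aux.sec L 0 x - 1

theorem ff_eq (L : ℕ) (s j : ℤ) (h1 : 1 ≤ j) (h2 : j ≤ L + 1) :
    ff L (s * (L + 2) + j) = s * L + (j - 1) := by
  unfold ff Sem4Aux.sm
  rw [Sem4Aux.ct_eq (N := L) (i := 0) (q := s + 1) (r := j - 1) (by push_cast; ring) (by omega)
    (by omega)]
  ring

theorem iso_iff' (L : ℕ) (a : ℤ) : Sem4Aux.iso L 0 (a + 1) ↔ ((L : ℤ) + 2) ∣ a := by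
  unfold Sem4Aux.iso
  constructor
  · rintro ⟨k, hk⟩
    exact ⟨k, by push_cast at hk; linarith⟩
  · rintro ⟨k, hk⟩
    exact ⟨k, by push_cast; linarith⟩

theorem rw_seam (u : Word) (a b : ℤ) :
    Rw (seam u) a b ↔ a = b ∨ (¬ ((u.length : ℤ) + 2) ∣ a ∧ ¬ ((u.length : ℤ) + 2) ∣ b ∧
      Rw u (ff u.length a) (ff u.length b)) := by
  rw [← Rw_rotr (seam u) (by simp [seam]), rotr_seam, rw_lins0, iso_iff', iso_iff']
  unfold ff
  constructor
  · rintro (h | h)
    · exact Or.inl (by omega)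
    · exact Or.inr h
  · rintro (h | h)
    · exact Or.inl (by omega)
    · exact Or.inr h

theorem gi_spec {L : ℕ} (hL : 1 ≤ L) (x : ℤ) :
    ¬ ((L : ℤ) + 2) ∣ gi L x ∧ ff L (gi L x) = x := by
  obtain ⟨h1, h2⟩ := Sem4Aux.sec_spec (N := L) (i := 0) hL x
  unfold gi ff
  rw [← iso_iff', sub_add_cancel]
  exact ⟨h1, h2⟩

theorem gi_ff {L : ℕ} {j : ℤ} (hj : ¬ ((L : ℤ) + 2) ∣ j) :
    ¬ ((L : ℤ) + 2) ∣ gi L (ff L j) ∧ ff L (gi L (ff L j)) = ff L j := by
  rcases Nat.eq_zero_or_pos L with h0 | h0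
  · subst h0
    have e1 : ff 0 j = 0 := by
      unfold ff Sem4Aux.sm Sem4Aux.ct
      simp at hj ⊢
      omega
    rw [e1]
    have e2 : gi 0 0 = -1 := by
      unfold gi Sem4Aux.sec
      simp
    rw [e2]
    constructor
    · simp
    · unfold ff Sem4Aux.sm Sem4Aux.ct
      simp
  · exact gi_spec h0 _

theorem rw_ret (u : Word) {j : ℤ} (hj : ¬ ((u.length : ℤ) + 2) ∣ j) :
    Rw (seam u) j (gi u.length (ff u.length j)) := by
  obtain ⟨h1, h2⟩ := gi_ff hj
  rw [rw_seam]
  exact Or.inr ⟨hj, h1, by rw [h2]; exact (Rw_equiv _).refl _⟩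

theorem rw_gi (u : Word) {a b : ℤ} (h : Rw u a b) :
    Rw (seam u) (gi u.length a) (gi u.length b) := by
  rcases Nat.eq_zero_or_pos u.length with h0 | h0
  · have hu : u = [] := List.eq_nil_of_length_eq_zero h0
    subst hu
    rw [rw_nil] at h
    rw [h]
    exact (Rw_equiv _).refl _
  · obtain ⟨a1, a2⟩ := gi_spec h0 a
    obtain ⟨b1, b2⟩ := gi_spec h0 b
    rw [rw_seam]
    exact Or.inr ⟨a1, b1, by rw [a2, b2]; exact h⟩

open Classical in
/-- the map of the faces -/
noncomputable def phi (L W : ℕ) (x : ℤ × Bool) : ℤ × Bool :=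
  if x.2 = true then (x.1 + 1, true)
  else if ((L : ℤ) + 2) ∣ x.1 then (x.1 / (L + 2) * W + 1, true) else (ff L x.1, false)

/-- the map back -/
def psi (L : ℕ) (x : ℤ × Bool) : ℤ × Bool :=
  if x.2 = true then (x.1 - 1, true) else (gi L x.1, false)

theorem phi_true (L W : ℕ) (b : ℤ) : phi L W (b, true) = (b + 1, true) := by
  unfold phi; simp

theorem phi_dvd (L W : ℕ) (k : ℤ) : phi L W (k * ((L : ℤ) + 2), false) = (k * W + 1, true) := by
  unfold phi
  have h : (k * ((L : ℤ) + 2)) / ((L : ℤ) + 2) = k := Int.mul_ediv_cancel _ (by omega)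
  simp only [Bool.false_eq_true, if_false]
  rw [if_pos (Dvd.intro_left _ rfl), h]

theorem phi_not (L W : ℕ) {j : ℤ} (h : ¬ ((L : ℤ) + 2) ∣ j) :
    phi L W (j, false) = (ff L j, false) := by
  unfold phi
  simp only [Bool.false_eq_true, if_false]
  rw [if_neg h]

theorem not_dvd (L : ℕ) (s j : ℤ) (h1 : 1 ≤ j) (h2 : j ≤ L + 1) :
    ¬ ((L : ℤ) + 2) ∣ s * (L + 2) + j := by
  intro h
  have h3 : ((L : ℤ) + 2) ∣ j := (Int.dvd_add_right (Dvd.intro_left _ rfl)).1 h
  have := Int.le_of_dvd (by omega) h3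
  omega

theorem phi_in (L W : ℕ) (s j : ℤ) (h1 : 1 ≤ j) (h2 : j ≤ L + 1) :
    phi L W (s * (L + 2) + j, false) = (s * L + (j - 1), false) := by
  rw [phi_not L W (not_dvd L s j h1 h2), ff_eq L s j h1 h2]

variable {P r : ℕ} {w' u : Word}

theorem len_seam (u : Word) : (seam u).length = u.length + 2 := by simp [seam]

theorem len_rotr (w : Word) : (rotr w).length = w.length := by simp [rotr]

theorem fwd (hl : w'.length + (P + 1) = u.length + 2 + r) (hP : P ≤ u.length)
    (x y : ℤ × Bool) (h : Lg (P + 1) r w' (seam u) x y) :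
    Cn P (r + 1) (rotr w') u (phi u.length w'.length x) (phi u.length w'.length y) := by
  have hW : w' ≠ [] := by
    rintro rfl
    simp at hl
    omega
  cases h with
  | low a b h =>
    rw [rw_seam] at h
    rcases h with h | ⟨h1, h2, h3⟩
    · rw [h]; exact Relation.EqvGen.refl _
    · rw [phi_not _ _ h1, phi_not _ _ h2]
      exact Relation.EqvGen.rel _ _ (Lg.low _ _ h3)
  | upp a b h =>
    rw [phi_true, phi_true]
    exact Relation.EqvGen.rel _ _ (Lg.upp _ _ ((Rw_rotr w' hW a b).2 h))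
  | glue s i hi =>
    rw [len_seam] at hi ⊢
    rcases Nat.lt_or_ge (i + P) (u.length + 1) with h1 | h1
    · have e1 : s * ((u.length + 2 : ℕ) : ℤ) + ((P + 1 : ℕ) : ℤ) + (i : ℤ) =
          s * ((u.length : ℤ) + 2) + ((P : ℤ) + 1 + i) := by push_cast; ring
      rw [e1, phi_in _ _ _ _ (by omega) (by omega), phi_true]
      have g := Lg.glue (p := P) (r := r + 1) (w' := rotr w') (w := u) s i (by omega)
      rw [len_rotr] at g
      have e2 : s * (u.length : ℤ) + ((P : ℤ) + 1 + i - 1) = s * (u.length : ℤ) + P + i := by ring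
      have e3 : s * (w'.length : ℤ) + r + i + 1 = s * (w'.length : ℤ) + ((r + 1 : ℕ) : ℤ) + i := by
        push_cast; ring
      rw [e2, e3]
      exact Relation.EqvGen.rel _ _ g
    · have h2 : i + P = u.length + 1 := by omega
      have e1 : s * ((u.length + 2 : ℕ) : ℤ) + ((P + 1 : ℕ) : ℤ) + (i : ℤ) =
          (s + 1) * ((u.length : ℤ) + 2) := by
        have : (i : ℤ) + P = u.length + 1 := by exact_mod_cast h2
        push_cast
        linear_combination this
      have e2 : s * (w'.length : ℤ) + r + i + 1 = (s + 1) * w'.length + 1 := by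
        have h3 : (r : ℤ) + i = w'.length := by omega
        linear_combination h3
      rw [e1, phi_dvd, phi_true, e2]
      exact Relation.EqvGen.refl _

theorem bwd (hl : w'.length + (P + 1) = u.length + 2 + r) (hP : P ≤ u.length)
    (x y : ℤ × Bool) (h : Lg P (r + 1) (rotr w') u x y) :
    Cn (P + 1) r w' (seam u) (psi u.length x) (psi u.length y) := by
  have hW : w' ≠ [] := by
    rintro rfl
    simp at hl
    omega
  unfold psi
  cases h with
  | low a b h =>
    simp only [Bool.false_eq_true, if_false]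
    exact Relation.EqvGen.rel _ _ (Lg.low _ _ (rw_gi u h))
  | upp a b h =>
    simp only [if_true]
    have := (Rw_rotr w' hW (a - 1) (b - 1)).1 (by rwa [sub_add_cancel, sub_add_cancel])
    exact Relation.EqvGen.rel _ _ (Lg.upp _ _ this)
  | glue s i hi =>
    simp only [Bool.false_eq_true, if_false, if_true]
    rw [len_rotr]
    have g := Lg.glue (p := P + 1) (r := r) (w' := w') (w := seam u) s i (by
      rw [len_seam]; omega)
    rw [len_seam] at g
    have e1 : s * ((u.length + 2 : ℕ) : ℤ) + ((P + 1 : ℕ) : ℤ) + (i : ℤ) =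
        s * ((u.length : ℤ) + 2) + ((P : ℤ) + 1 + i) := by push_cast; ring
    rw [e1] at g
    have h1 := rw_ret u (not_dvd u.length s ((P : ℤ) + 1 + i) (by omega) (by omega))
    rw [ff_eq _ _ _ (by omega) (by omega)] at h1
    have e2 : s * (u.length : ℤ) + ((P : ℤ) + 1 + i - 1) = s * (u.length : ℤ) + P + i := by ring
    rw [e2] at h1
    have e3 : s * (w'.length : ℤ) + ((r + 1 : ℕ) : ℤ) + i - 1 = s * (w'.length : ℤ) + r + i := by
      push_cast; ring
    rw [e3]
    exact Relation.EqvGen.trans _ _ _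
      (Relation.EqvGen.symm _ _ (Relation.EqvGen.rel _ _ (Lg.low _ _ h1)))
      (Relation.EqvGen.rel _ _ g)

theorem ret (hl : w'.length + (P + 1) = u.length + 2 + r) (hP : P ≤ u.length)
    (x : ℤ × Bool) :
    Cn (P + 1) r w' (seam u) x (psi u.length (phi u.length w'.length x)) := by
  obtain ⟨j, c⟩ := x
  cases c with
  | true =>
    rw [phi_true]
    unfold psi
    simp only [if_true, add_sub_cancel_right]
    exact Relation.EqvGen.refl _
  | false =>
    by_cases hd : ((u.length : ℤ) + 2) ∣ j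
    · obtain ⟨k, rfl⟩ := hd
      rw [mul_comm, phi_dvd]
      unfold psi
      simp only [if_true, add_sub_cancel_right]
      have g := Lg.glue (p := P + 1) (r := r) (w' := w') (w := seam u) (k - 1)
        (u.length + 1 - P) (by rw [len_seam]; omega)
      rw [len_seam] at g
      have e0 : ((u.length + 1 - P : ℕ) : ℤ) = u.length + 1 - P := by omega
      have e1 : (k - 1) * ((u.length + 2 : ℕ) : ℤ) + ((P + 1 : ℕ) : ℤ) +
          ((u.length + 1 - P : ℕ) : ℤ) = k * ((u.length : ℤ) + 2) := by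
        rw [e0]; push_cast; ring
      have e2 : (k - 1) * (w'.length : ℤ) + r + ((u.length + 1 - P : ℕ) : ℤ) = k * w'.length := by
        rw [e0]
        have h3 : (w'.length : ℤ) + (P + 1) = u.length + 2 + r := by exact_mod_cast hl
        linear_combination -h3
      rw [e1, e2] at g
      exact Relation.EqvGen.rel _ _ g
    · rw [phi_not _ _ hd]
      unfold psi
      simp only [Bool.false_eq_true, if_false]
      exact Relation.EqvGen.rel _ _ (Lg.low _ _ (rw_ret u hd))

theorem eqv_map' {α β : Type*} {G : α → α → Prop} {G' : β → β → Prop} (f : α → β)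
    (h : ∀ x y, G x y → Relation.EqvGen G' (f x) (f y)) {x y : α}
    (hxy : Relation.EqvGen G x y) : Relation.EqvGen G' (f x) (f y) := by
  induction hxy with
  | rel x y hxy => exact h x y hxy
  | refl x => exact Relation.EqvGen.refl _
  | symm x y _ ih => exact Relation.EqvGen.symm _ _ ih
  | trans x y z _ _ ih1 ih2 => exact Relation.EqvGen.trans _ _ _ ih1 ih2

theorem Cn_iff (hl : w'.length + (P + 1) = u.length + 2 + r) (hP : P ≤ u.length)
    (x y : ℤ × Bool) : Cn (P + 1) r w' (seam u) x y ↔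
      Cn P (r + 1) (rotr w') u (phi u.length w'.length x) (phi u.length w'.length y) := by
  constructor
  · intro h
    exact eqv_map' _ (fwd hl hP) h
  · intro h
    have h1 := eqv_map' _ (bwd hl hP) h
    exact Relation.EqvGen.trans _ _ _ (ret hl hP x)
      (Relation.EqvGen.trans _ _ _ h1 (Relation.EqvGen.symm _ _ (ret hl hP y)))

/-- the new number of a sector -/
def rho (P r c : ℕ) : ℕ := if c = 0 then P + r else c - 1

theorem sect (hl : w'.length + (P + 1) = u.length + 2 + r) (hP : P ≤ u.length) (s : ℤ) (c : ℕ)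
    (hc : c < P + 1 + r) :
    Cn P (r + 1) (rotr w') u (phi u.length w'.length (pt (P + 1) r w' (seam u) s c))
      (pt P (r + 1) (rotr w') u s (rho P r c)) := by
  unfold pt rho
  rw [len_seam, len_rotr]
  rcases Nat.eq_zero_or_pos c with h0 | h0
  · subst h0
    simp only [Nat.zero_le, if_true]
    have e1 : s * ((u.length + 2 : ℕ) : ℤ) + ((0 : ℕ) : ℤ) = s * ((u.length : ℤ) + 2) := by
      push_cast; ring
    rw [e1, phi_dvd]
    rcases Nat.eq_zero_or_pos r with hr | hr
    · subst hr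
      simp only [add_zero, le_refl, if_true]
      have g := Lg.glue (p := P) (r := 0 + 1) (w' := rotr w') (w := u) s 0 (by omega)
      rw [len_rotr] at g
      have e2 : s * (u.length : ℤ) + (P : ℤ) + ((0 : ℕ) : ℤ) = s * (u.length : ℤ) + P := by
        push_cast; ring
      have e3 : s * (w'.length : ℤ) + ((0 + 1 : ℕ) : ℤ) + ((0 : ℕ) : ℤ) =
          s * (w'.length : ℤ) + 1 := by push_cast; ring
      rw [e2, e3] at g
      exact Relation.EqvGen.symm _ _ (Relation.EqvGen.rel _ _ g)
    · rw [if_neg (by omega)]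
      have e2 : s * (w'.length : ℤ) + ((P : ℤ) + ((r + 1 : ℕ) : ℤ) - ((P + r : ℕ) : ℤ)) =
          s * (w'.length : ℤ) + 1 := by push_cast; ring
      rw [e2]
      exact Relation.EqvGen.refl _
  · rw [if_neg (by omega : ¬ c = 0)]
    rcases Nat.lt_or_ge (P + 1) c with h1 | h1
    · rw [if_neg (by omega), if_neg (by omega), phi_true]
      have e2 : s * (w'.length : ℤ) + (((P + 1 : ℕ) : ℤ) + (r : ℤ) - (c : ℤ)) + 1 =
          s * (w'.length : ℤ) + ((P : ℤ) + ((r + 1 : ℕ) : ℤ) - ((c - 1 : ℕ) : ℤ)) := by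
        have : ((c - 1 : ℕ) : ℤ) = c - 1 := by omega
        rw [this]; push_cast; ring
      rw [e2]
      exact Relation.EqvGen.refl _
    · rw [if_pos h1, if_pos (by omega)]
      have e1 : s * ((u.length + 2 : ℕ) : ℤ) + (c : ℤ) = s * ((u.length : ℤ) + 2) + c := by
        push_cast; ring
      have e2 : ((c - 1 : ℕ) : ℤ) = (c : ℤ) - 1 := by omega
      rw [e1, phi_in _ _ _ _ (by omega) (by omega), e2]
      exact Relation.EqvGen.refl _

theorem Cn_pt (hl : w'.length + (P + 1) = u.length + 2 + r) (hP : P ≤ u.length) (s s' : ℤ)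
    (c d : ℕ) (hc : c < P + 1 + r) (hd : d < P + 1 + r) :
    Cn (P + 1) r w' (seam u) (pt (P + 1) r w' (seam u) s c) (pt (P + 1) r w' (seam u) s' d) ↔
      Cn P (r + 1) (rotr w') u (pt P (r + 1) (rotr w') u s (rho P r c))
        (pt P (r + 1) (rotr w') u s' (rho P r d)) := by
  rw [Cn_iff hl hP]
  have h1 := sect (w' := w') (u := u) hl hP s c hc
  have h2 := sect (w' := w') (u := u) hl hP s' d hd
  constructor
  · intro h
    exact Relation.EqvGen.trans _ _ _ (Relation.EqvGen.symm _ _ h1)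
      (Relation.EqvGen.trans _ _ _ h h2)
  · intro h
    exact Relation.EqvGen.trans _ _ _ h1
      (Relation.EqvGen.trans _ _ _ h (Relation.EqvGen.symm _ _ h2))

theorem rho_lt {c : ℕ} (hc : c < P + 1 + r) : rho P r c < P + (r + 1) := by
  unfold rho
  split_ifs <;> omega

theorem rho_surj {c : ℕ} (hc : c < P + (r + 1)) : ∃ c' < P + 1 + r, rho P r c' = c := by
  rcases eq_or_ne c (P + r) with h | h
  · exact ⟨0, by omega, by unfold rho; simp [h]⟩
  · exact ⟨c + 1, by omega, by unfold rho; simp⟩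

theorem rho_inj {c d : ℕ} (hc : c < P + 1 + r) (hd : d < P + 1 + r)
    (h : rho P r c = rho P r d) : c = d := by
  unfold rho at h
  split_ifs at h <;> omega

theorem Good_iff (hl : w'.length + (P + 1) = u.length + 2 + r) (hP : P ≤ u.length) :
    Good (P + 1) r w' (seam u) ↔ Good P (r + 1) (rotr w') u := by
  constructor
  · rintro ⟨h1, h2⟩
    refine ⟨fun c d hc hd hcd => ?_, fun c hc => ?_⟩
    · obtain ⟨c', hc', rfl⟩ := rho_surj hc
      obtain ⟨d', hd', rfl⟩ := rho_surj hd
      rw [← Cn_pt hl hP 0 0 c' d' hc' hd']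
      exact h1 c' d' hc' hd' (fun h => hcd (by rw [h]))
    · obtain ⟨c', hc', rfl⟩ := rho_surj hc
      obtain ⟨s, hs, d, hd, h⟩ := h2 c' hc'
      exact ⟨s, hs, rho P r d, rho_lt hd, (Cn_pt hl hP 0 s c' d hc' hd).1 h⟩
  · rintro ⟨h1, h2⟩
    refine ⟨fun c d hc hd hcd => ?_, fun c hc => ?_⟩
    · rw [Cn_pt hl hP 0 0 c d hc hd]
      exact h1 _ _ (rho_lt hc) (rho_lt hd) (fun h => hcd (rho_inj hc hd h))
    · obtain ⟨s, hs, d, hd, h⟩ := h2 _ (rho_lt hc)
      obtain ⟨d', hd', rfl⟩ := rho_surj hd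
      exact ⟨s, hs, d', hd', (Cn_pt hl hP 0 s c d' hc hd').2 h⟩

end TmoveL

theorem t_moveL : S_moveL := by
  intro p r w' u _ _ _ _ hl hp hp'
  obtain ⟨P, rfl⟩ : ∃ P, p = P + 1 := ⟨p - 1, by omega⟩
  have h := TmoveL.Good_iff (P := P) (r := r) (w' := w') (u := u) hl (by omega)
  rw [Nat.add_sub_cancel]
  unfold ee
  by_cases hg : Good P (r + 1) (rotr w') u
  · rw [if_pos hg, if_pos (h.2 hg)]
  · rw [if_neg hg, if_neg (fun h' => hg (h.1 h'))]

end Pool.Agent.H160R2.ML
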