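import Pool.Agent.H160R2.ML.Stm

/-!
# Project ML, task moveR: arc between the last leg and the first through strand
-/

set_option autoImplicit false

namespace Pool.Agent.H160R2.ML
open Pool.Agent.H863R2.Cyl
open Pool.Agent.H988R2.Perc (Word PD)
open Pool.Agent.H863R2.Cyl.Sem4Aux

namespace TmoveR

theorem rw_nil (a b : ℤ) : Rw (lins 0 []) a b ↔ a = b ∨ (a % 2 = 0 ∧ b % 2 = 0) := by
  have hinc : Sem1Aux.Inc (sg (lins 0 [])) (fun a => a % 2) := by
    intro x
    have e : (lins 0 []) = [true, false] := rfl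
    rw [e]
    unfold sg
    have h2 : (([true, false] : Word).length : ℤ) = 2 := rfl
    rw [h2]
    rcases Int.emod_two_eq_zero_or_one x with h | h
    · rw [h]
      simp
      omega
    · rw [h]
      simp
      omega
  rw [Sem1Aux.Rw_iff hinc]
  constructor
  · rintro ⟨h1, h2⟩
    simp only at h1 h2
    by_cases hab : a = b
    · exact Or.inl hab
    · right
      rcases Int.emod_two_eq_zero_or_one a with h | h
      · exact ⟨h, by omega⟩
      · exfalso
        rcases lt_or_gt_of_ne hab with h3 | h3
        · have := h2 (a + 1) (by omega)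
          omega
        · have := h2 (a - 1) (by omega)
          omega
  · rintro (h | ⟨h1, h2⟩)
    · subst h
      exact Sem1Aux.RH.refl _ _
    · refine ⟨by simp only; omega, fun l _ => ?_⟩
      simp only
      omega

theorem rw_lins' {u : Word} {i : ℕ} (hi : i ≤ u.length) (a b : ℤ) :
    Rw (lins i u) a b ↔ a = b ∨ (¬ iso u.length i a ∧ ¬ iso u.length i b ∧
      Rw u (sm u.length i a) (sm u.length i b)) := by
  rcases Nat.eq_zero_or_pos u.length with h0 | h0
  · have hu : u = [] := List.length_eq_zero_iff.mp h0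
    subst hu
    have hi0 : i = 0 := by simpa using hi
    subst hi0
    rw [rw_nil]
    have hiso : ∀ a : ℤ, ¬ iso ([] : Word).length 0 a ↔ a % 2 = 0 := by
      intro a
      unfold iso
      simp only [List.length_nil, Nat.cast_zero, zero_add]
      constructor
      · intro h
        by_contra h2
        apply h
        exact ⟨(a - 1) / 2, by omega⟩
      · rintro h ⟨k, hk⟩
        omega
    have hsm : ∀ a : ℤ, a % 2 = 0 → sm ([] : Word).length 0 a = 0 := by
      intro a ha
      unfold sm ct
      simp only [List.length_nil, Nat.cast_zero, sub_zero, add_zero, zero_add]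
      omega
    constructor
    · rintro (h | ⟨h1, h2⟩)
      · exact Or.inl h
      · right
        refine ⟨(hiso a).mpr h1, (hiso b).mpr h2, ?_⟩
        rw [hsm a h1, hsm b h2]
        exact (Rw_equiv _).refl _
    · rintro (h | ⟨h1, h2, -⟩)
      · exact Or.inl h
      · exact Or.inr ⟨(hiso a).mp h1, (hiso b).mp h2⟩
  · exact rw_lins hi h0 a b

open Classical in
/-- the collapsing map -/
noncomputable def ph (N i r Lu : ℕ) (x : ℤ × Bool) : ℤ × Bool :=
  if x.2 = true then x else if iso N i x.1 then (ct N i x.1 * Lu + r, true) else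
    (sm N i x.1, false)

theorem ph_true (N i r Lu : ℕ) (b : ℤ) : ph N i r Lu (b, true) = (b, true) := by
  simp [ph]

theorem ph_iso {N i r Lu : ℕ} {a : ℤ} (h : iso N i a) :
    ph N i r Lu (a, false) = (ct N i a * Lu + r, true) := by
  simp [ph, h]

theorem ph_non {N i r Lu : ℕ} {a : ℤ} (h : ¬ iso N i a) :
    ph N i r Lu (a, false) = (sm N i a, false) := by
  simp [ph, h]

section main

variable {i r : ℕ} {w' u : Word}

theorem len_lins (i : ℕ) (u : Word) : (lins i u).length = u.length + 2 := by
  rw [lins, Pool.Agent.H988R2.Perc.length_ins]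

theorem fwd (hi : i ≤ u.length) {x y : ℤ × Bool}
    (h : Cn (i + 1) r w' (lins i u) x y) :
    Cn i (r + 1) w' u (ph u.length i r w'.length x) (ph u.length i r w'.length y) := by
  unfold Cn at h ⊢
  induction h with
  | rel x y h =>
    rcases h with ⟨a, b, hab⟩ | ⟨a, b, hab⟩ | ⟨s, j, hj⟩
    · rw [rw_lins' hi] at hab
      rcases hab with rfl | ⟨h1, h2, h3⟩
      · exact Relation.EqvGen.refl _
      · rw [ph_non h1, ph_non h2]
        exact Relation.EqvGen.rel _ _ (Lg.low _ _ h3)
    · rw [ph_true, ph_true]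
      exact Relation.EqvGen.rel _ _ (Lg.upp _ _ hab)
    · rw [len_lins] at hj ⊢
      rw [ph_true]
      rcases Nat.eq_zero_or_pos j with h0 | h0
      · subst h0
        have e1 : s * ((u.length + 2 : ℕ) : ℤ) + ((i + 1 : ℕ) : ℤ) + ((0 : ℕ) : ℤ) =
            ((u.length : ℤ) + 2) * s + ((u.length : ℤ) + 1) - ((u.length : ℤ) - i) := by
          push_cast; ring
        have h1 : iso u.length i
            (s * ((u.length + 2 : ℕ) : ℤ) + ((i + 1 : ℕ) : ℤ) + ((0 : ℕ) : ℤ)) :=
          (iso_iff e1 (by omega) (by omega)).mpr rfl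
        rw [ph_iso h1, ct_eq e1 (by omega) (by omega)]
        have e2 : s * (w'.length : ℤ) + r + ((0 : ℕ) : ℤ) = s * (w'.length : ℤ) + r := by
          push_cast; ring
        rw [e2]
        exact Relation.EqvGen.refl _
      · obtain ⟨k, rfl⟩ : ∃ k, j = k + 1 := ⟨j - 1, by omega⟩
        have e1 : s * ((u.length + 2 : ℕ) : ℤ) + ((i + 1 : ℕ) : ℤ) + ((k + 1 : ℕ) : ℤ) =
            ((u.length : ℤ) + 2) * (s + 1) + (k : ℤ) - ((u.length : ℤ) - i) := by
          push_cast; ring
        have h1 : ¬ iso u.length i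
            (s * ((u.length + 2 : ℕ) : ℤ) + ((i + 1 : ℕ) : ℤ) + ((k + 1 : ℕ) : ℤ)) := by
          rw [iso_iff e1 (by omega) (by omega)]
          omega
        rw [ph_non h1]
        have e3 : sm u.length i
            (s * ((u.length + 2 : ℕ) : ℤ) + ((i + 1 : ℕ) : ℤ) + ((k + 1 : ℕ) : ℤ)) =
            s * (u.length : ℤ) + (i : ℤ) + (k : ℤ) := by
          unfold sm
          rw [ct_eq e1 (by omega) (by omega)]
          push_cast; ring
        rw [e3]
        have h4 := Lg.glue (p := i) (r := r + 1) (w' := w') (w := u) s k (by omega)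
        have e4 : s * (w'.length : ℤ) + ((r + 1 : ℕ) : ℤ) + (k : ℤ) =
            s * (w'.length : ℤ) + r + ((k + 1 : ℕ) : ℤ) := by push_cast; ring
        rw [e4] at h4
        exact Relation.EqvGen.rel _ _ h4
  | refl x => exact Relation.EqvGen.refl _
  | symm x y _ ih => exact Relation.EqvGen.symm _ _ ih
  | trans x y z _ _ ih1 ih2 => exact Relation.EqvGen.trans _ _ _ ih1 ih2

theorem iso_glue (hi : i ≤ u.length) {a : ℤ} (h : iso u.length i a) :
    Cn (i + 1) r w' (lins i u) (a, false) (ct u.length i a * w'.length + r, true) := by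
  obtain ⟨k, hk⟩ := h
  have e1 : a = ((u.length : ℤ) + 2) * k + ((u.length : ℤ) + 1) - ((u.length : ℤ) - i) := by
    rw [hk]; ring
  rw [ct_eq e1 (by omega) (by omega)]
  have h4 := Lg.glue (p := i + 1) (r := r) (w' := w') (w := lins i u) k 0
    (by rw [len_lins]; omega)
  rw [len_lins] at h4
  have e2 : k * ((u.length + 2 : ℕ) : ℤ) + ((i + 1 : ℕ) : ℤ) + ((0 : ℕ) : ℤ) = a := by
    rw [hk]; push_cast; ring
  have e3 : k * (w'.length : ℤ) + r + ((0 : ℕ) : ℤ) = k * (w'.length : ℤ) + r := by
    push_cast; ring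
  rw [e2, e3] at h4
  exact Relation.EqvGen.rel _ _ h4

theorem fibre (hi : i ≤ u.length) {x y : ℤ × Bool}
    (h : ph u.length i r w'.length x = ph u.length i r w'.length y) :
    Cn (i + 1) r w' (lins i u) x y := by
  obtain ⟨a, α⟩ := x
  obtain ⟨b, β⟩ := y
  have hE := Relation.EqvGen.is_equivalence (Lg (i + 1) r w' (lins i u))
  cases α <;> cases β
  · by_cases ha : iso u.length i a <;> by_cases hb : iso u.length i b
    · rw [ph_iso ha, ph_iso hb] at h
      have h1 := iso_glue (r := r) (w' := w') hi ha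
      have h2 := iso_glue (r := r) (w' := w') hi hb
      rw [← h] at h2
      exact hE.trans h1 (hE.symm h2)
    · rw [ph_iso ha, ph_non hb] at h
      simp at h
    · rw [ph_non ha, ph_iso hb] at h
      simp at h
    · rw [ph_non ha, ph_non hb] at h
      have h1 : sm u.length i a = sm u.length i b := congrArg Prod.fst h
      refine Relation.EqvGen.rel _ _ (Lg.low _ _ ?_)
      rw [rw_lins' hi]
      right
      refine ⟨ha, hb, ?_⟩
      rw [h1]
      exact (Rw_equiv _).refl _
  · by_cases ha : iso u.length i a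
    · rw [ph_iso ha, ph_true] at h
      have h1 := iso_glue (r := r) (w' := w') hi ha
      rw [h] at h1
      exact h1
    · rw [ph_non ha, ph_true] at h
      simp at h
  · by_cases hb : iso u.length i b
    · rw [ph_iso hb, ph_true] at h
      have h1 := iso_glue (r := r) (w' := w') hi hb
      rw [← h] at h1
      exact hE.symm h1
    · rw [ph_non hb, ph_true] at h
      simp at h
  · rw [ph_true, ph_true] at h
    rw [h]
    exact Relation.EqvGen.refl _

theorem bwd_aux (hi : i ≤ u.length) {X Y : ℤ × Bool} (h : Cn i (r + 1) w' u X Y) :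
    X = Y ∨ ∃ x y, ph u.length i r w'.length x = X ∧ ph u.length i r w'.length y = Y ∧
      Cn (i + 1) r w' (lins i u) x y := by
  have hE := Relation.EqvGen.is_equivalence (Lg (i + 1) r w' (lins i u))
  unfold Cn at h
  induction h with
  | rel X Y h =>
    rcases h with ⟨a, b, hab⟩ | ⟨a, b, hab⟩ | ⟨s, j, hj⟩
    · rcases Nat.eq_zero_or_pos u.length with h0 | h0
      · left
        have hu : u = [] := List.length_eq_zero_iff.mp h0
        subst hu
        have hinc : Sem1Aux.Inc (sg ([] : Word)) (fun a => a) := by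
          intro x
          unfold sg
          simp
        rw [Sem1Aux.Rw_iff hinc] at hab
        have := hab.1
        simp only at this
        rw [this]
      · right
        obtain ⟨t1, t2⟩ := sec_spec (i := i) h0 a
        obtain ⟨t3, t4⟩ := sec_spec (i := i) h0 b
        refine ⟨(sec u.length i a, false), (sec u.length i b, false), ?_, ?_, ?_⟩
        · rw [ph_non t1, t2]
        · rw [ph_non t3, t4]
        · refine Relation.EqvGen.rel _ _ (Lg.low _ _ ?_)
          rw [rw_lins' hi]
          right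
          refine ⟨t1, t3, ?_⟩
          rw [t2, t4]
          exact hab
    · right
      exact ⟨(a, true), (b, true), ph_true _ _ _ _ _, ph_true _ _ _ _ _,
        Relation.EqvGen.rel _ _ (Lg.upp _ _ hab)⟩
    · right
      have h4 := Lg.glue (p := i + 1) (r := r) (w' := w') (w := lins i u) s (j + 1)
        (by rw [len_lins]; omega)
      rw [len_lins] at h4
      refine ⟨_, _, ?_, ?_, Relation.EqvGen.rel _ _ h4⟩
      · have e1 : s * ((u.length + 2 : ℕ) : ℤ) + ((i + 1 : ℕ) : ℤ) + ((j + 1 : ℕ) : ℤ) =
            ((u.length : ℤ) + 2) * (s + 1) + (j : ℤ) - ((u.length : ℤ) - i) := by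
          push_cast; ring
        have h1 : ¬ iso u.length i
            (s * ((u.length + 2 : ℕ) : ℤ) + ((i + 1 : ℕ) : ℤ) + ((j + 1 : ℕ) : ℤ)) := by
          rw [iso_iff e1 (by omega) (by omega)]
          omega
        rw [ph_non h1]
        congr 1
        unfold sm
        rw [ct_eq e1 (by omega) (by omega)]
        push_cast; ring
      · rw [ph_true]
        congr 1
        push_cast; ring
  | refl X => exact Or.inl rfl
  | symm X Y _ ih =>
    rcases ih with h | ⟨x, y, h1, h2, h3⟩
    · exact Or.inl h.symm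
    · exact Or.inr ⟨y, x, h2, h1, hE.symm h3⟩
  | trans X Y Z _ _ ih1 ih2 =>
    rcases ih1 with h | ⟨x, y, h1, h2, h3⟩
    · subst h
      exact ih2
    · rcases ih2 with h | ⟨y', z, k1, k2, k3⟩
      · subst h
        exact Or.inr ⟨x, y, h1, h2, h3⟩
      · exact Or.inr ⟨x, z, h1, k2, hE.trans h3 (hE.trans (fibre hi (h2.trans k1.symm)) k3)⟩

theorem cn_iff (hi : i ≤ u.length) (x y : ℤ × Bool) :
    Cn (i + 1) r w' (lins i u) x y ↔
      Cn i (r + 1) w' u (ph u.length i r w'.length x) (ph u.length i r w'.length y) := by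
  have hE := Relation.EqvGen.is_equivalence (Lg (i + 1) r w' (lins i u))
  constructor
  · exact fwd hi
  · intro h
    rcases bwd_aux hi h with h | ⟨x', y', h1, h2, h3⟩
    · exact fibre hi h
    · exact hE.trans (fibre hi h1.symm) (hE.trans h3 (fibre hi h2))

theorem pt_eq (hi : i ≤ u.length) (s : ℤ) (c : ℕ) :
    ph u.length i r w'.length (pt (i + 1) r w' (lins i u) s c) = pt i (r + 1) w' u s c := by
  unfold pt
  rw [len_lins]
  rcases lt_trichotomy c (i + 1) with h | h | h
  · rw [if_pos (by omega), if_pos (by omega)]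
    have e1 : s * ((u.length + 2 : ℕ) : ℤ) + (c : ℤ) =
        ((u.length : ℤ) + 2) * s + ((c : ℤ) + ((u.length : ℤ) - i)) - ((u.length : ℤ) - i) := by
      push_cast; ring
    have h1 : ¬ iso u.length i (s * ((u.length + 2 : ℕ) : ℤ) + (c : ℤ)) := by
      rw [iso_iff e1 (by omega) (by omega)]
      omega
    rw [ph_non h1]
    congr 1
    unfold sm
    rw [ct_eq e1 (by omega) (by omega)]
    push_cast; ring
  · subst h
    rw [if_pos le_rfl, if_neg (by omega)]
    have e1 : s * ((u.length + 2 : ℕ) : ℤ) + ((i + 1 : ℕ) : ℤ) =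
        ((u.length : ℤ) + 2) * s + ((u.length : ℤ) + 1) - ((u.length : ℤ) - i) := by
      push_cast; ring
    have h1 : iso u.length i (s * ((u.length + 2 : ℕ) : ℤ) + ((i + 1 : ℕ) : ℤ)) :=
      (iso_iff e1 (by omega) (by omega)).mpr rfl
    rw [ph_iso h1, ct_eq e1 (by omega) (by omega)]
    congr 1
    push_cast; ring
  · rw [if_neg (by omega), if_neg (by omega), ph_true]
    congr 1
    push_cast; ring

theorem good_iff (hi : i ≤ u.length) :
    Good (i + 1) r w' (lins i u) ↔ Good i (r + 1) w' u := by
  unfold Good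
  have e : i + 1 + r = i + (r + 1) := by omega
  rw [e]
  have key : ∀ (s t : ℤ) (c d : ℕ),
      Cn (i + 1) r w' (lins i u) (pt (i + 1) r w' (lins i u) s c)
        (pt (i + 1) r w' (lins i u) t d) ↔
      Cn i (r + 1) w' u (pt i (r + 1) w' u s c) (pt i (r + 1) w' u t d) := by
    intro s t c d
    rw [cn_iff hi, pt_eq hi, pt_eq hi]
  simp only [key]

end main

end TmoveR

/-- arc between the last leg and the first through strand -/
theorem t_moveR : S_moveR := by
  intro p r w' u _ _ _ _ _ hp hp2
  obtain ⟨i, rfl⟩ : ∃ i, p = i + 1 := ⟨p - 1, by omega⟩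
  have hi : i ≤ u.length := by omega
  have h := TmoveR.good_iff (r := r) (w' := w') hi
  unfold ee
  rw [Nat.add_sub_cancel]
  by_cases hg : Good (i + 1) r w' (lins i u)
  · rw [if_pos hg, if_pos (h.mp hg)]
  · rw [if_neg hg, if_neg (fun hh => hg (h.mpr hh))]

end Pool.Agent.H160R2.ML
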