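import Pool.Agent.H160R2.ML.Stm
import Pool.Agent.H863R2.Cyl.Braid

/-! Task mvL: moving a leg across the seam. -/

set_option autoImplicit false

namespace Pool.Agent.H160R2.ML
open Pool.Agent.H863R2.Cyl
open Pool.Agent.H988R2.Perc (Word PD)
open H974 H906.Cyl

namespace TmvL

theorem lc_congr {f g : Word → ℂ} {v : VW} {N : ℕ} (hv : v ∈ VN N)
    (h : ∀ w : Word, w.length = N → Ok w → f w = g w) :
    Finsupp.linearCombination ℂ f v = Finsupp.linearCombination ℂ g v := by
  rw [Finsupp.linearCombination_apply, Finsupp.linearCombination_apply]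
  refine Finsupp.sum_congr fun w hw => ?_
  have := (Finsupp.mem_supported ℂ v).1 hv hw
  rw [h w this.1 this.2]

/-- moving maps of words from one side to the other one -/
theorem prE_move (e : ℕ → ℕ → Word → Word → ℂ) (p r p₂ r₂ : ℕ) (f g : Word → Word) {x v : VW}
    {N' N : ℕ} (hx : x ∈ VN N') (hv : v ∈ VN N)
    (h : ∀ w' u : Word, w'.length = N' → Ok w' → u.length = N → Ok u →
      e p r w' (f u) = e p₂ r₂ (g w') u) :
    prE e p r x (lin f v) = prE e p₂ r₂ (lin g x) v := by
  unfold prE lin
  rw [Finsupp.lmapDomain_apply, Finsupp.lmapDomain_apply, Finsupp.linearCombination_mapDomain,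
    Finsupp.linearCombination_apply, Finsupp.linearCombination_apply, Finsupp.sum, Finsupp.sum,
    LinearMap.sum_apply, LinearMap.sum_apply]
  refine Finset.sum_congr rfl fun w' hw' => ?_
  rw [LinearMap.smul_apply, LinearMap.smul_apply, Finsupp.linearCombination_mapDomain]
  have hw := (Finsupp.mem_supported ℂ x).1 hx hw'
  congr 1
  exact lc_congr hv fun u hu hok => h w' u hw.1 hw.2 hu hok

end TmvL

open TmvL in
theorem t_mvL : S_mvL := by
  intro q l e Ψ Ψ' hD A B z y hl hev
  have h1 : Ψ ((q * y) :: A ++ (z ++ [y])) = fac q y (A ++ z) • lin seam (Ψ (A ++ z)) := by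
    have e1 : (q * y) :: A ++ (z ++ [y]) = (q * y) :: (A ++ z ++ [y]) := by simp
    have e2 : A ++ z ++ [y] ++ [q * y] = (A ++ z) ++ y :: (q * y) :: [] := by simp
    rw [e1, hD.h.rot, e2, hD.h.recu (A ++ z) [] y, List.append_nil, map_smul,
      BLAux.rotr_lin_lins (hD.h.mem (A ++ z))]
  have h2 : lin rotr (Ψ' (B ++ (z ++ [y]))) = Ψ' (y :: B ++ z) := by
    have e1 : B ++ (z ++ [y]) = (B ++ z) ++ [y] := by simp
    have e2 : y :: B ++ z = y :: (B ++ z) := by simp
    rw [e1, e2, hD.h'.rot]
  unfold GG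
  rw [h1, map_smul, smul_eq_mul, ← h2]
  congr 1
  have hx := hD.h'.mem (B ++ (z ++ [y]))
  have hv := hD.h.mem (A ++ z)
  refine prE_move e _ _ _ _ seam rotr hx hv fun w' u hw' hok' hu hok => ?_
  have hlen : w'.length = B.length + (z.length + 1) := by
    rw [hw']
    simp
  have hulen : u.length = A.length + z.length := by
    rw [hu]
    simp
  have h3 := hD.he.moveL (A.length + 1) B.length w' u (by omega) hok' hok (by rw [hulen]; exact hev)
    (by omega) (by omega) (by omega)
  rw [List.length_cons, List.length_cons, h3, Nat.add_sub_cancel]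

end Pool.Agent.H160R2.ML
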