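import Pool.Agent.H160R2.ML.Stm

/-!
# Many legs: moving a leg to the other side (right)
-/

set_option autoImplicit false

namespace Pool.Agent.H160R2.ML
open Pool.Agent.H863R2.Cyl
open Pool.Agent.H988R2.Perc (Word PD)
open H974 H906.Cyl

namespace TmvR

theorem prE_lin (e : ℕ → ℕ → Word → Word → ℂ) (p r p' r' : ℕ) (f : Word → Word) (a b : VW)
    (h : ∀ w' ∈ a.support, ∀ w ∈ b.support, e p r w' (f w) = e p' r' w' w) :
    prE e p r a (lin f b) = prE e p' r' a b := by
  unfold prE
  rw [Finsupp.linearCombination_apply, Finsupp.linearCombination_apply, Finsupp.sum, Finsupp.sum,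
    LinearMap.sum_apply, LinearMap.sum_apply]
  refine Finset.sum_congr rfl fun w' hw' => ?_
  rw [LinearMap.smul_apply, LinearMap.smul_apply]
  congr 1
  unfold lin
  rw [Finsupp.lmapDomain_apply, Finsupp.linearCombination_mapDomain,
    Finsupp.linearCombination_apply, Finsupp.linearCombination_apply, Finsupp.sum, Finsupp.sum]
  refine Finset.sum_congr rfl fun w hw => ?_
  rw [Function.comp_apply, h w' hw' w hw]

theorem mem_VN {N : ℕ} {a : VW} (ha : a ∈ VN N) {w : Word} (hw : w ∈ a.support) :
    w.length = N ∧ Ok w := by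
  have h := (Finsupp.mem_supported ℂ a).1 ha
  exact h hw

end TmvR

theorem t_mvR : S_mvR := by
  intro q l e Ψ Ψ' hD A B z x hl hev
  have h1 : (A ++ [x]) ++ (q * x) :: z = A ++ x :: (q * x) :: z := by simp
  have h2 : (B ++ [q * x]) ++ z = B ++ (q * x) :: z := by simp
  unfold GG
  rw [h1, h2, hD.h.recu A z x, map_smul, smul_eq_mul]
  congr 1
  rw [List.length_append, List.length_append, List.length_singleton, List.length_singleton]
  apply TmvR.prE_lin
  intro w' hw' w hw
  obtain ⟨h3, h4⟩ := TmvR.mem_VN (hD.h'.mem _) hw'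
  obtain ⟨h5, h6⟩ := TmvR.mem_VN (hD.h.mem _) hw
  rw [List.length_append] at h5
  simp only [List.length_append, List.length_cons] at h3
  have h7 := hD.he.moveR (A.length + 1) B.length w' w hl h4 h6 (by rw [h5]; exact hev)
    (by omega) (by omega) (by omega)
  rwa [Nat.add_sub_cancel] at h7

end Pool.Agent.H160R2.ML
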