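import Pool.Agent.H160R2.ML.Stm

/-! Task swap: the symmetry of the partition function with legs. -/

set_option autoImplicit false

namespace Pool.Agent.H160R2.ML
open Pool.Agent.H863R2.Cyl
open Pool.Agent.H988R2.Perc (Word PD)
open H974 H906.Cyl
open Filter Topology

namespace Tswap

theorem prE_apply (e : ℕ → ℕ → Word → Word → ℂ) (p r : ℕ) (v' v : VW) :
    prE e p r v' v = ∑ w' ∈ v'.support, ∑ w ∈ v.support, v' w' * (v w * e p r w' w) := by
  unfold prE
  rw [Finsupp.linearCombination_apply, Finsupp.sum, LinearMap.sum_apply]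
  refine Finset.sum_congr rfl fun w' _ => ?_
  rw [LinearMap.smul_apply, Finsupp.linearCombination_apply, Finsupp.sum, smul_eq_mul,
    Finset.mul_sum]
  rfl

theorem len_of_mem {v : VW} {N : ℕ} (hv : v ∈ VN N) {w : Word} (hw : w ∈ v.support) :
    w.length = N := by
  have h := (Finsupp.mem_supported ℂ v).1 hv
  exact (h hw).1

end Tswap

theorem t_swap : S_swap := by
  intro q l e Ψ Ψ' hD A B z hl
  unfold GG
  rw [Tswap.prE_apply, Tswap.prE_apply, Finset.sum_comm]
  refine Finset.sum_congr rfl fun w hw => Finset.sum_congr rfl fun w' hw' => ?_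
  have h1 : w.length = A.length + z.length := by
    rw [Tswap.len_of_mem (hD.h.mem (A ++ z)) hw, List.length_append]
  have h2 : w'.length = B.length + z.length := by
    rw [Tswap.len_of_mem (hD.h'.mem (B ++ z)) hw', List.length_append]
  rw [hD.he.symm A.length B.length w' w hl (by omega) (by omega)]
  ring

end Pool.Agent.H160R2.ML
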