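import Pool.Agent.H160R2.ML.Stm

/-!
# Many legs, task symm (helper131): symmetry below/above of the relation `Good`
-/

set_option autoImplicit false

namespace Pool.Agent.H160R2.ML
open Pool.Agent.H863R2.Cyl
open Pool.Agent.H988R2.Perc (Word PD)
open H974 H906.Cyl

namespace Tsymm

/-- exchange of above and below -/
def fl (x : ℤ × Bool) : ℤ × Bool := (x.1, !x.2)

theorem fl_fl (x : ℤ × Bool) : fl (fl x) = x := by
  rcases x with ⟨a, b⟩
  simp [fl]

theorem cn_fl {p r : ℕ} {w' w : Word} (h : w'.length + p = w.length + r) {x y : ℤ × Bool}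
    (hc : Cn p r w' w x y) : Cn r p w w' (fl x) (fl y) := by
  induction hc with
  | rel x y hxy =>
    cases hxy with
    | low a b hab => exact Relation.EqvGen.rel _ _ (Lg.upp a b hab)
    | upp a b hab => exact Relation.EqvGen.rel _ _ (Lg.low a b hab)
    | glue s i hi =>
      exact Relation.EqvGen.symm _ _ (Relation.EqvGen.rel _ _ (Lg.glue s i (by omega)))
  | refl x => exact Relation.EqvGen.refl _
  | symm x y _ ih => exact Relation.EqvGen.symm _ _ ih
  | trans x y z _ _ ih1 ih2 => exact Relation.EqvGen.trans _ _ _ ih1 ih2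

/-- the sector as seen from the other side -/
def sc (l c : ℕ) : ℕ := if c = 0 then 0 else l - c

theorem sc_lt {l c : ℕ} (h : c < l) : sc l c < l := by
  unfold sc; split_ifs <;> omega

theorem sc_sc {l c : ℕ} (h : c < l) : sc l (sc l c) = c := by
  unfold sc; split_ifs <;> omega

theorem pt_sc {p r : ℕ} {w' w : Word} (h : w'.length + p = w.length + r) (hp : p ≤ w.length)
    (s : ℤ) {c : ℕ} (hc : c < p + r) :
    Cn p r w' w (pt p r w' w s c) (fl (pt r p w w' s (sc (p + r) c))) := by
  rcases Nat.eq_zero_or_pos c with rfl | hc0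
  · have e1 : pt p r w' w s 0 = (s * w.length, false) := by simp [pt]
    have e2 : fl (pt r p w w' s (sc (p + r) 0)) = (s * w'.length, true) := by simp [pt, sc, fl]
    rw [e1, e2]
    have hg := Lg.glue (p := p) (r := r) (w' := w') (w := w) (s - 1) (w.length - p) (by omega)
    have e3 : (s - 1) * (w.length : ℤ) + p + ((w.length - p : ℕ) : ℤ) = s * w.length := by
      rw [Nat.cast_sub hp]; ring
    have e4 : (s - 1) * (w'.length : ℤ) + r + ((w.length - p : ℕ) : ℤ) = s * w'.length := by
      rw [Nat.cast_sub hp]
      have : (w'.length : ℤ) + p = w.length + r := by exact_mod_cast h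
      linarith
    rw [e3, e4] at hg
    exact Relation.EqvGen.rel _ _ hg
  · have hs : sc (p + r) c = p + r - c := by unfold sc; rw [if_neg (by omega)]
    rcases lt_trichotomy c p with hlt | heq | hgt
    · have e1 : pt p r w' w s c = (s * w.length + c, false) := by
        unfold pt; rw [if_pos hlt.le]
      have e2 : fl (pt r p w w' s (sc (p + r) c)) = (s * w.length + c, false) := by
        rw [hs]
        unfold pt fl
        rw [if_neg (by omega)]
        have : (((p + r - c : ℕ) : ℕ) : ℤ) = p + r - c := by
          rw [Nat.cast_sub (by omega)]; push_cast; ring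
        rw [this]
        simp only [Bool.not_true, Prod.mk.injEq, and_true]
        ring
      rw [e1, e2]
      exact Relation.EqvGen.refl _
    · subst heq
      have e1 : pt c r w' w s c = (s * w.length + c + ((0 : ℕ) : ℤ), false) := by
        unfold pt; rw [if_pos le_rfl]; simp
      have e2 : fl (pt r c w w' s (sc (c + r) c)) = (s * w'.length + r + ((0 : ℕ) : ℤ), true) := by
        rw [hs]
        unfold pt fl
        have : c + r - c = r := by omega
        rw [this, if_pos le_rfl]
        simp
      rw [e1, e2]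
      exact Relation.EqvGen.rel _ _ (Lg.glue s 0 (by omega))
    · have e1 : pt p r w' w s c = (s * w'.length + ((p : ℤ) + r - c), true) := by
        unfold pt; rw [if_neg (by omega)]
      have e2 : fl (pt r p w w' s (sc (p + r) c)) = (s * w'.length + ((p : ℤ) + r - c), true) := by
        rw [hs]
        unfold pt fl
        rw [if_pos (by omega)]
        have : (((p + r - c : ℕ) : ℕ) : ℤ) = p + r - c := by
          rw [Nat.cast_sub (by omega)]; push_cast; ring
        rw [this]
        simp
      rw [e1, e2]
      exact Relation.EqvGen.refl _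

theorem good_of {p r : ℕ} {w' w : Word} (h : w'.length + p = w.length + r) (hp : p ≤ w.length)
    (hg : Good p r w' w) : Good r p w w' := by
  obtain ⟨h1, h2⟩ := hg
  have hrp : r + p = p + r := Nat.add_comm _ _
  -- connections are transported
  have key : ∀ (s t : ℤ) (c d : ℕ), c < p + r → d < p + r →
      (Cn r p w w' (pt r p w w' s c) (pt r p w w' t d) ↔
        Cn p r w' w (pt p r w' w s (sc (p + r) c)) (pt p r w' w t (sc (p + r) d))) := by
    intro s t c d hc hd
    have a1 := pt_sc h hp s (sc_lt hc)
    have a2 := pt_sc h hp t (sc_lt hd)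
    rw [sc_sc hc] at a1
    rw [sc_sc hd] at a2
    constructor
    · intro hcn
      have a3 := cn_fl h.symm hcn
      exact (a1.trans _ _ _ a3).trans _ _ _ (a2.symm _ _)
    · intro hcn
      have a3 : Cn p r w' w (fl (pt r p w w' s c)) (fl (pt r p w w' t d)) :=
        ((a1.symm _ _).trans _ _ _ hcn).trans _ _ _ a2
      have a4 := cn_fl h a3
      rwa [fl_fl, fl_fl] at a4
  constructor
  · intro c d hc hd hcd hcn
    rw [hrp] at hc hd
    refine h1 (sc (p + r) c) (sc (p + r) d) (sc_lt hc) (sc_lt hd) ?_ ((key 0 0 c d hc hd).1 hcn)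
    intro he
    apply hcd
    rw [← sc_sc hc, ← sc_sc hd, he]
  · intro c hc
    rw [hrp] at hc
    obtain ⟨s, hs, d, hd, hcn⟩ := h2 (sc (p + r) c) (sc_lt hc)
    refine ⟨s, hs, sc (p + r) d, by rw [hrp]; exact sc_lt hd, ?_⟩
    rw [key 0 s c _ hc (sc_lt hd), sc_sc hd]
    exact hcn

end Tsymm

open Tsymm in
theorem t_symm : S_symm := by
  intro p r w' w h hp _
  unfold ee
  have hiff : Good p r w' w ↔ Good r p w w' :=
    ⟨good_of h hp, good_of h.symm (by omega)⟩
  by_cases hg : Good p r w' w
  · rw [if_pos hg, if_pos (hiff.1 hg)]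
  · rw [if_neg hg, if_neg (fun hg' => hg (hiff.2 hg'))]

end Pool.Agent.H160R2.ML
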