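import Pool.Agent.H160R2.ML.Stm
import Pool.Agent.H863R2.Cyl.GProp

/-! Task thr (helper485): symmetry in the through parameters. -/

set_option autoImplicit false

namespace Pool.Agent.H160R2.ML
open Pool.Agent.H863R2.Cyl
open Pool.Agent.H988R2.Perc (Word PD)

namespace Tthr

open Pool.Agent.H863R2.Cyl.PairAux (lin_bs bilin_ext)

theorem prE_bs (e : ℕ → ℕ → Word → Word → ℂ) (p r : ℕ) (w' w : Word) :
    prE e p r (bs w') (bs w) = e p r w' w := by
  unfold prE bs
  rw [Finsupp.linearCombination_single, one_smul, Finsupp.linearCombination_single, one_smul]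

theorem word_act {l : ℕ} {e : ℕ → ℕ → Word → Word → ℂ} (he : LSpec l e) {p r N s : ℕ}
    (hpr : p + r = l) (hl : Even l) (hev : Even (p + N)) (hs : s + 2 ≤ N) {w' w : Word}
    (h1 : w'.length = r + N) (h2 : Ok w') (h3 : w.length = p + N) (h4 : Ok w) :
    e p r (act (r + s) w') w = e p r w' (act (p + s) w) := by
  have a1 : (p + s) + 2 ≤ w.length := by omega
  have a2 : (r + s) + 2 ≤ w'.length := by omega
  have l1 := length_cap a1
  have l2 := length_cap a2
  have o1 := ok_cap h4 a1
  have o2 := ok_cap h2 a2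
  have e1 : Even (cap (p + s) w).length := by
    rw [Nat.even_iff] at hev ⊢
    omega
  have e2 : Even (cap (r + s) w').length := by
    rw [Nat.even_iff] at hev hl ⊢
    omega
  have r1 : e p r w' (act (p + s) w) = e p r (cap (r + s) w') (cap (p + s) w) := by
    rw [act_eq a1, he.insR p r (p + s) w' (cap (p + s) w) hpr h2 o1 e1 (by omega) (by omega)
      (by omega)]
    congr 2
    omega
  have r2 : e p r (act (r + s) w') w = e p r (cap (r + s) w') (cap (p + s) w) := by
    rw [he.symm p r (act (r + s) w') w hpr (by rw [length_act]; omega) (by omega), act_eq a2,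
      he.insR r p (r + s) w (cap (r + s) w') (by omega) h4 o2 e2 (by omega) (by omega)
      (by omega), he.symm p r (cap (r + s) w') (cap (p + s) w) hpr (by omega) (by omega)]
    congr 2
    omega
  rw [r1, r2]

theorem prE_act {l : ℕ} {e : ℕ → ℕ → Word → Word → ℂ} (he : LSpec l e) {p r N s : ℕ}
    (hpr : p + r = l) (hl : Even l) (hev : Even (p + N)) (hs : s + 2 ≤ N) {v' v : VW}
    (hv' : v' ∈ VN (r + N)) (hv : v ∈ VN (p + N)) :
    prE e p r (lin (act (r + s)) v') v = prE e p r v' (lin (act (p + s)) v) := by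
  have h := bilin_ext (A := (prE e p r).comp (lin (act (r + s))))
    (B := (prE e p r).compl₂ (lin (act (p + s)))) (N' := r + N) (N := p + N)
    (fun w' w h1 h2 h3 h4 => by
      rw [LinearMap.compl₂_apply, LinearMap.comp_apply, lin_bs, lin_bs, prE_bs, prE_bs,
        word_act he hpr hl hev hs h1 h2 h3 h4]) hv' hv
  exact h

end Tthr

open Tthr in
theorem t_thr : S_thr := by
  intro q l e Ψ Ψ' D A B z z' hp hAB hev hz
  obtain ⟨hq, hl, hl2, he, hΨ, hΨ'⟩ := D
  have hq3 : q ^ 3 = 1 := by linear_combination (q - 1) * hq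
  -- adjacent swaps
  have hswap : ∀ (u v : List ℂ) (x y : ℂ), x ^ 3 ≠ y ^ 3 →
      Even (A.length + (u ++ x :: y :: v).length) →
      GG e Ψ' Ψ A B (u ++ y :: x :: v) = GG e Ψ' Ψ A B (u ++ x :: y :: v) := by
    intro u v x y hxy hE
    unfold GG
    have e1 := hΨ.exch (A ++ u) v x y
    have e2 := hΨ'.exch (B ++ u) v x y
    rw [List.append_assoc, List.append_assoc] at e1 e2
    have m1 := hΨ.mem (A ++ (u ++ x :: y :: v))
    have m2 := hΨ'.mem (B ++ (u ++ x :: y :: v))
    rw [List.length_append] at m1 m2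
    rw [List.length_append] at e1 e2
    set N := (u ++ x :: y :: v).length with hN
    have hN2 : u.length + 2 ≤ N := by rw [hN]; simp
    set X := Ψ (A ++ (u ++ x :: y :: v))
    set X' := Ψ' (B ++ (u ++ x :: y :: v))
    set Y := Ψ (A ++ (u ++ y :: x :: v))
    set Y' := Ψ' (B ++ (u ++ y :: x :: v))
    set i := u.length
    set p := A.length
    set r := B.length
    have h1 : prE e p r (lin (act (r + i)) X') X = prE e p r X' (lin (act (p + i)) X) :=
      prE_act he hAB hl hE hN2 m2 m1
    have m3 : lin (act (p + i)) X ∈ VN (p + N) := GPropAux.lin_mem m1 fun w hw hok =>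
      ⟨(length_act _ w).trans hw, ok_act _ hok⟩
    have h2 : prE e p r (lin (act (r + i)) X') (lin (act (p + i)) X) =
        prE e p r X' (lin (act (p + i)) X) := by
      rw [prE_act he hAB hl hE hN2 m2 m3, GPropAux.lin_lin]
      congr 1
      refine GPropAux.lin_apply_congr m1 fun w hw _ => ?_
      exact act_of_arcAt (arcAt_act _ (by omega))
    have h3 : prE e p r ((q ^ 2 * y - (q ^ 2) ^ 2 * x) • Y') ((q * y - q ^ 2 * x) • Y) =
        prE e p r ((q ^ 2 * x - (q ^ 2) ^ 2 * y) • X' + (x - y) • lin (act (r + i)) X')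
          ((q * x - q ^ 2 * y) • X + (x - y) • lin (act (p + i)) X) := by
      rw [e1, e2]
    simp only [map_add, map_smul, LinearMap.add_apply, LinearMap.smul_apply, smul_eq_mul] at h3
    rw [h1, h2] at h3
    have c1 : (q ^ 2 * y - (q ^ 2) ^ 2 * x) * (q * y - q ^ 2 * x) = x ^ 2 + x * y + y ^ 2 := by
      linear_combination (y ^ 2 + q ^ 3 * x ^ 2 + x ^ 2 - q * x * y - q ^ 2 * x * y) * hq3 - x * y * hq
    have c2 : (q ^ 2 * x - (q ^ 2) ^ 2 * y) * (q * x - q ^ 2 * y) = x ^ 2 + x * y + y ^ 2 := by
      linear_combination (x ^ 2 + q ^ 3 * y ^ 2 + y ^ 2 - q * x * y - q ^ 2 * x * y) * hq3 - x * y * hq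
    have c3 : (q ^ 2 * x - (q ^ 2) ^ 2 * y) + (q * x - q ^ 2 * y) + (x - y) = 0 := by
      linear_combination (x - y) * hq - q * y * hq3
    have hne : x ^ 2 + x * y + y ^ 2 ≠ 0 := by
      intro h0
      apply hxy
      linear_combination (x - y) * h0
    apply mul_left_cancel₀ hne
    linear_combination h3 - prE e p r Y' Y * c1 + prE e p r X' X * c2 +
      (x - y) * prE e p r X' (lin (act (p + i)) X) * c3
  have key : ∀ u : List ℂ, ((u ++ z).map (fun x => x ^ 3)).Nodup →
      Even (A.length + (u ++ z).length) →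
      GG e Ψ' Ψ A B (u ++ z) = GG e Ψ' Ψ A B (u ++ z') := by
    clear hev hz
    induction hp with
    | nil => intro u _ _; rfl
    | cons x _ ih =>
      intro u hu hE
      have := ih (u ++ [x]) (by simpa using hu) (by simpa using hE)
      simpa using this
    | swap x y l =>
      intro u hu hE
      refine hswap u l x y ?_ ?_
      · intro h0
        rw [List.map_append, List.nodup_append] at hu
        have h1 := hu.2.1
        rw [List.map_cons, List.map_cons, List.nodup_cons] at h1
        apply h1.1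
        rw [← h0]
        exact List.mem_cons_self
      · simpa using hE
    | trans h1 h2 ih1 ih2 =>
      rename_i l1 l2 l3
      intro u hu hE
      have hperm : (u ++ l1).Perm (u ++ l2) := h1.append_left u
      rw [ih1 u hu hE, ih2 u ((hperm.map _).nodup_iff.1 hu) (by rw [← hperm.length_eq]; exact hE)]
  have := key [] (by simpa using hz.2) (by simpa using hev)
  simpa using this

end Pool.Agent.H160R2.ML
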