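import Pool.Agent.H160R2.ML.Stm

/-! Task zero: a small arc among the legs. -/

set_option autoImplicit false

namespace Pool.Agent.H160R2.ML
open Pool.Agent.H863R2.Cyl
open Pool.Agent.H988R2.Perc (Word PD)
open H974 H906.Cyl

namespace Tzero

lemma len_lins (i : ℕ) (u : Word) : (lins i u).length = u.length + 2 :=
  Pool.Agent.H988R2.Perc.length_ins i u

lemma peak {i : ℕ} {u : Word} (hi : i ≤ u.length) {b : ℤ}
    (h : Rw (lins i u) ((i : ℤ) + 1) b) : (i : ℤ) + 1 = b := by
  refine Sem4Aux.rw_peak ?_ ?_ h
  · rw [Sem4Aux.sg_mul (lins i u) 0 (i + 1) (by rw [len_lins]; omega) _ (by push_cast; ring),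
      Sem4Aux.lins_getD i u hi]
    simp
  · rw [Sem4Aux.sg_mul (lins i u) 0 i (by rw [len_lins]; omega) _ (by push_cast; ring),
      Sem4Aux.lins_getD i u hi]
    simp

lemma Rw_symm {w : Word} {a b : ℤ} (h : Rw w a b) : Rw w b a := Or.symm h

lemma inv {p r i : ℕ} {w' u : Word} (hip : i + 2 ≤ p) (hp : p ≤ u.length + 2)
    {x y : ℤ × Bool} (h : Cn p r w' (lins i u) x y) :
    x = ((i : ℤ) + 1, false) ↔ y = ((i : ℤ) + 1, false) := by
  induction h with
  | rel x y h =>
    cases h with
    | low a b h =>
      simp only [Prod.mk.injEq, and_true]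
      constructor
      · intro e
        subst e
        exact (peak (by omega) h).symm
      · intro e
        subst e
        exact (peak (by omega) (Rw_symm h)).symm
    | upp a b h => simp
    | glue s j hj =>
      simp only [Prod.mk.injEq, and_true, Bool.true_eq_false, and_false, iff_false]
      rw [len_lins] at hj ⊢
      push_cast
      intro e
      rcases le_or_gt 0 s with hs | hs
      · have : 0 ≤ s * ((u.length : ℤ) + 2) := by positivity
        omega
      · have : s * ((u.length : ℤ) + 2) ≤ (-1) * ((u.length : ℤ) + 2) :=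
          mul_le_mul_of_nonneg_right (by omega) (by positivity)
        omega
  | refl x => exact Iff.rfl
  | symm x y _ ih => exact ih.symm
  | trans x y z _ _ ih1 ih2 => exact ih1.trans ih2

end Tzero

open Tzero in
theorem t_zero : S_zero := by
  intro p r i w' u _ _ _ _ hip hp
  unfold ee
  rw [if_neg]
  rintro ⟨-, h⟩
  obtain ⟨s, hs, d, hd, h1⟩ := h (i + 1) (by omega)
  have h2 := (inv hip hp h1).1 (by
    unfold pt
    rw [if_pos (by omega)]
    simp)
  unfold pt at h2
  split_ifs at h2 with h3
  · simp only [Prod.mk.injEq, and_true] at h2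
    rw [len_lins] at h2
    push_cast at h2
    rcases lt_or_gt_of_ne hs with h4 | h4
    · have : s * ((u.length : ℤ) + 2) ≤ (-1) * ((u.length : ℤ) + 2) :=
        mul_le_mul_of_nonneg_right (by omega) (by positivity)
      omega
    · have : 1 * ((u.length : ℤ) + 2) ≤ s * ((u.length : ℤ) + 2) :=
        mul_le_mul_of_nonneg_right (by omega) (by positivity)
      omega
  · simp at h2

end Pool.Agent.H160R2.ML
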