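import Pool.Agent.H160R2.ML.T_AN
import Pool.Agent.H160R2.ML.T_B0
import Pool.Agent.H160R2.ML.T_BE
import Pool.Agent.H160R2.ML.T_C1
import Pool.Agent.H160R2.ML.T_C2
import Pool.Agent.H160R2.ML.T_C3
import Pool.Agent.H160R2.ML.T_C4
import Pool.Agent.H160R2.ML.T_C5
import Pool.Agent.H160R2.ML.T_EG
import Pool.Agent.H160R2.ML.T_FA
import Pool.Agent.H160R2.ML.T_FIN
import Pool.Agent.H160R2.ML.T_HL
import Pool.Agent.H160R2.ML.T_HV
import Pool.Agent.H160R2.ML.T_I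
import Pool.Agent.H160R2.ML.T_I0
import Pool.Agent.H160R2.ML.T_IH
import Pool.Agent.H160R2.ML.T_IL
import Pool.Agent.H160R2.ML.T_KP
import Pool.Agent.H160R2.ML.T_LS
import Pool.Agent.H160R2.ML.T_M0
import Pool.Agent.H160R2.ML.T_M1
import Pool.Agent.H160R2.ML.T_M2
import Pool.Agent.H160R2.ML.T_PB
import Pool.Agent.H160R2.ML.T_PH
import Pool.Agent.H160R2.ML.T_PL
import Pool.Agent.H160R2.ML.T_RC
import Pool.Agent.H160R2.ML.T_RH
import Pool.Agent.H160R2.ML.T_RM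
import Pool.Agent.H160R2.ML.T_RMd
import Pool.Agent.H160R2.ML.T_RP
import Pool.Agent.H160R2.ML.T_RPd
import Pool.Agent.H160R2.ML.T_SC
import Pool.Agent.H160R2.ML.T_TA
import Pool.Agent.H160R2.ML.T_TB
import Pool.Agent.H160R2.ML.T_TD
import Pool.Agent.H160R2.ML.T_TP
import Pool.Agent.H160R2.ML.T_base
import Pool.Agent.H160R2.ML.T_bs
import Pool.Agent.H160R2.ML.T_comp
import Pool.Agent.H160R2.ML.T_deg
import Pool.Agent.H160R2.ML.T_insR
import Pool.Agent.H160R2.ML.T_legx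
import Pool.Agent.H160R2.ML.T_moveL
import Pool.Agent.H160R2.ML.T_moveR
import Pool.Agent.H160R2.ML.T_mvL
import Pool.Agent.H160R2.ML.T_mvR
import Pool.Agent.H160R2.ML.T_swap
import Pool.Agent.H160R2.ML.T_symm
import Pool.Agent.H160R2.ML.T_thr
import Pool.Agent.H160R2.ML.T_zero

/-!
# Many legs: assembly
-/

set_option autoImplicit false

namespace Pool.Agent.H160R2.ML

theorem a_LS : S_LS := t_LS t_symm t_zero t_insR t_moveR t_moveL t_base
theorem a_TD : S_TD := t_TD t_TP t_RP t_RM t_RPd t_RMd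
theorem a_IH : S_IH := t_IH t_TP t_RP a_TD t_KP
theorem a_I : S_I := t_I a_IH t_HL
theorem a_I0 : S_I0 := t_I0 a_I
theorem a_PH : S_PH := t_PH t_EG
theorem a_RC : S_RC := t_RC t_EG t_IL t_SC
theorem a_M1 : S_M1 := t_M1 a_I a_PH
theorem a_M2 : S_M2 := t_M2 a_I a_PH
theorem a_M0 : S_M0 := t_M0 a_I0 a_PH
theorem a_RH : S_RH := t_RH t_B0 a_RC a_PH a_M1 a_M2
theorem a_AN : S_AN := t_AN t_B0 a_RH a_PH a_M1 a_M0
theorem a_FA : S_FA := t_FA a_AN t_BE a_PH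
theorem a_TA : S_TA := t_TA t_legx t_thr t_mvR t_mvL t_deg t_swap (t_bs t_comp) t_TP t_RP t_RM
theorem a_TB : S_TB := t_TB a_TA t_deg t_TP
theorem a_HV : S_HV := t_HV a_TB t_HL
theorem a_PB : S_PB := t_PB a_LS a_HV
theorem a_C4 : S_C4 := t_C4 t_C1 t_C2 t_C3
theorem a_C5 : S_C5 := t_C5 a_C4
theorem a_PL : S_PL := t_PL a_PB a_FA a_C5 a_PH

end Pool.Agent.H160R2.ML
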