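import Pool.Agent.H863R2.Cyl.Lst2
import Pool.Agent.H863R2.Cyl.Pair
import Pool.Agent.H863R2.Cyl.Sem3
import Pool.Agent.H863R2.Cyl.Sem4
import Pool.Agent.H906R2.Arm.Box
import Pool.Agent.H160R2.HL.Homog

/-!
# Many legs in the O(1) loop model on the cylinder: definitions

`p` legs below and `r` legs above: the strands `0, …, p-1` of the lower word `w` and the strands
`0, …, r-1` of the upper word `w'` end at a slit; the other strands are glued (`N` strands,
`w.length = p + N`, `w'.length = r + N`).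
-/

set_option autoImplicit false

namespace Pool.Agent.H160R2.ML
open Pool.Agent.H863R2.Cyl
open Pool.Agent.H988R2.Perc (Word PD)
open H974 H906.Cyl

/-! ## the leg functional -/

/-- links between faces of the universal cover: lower faces `(j, false)`, upper faces `(j, true)` -/
inductive Lg (p r : ℕ) (w' w : Word) : ℤ × Bool → ℤ × Bool → Prop
  | low (a b : ℤ) : Rw w a b → Lg p r w' w (a, false) (b, false)
  | upp (a b : ℤ) : Rw w' a b → Lg p r w' w (a, true) (b, true)
  | glue (s : ℤ) (i : ℕ) : i + p ≤ w.length →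
      Lg p r w' w (s * w.length + p + i, false) (s * w'.length + r + i, true)

/-- connection of faces of the cut universal cover -/
def Cn (p r : ℕ) (w' w : Word) : ℤ × Bool → ℤ × Bool → Prop := Relation.EqvGen (Lg p r w' w)

/-- the sector number `c < p + r` around the slit of sheet `s` -/
def pt (p r : ℕ) (w' w : Word) (s : ℤ) (c : ℕ) : ℤ × Bool :=
  if c ≤ p then (s * w.length + c, false) else (s * w'.length + ((p : ℤ) + r - c), true)

/-- no leg is connected to a leg of the same sheet: different sectors of a sheet are not connected,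
and every sector is connected to a sector of another sheet -/
def Good (p r : ℕ) (w' w : Word) : Prop :=
  (∀ c d : ℕ, c < p + r → d < p + r → c ≠ d → ¬ Cn p r w' w (pt p r w' w 0 c) (pt p r w' w 0 d)) ∧
  (∀ c : ℕ, c < p + r → ∃ s : ℤ, s ≠ 0 ∧ ∃ d : ℕ, d < p + r ∧
    Cn p r w' w (pt p r w' w 0 c) (pt p r w' w s d))

open Classical in
/-- its indicator -/
noncomputable def ee (p r : ℕ) (w' w : Word) : ℂ := if Good p r w' w then 1 else 0

/-- the word with no small arc except across the seam -/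
def bw (n : ℕ) : Word := List.replicate (n / 2) false ++ List.replicate (n / 2) true

/-- axioms of the leg functional (`l` legs in total, even circumferences) -/
structure LSpec (l : ℕ) (e : ℕ → ℕ → Word → Word → ℂ) : Prop where
  symm : ∀ (p r : ℕ) (w' w : Word), p + r = l → w'.length + p = w.length + r → p ≤ w.length →
    e p r w' w = e r p w w'
  zero : ∀ (p r i : ℕ) (w' u : Word), p + r = l → Ok w' → Ok u → Even u.length →
    w'.length + p = u.length + 2 + r → i + 2 ≤ p → p ≤ u.length + 2 → e p r w' (lins i u) = 0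
  insR : ∀ (p r i : ℕ) (w' u : Word), p + r = l → Ok w' → Ok u → Even u.length →
    w'.length + p = u.length + 2 + r → p ≤ i → i ≤ u.length →
    e p r w' (lins i u) = e p r (cap (i - p + r) w') u
  moveR : ∀ (p r : ℕ) (w' u : Word), p + r = l → Ok w' → Ok u → Even u.length →
    w'.length + p = u.length + 2 + r → 1 ≤ p → p ≤ u.length + 1 →
    e p r w' (lins (p - 1) u) = e (p - 1) (r + 1) w' u
  moveL : ∀ (p r : ℕ) (w' u : Word), p + r = l → Ok w' → Ok u → Even u.length →
    w'.length + p = u.length + 2 + r → 1 ≤ p → p ≤ u.length + 1 →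
    e p r w' (seam u) = e (p - 1) (r + 1) (rotr w') u
  base : ∀ p r : ℕ, p + r = l → Even p → Even r → e p r (bw r) (bw p) = 1

/-- bilinear extension -/
noncomputable def prE (e : ℕ → ℕ → Word → Word → ℂ) (p r : ℕ) : VW →ₗ[ℂ] VW →ₗ[ℂ] ℂ :=
  Finsupp.linearCombination ℂ (fun w' => Finsupp.linearCombination ℂ (fun w => e p r w' w))

/-- the partition function with the legs `A` below, `B` above and the strands `z` -/
noncomputable def GG (e : ℕ → ℕ → Word → Word → ℂ) (Ψ' Ψ : List ℂ → VW) (A B z : List ℂ) : ℂ :=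
  prE e A.length B.length (Ψ' (B ++ z)) (Ψ (A ++ z))

/-- `∏_{i<j} (q a_j - q² a_i)` -/
noncomputable def pfq (q : ℂ) : List ℂ → ℂ
  | [] => 1
  | (a :: A) => (A.map (fun b => q * b - q ^ 2 * a)).prod * pfq q A

/-- generic lists: nonzero, different cubes -/
def Gn (l : List ℂ) : Prop := (∀ x ∈ l, x ≠ 0) ∧ (l.map (fun x => x ^ 3)).Nodup

/-! ## determinants with legs -/

/-- `∏_{a ∈ C} (a - s u)` -/
noncomputable def lg (C : List ℂ) (s u : ℂ) : ℂ := (C.map (fun a => a - s * u)).prod

/-- the determinant with the legs `C` -/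
noncomputable def T (q w : ℂ) (C : List ℂ) {N : ℕ} (z : Fin N → ℂ) : ℂ :=
  (Matrix.of fun i j : Fin N => lg C q (z j) / (q ^ 2 * z i - q * z j)
    + w * lg C (q ^ 2) (z j) / (q ^ 2 * z j - q * z i)).det

/-- diagonal coefficients of the second form -/
noncomputable def bt (q w : ℂ) {N : ℕ} (z : Fin N → ℂ) (j : Fin N) : ℂ :=
  w / ((q ^ 2 - q) * z j) * ∏ k ∈ Finset.univ.erase j,
    ((z k - q ^ 2 * z j) * (z k - z j) / (z k - q * z j) ^ 2)

/-- the second form of the determinant -/
noncomputable def Td (q w : ℂ) (C : List ℂ) {N : ℕ} (z : Fin N → ℂ) : ℂ :=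
  (Matrix.of fun i j : Fin N => (if i = j then bt q w z j * lg C (q ^ 2) (z j) else 0)
    + lg C q (z j) / (q ^ 2 * z i - q * z j)).det

/-- Andrews' determinant `det (δ + ω binom(l+i+j, j))` -/
noncomputable def Dl (N l : ℕ) (ω : ℂ) : ℂ :=
  (Matrix.of fun i j : Fin N => (if i = j then 1 else 0)
    + ω * ((l + i.val + j.val).choose j.val : ℂ)).det

/-- its absolute value on the unit circle -/
noncomputable def RR (N l : ℕ) (θ : ℝ) : ℝ := ‖Dl N l (Complex.exp (θ * Complex.I))‖

/-- `u` = the logarithms of the eigenvalues of `binom(l+i+j, j)` in decreasing order -/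
def IsEig (N l : ℕ) (u : Fin N → ℝ) : Prop :=
  Antitone u ∧ (∀ i, u (Fin.rev i) = - u i) ∧
  ∀ ω : ℂ, Dl N l ω = ∏ i, (1 + ω * (Real.exp (u i) : ℂ))

/-! ## percolation -/

/-- sup norm -/
def nm (v : Vtx) : ℤ := max |v.1| |v.2|

/-- the edges of the annulus `a ≤ |v| ≤ b` -/
def annE (a b : ℤ) : Set Edg := {e | (a ≤ nm (src e) ∧ nm (src e) ≤ b) ∧ (a ≤ nm (tgt e) ∧ nm (tgt e) ≤ b)}

/-- `k` different open clusters of the annulus `a ≤ |v| ≤ b` join its two boundaries -/
def KArm (k : ℕ) (a b : ℤ) (G : Set Edg) : Prop :=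
  ∃ x : Fin k → Vtx, (∀ i, nm (x i) = a ∧ ∃ y, nm y = b ∧ Reach (G ∩ annE a b) (x i) y) ∧
    ∀ i j, i ≠ j → ¬ Reach (G ∩ annE a b) (x i) (x j)

/-- the links of the cut cylinder with bulk (lift): `((j, t), β)`, `t ≤ M`, `β = false` below;
the level `t = M` is the level of the slit -/
inductive Bg (n M k : ℕ) (F : Finset Edg) (τ σ : Word) : (ℤ × ℕ) × Bool → (ℤ × ℕ) × Bool → Prop
  | low (x y : ℤ × ℕ) : Lk (2 * n - 1) (dn n M F) M σ x y → Bg n M k F τ σ (x, false) (y, false)
  | upp (x y : ℤ × ℕ) : Lk (2 * n - 1) (up n M F) M τ x y → Bg n M k F τ σ (x, true) (y, true)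
  | glue (s : ℤ) (i : ℕ) : i + k ≤ 2 * n →
      Bg n M k F τ σ ((s * (2 * n : ℕ) + k + i, M), false) ((s * (2 * n : ℕ) + k + i, M), true)

/-- the vertex of a face `((j, t), β)` (used for primal faces) -/
def vx (M : ℕ) (x : (ℤ × ℕ) × Bool) : Vtx := if x.2 then pv M x.1.1 (2 * M - x.1.2) else pv M x.1.1 x.1.2

/-- primal faces -/
def Prm (M : ℕ) (x : (ℤ × ℕ) × Bool) : Prop := (x.1.1 + ((x.1.2 : ℤ) - M)) % 2 = 0

end Pool.Agent.H160R2.ML
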