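import Pool.Agent.H160R2.ML.Defs

/-!
# Many legs: the steps (every step is a `Prop`; task `X` proves `t_X` from its hypotheses)
-/

set_option autoImplicit false

namespace Pool.Agent.H160R2.ML
open Pool.Agent.H863R2.Cyl
open Pool.Agent.H988R2.Perc (Word PD)
open H974 H906.Cyl
open Filter Topology

/-! ## L: the leg functional -/

def S_symm : Prop := ∀ (p r : ℕ) (w' w : Word), w'.length + p = w.length + r → p ≤ w.length →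
  1 ≤ p + r → ee p r w' w = ee r p w w'

def S_zero : Prop := ∀ (p r i : ℕ) (w' u : Word), Ok w' → Ok u → Even u.length →
  w'.length + p = u.length + 2 + r → i + 2 ≤ p → p ≤ u.length + 2 → ee p r w' (lins i u) = 0

def S_insR : Prop := ∀ (p r i : ℕ) (w' u : Word), Even (p + r) → 2 ≤ p + r → Ok w' → Ok u →
  Even u.length → w'.length + p = u.length + 2 + r → p ≤ i → i ≤ u.length →
  ee p r w' (lins i u) = ee p r (cap (i - p + r) w') u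

def S_moveR : Prop := ∀ (p r : ℕ) (w' u : Word), Even (p + r) → Ok w' → Ok u → Even u.length →
  w'.length + p = u.length + 2 + r → 1 ≤ p → p ≤ u.length + 1 →
  ee p r w' (lins (p - 1) u) = ee (p - 1) (r + 1) w' u

def S_moveL : Prop := ∀ (p r : ℕ) (w' u : Word), Even (p + r) → Ok w' → Ok u → Even u.length →
  w'.length + p = u.length + 2 + r → 1 ≤ p → p ≤ u.length + 1 →
  ee p r w' (seam u) = ee (p - 1) (r + 1) (rotr w') u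

def S_base : Prop := ∀ p r : ℕ, 2 ≤ p + r → Even p → Even r → ee p r (bw r) (bw p) = 1

def S_LS : Prop := ∀ l : ℕ, Even l → 2 ≤ l → LSpec l ee

/-! ## G: the partition function with legs -/

/-- the common data -/
structure Dat (q : ℂ) (l : ℕ) (e : ℕ → ℕ → Word → Word → ℂ) (Ψ Ψ' : List ℂ → VW) : Prop where
  hq : q ^ 2 + q + 1 = 0
  hl : Even l
  hl2 : 2 ≤ l
  he : LSpec l e
  h : Fam q Ψ
  h' : Fam (q ^ 2) Ψ'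

def S_legx : Prop := ∀ (q : ℂ) (l : ℕ) (e : ℕ → ℕ → Word → Word → ℂ) (Ψ Ψ' : List ℂ → VW),
  Dat q l e Ψ Ψ' → ∀ (u v B z : List ℂ) (x y : ℂ), u.length + v.length + 2 + B.length = l →
  Even (u.length + v.length + z.length) →
  (q * y - q ^ 2 * x) * GG e Ψ' Ψ (u ++ y :: x :: v) B z =
    (q * x - q ^ 2 * y) * GG e Ψ' Ψ (u ++ x :: y :: v) B z

def S_thr : Prop := ∀ (q : ℂ) (l : ℕ) (e : ℕ → ℕ → Word → Word → ℂ) (Ψ Ψ' : List ℂ → VW),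
  Dat q l e Ψ Ψ' → ∀ (A B z z' : List ℂ), z.Perm z' → A.length + B.length = l →
  Even (A.length + z.length) → Gn z → GG e Ψ' Ψ A B z = GG e Ψ' Ψ A B z'

def S_mvR : Prop := ∀ (q : ℂ) (l : ℕ) (e : ℕ → ℕ → Word → Word → ℂ) (Ψ Ψ' : List ℂ → VW),
  Dat q l e Ψ Ψ' → ∀ (A B z : List ℂ) (x : ℂ), A.length + 1 + B.length = l →
  Even (A.length + z.length) →
  GG e Ψ' Ψ (A ++ [x]) B ((q * x) :: z) = fac q x (A ++ z) * GG e Ψ' Ψ A (B ++ [q * x]) z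

def S_mvL : Prop := ∀ (q : ℂ) (l : ℕ) (e : ℕ → ℕ → Word → Word → ℂ) (Ψ Ψ' : List ℂ → VW),
  Dat q l e Ψ Ψ' → ∀ (A B z : List ℂ) (y : ℂ), A.length + 1 + B.length = l →
  Even (A.length + z.length) →
  GG e Ψ' Ψ ((q * y) :: A) B (z ++ [y]) = fac q y (A ++ z) * GG e Ψ' Ψ A (y :: B) z

def S_deg : Prop := ∀ (q : ℂ) (l : ℕ) (e : ℕ → ℕ → Word → Word → ℂ) (Ψ Ψ' : List ℂ → VW),
  Dat q l e Ψ Ψ' → ∀ (A B z : List ℂ), A.length + 1 + B.length = l →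
  ∃ P : Polynomial ℂ, P.natDegree ≤ A.length + z.length ∧
    ∀ x, P.eval x = GG e Ψ' Ψ (A ++ [x]) B z

def S_swap : Prop := ∀ (q : ℂ) (l : ℕ) (e : ℕ → ℕ → Word → Word → ℂ) (Ψ Ψ' : List ℂ → VW),
  Dat q l e Ψ Ψ' → ∀ (A B z : List ℂ), A.length + B.length = l →
  GG e Ψ' Ψ A B z = GG e Ψ Ψ' B A z

/-- the component without arcs -/
def S_comp : Prop := ∀ (q : ℂ) (Ψ : List ℂ → VW), q ^ 2 + q + 1 = 0 → Fam q Ψ →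
  ∀ A : List ℂ, Even A.length → Gn A → Ψ A (bw A.length) * (q - 1) ^ (A.length / 2) = pfq q A

def S_bs : Prop := ∀ (q : ℂ) (l : ℕ) (e : ℕ → ℕ → Word → Word → ℂ) (Ψ Ψ' : List ℂ → VW),
  Dat q l e Ψ Ψ' → ∀ (A B : List ℂ), A.length + B.length = l → Even A.length → Gn A → Gn B →
  GG e Ψ' Ψ A B [] * ((q - 1) ^ (A.length / 2) * (q ^ 2 - 1) ^ (B.length / 2))
    = pfq q A * pfq (q ^ 2) B

/-- **the exact formula** (generic parameters) -/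
def S_TA : Prop := ∀ (q : ℂ) (l : ℕ) (e : ℕ → ℕ → Word → Word → ℂ) (Ψ Ψ' : List ℂ → VW),
  Dat q l e Ψ Ψ' → ∀ p r N : ℕ, p + r = l → Even (p + N) →
  ∃ κ : ℂ, ‖κ‖ ^ 4 * 3 ^ l = 1 ∧ ∀ (A B : List ℂ) (z : Fin N → ℂ), A.length = p → B.length = r →
    Gn (A ++ B ++ List.ofFn z) →
    GG e Ψ' Ψ A B (List.ofFn z) * vd z =
      κ * pfq q A * pfq (q ^ 2) B * (wd q z * (∏ i, z i) * T q (q ^ l) (A ++ B) z)

/-- the same for arbitrary legs -/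
def S_TB : Prop := ∀ (q : ℂ) (l : ℕ) (e : ℕ → ℕ → Word → Word → ℂ) (Ψ Ψ' : List ℂ → VW),
  Dat q l e Ψ Ψ' → ∀ p r N : ℕ, p + r = l → Even (p + N) →
  ∃ κ : ℂ, ‖κ‖ ^ 4 * 3 ^ l = 1 ∧ ∀ (A B : List ℂ) (z : Fin N → ℂ), A.length = p → B.length = r →
    Gn (List.ofFn z) →
    GG e Ψ' Ψ A B (List.ofFn z) * vd z =
      κ * pfq q A * pfq (q ^ 2) B * (wd q z * (∏ i, z i) * T q (q ^ l) (A ++ B) z)

/-- the homogeneous value -/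
def S_HV : Prop := ∀ (q : ℂ) (k : ℕ) (e : ℕ → ℕ → Word → Word → ℂ) (Ψ Ψ' : List ℂ → VW),
  1 ≤ k → Dat q (2 * k) e Ψ Ψ' → ∀ n : ℕ, k ≤ 2 * n → 1 ≤ n →
  ‖GG e Ψ' Ψ (List.replicate k 1) (List.replicate k 1) (List.replicate (2 * n - k) 1)‖
    = 3 ^ (2 * n * (n - 1)) * RR (2 * n - k) (2 * k) 0

open Classical in
/-- **the exact probability on the infinite cylinder** -/
def S_PB : Prop := ∀ n k : ℕ, 1 ≤ n → 1 ≤ k → k ≤ 2 * n → ∀ μ : Wd (2 * n - 1 + 1) → ℝ,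
  (∀ σ, 0 ≤ μ σ) → ∑ σ, μ σ = 1 →
  (∀ σ, ∑ c : Fin (2 * n - 1 + 1) → Bool, push (Tc (2 * n - 1) c) μ σ
      = 2 ^ (2 * n - 1 + 1) * μ σ) →
  (∑ σ, ∑ τ, (if Good k k τ.1 σ.1 then 1 else 0) * μ σ * μ τ) * RR (2 * n) 0 (Real.pi / 3)
    = RR (2 * n - k) (2 * k) 0

/-! ## D: determinants -/

def S_RP : Prop := ∀ (q w : ℂ), q ^ 2 + q + 1 = 0 → ∀ (C : List ℂ) (N : ℕ) (y : ℂ) (z : Fin N → ℂ),
  Gen q (Fin.cons y z : Fin (N + 1) → ℂ) →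
  T q w ((q * y) :: C) (Fin.cons y z : Fin (N + 1) → ℂ)
      * ∏ j, ((q ^ 2 * y - q * z j) * (y - q ^ 2 * z j))
    = -w * lg C (q ^ 2) y * (∏ j, (y - z j) ^ 2) * T q w (y :: C) z

def S_RM : Prop := ∀ (q w : ℂ), q ^ 2 + q + 1 = 0 → ∀ (C : List ℂ) (N : ℕ) (y : ℂ) (z : Fin N → ℂ),
  Gen q (Fin.cons y z : Fin (N + 1) → ℂ) →
  T q w ((q ^ 2 * y) :: C) (Fin.cons y z : Fin (N + 1) → ℂ) * ∏ j, (q * (y - q * z j) ^ 2)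
    = lg C q y * (∏ j, (y - z j) ^ 2) * T q w (y :: C) z

def S_RPd : Prop := ∀ (q w : ℂ), q ^ 2 + q + 1 = 0 → ∀ (C : List ℂ) (N : ℕ) (y : ℂ)
  (z : Fin N → ℂ), Gen q (Fin.cons y z : Fin (N + 1) → ℂ) →
  Td q w ((q * y) :: C) (Fin.cons y z : Fin (N + 1) → ℂ)
      * ∏ j, ((q ^ 2 * y - q * z j) * (y - q ^ 2 * z j))
    = -w * lg C (q ^ 2) y * (∏ j, (y - z j) ^ 2) * Td q w (y :: C) z

def S_RMd : Prop := ∀ (q w : ℂ), q ^ 2 + q + 1 = 0 → ∀ (C : List ℂ) (N : ℕ) (y : ℂ)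
  (z : Fin N → ℂ), Gen q (Fin.cons y z : Fin (N + 1) → ℂ) →
  Td q w ((q ^ 2 * y) :: C) (Fin.cons y z : Fin (N + 1) → ℂ) * ∏ j, (q * (y - q * z j) ^ 2)
    = lg C q y * (∏ j, (y - z j) ^ 2) * Td q w (y :: C) z

/-- polynomial in a leg, with the value without the leg as leading coefficient; symmetric -/
def S_TP : Prop := ∀ (q w : ℂ) (C : List ℂ) (N : ℕ) (z : Fin N → ℂ),
  (∃ P : Polynomial ℂ, P.natDegree ≤ N ∧ P.coeff N = T q w C z ∧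
    ∀ x, P.eval x = T q w (x :: C) z) ∧
  (∃ P : Polynomial ℂ, P.natDegree ≤ N ∧ P.coeff N = Td q w C z ∧
    ∀ x, P.eval x = Td q w (x :: C) z) ∧
  (∀ C', C.Perm C' → T q w C z = T q w C' z ∧ Td q w C z = Td q w C' z) ∧
  (∀ s : Equiv.Perm (Fin N), T q w C (z ∘ s) = T q w C z ∧ Td q w C (z ∘ s) = Td q w C z) ∧
  (q ^ 2 + q + 1 = 0 → w ≠ 0 → T (q ^ 2) w⁻¹ C z = (-w⁻¹) ^ N * T q w C z) ∧
  (q ^ 2 + q + 1 = 0 → (∀ j, z j ≠ 0) → T q w (0 :: C) z = (∏ j, (-(q * z j))) * T q (q * w) C z)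

/-- the two forms agree -/
def S_TD : Prop := ∀ (q w : ℂ), q ^ 2 + q + 1 = 0 → ∀ (C : List ℂ) (N : ℕ) (z : Fin N → ℂ),
  Gen q z → T q w C z = Td q w C z

/-- KP relation -/
def S_KP : Prop := ∀ (q w : ℂ), q ^ 2 + q + 1 = 0 → ∀ (C : List ℂ) (N : ℕ) (z : Fin N → ℂ),
  Gen q z → ∀ a b c : ℂ,
  (a - b) * Td q w (a :: b :: C) z * Td q w (c :: C) z
    + (b - c) * Td q w (b :: c :: C) z * Td q w (a :: C) z
    + (c - a) * Td q w (c :: a :: C) z * Td q w (b :: C) z = 0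

/-- inhomogeneous bilinear identity -/
def S_IH : Prop := ∀ (q w : ℂ), q ^ 2 + q + 1 = 0 → w ≠ 0 → ∀ (C : List ℂ) (N : ℕ) (x : ℂ)
  (z : Fin N → ℂ), Gen q (Fin.cons x z : Fin (N + 1) → ℂ) → (∀ a ∈ C, a ≠ q ^ 2 * x) →
  T q (q * w) (x :: C) (Fin.cons x z : Fin (N + 1) → ℂ) * T q w (x :: C) z
    - q ^ 2 * T q (q * w) (x :: C) z * T q w (x :: C) (Fin.cons x z : Fin (N + 1) → ℂ)
    = 3 * x * T q w (x :: x :: C) z * T q (q * w) C (Fin.cons x z : Fin (N + 1) → ℂ)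

/-- homogeneous limit with `l` legs at `1` -/
def S_HL : Prop := ∀ (q w : ℂ), q ^ 2 + q + 1 = 0 → ∀ (N l : ℕ) (F : Filter ℝ) (x : ℝ → ℕ → ℂ),
  (∀ k, Tendsto (fun t => x t k) F (𝓝 1)) → (∀ᶠ t in F, Function.Injective (x t)) →
  Tendsto (fun t => T q w (List.replicate l 1) (fun i : Fin N => x t i)
      / ((Matrix.vandermonde (fun i : Fin N => x t i)).det
        * (Matrix.vandermonde (fun i : Fin N => x t i)).det)) F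
    (𝓝 ((q / (1 - q ^ 2)) ^ N * (1 / 3) ^ (N * (N - 1) / 2) * (1 - q) ^ (l * N)
        * Dl N l (w * (-q ^ 2) ^ l)))

/-- homogeneous bilinear identity -/
def S_I : Prop := ∀ (q : ℂ), q ^ 2 + q + 1 = 0 → ∀ (N l : ℕ) (ω : ℂ), ω ≠ 0 →
  Dl (N + 1) (l + 1) (q * ω) * Dl N (l + 1) ω - q ^ 2 * Dl N (l + 1) (q * ω) * Dl (N + 1) (l + 1) ω
    = (1 - q ^ 2) * Dl N (l + 2) (-q ^ 2 * ω) * Dl (N + 1) l (-q ^ 2 * ω)

/-- the case `l = -1` -/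
def S_I0 : Prop := ∀ (q : ℂ), q ^ 2 + q + 1 = 0 → ∀ (N : ℕ) (ω : ℂ), ω ≠ 0 →
  Dl (N + 1) 0 (q * ω) * Dl N 0 ω - q ^ 2 * Dl N 0 (q * ω) * Dl (N + 1) 0 ω
    = (1 - q ^ 2) * (1 - q ^ 2 * ω) * Dl N 1 (-q ^ 2 * ω) ^ 2

/-! ## A: asymptotics -/

def S_EG : Prop := ∀ N l : ℕ, ∃ u : Fin N → ℝ, IsEig N l u

/-- interlacing -/
def S_IL : Prop := ∀ (N l : ℕ) (u : Fin (N + 1) → ℝ) (v : Fin N → ℝ), IsEig (N + 1) l u →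
  IsEig N (l + 2) v → ∀ i : Fin N, u i.succ ≤ v i ∧ v i ≤ u i.castSucc

/-- comparison of sums -/
def S_SC : Prop := ∀ (g : ℝ → ℝ) (K : ℝ), (∀ x, g (-x) = g x) → MonotoneOn g (Set.Ici 0) →
  (∀ x, |g x| ≤ K) → ∀ (N : ℕ) (u : Fin (N + 1) → ℝ) (v : Fin N → ℝ), Antitone u → Antitone v →
  (∀ i : Fin N, u i.succ ≤ v i ∧ v i ≤ u i.castSucc) → |∑ i, g (u i) - ∑ i, g (v i)| ≤ 6 * K

/-- phases -/
def S_PH : Prop := ∀ (N l : ℕ) (θ : ℝ), 0 ≤ θ → θ < Real.pi →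
  0 < RR N l θ ∧
  Dl N l (Complex.exp (θ * Complex.I)) = Complex.exp ((N * θ / 2 : ℝ) * Complex.I) * (RR N l θ : ℂ)

/-- comparison of the ratios -/
def S_RC : Prop := ∃ C : ℝ, 1 ≤ C ∧ ∀ (N l : ℕ) (θ : ℝ), 0 ≤ θ → θ ≤ 2 * Real.pi / 3 →
  RR N (l + 2) θ * RR (N + 1) l 0 ≤ C * (RR (N + 1) l θ * RR N (l + 2) 0) ∧
  RR (N + 1) l θ * RR N (l + 2) 0 ≤ C * (RR N (l + 2) θ * RR (N + 1) l 0)

/-- no legs -/
def S_B0 : Prop := ∃ c C : ℝ, 0 < c ∧ 0 < C ∧ ∀ N : ℕ, 1 ≤ N →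
  c * (N : ℝ) ^ (-(1 / 12) : ℝ) * RR N 0 0 ≤ RR N 0 (Real.pi / 3) ∧
  RR N 0 (Real.pi / 3) ≤ C * (N : ℝ) ^ (-(1 / 12) : ℝ) * RR N 0 0 ∧
  c * (N : ℝ) ^ (-(1 / 3) : ℝ) * RR N 0 0 ≤ RR N 0 (2 * Real.pi / 3) ∧
  RR N 0 (2 * Real.pi / 3) ≤ C * (N : ℝ) ^ (-(1 / 3) : ℝ) * RR N 0 0

/-- identities between moduli -/
def S_M1 : Prop := ∀ N l : ℕ, 2 * RR (N + 1) (l + 1) (Real.pi / 3) * RR N (l + 1) (Real.pi / 3)
  = Real.sqrt 3 * RR N (l + 2) 0 * RR (N + 1) l 0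

def S_M2 : Prop := ∀ N l : ℕ,
  RR (N + 1) (l + 1) (2 * Real.pi / 3) * RR N (l + 1) 0
    + RR N (l + 1) (2 * Real.pi / 3) * RR (N + 1) (l + 1) 0
  = Real.sqrt 3 * RR N (l + 2) (Real.pi / 3) * RR (N + 1) l (Real.pi / 3)

def S_M0 : Prop := ∀ N : ℕ, RR (N + 1) 0 (Real.pi / 3) * RR N 0 (Real.pi / 3)
  = Real.sqrt 3 * RR N 1 0 ^ 2

/-- ratio bounds for every number of legs -/
def S_RH : Prop := ∀ l : ℕ, ∃ c C : ℝ, 0 < c ∧ 0 < C ∧ ∀ N : ℕ, 1 ≤ N →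
  c * (N : ℝ) ^ (-(1 / 12) : ℝ) * RR N l 0 ≤ RR N l (Real.pi / 3) ∧
  RR N l (Real.pi / 3) ≤ C * (N : ℝ) ^ (-(1 / 12) : ℝ) * RR N l 0

/-- second ratios of the normalisation -/
def S_BE : Prop := ∃ c C : ℝ, 0 < c ∧ 0 < C ∧ ∀ N : ℕ,
  c * RR (N + 1) 0 (Real.pi / 3) ^ 2 ≤ RR (N + 2) 0 (Real.pi / 3) * RR N 0 (Real.pi / 3) ∧
  RR (N + 2) 0 (Real.pi / 3) * RR N 0 (Real.pi / 3) ≤ C * RR (N + 1) 0 (Real.pi / 3) ^ 2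

/-- **asymptotics of Andrews' determinants** -/
def S_AN : Prop := ∀ l : ℕ, ∃ c C : ℝ, 0 < c ∧ 0 < C ∧ ∀ N : ℕ, 1 ≤ N →
  c * (N : ℝ) ^ ((1 - (l : ℝ) ^ 2) / 6) * (RR N 0 (Real.pi / 3) * RR (N + l) 0 (Real.pi / 3))
    ≤ RR N l 0 ^ 2 ∧
  RR N l 0 ^ 2 ≤
    C * (N : ℝ) ^ ((1 - (l : ℝ) ^ 2) / 6) * (RR N 0 (Real.pi / 3) * RR (N + l) 0 (Real.pi / 3))

/-- **the exponents** -/
def S_FA : Prop := ∀ k : ℕ, 1 ≤ k → ∃ c C : ℝ, 0 < c ∧ 0 < C ∧ ∀ n : ℕ, k ≤ n →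
  c * (n : ℝ) ^ (-((4 * (k : ℝ) ^ 2 - 1) / 12)) * RR (2 * n) 0 (Real.pi / 3)
    ≤ RR (2 * n - k) (2 * k) 0 ∧
  RR (2 * n - k) (2 * k) 0
    ≤ C * (n : ℝ) ^ (-((4 * (k : ℝ) ^ 2 - 1) / 12)) * RR (2 * n) 0 (Real.pi / 3)

/-! ## C: percolation -/

/-- the lower and upper words of a configuration -/
noncomputable def wdn (n M : ℕ) (F : Finset Edg) (σ : Wd (2 * n - 1 + 1)) : Word :=
  (rows (2 * n - 1) (dn n M F) M σ).1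
noncomputable def wup (n M : ℕ) (F : Finset Edg) (τ : Wd (2 * n - 1 + 1)) : Word :=
  (rows (2 * n - 1) (up n M F) M τ).1

/-- the level of the slit -/
def lev (M : ℕ) (x : ℤ × Bool) : (ℤ × ℕ) × Bool := ((x.1, M), x.2)

def S_C1 : Prop := ∀ (n M k : ℕ), 1 ≤ n → k ≤ 2 * n → ∀ (F : Finset Edg)
  (σ τ : Wd (2 * n - 1 + 1)) (x y : ℤ × Bool),
  Relation.EqvGen (Bg n M k F τ.1 σ.1) (lev M x) (lev M y) ↔
    Cn k k (wup n M F τ) (wdn n M F σ) x y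

/-- a sector connected to another sheet crosses the annulus -/
def S_C2 : Prop := ∀ (n M k m : ℕ), 1 ≤ k → k ≤ m → 4 * m ≤ n → 2 * m ≤ M → ∀ (F : Finset Edg)
  (σ τ : Wd (2 * n - 1 + 1)) (x y : ℤ × Bool), 0 ≤ x.1 → x.1 ≤ k → x.1 % 2 = 0 →
  (∃ s : ℤ, s ≠ 0 ∧ s * (2 * n : ℕ) ≤ y.1 ∧ y.1 ≤ s * (2 * n : ℕ) + k) →
  Relation.EqvGen (Bg n M k F τ.1 σ.1) (lev M x) (lev M y) →
  ∃ x' : (ℤ × ℕ) × Bool, x'.1.2 ≤ M ∧ Prm M x' ∧ nm (vx M x') = k ∧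
    Relation.EqvGen (Bg n M k F τ.1 σ.1) (lev M x) x' ∧
    ∃ v, nm v = m ∧ Reach (per n F ∩ annE k m) (vx M x') v

/-- connections of the annulus are connections of the cut cylinder -/
def S_C3 : Prop := ∀ (n M k m : ℕ), 1 ≤ k → k ≤ m → 4 * m ≤ n → 2 * m ≤ M → ∀ (F : Finset Edg)
  (σ τ : Wd (2 * n - 1 + 1)) (x y : (ℤ × ℕ) × Bool), x.1.2 ≤ M → y.1.2 ≤ M → Prm M x → Prm M y →
  (k : ℤ) ≤ nm (vx M x) → nm (vx M x) ≤ m → (k : ℤ) ≤ nm (vx M y) → nm (vx M y) ≤ m →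
  Reach (per n F ∩ annE k m) (vx M x) (vx M y) → Relation.EqvGen (Bg n M k F τ.1 σ.1) x y

/-- the deterministic statement -/
def S_C4 : Prop := ∀ (n M k m : ℕ), 1 ≤ k → k ≤ m → 4 * m ≤ n → 2 * m ≤ M → ∀ (F : Finset Edg)
  (σ τ : Wd (2 * n - 1 + 1)), Good k k (wup n M F τ) (wdn n M F σ) → KArm k k m (per n F)

open Classical in
/-- comparison with the plane -/
def S_C5 : Prop := ∀ (n k m : ℕ), 1 ≤ k → k ≤ m → 4 * m ≤ n → ∀ μ : Wd (2 * n - 1 + 1) → ℝ,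
  (∀ σ, 0 ≤ μ σ) → ∑ σ, μ σ = 1 →
  (∀ σ, ∑ c : Fin (2 * n - 1 + 1) → Bool, push (Tc (2 * n - 1) c) μ σ
      = 2 ^ (2 * n - 1 + 1) * μ σ) →
  ∑ σ, ∑ τ, (if Good k k τ.1 σ.1 then 1 else 0) * μ σ * μ τ
    ≤ Pr (fun _ => (1 / 2 : ℝ)) (boxE m) (fun F => KArm k k m (↑F : Set Edg))

/-- **lower bound in the plane** -/
def S_PL : Prop := ∀ k : ℕ, 1 ≤ k → ∃ c : ℝ, 0 < c ∧ ∀ m : ℕ, k ≤ m →
  c * (m : ℝ) ^ (-((4 * (k : ℝ) ^ 2 - 1) / 12))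
    ≤ Pr (fun _ => (1 / 2 : ℝ)) (boxE m) (fun F => KArm k k m (↑F : Set Edg))

end Pool.Agent.H160R2.ML
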