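import Pool.Agent.H160R2.ML.Stm

/-! Task AN (helper955): asymptotics of Andrews' determinants. -/

set_option autoImplicit false

namespace Pool.Agent.H160R2.ML

namespace TAN

theorem log_of_bounds {f g c C : ℝ} (hf : 0 < f) (hg : 0 < g) (hc : 0 < c) (hC : 0 < C)
    (h1 : c * g ≤ f) (h2 : f ≤ C * g) : |Real.log f - Real.log g| ≤ |Real.log c| + |Real.log C| := by
  have h3 : Real.log c + Real.log g ≤ Real.log f := by
    rw [← Real.log_mul hc.ne' hg.ne']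
    exact Real.log_le_log (mul_pos hc hg) h1
  have h4 : Real.log f ≤ Real.log C + Real.log g := by
    rw [← Real.log_mul hC.ne' hg.ne']
    exact Real.log_le_log hf h2
  have h5 := neg_abs_le (Real.log c)
  have h6 := le_abs_self (Real.log C)
  have h7 := abs_nonneg (Real.log c)
  have h8 := abs_nonneg (Real.log C)
  rw [abs_le]
  constructor <;> linarith

theorem bounds_of_log {f g K : ℝ} (hf : 0 < f) (hg : 0 < g)
    (h : |Real.log f - Real.log g| ≤ K) : Real.exp (-K) * g ≤ f ∧ f ≤ Real.exp K * g := by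
  obtain ⟨h1, h2⟩ := abs_le.1 h
  constructor
  · have h3 : Real.log (Real.exp (-K) * g) ≤ Real.log f := by
      rw [Real.log_mul (Real.exp_pos _).ne' hg.ne', Real.log_exp]
      linarith
    exact (Real.log_le_log_iff (mul_pos (Real.exp_pos _) hg) hf).1 h3
  · have h3 : Real.log f ≤ Real.log (Real.exp K * g) := by
      rw [Real.log_mul (Real.exp_pos _).ne' hg.ne', Real.log_exp]
      linarith
    exact (Real.log_le_log_iff hf (mul_pos (Real.exp_pos _) hg)).1 h3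

/-- logarithms -/
noncomputable def LR (N l : ℕ) : ℝ := Real.log (RR N l 0)
noncomputable def LH (N l : ℕ) : ℝ := Real.log (RR N l (Real.pi / 3))
noncomputable def LN (N : ℕ) : ℝ := Real.log (N : ℝ)

theorem pos0 (hP : S_PH) (N l : ℕ) : 0 < RR N l 0 := (hP N l 0 le_rfl Real.pi_pos).1

theorem pos1 (hP : S_PH) (N l : ℕ) : 0 < RR N l (Real.pi / 3) :=
  (hP N l (Real.pi / 3) (by positivity) (by linarith [Real.pi_pos])).1

theorem ratio (hP : S_PH) (l : ℕ) (h : ∃ c C : ℝ, 0 < c ∧ 0 < C ∧ ∀ N : ℕ, 1 ≤ N →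
    c * (N : ℝ) ^ (-(1 / 12) : ℝ) * RR N l 0 ≤ RR N l (Real.pi / 3) ∧
    RR N l (Real.pi / 3) ≤ C * (N : ℝ) ^ (-(1 / 12) : ℝ) * RR N l 0) :
    ∃ K : ℝ, ∀ N : ℕ, 1 ≤ N → |LH N l - (LR N l - (1 / 12) * LN N)| ≤ K := by
  obtain ⟨c, C, hc, hC, hb⟩ := h
  refine ⟨|Real.log c| + |Real.log C|, fun N hN => ?_⟩
  obtain ⟨h1, h2⟩ := hb N hN
  have hN0 : (0 : ℝ) < N := by exact_mod_cast hN
  have hp : (0 : ℝ) < (N : ℝ) ^ (-(1 / 12) : ℝ) := Real.rpow_pos_of_pos hN0 _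
  have h3 := log_of_bounds (pos1 hP N l) (mul_pos hp (pos0 hP N l)) hc hC
    (by rw [← mul_assoc]; exact h1) (by rw [← mul_assoc]; exact h2)
  rw [Real.log_mul hp.ne' (pos0 hP N l).ne', Real.log_rpow hN0] at h3
  unfold LH LR LN
  have h4 : Real.log (RR N l (Real.pi / 3)) - (Real.log (RR N l 0) - 1 / 12 * Real.log (N : ℝ)) =
      Real.log (RR N l (Real.pi / 3)) - (-(1 / 12) * Real.log (N : ℝ) + Real.log (RR N l 0)) := by
    ring
  rw [h4]
  exact h3

theorem LN_succ (N : ℕ) (hN : 1 ≤ N) : |LN (N + 1) - LN N| ≤ 1 := by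
  have hN0 : (0 : ℝ) < N := by exact_mod_cast hN
  have hN1 : (1 : ℝ) ≤ N := by exact_mod_cast hN
  have h1 : LN N ≤ LN (N + 1) := by
    unfold LN
    exact Real.log_le_log hN0 (by push_cast; linarith)
  have h2 : LN (N + 1) ≤ LN N + 1 := by
    unfold LN
    have h3 : ((N + 1 : ℕ) : ℝ) ≤ 2 * N := by push_cast; linarith
    have h4 : Real.log ((N + 1 : ℕ) : ℝ) ≤ Real.log (2 * N) :=
      Real.log_le_log (by positivity) h3
    rw [Real.log_mul two_ne_zero hN0.ne'] at h4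
    have h5 : Real.log 2 ≤ 1 := by
      have := Real.log_le_sub_one_of_pos (by norm_num : (0 : ℝ) < 2)
      linarith
    linarith
  rw [abs_le]
  constructor <;> linarith

theorem main (hB : S_B0) (hR : S_RH) (hP : S_PH) (hM1 : S_M1) (hM0 : S_M0) (l : ℕ) :
    ∃ K : ℝ, ∀ N : ℕ, 1 ≤ N →
      |2 * LR N l - ((1 - (l : ℝ) ^ 2) / 6 * LN N + LH N 0 + LH (N + l) 0)| ≤ K := by
  induction l using Nat.twoStepInduction with
  | zero =>
    obtain ⟨c, C, hc, hC, hb⟩ := hB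
    obtain ⟨K, hK⟩ := ratio hP 0 ⟨c, C, hc, hC, fun N hN => ⟨(hb N hN).1, (hb N hN).2.1⟩⟩
    refine ⟨2 * K, fun N hN => ?_⟩
    have h1 := hK N hN
    have h2 : 2 * LR N 0 - ((1 - ((0 : ℕ) : ℝ) ^ 2) / 6 * LN N + LH N 0 + LH (N + 0) 0) =
        -(2 * (LH N 0 - (LR N 0 - (1 / 12) * LN N))) := by
      simp only [Nat.cast_zero, add_zero]
      ring
    rw [h2, abs_neg, abs_mul, abs_two]
    linarith
  | one =>
    refine ⟨|Real.log (Real.sqrt 3)|, fun N hN => ?_⟩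
    have h1 := congrArg Real.log (hM0 N)
    have hs : (0 : ℝ) < Real.sqrt 3 := Real.sqrt_pos.2 (by norm_num)
    rw [Real.log_mul (pos1 hP _ _).ne' (pos1 hP _ _).ne', Real.log_mul hs.ne'
      (pow_pos (pos0 hP _ _) 2).ne', Real.log_pow] at h1
    have h2 : 2 * LR N 1 - ((1 - ((1 : ℕ) : ℝ) ^ 2) / 6 * LN N + LH N 0 + LH (N + 1) 0) =
        -Real.log (Real.sqrt 3) := by
      unfold LR LH
      push_cast at h1 ⊢
      linarith
    rw [h2, abs_neg]
  | more l ih0 ih1 =>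
    obtain ⟨K0, h0⟩ := ih0
    obtain ⟨K1, h1⟩ := ih1
    obtain ⟨K2, h2⟩ := ratio hP (l + 1) (hR (l + 1))
    set E : ℝ := (1 - ((l : ℝ) + 1) ^ 2) / 6 - (1 - (l : ℝ) ^ 2) / 6 - 1 / 6 with hE
    refine ⟨2 * |Real.log 2 - Real.log (Real.sqrt 3)| + 4 * K2 + 2 * K1 + K0 + |E|, fun N hN => ?_⟩
    have hs : (0 : ℝ) < Real.sqrt 3 := Real.sqrt_pos.2 (by norm_num)
    have e1 := congrArg Real.log (hM1 N l)
    rw [mul_assoc, mul_assoc, Real.log_mul two_ne_zero (mul_pos (pos1 hP _ _) (pos1 hP _ _)).ne',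
      Real.log_mul (pos1 hP _ _).ne' (pos1 hP _ _).ne', Real.log_mul hs.ne'
      (mul_pos (pos0 hP _ _) (pos0 hP _ _)).ne',
      Real.log_mul (pos0 hP _ _).ne' (pos0 hP _ _).ne'] at e1
    have e2 : LR N (l + 2) = (Real.log 2 - Real.log (Real.sqrt 3)) + LH (N + 1) (l + 1) +
        LH N (l + 1) - LR (N + 1) l := by
      unfold LR LH
      linarith
    have a1 := h2 N hN
    have a2 := h2 (N + 1) (by omega)
    have a3 := h1 N hN
    have a4 := h1 (N + 1) (by omega)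
    have a5 := h0 (N + 1) (by omega)
    have a6 := LN_succ N hN
    have i1 : N + 1 + (l + 1) = N + (l + 2) := by ring
    have i2 : N + 1 + l = N + (l + 1) := by ring
    rw [i1] at a4
    rw [i2] at a5
    set d := LN (N + 1) - LN N with hd
    have hdd : LN (N + 1) = LN N + d := by rw [hd]; ring
    have a7 : |E * d| ≤ |E| := by
      rw [abs_mul]
      exact mul_le_of_le_one_right (abs_nonneg _) a6
    rw [hdd] at a2 a4 a5
    push_cast at a3 a4 a5 ⊢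
    have key : 2 * LR N (l + 2) -
        ((1 - ((l : ℝ) + 2) ^ 2) / 6 * LN N + LH N 0 + LH (N + (l + 2)) 0) =
        2 * (Real.log 2 - Real.log (Real.sqrt 3)) +
        2 * (LH (N + 1) (l + 1) - (LR (N + 1) (l + 1) - 1 / 12 * (LN N + d))) +
        2 * (LH N (l + 1) - (LR N (l + 1) - 1 / 12 * LN N)) +
        (2 * LR (N + 1) (l + 1) - ((1 - ((l : ℝ) + 1) ^ 2) / 6 * (LN N + d) + LH (N + 1) 0 +
          LH (N + (l + 2)) 0)) +
        (2 * LR N (l + 1) - ((1 - ((l : ℝ) + 1) ^ 2) / 6 * LN N + LH N 0 + LH (N + (l + 1)) 0)) -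
        (2 * LR (N + 1) l - ((1 - (l : ℝ) ^ 2) / 6 * (LN N + d) + LH (N + 1) 0 +
          LH (N + (l + 1)) 0)) + E * d := by
      rw [e2, hE]
      ring
    rw [key]
    have b1 := abs_le.1 a1
    have b2 := abs_le.1 a2
    have b3 := abs_le.1 a3
    have b4 := abs_le.1 a4
    have b5 := abs_le.1 a5
    have b7 := abs_le.1 a7
    have b8 := neg_abs_le (Real.log 2 - Real.log (Real.sqrt 3))
    have b9 := le_abs_self (Real.log 2 - Real.log (Real.sqrt 3))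
    rw [abs_le]
    constructor <;> linarith [b1.1, b1.2, b2.1, b2.2, b3.1, b3.2, b4.1, b4.2, b5.1, b5.2, b7.1, b7.2]

end TAN

open TAN in
theorem t_AN : S_B0 → S_RH → S_PH → S_M1 → S_M0 → S_AN := by
  intro hB hR hP hM1 hM0 l
  obtain ⟨K, hK⟩ := main hB hR hP hM1 hM0 l
  refine ⟨Real.exp (-K), Real.exp K, Real.exp_pos _, Real.exp_pos _, fun N hN => ?_⟩
  have hN0 : (0 : ℝ) < N := by exact_mod_cast hN
  have hp : (0 : ℝ) < (N : ℝ) ^ ((1 - (l : ℝ) ^ 2) / 6) := Real.rpow_pos_of_pos hN0 _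
  have hq : 0 < RR N 0 (Real.pi / 3) * RR (N + l) 0 (Real.pi / 3) :=
    mul_pos (pos1 hP _ _) (pos1 hP _ _)
  have h1 := hK N hN
  have h2 : |Real.log (RR N l 0 ^ 2) - Real.log ((N : ℝ) ^ ((1 - (l : ℝ) ^ 2) / 6) *
      (RR N 0 (Real.pi / 3) * RR (N + l) 0 (Real.pi / 3)))| ≤ K := by
    rw [Real.log_mul hp.ne' hq.ne', Real.log_rpow hN0, Real.log_mul (pos1 hP _ _).ne'
      (pos1 hP _ _).ne', Real.log_pow]
    have h3 : ((2 : ℕ) : ℝ) * Real.log (RR N l 0) - ((1 - (l : ℝ) ^ 2) / 6 * Real.log (N : ℝ) +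
        (Real.log (RR N 0 (Real.pi / 3)) + Real.log (RR (N + l) 0 (Real.pi / 3)))) =
        2 * LR N l - ((1 - (l : ℝ) ^ 2) / 6 * LN N + LH N 0 + LH (N + l) 0) := by
      unfold LR LH LN
      push_cast
      ring
    rw [h3]
    exact h1
  obtain ⟨h4, h5⟩ := bounds_of_log (pow_pos (pos0 hP N l) 2) (mul_pos hp hq) h2
  rw [mul_assoc, mul_assoc]
  exact ⟨h4, h5⟩

end Pool.Agent.H160R2.ML
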