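import Pool.Agent.H160R2.ML.Stm

/-!
# Many legs: the homogeneous bilinear identity from the inhomogeneous one
-/

set_option autoImplicit false

namespace Pool.Agent.H160R2.ML
open Pool.Agent.H863R2.Cyl
open Filter Topology

namespace TI

/-- `1 + t (k + s)` -/
noncomputable def xs (s : ℕ) (t : ℝ) (k : ℕ) : ℂ := ((1 + t * ((k + s : ℕ) : ℝ) : ℝ) : ℂ)

theorem xs_tend (s k : ℕ) : Tendsto (fun t : ℝ => xs s t k) (𝓝[>] (0 : ℝ)) (𝓝 1) := by
  have h1 : Continuous (fun t : ℝ => xs s t k) := by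
    unfold xs
    fun_prop
  have h2 := h1.tendsto 0
  have h3 : xs s 0 k = 1 := by simp [xs]
  rw [h3] at h2
  exact h2.mono_left nhdsWithin_le_nhds

theorem xs_pos (s k : ℕ) (t : ℝ) (ht : 0 < t) : (0 : ℝ) < 1 + t * ((k + s : ℕ) : ℝ) := by
  positivity

theorem xs_inj (s : ℕ) (t : ℝ) (ht : 0 < t) : Function.Injective (xs s t) := by
  intro a b hab
  unfold xs at hab
  have h1 : (1 + t * ((a + s : ℕ) : ℝ) : ℝ) = 1 + t * ((b + s : ℕ) : ℝ) :=
    Complex.ofReal_injective hab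
  have h2 : t * ((a + s : ℕ) : ℝ) = t * ((b + s : ℕ) : ℝ) := by linarith
  have h3 := mul_left_cancel₀ ht.ne' h2
  have h4 : a + s = b + s := by exact_mod_cast h3
  omega

theorem cons_eq (N : ℕ) (t : ℝ) :
    (Fin.cons 1 (fun i : Fin N => xs 1 t i) : Fin (N + 1) → ℂ) =
      fun i : Fin (N + 1) => xs 0 t i := by
  funext i
  refine Fin.cases ?_ (fun j => ?_) i
  · simp [xs]
  · simp [xs]

theorem ev_pos : ∀ᶠ t in 𝓝[>] (0 : ℝ), (0 : ℝ) < t := self_mem_nhdsWithin

theorem gen (q : ℂ) (hq : q ^ 2 + q + 1 = 0) (N : ℕ) (t : ℝ) (ht : 0 < t) :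
    Gen q (fun i : Fin (N + 1) => xs 0 t i) := by
  refine ⟨fun i => ?_, fun i j hij h => ?_, fun i j _ h => ?_⟩
  · have := xs_pos 0 i t ht
    show ((1 + t * (((i : ℕ) + 0 : ℕ) : ℝ) : ℝ) : ℂ) ≠ 0
    exact Complex.ofReal_ne_zero.mpr this.ne'
  · exact hij (Fin.ext (xs_inj 0 t ht h))
  · have := HL.HomogAux.ne_of_pos q hq _ _ (xs_pos 0 i t ht) (xs_pos 0 j t ht)
    apply this
    unfold xs at h
    rw [h, sub_self]

theorem divide (a b c d e f U V s : ℂ) (h : a * b - s * c * d = 3 * e * f) :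
    a / (V * V) * (b / (U * U)) - s * (c / (U * U) * (d / (V * V)))
      = 3 * (e / (U * U) * (f / (V * V))) := by
  simp only [div_eq_mul_inv]
  linear_combination ((V * V)⁻¹ * (U * U)⁻¹) * h

theorem assemble (K0 K1 R s A B C D E' F' r1 r2 r3 r4 : ℂ) (q : ℂ)
    (p1 : r1 * r2 = (1 - q) * R) (p2 : r3 * r4 = R) (h3 : (1 - q) * (1 - q ^ 2) = 3)
    (key : K1 * r1 * A * (K0 * r2 * B) - s * (K0 * r2 * C * (K1 * r1 * D))
      = 3 * (K0 * r3 * E' * (K1 * r4 * F'))) :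
    (K0 * K1 * R * (1 - q)) * (A * B - s * C * D)
      = (K0 * K1 * R * (1 - q)) * ((1 - q ^ 2) * E' * F') := by
  linear_combination key - (K0 * K1 * (A * B - s * C * D)) * p1
    + 3 * K0 * K1 * E' * F' * p2 - K0 * K1 * R * E' * F' * h3

end TI

theorem t_I (hIH : S_IH) (hHL : S_HL) : S_I := by
  intro q hq N l ω hω
  have hq0 : q ≠ 0 := by
    rintro rfl
    norm_num at hq
  have hq3 : q ^ 3 = 1 := by linear_combination (q - 1) * hq
  have hq1 : q ^ 2 ≠ 1 := by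
    intro h
    have h2 : q = -2 := by linear_combination hq - h
    rw [h2] at h
    norm_num at h
  have hq1' : (1 : ℂ) - q ≠ 0 := by
    intro h
    apply hq1
    have h2 : q = 1 := by linear_combination -h
    rw [h2]; norm_num
  have hv : (-q ^ 2) ^ (l + 1) ≠ 0 := pow_ne_zero _ (neg_ne_zero.mpr (pow_ne_zero _ hq0))
  set w : ℂ := ω / (-q ^ 2) ^ (l + 1) with hw
  have hw0 : w ≠ 0 := div_ne_zero hω hv
  have hwv : w * (-q ^ 2) ^ (l + 1) = ω := by
    rw [hw]
    exact div_mul_cancel₀ _ hv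
  set F : Filter ℝ := 𝓝[>] (0 : ℝ) with hF
  have hinj : ∀ s, ∀ᶠ t in F, Function.Injective (TI.xs s t) := fun s => by
    filter_upwards [TI.ev_pos] with t ht using TI.xs_inj s t ht
  have L := fun (w' : ℂ) (n m s : ℕ) =>
    hHL q w' hq n m F (fun t k => TI.xs s t k) (fun k => TI.xs_tend s k) (hinj s)
  -- the six limits
  have lA := L (q * w) (N + 1) (l + 1) 0
  have lB := L w N (l + 1) 1
  have lC := L (q * w) N (l + 1) 1
  have lD := L w (N + 1) (l + 1) 0
  have lE := L w N (l + 2) 1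
  have lF := L (q * w) (N + 1) l 0
  have hlhs := (lA.mul lB).sub ((lC.mul lD).const_mul (q ^ 2))
  have hrhs := (lE.mul lF).const_mul 3
  have heq : ∀ᶠ t in F,
      T q (q * w) (List.replicate (l + 1) 1) (fun i : Fin (N + 1) => TI.xs 0 t i)
          / ((Matrix.vandermonde (fun i : Fin (N + 1) => TI.xs 0 t i)).det
            * (Matrix.vandermonde (fun i : Fin (N + 1) => TI.xs 0 t i)).det)
        * (T q w (List.replicate (l + 1) 1) (fun i : Fin N => TI.xs 1 t i)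
          / ((Matrix.vandermonde (fun i : Fin N => TI.xs 1 t i)).det
            * (Matrix.vandermonde (fun i : Fin N => TI.xs 1 t i)).det))
      - q ^ 2 * (T q (q * w) (List.replicate (l + 1) 1) (fun i : Fin N => TI.xs 1 t i)
          / ((Matrix.vandermonde (fun i : Fin N => TI.xs 1 t i)).det
            * (Matrix.vandermonde (fun i : Fin N => TI.xs 1 t i)).det)
        * (T q w (List.replicate (l + 1) 1) (fun i : Fin (N + 1) => TI.xs 0 t i)
          / ((Matrix.vandermonde (fun i : Fin (N + 1) => TI.xs 0 t i)).det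
            * (Matrix.vandermonde (fun i : Fin (N + 1) => TI.xs 0 t i)).det)))
      = 3 * (T q w (List.replicate (l + 2) 1) (fun i : Fin N => TI.xs 1 t i)
          / ((Matrix.vandermonde (fun i : Fin N => TI.xs 1 t i)).det
            * (Matrix.vandermonde (fun i : Fin N => TI.xs 1 t i)).det)
        * (T q (q * w) (List.replicate l 1) (fun i : Fin (N + 1) => TI.xs 0 t i)
          / ((Matrix.vandermonde (fun i : Fin (N + 1) => TI.xs 0 t i)).det
            * (Matrix.vandermonde (fun i : Fin (N + 1) => TI.xs 0 t i)).det))) := by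
    filter_upwards [TI.ev_pos] with t ht
    have hg := TI.gen q hq N t ht
    rw [← TI.cons_eq] at hg
    have h := hIH q w hq hw0 (List.replicate l 1) N 1 (fun i : Fin N => TI.xs 1 t i) hg
      (fun a ha => by
        rw [List.eq_of_mem_replicate ha, mul_one]
        exact hq1.symm)
    rw [TI.cons_eq] at h
    simp only [← List.replicate_succ, mul_one] at h
    exact TI.divide _ _ _ _ _ _ _ _ _ h
  have key := tendsto_nhds_unique (hlhs.congr' heq) hrhs
  have e1 : q * w * (-q ^ 2) ^ (l + 1) = q * ω := by rw [mul_assoc, hwv]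
  have e2 : w * (-q ^ 2) ^ (l + 2) = -q ^ 2 * ω := by
    rw [pow_succ, ← mul_assoc, hwv]; ring
  have e3 : q * w * (-q ^ 2) ^ l = -q ^ 2 * ω := by
    have h1 : -q ^ 2 * (q * w * (-q ^ 2) ^ l) = -q ^ 2 * (-q ^ 2 * ω) := by
      have h2 : -q ^ 2 * (q * w * (-q ^ 2) ^ l) = q * (w * (-q ^ 2) ^ (l + 1)) := by
        rw [pow_succ]; ring
      rw [h2, hwv]
      linear_combination (-(q * ω)) * hq3
    exact mul_left_cancel₀ (neg_ne_zero.mpr (pow_ne_zero _ hq0)) h1
  rw [e1, e2, e3, hwv] at key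
  set K1 : ℂ := (q / (1 - q ^ 2)) ^ (N + 1) * (1 / 3) ^ ((N + 1) * (N + 1 - 1) / 2) with hK1
  set K0 : ℂ := (q / (1 - q ^ 2)) ^ N * (1 / 3) ^ (N * (N - 1) / 2) with hK0
  have hq2' : (1 : ℂ) - q ^ 2 ≠ 0 := sub_ne_zero.mpr hq1.symm
  have hK1' : K1 ≠ 0 := mul_ne_zero (pow_ne_zero _ (div_ne_zero hq0 hq2'))
    (pow_ne_zero _ (by norm_num))
  have hK0' : K0 ≠ 0 := mul_ne_zero (pow_ne_zero _ (div_ne_zero hq0 hq2'))
    (pow_ne_zero _ (by norm_num))
  have p1 : (1 - q) ^ ((l + 1) * (N + 1)) * (1 - q) ^ ((l + 1) * N) =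
      (1 - q) * (1 - q) ^ ((l + 2) * N + l * (N + 1)) := by
    rw [← pow_add, ← pow_succ']
    congr 1
    ring
  have p2 : (1 - q) ^ ((l + 2) * N) * (1 - q) ^ (l * (N + 1)) =
      (1 - q) ^ ((l + 2) * N + l * (N + 1)) := by
    rw [← pow_add]
  have hR : (1 - q) ^ ((l + 2) * N + l * (N + 1)) ≠ 0 := pow_ne_zero _ hq1'
  set R : ℂ := (1 - q) ^ ((l + 2) * N + l * (N + 1)) with hRdef
  have h3 : (1 - q) * (1 - q ^ 2) = 3 := by linear_combination (q - 2) * hq
  have hfin : (K0 * K1 * R * (1 - q)) * (Dl (N + 1) (l + 1) (q * ω) * Dl N (l + 1) ω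
      - q ^ 2 * Dl N (l + 1) (q * ω) * Dl (N + 1) (l + 1) ω)
      = (K0 * K1 * R * (1 - q)) * ((1 - q ^ 2) * Dl N (l + 2) (-q ^ 2 * ω)
        * Dl (N + 1) l (-q ^ 2 * ω)) := by
    exact TI.assemble K0 K1 R (q ^ 2) _ _ _ _ _ _ _ _ _ _ q p1 p2 h3 key
  exact mul_left_cancel₀ (mul_ne_zero (mul_ne_zero (mul_ne_zero hK0' hK1') hR) hq1') hfin

end Pool.Agent.H160R2.ML
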