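import Pool.Agent.H160R2.ML.Stm
import Pool.Agent.H863R2.Cyl.DetP

/-!
# RM: the residue relation for the leg `q² y`
-/

set_option autoImplicit false

namespace Pool.Agent.H160R2.ML
open Pool.Agent.H863R2.Cyl

namespace TRM

open Pool.Agent.H863R2.Cyl.DetPAux

theorem phi_id {q y a b : ℂ} (hq3 : q ^ 3 = 1) (h1 : q ^ 2 * a - q * b ≠ 0)
    (h3 : q ^ 2 * a - q * y ≠ 0) (h5 : y - q * b ≠ 0) :
    (q ^ 2 * y - q * b) / (q ^ 2 * a - q * b) - (q ^ 2 - q) * y / (q ^ 2 * a - q * y) =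
      (y - a) / (q * (y - q * a)) * ((y - b) / (y - q * b)) *
        ((y - q * b) / (q ^ 2 * a - q * b)) := by
  have e1 : q * (y - q * a) = -(q ^ 2 * a - q * y) := by ring
  rw [e1, mul_assoc, div_mul_div_cancel₀ h5, div_sub_div _ _ h1 h3, div_neg, neg_mul,
    div_mul_div_comm, ← neg_div, mul_comm (q ^ 2 * a - q * y) (q ^ 2 * a - q * b)]
  congr 1
  linear_combination (-(y - a) * (y - b)) * hq3

theorem psi_id {q y a b : ℂ} (hq3 : q ^ 3 = 1) (hq0 : q ≠ 0) (h2 : q ^ 2 * b - q * a ≠ 0)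
    (h3 : q ^ 2 * a - q * y ≠ 0) (h5 : y - q * b ≠ 0) :
    (q ^ 2 * y - q ^ 2 * b) / (q ^ 2 * b - q * a) -
      (q ^ 2 - q) * y / (q ^ 2 * a - q * y) *
        ((q ^ 2 * y - q ^ 2 * b) / (q ^ 2 * b - q * y)) =
      (y - a) / (q * (y - q * a)) * ((y - b) / (y - q * b)) *
        ((y - q ^ 2 * b) / (q ^ 2 * b - q * a)) := by
  have e1 : q * (y - q * a) = -(q ^ 2 * a - q * y) := by ring
  have e2 : q ^ 2 * b - q * y = -(q * (y - q * b)) := by ring
  have h6 : q * (y - q * b) ≠ 0 := mul_ne_zero hq0 h5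
  rw [e1, e2, div_neg, div_neg, mul_neg, sub_neg_eq_add, neg_mul, neg_mul]
  rw [div_mul_div_comm, div_add_div _ _ h2 (mul_ne_zero h3 h6), div_mul_div_comm, div_mul_div_comm,
    ← neg_div, div_eq_div_iff (mul_ne_zero h2 (mul_ne_zero h3 h6))
      (mul_ne_zero (mul_ne_zero h3 h5) h2)]
  linear_combination (-q * (y - a) * (y - b) * (y - q ^ 2 * b) * ((q ^ 2 * a - q * y) *
    (y - q * b) * (q ^ 2 * b - q * a))) * hq3

theorem lg_cons (c : ℂ) (C : List ℂ) (s u : ℂ) : lg (c :: C) s u = (c - s * u) * lg C s u := by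
  unfold lg
  rw [List.map_cons, List.prod_cons]

theorem rs_id {q a d : ℂ} (hq : q ≠ 0) (hd : d ≠ 0) :
    a / (q * d) * (a / d) * (q * d ^ 2) = a ^ 2 := by
  field_simp

end TRM

open TRM Pool.Agent.H863R2.Cyl.DetPAux in
theorem t_RM : S_RM := by
  intro q w hq C N y z hz
  have hq3 : q ^ 3 = 1 := q3 hq
  have hq0 : q ≠ 0 := q_ne hq
  have hqq : q ^ 2 - q ≠ 0 := qq_ne hq
  have hy : y ≠ 0 := hz.1 0
  have hzz : Gen q z := by
    refine ⟨fun i => ?_, fun i j hij => ?_, fun i j hij => ?_⟩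
    · exact hz.1 i.succ
    · exact hz.2.1 i.succ j.succ (fun h => hij (Fin.succ_injective _ h))
    · exact hz.2.2 i.succ j.succ (fun h => hij (Fin.succ_injective _ h))
  have d1 : ∀ i j, q ^ 2 * z i - q * z j ≠ 0 := fun i j => lv_ne hq hzz i j
  have d2 : ∀ j, q ^ 2 * y - q * z j ≠ 0 := fun j => (lv_cons hq hz j).1
  have d3 : ∀ j, q ^ 2 * z j - q * y ≠ 0 := fun j => (lv_cons hq hz j).2
  have d4 : ∀ j, y - q * z j ≠ 0 := by
    intro j h
    apply d3 j
    have : q ^ 2 * z j - q * y = -(q * (y - q * z j)) := by ring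
    rw [this, h, mul_zero, neg_zero]
  -- the reduced matrix
  set M : Matrix (Fin (N + 1)) (Fin (N + 1)) ℂ := Matrix.of fun i j : Fin (N + 1) =>
    lg ((q ^ 2 * y) :: C) q ((Fin.cons y z : Fin (N + 1) → ℂ) j) /
        (q ^ 2 * (Fin.cons y z : Fin (N + 1) → ℂ) i - q * (Fin.cons y z : Fin (N + 1) → ℂ) j)
    + w * lg ((q ^ 2 * y) :: C) (q ^ 2) ((Fin.cons y z : Fin (N + 1) → ℂ) j) /
        (q ^ 2 * (Fin.cons y z : Fin (N + 1) → ℂ) j - q * (Fin.cons y z : Fin (N + 1) → ℂ) i)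
    with hM
  set K : Matrix (Fin N) (Fin N) ℂ := Matrix.of fun i j : Fin N =>
    lg (y :: C) q (z j) / (q ^ 2 * z i - q * z j)
    + w * lg (y :: C) (q ^ 2) (z j) / (q ^ 2 * z j - q * z i) with hK
  have hT1 : T q w ((q ^ 2 * y) :: C) (Fin.cons y z : Fin (N + 1) → ℂ) = M.det := rfl
  have hT2 : T q w (y :: C) z = K.det := rfl
  set R : Fin N → ℂ := fun i => (y - z i) / (q * (y - q * z i)) with hR
  set S : Fin N → ℂ := fun j => (y - z j) / (y - q * z j) with hS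
  set b : Fin N → ℂ := fun j => M 0 j.succ with hb
  have hM00 : M 0 0 = lg C q y := by
    rw [hM, Matrix.of_apply, Fin.cons_zero, lg_cons, lg_cons, sub_self, zero_mul, mul_zero,
      zero_div, add_zero]
    have h1 : q ^ 2 * y - q * y ≠ 0 := by
      rw [← sub_mul]; exact mul_ne_zero hqq hy
    exact mul_div_cancel_left₀ _ h1
  have hMi0 : ∀ i : Fin N, M i.succ 0 = (q ^ 2 - q) * y / (q ^ 2 * z i - q * y) * lg C q y := by
    intro i
    rw [hM, Matrix.of_apply, Fin.cons_zero, Fin.cons_succ, lg_cons, lg_cons, sub_self, zero_mul,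
      mul_zero, zero_div, add_zero]
    ring
  have hMij : ∀ i j : Fin N, M i.succ j.succ - (q ^ 2 - q) * y / (q ^ 2 * z i - q * y) *
      M 0 j.succ = R i * (S j * K i j) := by
    intro i j
    have p1 := phi_id (b := z j) hq3 (d1 i j) (d3 i) (d4 j)
    have p2 := psi_id (a := z i) hq3 hq0 (d1 j i) (d3 i) (d4 j)
    rw [hM, hK, Matrix.of_apply, Matrix.of_apply, Matrix.of_apply, Fin.cons_zero, Fin.cons_succ,
      Fin.cons_succ, lg_cons, lg_cons, lg_cons, lg_cons, hR, hS]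
    have p3 : (q ^ 2 * y - q * z j) * lg C q (z j) / (q ^ 2 * y - q * z j) = lg C q (z j) :=
      mul_div_cancel_left₀ _ (d2 j)
    rw [p3]
    linear_combination (lg C q (z j)) * p1 + (w * lg C (q ^ 2) (z j)) * p2
  have hred : M.det = (bd (lg C q y) b (fun _ => 0)
      (Matrix.of fun i j : Fin N => R i * (S j * K i j))).det := by
    refine Matrix.det_eq_of_forall_row_eq_smul_add_const
      (Fin.cons 0 (fun i => (q ^ 2 - q) * y / (q ^ 2 * z i - q * y))) 0 (Fin.cons_zero _ _) ?_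
    intro i j
    refine Fin.cases ?_ (fun i => ?_) i <;> refine Fin.cases ?_ (fun j => ?_) j
    · rw [bd_00, Fin.cons_zero, zero_mul, add_zero, hM00]
    · rw [bd_0s, Fin.cons_zero, zero_mul, add_zero]
    · rw [bd_s0, bd_00, Fin.cons_succ, zero_add, hMi0]
    · rw [bd_ss, bd_0s, Fin.cons_succ, Matrix.of_apply, ← hMij]
      ring
  have hfac : (Matrix.of fun i j : Fin N => R i * (S j * K i j)).det =
      (∏ i, R i) * ((∏ j, S j) * K.det) := by
    have e1 : (Matrix.of fun i j : Fin N => R i * (S j * K i j)) =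
        Matrix.of fun i j : Fin N => R i * (Matrix.of fun i j : Fin N => S j * K i j) i j := rfl
    rw [e1, Matrix.det_mul_column, Matrix.det_mul_row]
  rw [hT1, hT2, hred, bd_zero_col, hfac]
  have hprod : (∏ i, R i) * (∏ j, S j) * ∏ j, (q * (y - q * z j) ^ 2) = ∏ j, (y - z j) ^ 2 := by
    rw [← Finset.prod_mul_distrib, ← Finset.prod_mul_distrib]
    refine Finset.prod_congr rfl fun j _ => ?_
    exact rs_id hq0 (d4 j)
  calc lg C q y * ((∏ i, R i) * ((∏ j, S j) * K.det)) * ∏ j, (q * (y - q * z j) ^ 2)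
      = lg C q y * ((∏ i, R i) * (∏ j, S j) * ∏ j, (q * (y - q * z j) ^ 2)) * K.det := by ring
    _ = lg C q y * (∏ j, (y - z j) ^ 2) * K.det := by rw [hprod]

end Pool.Agent.H160R2.ML
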