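import Pool.Agent.H160R2.ML.Stm

/-!
# Task legx: exchange of two legs
-/

set_option autoImplicit false

namespace Pool.Agent.H160R2.ML
open Pool.Agent.H863R2.Cyl
open Pool.Agent.H863R2.Cyl.PairAux
open Pool.Agent.H988R2.Perc (Word PD)

namespace Tlegx

theorem prE_bs (e : ℕ → ℕ → Word → Word → ℂ) (p r : ℕ) (w' w : Word) :
    prE e p r (bs w') (bs w) = e p r w' w := by
  unfold prE bs
  rw [Finsupp.linearCombination_single, one_smul, Finsupp.linearCombination_single, one_smul]

theorem prE_act {l : ℕ} {e : ℕ → ℕ → Word → Word → ℂ} (he : LSpec l e) {p r N N' i : ℕ}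
    (hl : p + r = l) (hN : N' + p = N + 2 + r) (hE : Even N) (hi : i + 2 ≤ p) (hp : p ≤ N + 2)
    {v' v : VW} (hv' : v' ∈ VN N') (hv : v ∈ VN (N + 2)) :
    prE e p r v' (lin (act i) v) = 0 := by
  have h := bilin_ext (A := (prE e p r).compl₂ (lin (act i))) (B := 0) (N' := N') (N := N + 2)
    (fun w' w h1 h2 h3 h4 => by
      have h5 : i + 2 ≤ w.length := by omega
      have h6 : (cap i w).length = N := by
        have := length_cap h5
        omega
      rw [LinearMap.compl₂_apply, lin_bs, prE_bs, act_eq h5]
      rw [he.zero p r i w' (cap i w) hl h2 (ok_cap h4 h5) (by rw [h6]; exact hE)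
        (by rw [h6]; omega) hi (by rw [h6]; exact hp)]
      rfl) hv' hv
  exact h

end Tlegx

open Tlegx

theorem t_legx : S_legx := by
  intro q l e Ψ Ψ' D u v B z x y hl hE
  have h1 := D.h.exch u (v ++ z) x y
  have e1 : (u ++ y :: x :: v) ++ z = u ++ y :: x :: (v ++ z) := by simp
  have e2 : (u ++ x :: y :: v) ++ z = u ++ x :: y :: (v ++ z) := by simp
  have l1 : (u ++ y :: x :: v).length = u.length + v.length + 2 := by
    simp only [List.length_append, List.length_cons]; omega
  have l2 : (u ++ x :: y :: v).length = u.length + v.length + 2 := by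
    simp only [List.length_append, List.length_cons]; omega
  unfold GG
  rw [l1, l2, e1, e2]
  have h2 := congrArg (prE e (u.length + v.length + 2) B.length (Ψ' (B ++ z))) h1
  rw [map_add, map_smul, map_smul, map_smul] at h2
  have hm := D.h.mem (u ++ x :: y :: (v ++ z))
  have hm' := D.h'.mem (B ++ z)
  have l3 : (u ++ x :: y :: (v ++ z)).length = (u.length + v.length + z.length) + 2 := by
    simp only [List.length_append, List.length_cons]; omega
  rw [l3] at hm
  rw [List.length_append] at hm'
  rw [prE_act D.he hl (by omega) hE (by omega) (by omega) hm' hm] at h2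
  rw [smul_zero, add_zero, smul_eq_mul, smul_eq_mul] at h2
  exact h2

end Pool.Agent.H160R2.ML
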